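import Pool.Agent.Mg.F09d684a.Ga313b4
import Pool.Agent.Mg.F09d684a.Ge05232

section

namespace Pool.Agent.MP_09d684_lc

open ZFSet

universe u v w

namespace Mdl

variable {g : Mdl.{u}}

open Cd

/-- Lipschitz reducibility to `B` or to its complement. -/
def Red (A B : g.PR) : Prop :=
  ∃ (f : Fn g g.Re g.Re) (b : Prop),
    (∀ (x x' : g.Re) n, (∀ k, k < n → x k = x' k) → ∀ k, k < n → f x k = f x' k) ∧
      ∀ x, A x ↔ (B (f x) ↔ b)

@[fun_prop] theorem tm_Red {Γ : Type*} [Cd g Γ] {A B : Γ → g.PR} (h₁ : g.Tm A) (h₂ : g.Tm B) :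
    g.Tm fun x => Red (A x) (B x) := by unfold Red; fun_prop

theorem Red.refl (A : g.PR) : Red A A :=
  ⟨⟨fun x => x, by fun_prop⟩, True, fun _ _ _ h => h, fun _ => by simp⟩

theorem Red.trans {A B C : g.PR} (h : Red A B) (h' : Red B C) : Red A C := by
  obtain ⟨f, b, h₁, h₂⟩ := h
  obtain ⟨f', b', h₃, h₄⟩ := h'
  refine ⟨⟨fun x => f' (f x), by fun_prop⟩, b ↔ b', fun x x' n h => h₃ _ _ n (h₁ x x' n h),
    fun x => ?_⟩
  rw [h₂ x, h₄ (f x)]
  show _ ↔ (C (f' (f x)) ↔ (b ↔ b'))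
  tauto

namespace WadgeAux

/-- A finite sequence continued by zeros. -/
def ext0 (g : Mdl.{u}) (l : List ℕ) : g.Re := ⟨fun k => l.getD k 0, by fun_prop⟩

@[fun_prop] theorem tm_ext0 {Γ : Type*} [Cd g Γ] {l : Γ → List ℕ} (h : g.Tm l) :
    g.Tm fun x => ext0 g (l x) := by unfold ext0; fun_prop

theorem ext0_ini (z : ℕ → ℕ) {n k : ℕ} (h : k < n) : ext0 g (ini z n) k = z k := getD_ini z 0 h

/-- The map of reals given by a function on finite sequences, with delay `1 - d`. -/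
def cf (d : ℕ) (s : Fn g (List ℕ) ℕ) (z : g.Re) : g.Re :=
  ⟨fun k => s (ini z (k + d)), by fun_prop⟩

@[fun_prop] theorem tm_cf {Γ : Type*} [Cd g Γ] (d : ℕ) {s : Γ → Fn g (List ℕ) ℕ} {z : Γ → g.Re}
    (h₁ : g.Tm s) (h₂ : g.Tm z) : g.Tm fun x => cf d (s x) (z x) := by unfold cf; fun_prop

theorem cf_ap (d : ℕ) (s : Fn g (List ℕ) ℕ) (z : g.Re) (k : ℕ) :
    cf d s z k = s (ini z (k + d)) := rfl

/-- The play in which the player of parity `e` follows `σ` and the other one plays `z`. -/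
noncomputable def play (σ : ℕ → g.Re → ℕ) (e : ℕ) (z : g.Re) : g.Re :=
  g.fix fun n q => if n % 2 = e then σ n q else z (n / 2)

theorem tm_play {σ : ℕ → g.Re → ℕ} (hσ : g.Tm fun z : ℕ × g.Re => σ z.1 z.2) (e : ℕ) :
    g.Tm (play σ e) := by unfold play; fun_prop

theorem play_eq {σ : ℕ → g.Re → ℕ} (hσ : g.Tm fun z : ℕ × g.Re => σ z.1 z.2) (hc : Causal σ)
    (e : ℕ) (z : g.Re) (n : ℕ) :
    play σ e z n = if n % 2 = e then σ n (play σ e z) else z (n / 2) := by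
  unfold play
  refine fix_eq (by fun_prop) (fun n f h hf => ?_) n
  rw [hc n f h hf]

theorem play_dep {σ : ℕ → g.Re → ℕ} (hσ : g.Tm fun z : ℕ × g.Re => σ z.1 z.2) (hc : Causal σ)
    (e : ℕ) {z z' : g.Re} {N : ℕ} (h : ∀ n < N, n % 2 ≠ e → z (n / 2) = z' (n / 2)) :
    ∀ n < N, play σ e z n = play σ e z' n := by
  intro n
  induction n using Nat.strong_induction_on with
  | _ n ih =>
    intro hn
    rw [play_eq hσ hc e z, play_eq hσ hc e z']
    split_ifs with h₁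
    · exact hc n _ _ fun k hk => ih k hk (hk.trans hn)
    · exact h n hn h₁

/-- Wadge's lemma. -/
theorem wadge (hd : g.TDet ℕ) {A B : g.PR} (h : ¬ Red A B) (b : Prop) :
    ∃ s : Fn g (List ℕ) ℕ, ∀ z, B z ↔ (A (cf 0 s z) ↔ b) := by
  obtain ⟨σ, hσ, hc, hw | hw⟩ := hd (fun p => B (⟨fun k => p (2 * k + 1), by fun_prop⟩ : g.Re) ↔
    (A (⟨fun k => p (2 * k), by fun_prop⟩ : g.Re) ↔ b)) (by fun_prop)
  · have hp := tm_play hσ 0
    refine ⟨⟨fun l => play σ 0 (ext0 g l) (2 * l.length), by fun_prop⟩, fun z => ?_⟩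
    have h₁ := hw (play σ 0 z) fun n hn => by rw [play_eq hσ hc, if_pos hn]
    have e₁ : (⟨fun k => play σ 0 z (2 * k + 1), by fun_prop⟩ : g.Re) = z := Fn.ext' fun k => by
      show play σ 0 z (2 * k + 1) = _
      rw [play_eq hσ hc, if_neg (by omega)]
      congr 1
      omega
    rw [e₁] at h₁
    refine h₁.trans (iff_congr (iff_of_eq (congrArg _ (Fn.ext' fun k => ?_))) Iff.rfl)
    show play σ 0 z (2 * k) = play σ 0 (ext0 g (ini z (k + 0))) (2 * (ini z (k + 0)).length)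
    rw [length_ini]
    exact play_dep hσ hc 0 (N := 2 * k + 1) (fun n hn h₂ => (ext0_ini z (by omega)).symm) _
      (by omega)
  · have hp := tm_play hσ 1
    refine absurd ⟨⟨fun x => ⟨fun k => play σ 1 x (2 * k + 1), by fun_prop⟩, by fun_prop⟩, ¬ b,
      fun x x' n hx k hk => ?_, fun x => ?_⟩ h
    · exact play_dep hσ hc 1 (N := 2 * n) (fun m hm _ => hx _ (by omega)) _ (by omega)
    · have h₁ := hw (play σ 1 x) fun n hn => by rw [play_eq hσ hc, if_pos hn]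
      have e : (⟨fun k => play σ 1 x (2 * k), by fun_prop⟩ : g.Re) = x := Fn.ext' fun k => by
        show play σ 1 x (2 * k) = _
        rw [play_eq hσ hc, if_neg (by omega)]
        congr 1
        omega
      rw [e] at h₁
      show _ ↔ (B (⟨fun k => play σ 1 x (2 * k + 1), _⟩ : g.Re) ↔ ¬ b)
      tauto

theorem red_of_not (hd : g.TDet ℕ) {A B : g.PR} (h : ¬ Red A B) : Red B A := by
  obtain ⟨s, hs⟩ := wadge hd h True
  refine ⟨⟨fun z => cf 0 s z, by fun_prop⟩, True, fun x x' n hx k hk => ?_, hs⟩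
  show s (ini x (k + 0)) = s (ini x' (k + 0))
  rw [ini_eq_iff.2 fun j hj => hx j (by omega)]

/-! ### There is no flip set -/

/-- Sums of the first gaps. -/
def ps (x : g.Re) (k : ℕ) : ℕ := (ini x k).foldl (fun c a => c + a + 1) 0

@[fun_prop] theorem tm_ps {Γ : Type*} [Cd g Γ] {x : Γ → g.Re} {k : Γ → ℕ} (h₁ : g.Tm x)
    (h₂ : g.Tm k) : g.Tm fun a => ps (x a) (k a) := by unfold ps; fun_prop

theorem ps_succ (x : g.Re) (k : ℕ) : ps x (k + 1) = ps x k + x k + 1 := by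
  simp [ps, ini_succ, List.foldl_append]

theorem ps_inj (x : g.Re) : Function.Injective (ps x) :=
  (strictMono_nat_of_lt_succ fun k => by rw [ps_succ]; omega).injective

/-- Merging the gaps number `m` and `m + 1`. -/
def mrg (m : ℕ) (x : g.Re) : g.Re :=
  ⟨fun k => if k < m then x k else if k = m then x m + x (m + 1) + 1 else x (k + 1), by fun_prop⟩

@[fun_prop] theorem tm_mrg {Γ : Type*} [Cd g Γ] (m : ℕ) {x : Γ → g.Re} (h : g.Tm x) :
    g.Tm fun a => mrg m (x a) := by unfold mrg; fun_prop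

theorem mrg_ap (m : ℕ) (x : g.Re) (k : ℕ) :
    mrg m x k = if k < m then x k else if k = m then x m + x (m + 1) + 1 else x (k + 1) := rfl

theorem ps_mrg (m : ℕ) (x : g.Re) (k : ℕ) :
    ps (mrg m x) k = if k ≤ m then ps x k else ps x (k + 1) := by
  induction k with
  | zero => rfl
  | succ k ih =>
    rw [ps_succ, ih, mrg_ap]
    rcases lt_trichotomy k m with h | rfl | h
    · rw [if_pos h.le, if_pos h, if_pos (by omega), ps_succ]
    · rw [if_pos le_rfl, if_neg (lt_irrefl _), if_pos rfl, if_neg (by omega), ps_succ, ps_succ]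
      omega
    · rw [if_neg (by omega), if_neg (by omega), if_neg (by omega), if_neg (by omega),
        ps_succ x (k + 1)]

/-- The set with the given gaps. -/
def st (x : g.Re) : Fn g ℕ Prop := ⟨fun n => ∃ k, ps x (k + 1) = n, by fun_prop⟩

@[fun_prop] theorem tm_st {Γ : Type*} [Cd g Γ] {x : Γ → g.Re} (h : g.Tm x) :
    g.Tm fun a => st (x a) := by unfold st; fun_prop

theorem st_mrg (m : ℕ) (x : g.Re) (n : ℕ) : st (mrg m x) n ↔ st x n ∧ n ≠ ps x (m + 1) := by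
  show (∃ k, ps (mrg m x) (k + 1) = n) ↔ (∃ k, ps x (k + 1) = n) ∧ _
  constructor
  · rintro ⟨k, rfl⟩
    rw [ps_mrg]
    split_ifs with h
    · exact ⟨⟨k, rfl⟩, fun e => by have := ps_inj x e; omega⟩
    · exact ⟨⟨k + 1, rfl⟩, fun e => by have := ps_inj x e; omega⟩
  · rintro ⟨⟨k, rfl⟩, h⟩
    rcases lt_trichotomy k m with h₁ | rfl | h₁
    · exact ⟨k, by rw [ps_mrg, if_pos (by omega)]⟩
    · exact absurd rfl h
    · obtain ⟨k, rfl⟩ : ∃ j, k = j + 1 := ⟨k - 1, by omega⟩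
      exact ⟨k, by rw [ps_mrg, if_neg (by omega)]⟩

theorem two_plays {σ : ℕ → g.Re → ℕ} (hσ : g.Tm fun z : ℕ × g.Re => σ z.1 z.2) (hc : Causal σ)
    {m e : ℕ} (hme : m + e = 1) : ∃ x : g.Re, (∀ n, n % 2 = e → x n = σ n x) ∧
      ∀ n, n % 2 = e → mrg m x n = σ n (mrg m x) := by
  let Ψ : ℕ → g.Re → ℕ := fun n q =>
    if n % 2 = e then σ n q else if n = m then 0 else σ (n - 1) (mrg m q)
  have hx : ∀ n, g.fix Ψ n = Ψ n (g.fix Ψ) := by
    refine fix_eq (by fun_prop) fun n f h hf => ?_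
    simp only [Ψ]
    rw [hc n f h hf, hc (n - 1) (mrg m f) (mrg m h) fun k hk => ?_]
    rw [mrg_ap, mrg_ap]
    split_ifs with h₁ h₂
    · exact hf k (by omega)
    · rw [hf m (by omega), hf (m + 1) (by omega)]
    · exact hf _ (by omega)
  refine ⟨g.fix Ψ, fun n hn => ?_, fun n hn => ?_⟩
  · rw [hx]
    simp only [Ψ]
    rw [if_pos hn]
  · rw [mrg_ap]
    split_ifs with h₁ h₂
    · rw [hx]
      simp only [Ψ]
      rw [if_pos hn]
      exact hc n _ _ fun k hk => by omega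
    · omega
    · rw [hx]
      simp only [Ψ]
      rw [if_neg (by omega), if_neg (by omega), Nat.add_sub_cancel]

theorem no_flip (hd : g.TDet ℕ) {T : Fn g ℕ Prop → Prop} (hT : g.Tm T)
    (h : ∀ (w w' : Fn g ℕ Prop) m, (∀ n, n ≠ m → (w n ↔ w' n)) → w m → ¬ w' m →
      (T w ↔ ¬ T w')) : False := by
  have key : ∀ m (x : g.Re), T (st x) ↔ ¬ T (st (mrg m x)) := fun m x =>
    h _ _ (ps x (m + 1)) (fun n hn => by rw [st_mrg]; tauto) ⟨m, rfl⟩
      (by rw [st_mrg]; tauto)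
  obtain ⟨σ, hσ, hc, hw | hw⟩ := hd (fun x => T (st x)) (by fun_prop)
  · obtain ⟨x, h₁, h₂⟩ := two_plays hσ hc (m := 1) (e := 0) rfl
    exact (key 1 x).1 (hw x h₁) (hw _ h₂)
  · obtain ⟨x, h₁, h₂⟩ := two_plays hσ hc (m := 0) (e := 1) rfl
    exact hw x h₁ ((key 0 x).2 (hw _ h₂))

/-! ### The Martin-Monk diagram -/

/-- The columns of the diagram. -/
noncomputable def dia (t : Fn g ℕ (Fn g (Prop × List ℕ) ℕ)) (w : Fn g ℕ Prop) : Fn g ℕ g.Re :=
  g.fix fun k F => ⟨fun n => t n (w n, ini (fun j => F j (n + 1)) k), by fun_prop⟩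

theorem tm_dia (t : Fn g ℕ (Fn g (Prop × List ℕ) ℕ)) : g.Tm (dia t) := by
  unfold dia; fun_prop

theorem dia_eq (t : Fn g ℕ (Fn g (Prop × List ℕ) ℕ)) (w : Fn g ℕ Prop) (k n : ℕ) :
    dia t w k n = t n (w n, ini (fun j => dia t w j (n + 1)) k) := by
  unfold dia
  rw [fix_eq (by fun_prop) fun k f h hf => Fn.ext' fun n => ?_]
  show t n (w n, ini (fun j => f j (n + 1)) k) = t n (w n, ini (fun j => h j (n + 1)) k)
  rw [ini_eq_iff.2 fun j hj => by rw [hf j hj]]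

theorem dia_tail (t : Fn g ℕ (Fn g (Prop × List ℕ) ℕ)) {w w' : Fn g ℕ Prop} {m : ℕ}
    (h : ∀ n, m < n → (w n ↔ w' n)) (k : ℕ) : ∀ n, m < n → dia t w k n = dia t w' k n := by
  induction k using Nat.strong_induction_on with
  | _ k ih =>
    intro n hn
    rw [dia_eq t w, dia_eq t w', propext (h n hn),
      ini_eq_iff.2 fun j hj => ih j hj (n + 1) (by omega)]

theorem no_descent (hd : g.TDet ℕ) (A : ℕ → g.PR) (t : Fn g ℕ (Fn g (Prop × List ℕ) ℕ))
    (h : ∀ n (b : Prop) (z : g.Re), A (n + 1) z ↔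
      (A n (⟨fun k => t n (b, ini z k), by fun_prop⟩ : g.Re) ↔ b)) : False := by
  have hD := tm_dia t
  let row : Fn g ℕ Prop → ℕ → g.Re := fun w n => ⟨fun k => dia t w k n, by fun_prop⟩
  have h₁ : ∀ w n, A (n + 1) (row w (n + 1)) ↔ (A n (row w n) ↔ w n) := fun w n => by
    rw [h n (w n)]
    have e : row w n = ⟨fun k => t n (w n, ini (row w (n + 1)) k), by fun_prop⟩ :=
      Fn.ext' fun k => dia_eq t w k n
    rw [← e]
  refine no_flip hd (T := fun w => A 0 (row w 0)) (by fun_prop) fun w w' m h₂ h₃ h₄ => ?_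
  have h₅ : row w (m + 1) = row w' (m + 1) :=
    Fn.ext' fun k => dia_tail t (m := m) (fun n hn => h₂ n (by omega)) k _ (by omega)
  have h₆ : ∀ i n, n + i = m → (A n (row w n) ↔ ¬ A n (row w' n)) := by
    intro i
    induction i with
    | zero =>
      intro n hn
      obtain rfl : n = m := hn
      have e₁ := h₁ w n
      have e₂ := h₁ w' n
      rw [h₅] at e₁
      tauto
    | succ i ih =>
      intro n hn
      have e₁ := h₁ w n
      have e₂ := h₁ w' n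
      have e₃ := ih (n + 1) (by omega)
      have e₄ := h₂ n (by omega)
      tauto
  exact h₆ m 0 (by omega)

end WadgeAux

open WadgeAux

theorem red_code : ∃ dc : g.PR → g.Re → g.PR, g.Tm (fun z : g.PR × g.Re => dc z.1 z.2) ∧
    ∀ A B, Red A B → ∃ x, dc B x = A := by
  let e : g.Re → Fn g (List ℕ) ℕ × Prop := RL.dec
  refine ⟨fun B x => ⟨fun z => B (cf 1 (e x).1 z) ↔ (e x).2, by fun_prop⟩, by fun_prop, ?_⟩
  rintro A B ⟨f, b, h₁, h₂⟩
  let s : Fn g (List ℕ) ℕ := ⟨fun l => f (ext0 g l) (l.length - 1), by fun_prop⟩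
  refine ⟨RL.enc (s, b), Fn.ext' fun z => ?_⟩
  have e₁ : cf 1 s z = f z := Fn.ext' fun k => by
    show f (ext0 g (ini z (k + 1))) ((ini z (k + 1)).length - 1) = _
    rw [length_ini, Nat.add_sub_cancel]
    exact h₁ _ _ (k + 1) (fun j hj => ext0_ini z hj) k (by omega)
  show (B (cf 1 (e (RL.enc (s, b))).1 z) ↔ (e (RL.enc (s, b))).2) = A z
  simp only [e, RL.dec_enc]
  rw [e₁, h₂ z]

/-- Wadge's lemma and the Martin-Monk theorem. -/
theorem wadge_min (hd : g.TDet ℕ) (hc : g.TDC) {P : g.PR → Prop} (hP : g.Tm P) (h : ∃ A, P A) :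
    ∃ A, P A ∧ ∀ B, P B → Red A B := by
  classical
  by_contra hn
  push Not at hn
  obtain ⟨A₀, h₀⟩ := h
  obtain ⟨dc, hdc, hcode⟩ := red_code (g := g)
  obtain ⟨x₀, hx₀⟩ := hcode A₀ A₀ (Red.refl A₀)
  obtain ⟨f, -, hf⟩ := hc.dc (α := g.Re × Fn g (Prop × List ℕ) ℕ)
    (S := fun a => P (dc A₀ a.1) ∧ Red (dc A₀ a.1) A₀) (by fun_prop)
    (Q := fun a a' => ∀ (b : Prop) (z : g.Re), dc A₀ a'.1 z ↔
      (dc A₀ a.1 (⟨fun k => a'.2 (b, ini z k), by fun_prop⟩ : g.Re) ↔ b)) (by fun_prop)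
    (fun a ha => by
      obtain ⟨B, h₁, h₂⟩ := hn _ ha.1
      have h₃ := (red_of_not hd h₂).trans ha.2
      obtain ⟨x, rfl⟩ := hcode _ _ h₃
      obtain ⟨s₀, h₄⟩ := wadge hd h₂ False
      obtain ⟨s₁, h₅⟩ := wadge hd h₂ True
      refine ⟨(x, ⟨fun z => if z.1 then s₁ z.2 else s₀ z.2, by fun_prop⟩), ⟨h₁, h₃⟩,
        fun b z => ?_⟩
      by_cases hb : b
      · obtain rfl := eq_true hb
        refine (h₅ z).trans (iff_congr (iff_of_eq (congrArg _ (Fn.ext' fun k => ?_))) Iff.rfl)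
        simp [cf_ap]
      · obtain rfl := eq_false hb
        refine (h₄ z).trans (iff_congr (iff_of_eq (congrArg _ (Fn.ext' fun k => ?_))) Iff.rfl)
        simp [cf_ap])
    (a₀ := (x₀, default)) (by rw [hx₀]; exact ⟨h₀, Red.refl A₀⟩)
  exact no_descent hd (fun n => dc A₀ (f n).1) ⟨fun n => (f (n + 1)).2, by fun_prop⟩
    fun n => (hf n).2

end Mdl

end Pool.Agent.MP_09d684_lc

end

section

namespace Pool.Agent.MP_09d684_lc

open ZFSet

universe u v w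

namespace Mdl

variable {g : Mdl.{u}}

open Cd

theorem Below.refl' {s : St} {R : g.Rs} {y : g.Yy} (h : Cube s R y) : Below s y y :=
  ⟨h.1, h.2.1, Sub.refl y⟩

theorem Below.trans' {s : St} {y y' y'' : g.Yy} (h : Below s y'' y') (h' : Below s y' y) :
    Below s y'' y := ⟨h.1, h.2.1, h.2.2.trans h'.2.2⟩

/-- Well-ordered families of open, fusion-dense sets have a common element. -/
theorem ep (hc : g.TDC) (hu : g.LU) {I : Type*} [Cd g I] [WO g I] [Inhabited I]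
    {D : I → g.Yy → Prop} (hD : g.Tm fun z : I × g.Yy => D z.1 z.2) {s : St} {R : g.Rs}
    (hne : NE (s, R)) (ho : ∀ i y y', Cube s R y → D i y → Below s y' y → D i y')
    (hd : ∀ i y, Cube s R y → ∀ k, s.length ≤ k → ∃ y', Below (ini y k) y' y ∧ D i y') :
    ∃ y, Cube s R y ∧ ∀ i, D i y := by
  by_contra hcon
  have hno : ∀ y, Cube s R y → ∃ i, ¬ D i y := fun y hy => by
    by_contra h
    exact hcon ⟨y, hy, fun i => by_contra fun h' => h ⟨i, h'⟩⟩
  obtain ⟨f, hf⟩ := chain hc hu (Q := fun y y' => Cube s R y' ∧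
      ∀ i, ¬ WO.lt g (g.least fun j => ¬ D j y) i → D i y') (by fun_prop) hne
    (fun y y' y'' h h' => ⟨sub_cube h.1 h', fun i hi => ho i _ _ h.1 (h.2 i hi) h'⟩)
    (fun y hy k hk => by
      obtain ⟨y', h₁, h₂⟩ := hd (g.least fun j => ¬ D j y) y hy k hk
      have h₃ := h₁.mono hk hy.1
      refine ⟨y', h₁, sub_cube hy h₃, fun i hi => ?_⟩
      rcases WO.tri (g := g) i (g.least fun j => ¬ D j y) with e | rfl | e
      · exact ho i _ _ hy (by_contra fun h => least_min (P := fun j => ¬ D j y) h e) h₃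
      · exact h₂
      · exact absurd e hi)
  obtain ⟨_, ⟨i, rfl⟩, hi⟩ := (WO.wf (g := g) (α := I)).has_min
    (Set.range fun i => g.least fun j => ¬ D j (f i)) (Set.range_nonempty _)
  exact least_spec (hno _ (hf i).1) ((hf i).2.2 _ (hi _ ⟨i + 1, rfl⟩))

theorem null_dense (hc : g.TDC) (hu : g.LU) {X : g.Yy → Prop} (hX : g.Tm X) {s : St} {R : g.Rs}
    (h : ∀ c', CLe c' (s, R) → ∃ y, Cube c'.1 c'.2 y ∧ ¬ X y) {y : g.Yy} (hy : Cube s R y)
    {k : ℕ} (hk : s.length ≤ k) :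
    ∃ y', Below (ini y k) y' y ∧ ∀ y'', Below s y'' y' → ¬ X y'' := by
  obtain ⟨y', H, h₁, h₂⟩ := fdense hc (D := fun _ c => (∀ y, Cube c.1 c.2 y → ¬ X y) ∨
      ∀ y, Cube c.1 c.2 y → ¬ Cube s R y) (by fun_prop)
    (fun _ c ⟨y₀, h₀⟩ => by
      have e₁ := cle_ini (n := max s.length c.1.length) h₀ (le_max_right _ _)
      obtain ⟨c₂, e₂, e₃ | e₃⟩ := hu.ram (X := Cube s R) (by fun_prop) e₁.1
      · have e₄ : CLe c₂ (s, R) := ⟨e₂.1, by
          have := e₂.2.1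
          simp only [length_ini] at this
          exact (le_max_left _ _).trans this, e₃⟩
        obtain ⟨c₃, e₅, e₆ | e₆⟩ := hu.ram hX e₂.1
        · obtain ⟨z, hz, hz'⟩ := h c₃ (e₅.trans e₄)
          exact absurd (e₆ z hz) hz'
        · exact ⟨c₃, e₅.trans (e₂.trans e₁), Or.inl e₆⟩
      · exact ⟨c₂, e₂.trans e₁, Or.inr e₃⟩)
    (fun _ c c' h h' => h.imp (fun e y hy => e y (h'.2.2 y hy)) fun e y hy => e y (h'.2.2 y hy))
    hy.2.1 k
  refine ⟨y', h₁, fun y'' h₃ => ?_⟩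
  obtain ⟨n, hn⟩ := h₂ y'' h₃.2.1 h₃.2.2 0
  rcases hn n le_rfl with ⟨e | e, e'⟩
  · exact e _ e'
  · exact absurd (sub_cube hy (h₃.trans' (h₁.mono hk hy.1))) (e _ e')

theorem bound_dns (hc : g.TDC) (hu : g.LU) {T : Type*} [Cd g T] [Bd g T] [LinearOrder T]
    [OT g T] [Inhabited T] (hT : g.Unc T) {F : g.Yy → T} (hF : g.Tm F) :
    Dns fun c : g.Cn => ∃ b, ∀ y, Cube c.1 c.2 y → F y < b := by
  intro c hne
  by_contra hcon
  have hno : ∀ b c', CLe c' c → ∃ y, Cube c'.1 c'.2 y ∧ ¬ F y < b := fun b c' h => by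
    by_contra h'
    exact hcon ⟨c', h, b, fun y hy => by_contra fun e => h' ⟨y, hy, e⟩⟩
  obtain ⟨y, hy, h⟩ := ep hc hu (I := T) (D := fun b y => ∀ y'', Below c.1 y'' y → ¬ F y'' < b)
    (by fun_prop) (s := c.1) (R := c.2) hne (fun b y y' _ h h' y'' e => h y'' (e.trans' h'))
    (fun b y hy k hk => null_dense hc hu (X := fun y => F y < b) (by fun_prop) (hno b) hy hk)
  obtain ⟨b, hb⟩ := hT ⟨fun _ => F y, by fun_prop⟩
  exact h b y (Below.refl' hy) (hb 0)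

theorem bound_family (hc : g.TDC) (hu : g.LU) {T : Type*} [Cd g T] [Bd g T] [LinearOrder T]
    [OT g T] [Inhabited T] (hT : g.Unc T) {F : T → g.Yy → T}
    (hF : g.Tm fun z : T × g.Yy => F z.1 z.2) {s : St} {R : g.Rs} (hne : NE (s, R)) :
    ∃ y, Cube s R y ∧ ∀ a, ∃ b, ∀ y', Below s y' y → F a y' < b := by
  refine ep hc hu (I := T) (D := fun a y => ∃ b, ∀ y', Below s y' y → F a y' < b) (by fun_prop) hne
    (fun a y y' _ ⟨b, h⟩ h' => ⟨b, fun y'' e => h y'' (e.trans' h')⟩) fun a y hy k _ => ?_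
  obtain ⟨y', H, h₁, h₂⟩ := fdense hc (D := fun _ c => ∃ b, ∀ y, Cube c.1 c.2 y → F a y < b)
    (by fun_prop) (fun _ => bound_dns hc hu hT (by fun_prop))
    (fun _ c c' ⟨b, h⟩ h' => ⟨b, fun y hy => h y (h'.2.2 y hy)⟩) hy.2.1 k
  obtain ⟨b, hb⟩ := hT ⟨fun n => g.least fun b => ∀ y, Cube (NL.dec g n) H y → F a y < b,
    by fun_prop⟩
  refine ⟨y', h₁, b, fun y'' h₃ => ?_⟩
  obtain ⟨n, hn⟩ := h₂ y'' h₃.2.1 h₃.2.2 0
  obtain ⟨e, e'⟩ := hn n le_rfl
  have := hb (NL.enc g (ini y'' n))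
  simp only [NL.dec_enc] at this
  exact (least_spec e y'' e').trans this

end Mdl

end Pool.Agent.MP_09d684_lc

end

section

namespace Pool.Agent.MP_09d684_lc

open ZFSet

universe u v w

namespace Mdl

variable {g : Mdl.{u}}

open Cd

/-- Local uniformization by sets of reals. -/
theorem wadge_unif (hd : g.TDet ℕ) (hc : g.TDC) (hu : g.LU) {P : g.Yy → g.PR → Prop}
    (hP : g.Tm fun z : g.Yy × g.PR => P z.1 z.2) {c : g.Cn} (hne : NE c)
    (tot : ∀ y, Cube c.1 c.2 y → ∃ A, P y A) :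
    ∃ c', CLe c' c ∧ ∃ F : g.Yy → g.PR, g.Tm F ∧ ∀ y, Cube c'.1 c'.2 y → P y (F y) := by
  by_cases h : ∃ A c', CLe c' c ∧ ∀ y, Cube c'.1 c'.2 y → ∃ B, Red B A ∧ P y B
  · obtain ⟨A, c', h₁, h₂⟩ := h
    obtain ⟨dc, h₃, h₄⟩ := red_code (g := g)
    obtain ⟨c'', h₅, F, h₆, h₇⟩ := hu.unif (ρ := fun y (x : g.Re) => P y (dc A x)) (by fun_prop)
      h₁.1 fun y hy => by
        obtain ⟨B, e₁, e₂⟩ := h₂ y hy
        obtain ⟨x, rfl⟩ := h₄ _ _ e₁
        exact ⟨x, e₂⟩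
    exact ⟨c'', h₅.trans h₁, fun y => dc A (F y), by fun_prop, h₇⟩
  have hno : ∀ A c', CLe c' c → ∃ y, Cube c'.1 c'.2 y ∧ ¬ ∃ B, Red B A ∧ P y B :=
    fun A c' e => by
      by_contra h'
      exact h ⟨A, c', e, fun y hy => by_contra fun e' => h' ⟨y, hy, e'⟩⟩
  obtain ⟨f, hf⟩ := chain hc hu (Q := fun y y' => ∃ A, P y A ∧
      ∀ y'', Below c.1 y'' y' → ¬ ∃ B, Red B A ∧ P y'' B) (by fun_prop) (s := c.1) (R := c.2) hne
    (fun y y' y'' ⟨A, e₁, e₂⟩ h' => ⟨A, e₁, fun z hz => e₂ z (hz.trans' h')⟩)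
    (fun y hy k hk => by
      obtain ⟨A, hA⟩ := tot y hy
      obtain ⟨y', h₁, h₂⟩ := null_dense hc hu (X := fun y => ∃ B, Red B A ∧ P y B) (by fun_prop)
        (hno A) hy hk
      exact ⟨y', h₁, A, hA, h₂⟩)
  obtain ⟨A, ⟨i, hi⟩, hA⟩ := wadge_min hd hc (P := fun A => ∃ i, P (f i) A) (by fun_prop)
    ((tot _ (hf 0).1).imp fun A e => ⟨0, e⟩)
  obtain ⟨A', e₁, e₂⟩ := (hf i).2
  exact absurd ⟨A, hA A' ⟨i + 1, e₁⟩, hi⟩ (e₂ _ (Below.refl' (hf i).1))

end Mdl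

end Pool.Agent.MP_09d684_lc

end
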