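import Pool.Agent.Mg.F09d684a.Ga313b4

section

namespace Pool.Agent.MP_09d684_lc

open ZFSet

universe u v w

/-- Decoding of formulas from numbers. -/
def lpDec (n : ℕ) : Fml :=
  if n % 5 = 0 then .mem (n / 5).unpair.1 (n / 5).unpair.2
  else if n % 5 = 1 then .eq (n / 5).unpair.1 (n / 5).unpair.2
  else if _h : n % 5 = 3 then .imp (lpDec (n / 5).unpair.1) (lpDec (n / 5).unpair.2)
  else if _h' : n % 5 = 4 then .all (lpDec (n / 5))
  else .bot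
termination_by n
decreasing_by
  · have := Nat.unpair_left_le (n / 5)
    omega
  · have := Nat.unpair_right_le (n / 5)
    omega
  · omega

theorem lpDec_surj (φ : Fml) : ∃ n, lpDec n = φ := by
  induction φ with
  | mem i j =>
    refine ⟨5 * Nat.pair i j, ?_⟩
    rw [lpDec, if_pos (by omega), show 5 * Nat.pair i j / 5 = Nat.pair i j by omega,
      Nat.unpair_pair]
  | eq i j =>
    refine ⟨5 * Nat.pair i j + 1, ?_⟩
    rw [lpDec, if_neg (by omega), if_pos (by omega),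
      show (5 * Nat.pair i j + 1) / 5 = Nat.pair i j by omega, Nat.unpair_pair]
  | bot => exact ⟨2, by rw [lpDec]; simp⟩
  | imp φ ψ ih₁ ih₂ =>
    obtain ⟨i, rfl⟩ := ih₁
    obtain ⟨j, rfl⟩ := ih₂
    refine ⟨5 * Nat.pair i j + 3, ?_⟩
    rw [lpDec, if_neg (by omega), if_neg (by omega), dif_pos (by omega),
      show (5 * Nat.pair i j + 3) / 5 = Nat.pair i j by omega, Nat.unpair_pair]
  | all φ ih =>
    obtain ⟨i, rfl⟩ := ih
    refine ⟨5 * i + 4, ?_⟩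
    rw [lpDec, if_neg (by omega), if_neg (by omega), dif_neg (by omega), dif_pos (by omega),
      show (5 * i + 4) / 5 = i by omega]

theorem lp_isOrdinal_omega : IsOrdinal (omega : ZFSet.{u}) := by
  refine ⟨fun y hy z hz => ?_, fun {x y z} h₁ h₂ h₃ => ?_⟩
  · obtain ⟨n, rfl⟩ := mem_omega.1 hy
    obtain ⟨m, -, rfl⟩ := mem_nat.1 hz
    exact nat_mem_omega m
  · obtain ⟨n, rfl⟩ := mem_omega.1 h₃
    obtain ⟨m, hm, rfl⟩ := mem_nat.1 h₂
    obtain ⟨k, hk, rfl⟩ := mem_nat.1 h₁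
    exact nat_mem_nat.2 (hk.trans hm)

namespace Mdl

variable {g : Mdl.{u}}

open Cd

/-! ### Reals -/

theorem lp_real_mem (r : g.Re) : (ι r : g.U).1 ∈ Reals g.M := by
  refine ⟨(ι r : g.U).2, fun p hp => ?_, fun a ha => ?_⟩
  · obtain ⟨n, e⟩ := (Fn.E_code (f := r) (p := ⟨p, g.zf.trans _ (ι r : g.U).2 _ hp⟩)).1 hp
    exact ⟨nat n, nat_mem_omega n, nat (r n), nat_mem_omega _, (congrArg U.val e).symm⟩
  · obtain ⟨n, rfl⟩ := mem_omega.1 ha
    refine ⟨nat (r n), (Fn.pr_code (f := r) (a := n) (b := r n)).2 rfl, fun b hb => ?_⟩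
    obtain ⟨m, e⟩ := (Fn.E_code (f := r) (p := ⟨_, g.zf.trans _ (ι r : g.U).2 _ hb⟩)).1 hb
    obtain ⟨e₁, e₂⟩ := pair_inj.1 (congrArg U.val e)
    obtain rfl : m = n := nat_injective e₁
    exact e₂.symm

theorem lp_exists_real {x : ZFSet.{u}} (hx : x ∈ Reals g.M) : ∃ r : g.Re, (ι r : g.U).1 = x := by
  obtain ⟨hM, h₁, h₂⟩ := hx
  obtain ⟨r, hr⟩ := Fn.exists_code (α := ℕ) (β := ℕ) (x := (⟨x, hM⟩ : g.U)) (fun p hp => by
    obtain ⟨a, ha, b, hb, e⟩ := h₁ p.1 hp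
    obtain ⟨n, rfl⟩ := mem_omega.1 ha
    obtain ⟨m, rfl⟩ := mem_omega.1 hb
    exact ⟨n, m, U.ext e⟩) (fun n => by
    obtain ⟨b, hb, hu⟩ := h₂ (nat n) (nat_mem_omega n)
    obtain ⟨a, -, b', hb', e⟩ := h₁ _ hb
    obtain ⟨-, rfl⟩ := pair_inj.1 e
    obtain ⟨m, rfl⟩ := mem_omega.1 hb'
    exact ⟨m, fun k => ⟨fun h => nat_injective (hu _ h), fun h => h ▸ hb⟩⟩)
  exact ⟨r, congrArg U.val hr⟩

instance lpOmFact : Fact (IsOrdinal (g.om).1) := ⟨lp_isOrdinal_omega⟩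

theorem small_of_theta {k : g.U} (h : BelowTheta g.M k.1) : Small (pow k) := by
  obtain ⟨f, hf, ⟨h₁, h₂⟩, h₃⟩ := h
  let F : g.U := ⟨f, hf⟩
  refine ⟨Elt g.om, inferInstance, inferInstance, ⟨⟨g.nt 0, nt_om 0⟩⟩,
    fun _ A => sepU k fun b => ∃ r : g.Re, A r ∧ E (pr (ι r) b) F, by fun_prop, fun x hx => ?_⟩
  refine ⟨⟨g.nt 0, nt_om 0⟩, ⟨fun r => ∃ b, E b x ∧ E (pr (ι r) b) F, by fun_prop⟩,
    U.ext' fun b => ?_⟩
  rw [E_sepU (by fun_prop)]
  constructor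
  · rintro ⟨-, r, ⟨b', hb', e'⟩, e⟩
    obtain ⟨c, -, hu⟩ := h₂ _ (lp_real_mem r)
    obtain rfl : b = b' := U.ext ((hu _ e).trans (hu _ e').symm)
    exact hb'
  · intro hb
    have hk : E b k := E_pow.1 hx b hb
    obtain ⟨y, hy⟩ := h₃ b.1 hk
    obtain ⟨a, ha, c, -, e⟩ := h₁ _ hy
    obtain ⟨rfl, -⟩ := pair_inj.1 e
    obtain ⟨r, rfl⟩ := lp_exists_real ha
    exact ⟨hk, r, ⟨b, hb, hy⟩, hy⟩

/-! ### Satisfaction inside the model -/

/-- Put an element in front of an assignment. -/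
def lpPush (z : g.U) (v : Fn g ℕ g.U) : Fn g ℕ g.U :=
  ⟨fun k => if k = 0 then z else v (k - 1), by fun_prop⟩

@[simp] theorem lpPush_zero (z : g.U) (v : Fn g ℕ g.U) : lpPush z v 0 = z := rfl

@[simp] theorem lpPush_succ (z : g.U) (v : Fn g ℕ g.U) (k : ℕ) : lpPush z v (k + 1) = v k := rfl

theorem lpPush_val (z : g.U) (v : Fn g ℕ g.U) :
    (fun k => (lpPush z v k).1) = cons z.1 (fun k => (v k).1) := by
  funext k; cases k <;> rfl

@[fun_prop] theorem tm_lpPush {Γ : Type*} [Cd g Γ] {z : Γ → g.U} {v : Γ → Fn g ℕ g.U}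
    (hz : g.Tm z) (hv : g.Tm v) : g.Tm fun x => lpPush (z x) (v x) := by
  unfold lpPush; fun_prop

/-- Satisfaction of a coded formula in a set of the model. -/
def lpSat (N : g.U) (n : ℕ) (v : Fn g ℕ g.U) : Prop :=
  Sat (N.1 : Set ZFSet.{u}) (lpDec n) fun k => (v k).1

theorem lpSat_eq (N : g.U) (n : ℕ) (v : Fn g ℕ g.U) : lpSat N n v ↔
    (n % 5 = 0 ∧ E (v (n / 5).unpair.1) (v (n / 5).unpair.2)) ∨
    (n % 5 = 1 ∧ v (n / 5).unpair.1 = v (n / 5).unpair.2) ∨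
    (n % 5 = 3 ∧ (lpSat N (n / 5).unpair.1 v → lpSat N (n / 5).unpair.2 v)) ∨
    (n % 5 = 4 ∧ ∀ z, E z N → lpSat N (n / 5) (lpPush z v)) := by
  unfold lpSat
  rw [lpDec]
  split_ifs with h₀ h₁ h₃ h₄
  · simp [h₀, Sat, E_iff]
  · simp [h₁, Sat, U.ext_iff]
  · simp [h₃, Sat]
  · simp only [h₄, Sat, lpPush_val]
    constructor
    · exact fun h => Or.inr (Or.inr (Or.inr ⟨trivial, fun z hz => h z.1 hz⟩))
    · rintro (h | h | h | h)
      · simp at h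
      · simp at h
      · simp at h
      · exact fun x hx => h.2 ⟨x, g.zf.trans _ N.2 _ hx⟩ hx
  · simp [h₀, h₁, h₃, h₄, Sat]

theorem tm_lpSat' : g.Tm fun z : g.U × ℕ × Fn g ℕ g.U => lpSat z.1 z.2.1 z.2.2 := by
  refine tm_wf (r := fun b a : g.U × ℕ × Fn g ℕ g.U => b.1 = a.1 ∧ b.2.1 < a.2.1 ∧
      ∀ k, E (b.2.2 k) a.1 ∨ ∃ j, a.2.2 j = b.2.2 k)
    (Subrelation.wf (r := InvImage (· < ·) fun a : g.U × ℕ × Fn g ℕ g.U => a.2.1)
      (fun h => h.2.1) (InvImage.wf _ wellFounded_lt)) (by fun_prop)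
    (Ψ := fun a s => (a.2.1 % 5 = 0 ∧ E (a.2.2 (a.2.1 / 5).unpair.1) (a.2.2 (a.2.1 / 5).unpair.2)) ∨
      (a.2.1 % 5 = 1 ∧ a.2.2 (a.2.1 / 5).unpair.1 = a.2.2 (a.2.1 / 5).unpair.2) ∨
      (a.2.1 % 5 = 3 ∧ (ev _ Prop s (a.1, (a.2.1 / 5).unpair.1, a.2.2) →
        ev _ Prop s (a.1, (a.2.1 / 5).unpair.2, a.2.2))) ∨
      (a.2.1 % 5 = 4 ∧ ∀ z, E z a.1 → ev _ Prop s (a.1, a.2.1 / 5, lpPush z a.2.2)))
    (by fun_prop) ?_ ?_
  · rintro ⟨N, n, v⟩ s h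
    refine propext ((lpSat_eq N n v).trans (or_congr_right (or_congr_right (or_congr
      (and_congr_right fun h₃ => ?_) (and_congr_right fun h₄ => ?_)))))
    · have h₁ := Nat.unpair_left_le (n / 5)
      have h₂ := Nat.unpair_right_le (n / 5)
      rw [h (N, (n / 5).unpair.1, v) ⟨rfl, by dsimp only at h₃ ⊢; omega, fun k => Or.inr ⟨k, rfl⟩⟩,
        h (N, (n / 5).unpair.2, v) ⟨rfl, by dsimp only at h₃ ⊢; omega, fun k => Or.inr ⟨k, rfl⟩⟩]
    · refine forall_congr' fun z => imp_congr_right fun hz => ?_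
      rw [h (N, n / 5, lpPush z v) ⟨rfl, by dsimp only at h₄ ⊢; omega, fun k => ?_⟩]
      cases k with
      | zero => exact Or.inl hz
      | succ k => exact Or.inr ⟨k, rfl⟩
  · rintro ⟨N, n, v⟩
    obtain ⟨R, hR⟩ := tm_image (g := g) (Q := fun _ : ℕ => True) (f := fun j => v j)
      (by fun_prop) (by fun_prop)
    let T : g.U := sUn (upr N R)
    have hT : ∀ y, E y T ↔ E y N ∨ ∃ j, v j = y := fun y => by
      simp [T, E_sUn, E_upr, hR]
    obtain ⟨S, hS⟩ := tm_image (g := g) (Q := fun _ : ℕ × Fn g ℕ (Elt T) => True)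
      (f := fun z => ι (N, z.1, (⟨fun k => (z.2 k).1, by fun_prop⟩ : Fn g ℕ g.U)))
      (by fun_prop) (by fun_prop)
    have key : ∀ b : g.U × ℕ × Fn g ℕ g.U, E (ι b) S ↔ b.1 = N ∧ ∀ k, E (b.2.2 k) T := by
      rintro ⟨N', m, w⟩
      rw [hS]
      constructor
      · rintro ⟨z, -, e⟩
        obtain ⟨rfl, -, rfl⟩ := inj e
        exact ⟨rfl, fun k => (z.2 k).2⟩
      · rintro ⟨rfl, h⟩
        exact ⟨(m, ⟨fun k => ⟨w k, h k⟩, tm_of_rel (Q := fun k (e : Elt T) => e.1 = w k)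
          (by fun_prop) fun k e => ⟨fun h => Elt.ext h, fun h => h ▸ rfl⟩⟩), trivial, rfl⟩
    refine ⟨S, (key _).2 ⟨rfl, fun k => (hT _).2 (Or.inr ⟨k, rfl⟩)⟩, fun b hb c hc => ?_⟩
    obtain ⟨h₁, h₂⟩ := (key b).1 hb
    refine (key c).2 ⟨hc.1.trans h₁, fun k => ?_⟩
    rcases hc.2.2 k with h | ⟨j, h⟩
    · exact (hT _).2 (Or.inl (h₁ ▸ h))
    · exact h ▸ h₂ j

@[fun_prop] theorem tm_lpSat {Γ : Type*} [Cd g Γ] {N : Γ → g.U} {n : Γ → ℕ}
    {v : Γ → Fn g ℕ g.U} (hN : g.Tm N) (hn : g.Tm n) (hv : g.Tm v) :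
    g.Tm fun x => lpSat (N x) (n x) (v x) := tm_lpSat'.comp (hN.pair (hn.pair hv))

/-- The subset of `N` defined by a coded formula with parameters. -/
noncomputable def lpSub (N : g.U) (n : ℕ) (v : Fn g ℕ g.U) : g.U :=
  sepU N fun z => lpSat N n (lpPush z v)

theorem E_lpSub {N z : g.U} {n : ℕ} {v : Fn g ℕ g.U} :
    E z (lpSub N n v) ↔ E z N ∧ lpSat N n (lpPush z v) := E_sepU (by fun_prop)

@[fun_prop] theorem tm_lpSub {Γ : Type*} [Cd g Γ] {N : Γ → g.U} {n : Γ → ℕ}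
    {v : Γ → Fn g ℕ g.U} (hN : g.Tm N) (hn : g.Tm n) (hv : g.Tm v) :
    g.Tm fun x => lpSub (N x) (n x) (v x) := by unfold lpSub; fun_prop

/-- The definable power set, in the model. -/
noncomputable def lpDef (N : g.U) : g.U :=
  sepU (pow N) fun x => ∃ (n : ℕ) (v : Fn g ℕ g.U), (∀ i, E (v i) N) ∧ x = lpSub N n v

theorem E_lpDef {N x : g.U} :
    E x (lpDef N) ↔ ∃ (n : ℕ) (v : Fn g ℕ g.U), (∀ i, E (v i) N) ∧ x = lpSub N n v := by
  rw [lpDef, E_sepU (by fun_prop), and_iff_right_iff_imp]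
  rintro ⟨n, v, -, rfl⟩
  exact E_pow.2 fun y hy => (E_lpSub.1 hy).1

@[fun_prop] theorem tm_lpDef {Γ : Type*} [Cd g Γ] {N : Γ → g.U} (hN : g.Tm N) :
    g.Tm fun x => lpDef (N x) := by unfold lpDef; fun_prop

theorem mem_lpSub {N : g.U} {n : ℕ} {v : Fn g ℕ g.U} {z : ZFSet.{u}} :
    z ∈ (lpSub N n v).1 ↔ z ∈ N.1 ∧ Sat (N.1 : Set ZFSet.{u}) (lpDec n)
      (cons z fun k => (v k).1) := by
  constructor
  · intro h
    have := (E_lpSub (z := ⟨z, g.zf.trans _ (lpSub N n v).2 _ h⟩)).1 h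
    rwa [lpSat, lpPush_val] at this
  · intro h
    refine (E_lpSub (z := ⟨z, g.zf.trans _ N.2 _ h.1⟩)).2 ?_
    rwa [lpSat, lpPush_val]

theorem def_eq_lpDef (N : g.U) : Def (N.1 : Set ZFSet.{u}) = ((lpDef N).1 : Set ZFSet.{u}) := by
  ext x
  constructor
  · rintro ⟨φ, v, hv, hx⟩
    obtain ⟨n, rfl⟩ := lpDec_surj φ
    obtain ⟨B, hB⟩ := (lpDec n).exists_bound
    let vU : ℕ → g.U := fun i => ⟨v i, g.zf.trans _ N.2 _ (hv i)⟩
    let v' : Fn g ℕ g.U := ⟨fun i => (ini vU B).getD i (vU 0), by fun_prop⟩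
    have h₁ : ∀ i < B, v' i = vU i := fun i hi => getD_ini _ _ hi
    have h₂ : ∀ i, E (v' i) N := fun i => by
      by_cases hi : i < B
      · rw [h₁ i hi]; exact hv i
      · rw [show v' i = vU 0 from List.getD_eq_default _ _ (by simpa using hi)]; exact hv 0
    have h₃ : x = (lpSub N n v').1 := ZFSet.ext fun z => by
      rw [hx, mem_lpSub]
      refine and_congr_right fun _ => hB _ _ _ fun k hk => ?_
      cases k with
      | zero => rfl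
      | succ k => exact (congrArg U.val (h₁ k (by omega))).symm
    rw [h₃]
    exact E_lpDef.2 ⟨n, v', h₂, rfl⟩
  · intro hx
    obtain ⟨n, v, hv, e⟩ := (E_lpDef (x := ⟨x, g.zf.trans _ (lpDef N).2 _ hx⟩)).1 hx
    obtain rfl : x = (lpSub N n v).1 := congrArg U.val e
    exact ⟨lpDec n, fun k => (v k).1, hv, fun z => mem_lpSub⟩

/-! ### The levels of the hierarchy -/

/-- The transitive closure of `{P}`. -/
noncomputable def lpTc (P : g.U) : g.U :=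
  sUn (img (fun _ : ℕ => True) fun n => sUn^[n] (upr P P))

theorem E_lpTc' {P x : g.U} : E x (lpTc P) ↔ ∃ n, E x (sUn^[n] (upr P P)) := by
  rw [lpTc, E_sUn]
  simp only [E_img (α := ℕ) (Q := fun _ => True) (f := fun n => sUn^[n] (upr P P))
    (by fun_prop) (by fun_prop)]
  simp

theorem mem_lpTc {P : g.U} {x : ZFSet.{u}} :
    x ∈ (lpTc P).1 ↔ Relation.ReflTransGen (· ∈ ·) x P.1 := by
  constructor
  · intro h
    obtain ⟨n, hn⟩ := (E_lpTc' (x := ⟨x, g.zf.trans _ (lpTc P).2 _ h⟩)).1 h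
    suffices ∀ (n : ℕ) (y : g.U), E y (sUn^[n] (upr P P)) →
      Relation.ReflTransGen (· ∈ ·) y.1 P.1 from this n _ hn
    intro n
    induction n with
    | zero =>
      intro y hy
      obtain rfl : y = P := by simpa using E_upr.1 hy
      exact .refl
    | succ n ih =>
      intro y hy
      rw [Function.iterate_succ_apply'] at hy
      obtain ⟨z, hz, hy⟩ := E_sUn.1 hy
      exact .head hy (ih z hz)
  · intro h
    induction h using Relation.ReflTransGen.head_induction_on with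
    | refl => exact E_lpTc'.2 ⟨0, E_upr.2 (Or.inl rfl)⟩
    | @head x y h₁ _ ih =>
      have hy : y ∈ g.M := g.zf.trans _ (lpTc P).2 _ ih
      obtain ⟨n, hn⟩ := (E_lpTc' (x := ⟨y, hy⟩)).1 ih
      refine (E_lpTc' (x := ⟨x, g.zf.trans _ hy _ h₁⟩)).2 ⟨n + 1, ?_⟩
      rw [Function.iterate_succ_apply']
      exact E_sUn.2 ⟨_, hn, h₁⟩

theorem lp_imgU_congr {a : g.U} {f h : g.U → g.U} (e : ∀ x, E x a → f x = h x) :
    imgU a f = imgU a h := by
  unfold imgU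
  congr 1
  funext S
  refine propext (forall_congr' fun y => iff_congr Iff.rfl (exists_congr fun x =>
    and_congr_right fun hx => ?_))
  rw [e x hx]

open Classical in
/-- The levels of the constructible hierarchy over `P`, in the model. -/
noncomputable def lpL (P : g.U) : g.U → g.U :=
  E_wf.fix fun a F => sUn (upr (lpTc P) (sUn (imgU a fun b =>
    lpDef (if h : E b a then F b h else default))))

theorem lpL_eq (P a : g.U) :
    lpL P a = sUn (upr (lpTc P) (sUn (imgU a fun b => lpDef (lpL P b)))) := by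
  rw [lpL, WellFounded.fix_eq]
  congr 3
  exact lp_imgU_congr fun b hb => by rw [dif_pos hb]

theorem tm_lpL' (P : g.U) : g.Tm (lpL P) := by
  refine tm_wf E_wf (by fun_prop)
    (Ψ := fun a s => sUn (upr (lpTc P) (sUn (imgU a fun b => lpDef (ev g.U g.U s b)))))
    (by fun_prop) (fun a s h => ?_) exists_trcl
  rw [lpL_eq]
  congr 3
  exact lp_imgU_congr fun b hb => by rw [h b hb]

@[fun_prop] theorem tm_lpL {Γ : Type*} [Cd g Γ] (P : g.U) {a : Γ → g.U} (ha : g.Tm a) :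
    g.Tm fun x => lpL P (a x) := (tm_lpL' P).comp ha

theorem E_lpL {P a x : g.U} :
    E x (lpL P a) ↔ E x (lpTc P) ∨ ∃ b, E b a ∧ E x (lpDef (lpL P b)) := by
  rw [lpL_eq]
  simp only [E_sUn, E_upr]
  constructor
  · rintro ⟨y, rfl | rfl, h⟩
    · exact Or.inl h
    · obtain ⟨_, h₁, h₂⟩ := E_sUn.1 h
      obtain ⟨b, hb, rfl⟩ := (E_imgU (by fun_prop)).1 h₁
      exact Or.inr ⟨b, hb, h₂⟩
  · rintro (h | ⟨b, hb, h⟩)
    · exact ⟨_, Or.inl rfl, h⟩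
    · exact ⟨_, Or.inr rfl, E_sUn.2 ⟨_, (E_imgU (by fun_prop)).2 ⟨b, hb, rfl⟩, h⟩⟩

theorem lh_eq_lpL (P a : g.U) : Lh P.1 a.1 = ((lpL P a).1 : Set ZFSet.{u}) := by
  induction a using E_wf.induction with
  | _ a ih =>
    rw [Lh]
    ext x
    simp only [Set.mem_union, Set.mem_ofPred_eq, Set.mem_iUnion, SetLike.mem_coe, ← mem_lpTc]
    constructor
    · rintro (h | ⟨b, h⟩)
      · exact (E_lpL (x := ⟨x, g.zf.trans _ (lpTc P).2 _ h⟩)).2 (Or.inl h)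
      · let b' : g.U := ⟨b.1, g.zf.trans _ a.2 _ b.2⟩
        rw [show Lh P.1 b.1 = _ from ih b' b.2, def_eq_lpDef] at h
        exact (E_lpL (x := ⟨x, g.zf.trans _ (lpDef _).2 _ h⟩)).2 (Or.inr ⟨b', b.2, h⟩)
    · intro h
      rcases (E_lpL (x := ⟨x, g.zf.trans _ (lpL P a).2 _ h⟩)).1 h with h | ⟨b, hb, h⟩
      · exact Or.inl h
      · refine Or.inr ⟨⟨b.1, hb⟩, ?_⟩
        rw [show Lh P.1 b.1 = _ from ih b hb, def_eq_lpDef]
        exact h

/-! ### The power set of the reals and its transitive closure -/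

/-- A set of reals as an element of the model. -/
noncomputable def lpSet (A : g.PR) : g.U := img (fun r : g.Re => A r) fun r => ι r

theorem E_lpSet {A : g.PR} {x : g.U} : E x (lpSet A) ↔ ∃ r : g.Re, A r ∧ ι r = x :=
  E_img (by fun_prop) (by fun_prop)

@[fun_prop] theorem tm_lpSet {Γ : Type*} [Cd g Γ] {A : Γ → g.PR} (hA : g.Tm A) :
    g.Tm fun x => lpSet (A x) := by unfold lpSet; fun_prop

/-- The power set of the reals. -/
noncomputable def lpP (g : Mdl.{u}) : g.U := pow (lpSet ⟨fun _ => True, by fun_prop⟩)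

theorem E_lpP {x : g.U} : E x g.lpP ↔ ∀ y, E y x → ∃ r : g.Re, ι r = y := by
  simp [lpP, E_pow, E_lpSet]

theorem lpP_val : g.lpP.1 = PowR g.M := by
  ext x
  rw [PowR, mem_sep, mem_powerset]
  constructor
  · intro h
    have hx : x ∈ g.M := g.zf.trans _ g.lpP.2 _ h
    have h' : ∀ y ∈ x, y ∈ Reals g.M := fun y hy => by
      obtain ⟨r, e⟩ := (E_lpP (x := ⟨x, hx⟩)).1 h ⟨y, g.zf.trans _ hx _ hy⟩ hy
      exact (show (ι r : g.U).1 = y from congrArg U.val e) ▸ lp_real_mem r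
    refine ⟨fun y hy => mem_funs.2 ⟨fun p hp => ?_, (h' y hy).2.2⟩, hx, h'⟩
    exact mem_prod.2 ((h' y hy).2.1 p hp)
  · rintro ⟨-, hx, h⟩
    refine (E_lpP (x := ⟨x, hx⟩)).2 fun y hy => ?_
    obtain ⟨r, e⟩ := lp_exists_real (h y.1 hy)
    exact ⟨r, U.ext e⟩

/-- The elements of the transitive closure, from a number and a set of reals. -/
noncomputable def lpBase (m : ℕ) (A : g.PR) : g.U :=
  if m.unpair.1 = 0 then g.lpP else if m.unpair.1 = 1 then lpSet A else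
  if m.unpair.1 = 2 then sUn (lpSet A) else
  if m.unpair.1 = 3 then pr (g.nt m.unpair.2.unpair.1) (g.nt m.unpair.2.unpair.2) else
  if m.unpair.1 = 4 then upr (g.nt m.unpair.2.unpair.1) (g.nt m.unpair.2.unpair.2) else
  g.nt m.unpair.2

@[fun_prop] theorem tm_lpBase {Γ : Type*} [Cd g Γ] {m : Γ → ℕ} {A : Γ → g.PR} (hm : g.Tm m)
    (hA : g.Tm A) : g.Tm fun x => lpBase (m x) (A x) := by unfold lpBase; fun_prop

theorem lp_E_pr {a b x : g.U} : E x (pr a b) ↔ x = upr a a ∨ x = upr a b := by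
  rw [E_iff, pr_val, pair, mem_pair, U.ext_iff, U.ext_iff]
  simp only [upr, pair_eq_singleton]

theorem lpTc_cases {x : g.U} (h : E x (lpTc g.lpP)) : x = g.lpP ∨ E x g.lpP ∨
    (∃ r : g.Re, ι r = x) ∨ (∃ i j, x = pr (g.nt i) (g.nt j)) ∨
    (∃ i j, x = upr (g.nt i) (g.nt j)) ∨ ∃ i, x = g.nt i := by
  obtain ⟨n, hn⟩ := E_lpTc'.1 h
  clear h
  induction n generalizing x with
  | zero => exact Or.inl (by simpa using E_upr.1 hn)
  | succ n ih =>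
    rw [Function.iterate_succ_apply'] at hn
    obtain ⟨y, hy, hx⟩ := E_sUn.1 hn
    rcases ih hy with rfl | h | ⟨r, rfl⟩ | ⟨i, j, rfl⟩ | ⟨i, j, rfl⟩ | ⟨i, rfl⟩
    · exact Or.inr (Or.inl hx)
    · exact Or.inr (Or.inr (Or.inl (E_lpP.1 h x hx)))
    · obtain ⟨k, rfl⟩ := Fn.E_code.1 hx
      exact Or.inr (Or.inr (Or.inr (Or.inl ⟨k, r k, rfl⟩)))
    · rcases lp_E_pr.1 hx with rfl | rfl
      exacts [Or.inr (Or.inr (Or.inr (Or.inr (Or.inl ⟨i, i, rfl⟩)))),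
        Or.inr (Or.inr (Or.inr (Or.inr (Or.inl ⟨i, j, rfl⟩))))]
    · rcases E_upr.1 hx with rfl | rfl
      exacts [Or.inr (Or.inr (Or.inr (Or.inr (Or.inr ⟨i, rfl⟩)))),
        Or.inr (Or.inr (Or.inr (Or.inr (Or.inr ⟨j, rfl⟩))))]
    · obtain ⟨m, -, rfl⟩ := E_nt.1 hx
      exact Or.inr (Or.inr (Or.inr (Or.inr (Or.inr ⟨m, rfl⟩))))

theorem exists_lpBase {x : g.U} (h : E x (lpTc g.lpP)) : ∃ m A, lpBase m A = x := by
  rcases lpTc_cases h with rfl | h | ⟨r, rfl⟩ | ⟨i, j, rfl⟩ | ⟨i, j, rfl⟩ | ⟨i, rfl⟩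
  · exact ⟨Nat.pair 0 0, default, by simp [lpBase]⟩
  · refine ⟨Nat.pair 1 0, ⟨fun r => E (ι r) x, by fun_prop⟩, ?_⟩
    simp only [lpBase, Nat.unpair_pair, one_ne_zero, if_false, if_true]
    refine U.ext' fun y => E_lpSet.trans ⟨?_, fun hy => ?_⟩
    · rintro ⟨r, h, rfl⟩
      exact h
    · obtain ⟨r, rfl⟩ := E_lpP.1 h y hy
      exact ⟨r, hy, rfl⟩
  · refine ⟨Nat.pair 2 0, ⟨fun r' => r' = r, by fun_prop⟩, ?_⟩
    have : (lpBase (Nat.pair 2 0) ⟨fun r' => r' = r, by fun_prop⟩ : g.U) =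
      sUn (lpSet ⟨fun r' => r' = r, by fun_prop⟩) := by simp [lpBase]
    rw [this]
    exact U.ext' fun y => by simp [E_sUn, E_lpSet]
  · exact ⟨Nat.pair 3 (Nat.pair i j), default, by simp [lpBase]⟩
  · exact ⟨Nat.pair 4 (Nat.pair i j), default, by simp [lpBase]⟩
  · exact ⟨Nat.pair 5 i, default, by simp [lpBase]⟩

/-! ### Straight line programs -/

section

variable {k : g.U}

/-- One step of a program: push a definable subset of a level, or a basic set. -/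
noncomputable def lpStep (As : Fn g ℕ g.PR) (v : Fn g ℕ g.U) (i : Elt k × ℕ × ℕ) : Fn g ℕ g.U :=
  lpPush (if i.2.1 % 2 = 0 then lpSub (lpL g.lpP i.1.1) (i.2.1 / 2) v else
    lpBase (i.2.1 / 2) (As i.2.2)) v

@[fun_prop] theorem tm_lpStep {Γ : Type*} [Cd g Γ] {As : Γ → Fn g ℕ g.PR} {v : Γ → Fn g ℕ g.U}
    {i : Γ → Elt k × ℕ × ℕ} (h₁ : g.Tm As) (h₂ : g.Tm v) (h₃ : g.Tm i) :
    g.Tm fun x => lpStep (As x) (v x) (i x) := by unfold lpStep; fun_prop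

theorem lpRun_shift (As : Fn g ℕ g.PR) (w : List (Elt k × ℕ × ℕ)) (v : Fn g ℕ g.U) (n : ℕ) :
    w.foldl (lpStep As) v (n + w.length) = v n := by
  induction w using List.reverseRecOn with
  | nil => rfl
  | append_singleton w i ih =>
    rw [List.foldl_append, List.length_append, ← ih]
    rfl

theorem lpRun_map {As As' : Fn g ℕ g.PR} {sh : ℕ → ℕ} (h : ∀ c, As' (sh c) = As c)
    (w : List (Elt k × ℕ × ℕ)) (v : Fn g ℕ g.U) :
    (w.map fun i => (i.1, i.2.1, sh i.2.2)).foldl (lpStep As') v = w.foldl (lpStep As) v := by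
  rw [List.foldl_map]
  congr 1
  funext v i
  simp only [lpStep, h]

/-- `x` is the output of a program. -/
def lpGood (k x : g.U) : Prop :=
  ∃ (w : List (Elt k × ℕ × ℕ)) (As : Fn g ℕ g.PR), ∀ v, w.foldl (lpStep As) v 0 = x

theorem lpGood_many {x : ℕ → g.U} (h : ∀ i, lpGood k (x i)) (n : ℕ) :
    ∃ (w : List (Elt k × ℕ × ℕ)) (As : Fn g ℕ g.PR) (f : ℕ → ℕ), ∀ v, ∀ i < n,
      w.foldl (lpStep As) v (f i) = x i := by
  induction n with
  | zero => exact ⟨[], default, id, fun _ _ h => absurd h (Nat.not_lt_zero _)⟩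
  | succ n ih =>
    obtain ⟨w, As, f, hw⟩ := ih
    obtain ⟨w', As', hw'⟩ := h n
    let B : Fn g ℕ g.PR := ⟨fun c => if c % 2 = 0 then As (c / 2) else As' (c / 2), by fun_prop⟩
    have h₀ : ∀ c, B (2 * c) = As c := fun c => by simp [B]
    have h₁ : ∀ c, B (2 * c + 1) = As' c := fun c => by
      have : (2 * c + 1) / 2 = c := by omega
      simp [B, this]
    refine ⟨(w.map fun i => (i.1, i.2.1, 2 * i.2.2)) ++
      w'.map fun i => (i.1, i.2.1, 2 * i.2.2 + 1), B,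
      fun i => if i = n then 0 else f i + w'.length, fun v i hi => ?_⟩
    rw [List.foldl_append, lpRun_map (sh := fun c => 2 * c) h₀,
      lpRun_map (sh := fun c => 2 * c + 1) h₁]
    dsimp only
    split_ifs with e
    · rw [e, hw']
    · rw [lpRun_shift, hw v i (by omega)]

theorem lpGood_of_mem (k₀ : Elt k) (hk : ∀ b, E b k → ∀ c, E c b → E c k) (a : g.U)
    (ha : ∀ b, E b a → E b k) (x : g.U) (hx : E x (lpL g.lpP a)) : lpGood k x := by
  induction a using E_wf.induction generalizing x with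
  | _ a ih =>
    rcases E_lpL.1 hx with h | ⟨b, hb, h⟩
    · obtain ⟨m, A, rfl⟩ := exists_lpBase h
      refine ⟨[(k₀, 2 * m + 1, 0)], ⟨fun _ => A, by fun_prop⟩, fun v => ?_⟩
      have : (2 * m + 1) / 2 = m := by omega
      simp [lpStep, this]
    · obtain ⟨n, v, hv, rfl⟩ := E_lpDef.1 h
      obtain ⟨B, hB⟩ := (lpDec n).exists_bound
      obtain ⟨w, As, f, hw⟩ := lpGood_many (x := v)
        (fun i => ih b hb (hk b (ha b hb)) _ (hv i)) B
      obtain ⟨n', hn'⟩ := lpDec_surj ((lpDec n).rename (liftIdx f))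
      refine ⟨w ++ [(⟨b, ha b hb⟩, 2 * n', 0)], As, fun v' => ?_⟩
      have : (w ++ [((⟨b, ha b hb⟩ : Elt k), 2 * n', 0)]).foldl (lpStep As) v' 0 =
          lpSub (lpL g.lpP b) n' (w.foldl (lpStep As) v') := by
        simp [lpStep]
      rw [this]
      refine U.ext (ZFSet.ext fun z => ?_)
      rw [mem_lpSub, mem_lpSub, hn', sat_rename]
      refine and_congr_right fun _ => hB _ _ _ fun j hj => ?_
      cases j with
      | zero => rfl
      | succ j => exact congrArg U.val (hw v' j (by omega))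

end

theorem lp_ord_iff {a : g.U} : IsOrdinal a.1 ↔ (∀ b, E b a → ∀ c, E c b → E c a) ∧
    ∀ b c d, E b c → E c d → E d a → E b d := by
  constructor
  · exact fun h => ⟨fun b hb c hc => h.mem_trans hc hb, fun b c d => h.mem_trans'⟩
  · rintro ⟨h₁, h₂⟩
    refine ⟨fun y hy z hz => ?_, fun {x y z} hx hy hz => ?_⟩
    · have := g.zf.trans _ a.2 _ hy
      exact h₁ ⟨y, this⟩ hy ⟨z, g.zf.trans _ this _ hz⟩ hz
    · have h₃ := g.zf.trans _ a.2 _ hz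
      have h₄ := g.zf.trans _ h₃ _ hy
      exact h₂ ⟨x, g.zf.trans _ h₄ _ hx⟩ ⟨y, h₄⟩ ⟨z, h₃⟩ hx hy hz

@[fun_prop] theorem tm_lp_ord {Γ : Type*} [Cd g Γ] {a : Γ → g.U} (ha : g.Tm a) :
    g.Tm fun x => IsOrdinal (a x).1 := by
  simp only [lp_ord_iff]
  fun_prop

theorem exists_level_bound (h : VeqL g.M) (X : g.U) : ∃ k : g.U, IsOrdinal k.1 ∧
    E (g.nt 0) k ∧ ∀ x, E x X → ∃ a, (∀ b, E b a → E b k) ∧ E x (lpL g.lpP a) := by
  let f : g.U → g.U := fun x => the fun a => IsOrdinal a.1 ∧ E x (lpL g.lpP a) ∧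
    ∀ b, E b a → ¬ E x (lpL g.lpP b)
  have hf : ∀ x, IsOrdinal (f x).1 ∧ E x (lpL g.lpP (f x)) := by
    intro x
    obtain ⟨a, ha, h₁, h₂⟩ := h x.1 x.2
    rw [← lpP_val, show Lh g.lpP.1 a = _ from lh_eq_lpL g.lpP ⟨a, ha⟩] at h₂
    obtain ⟨m, ⟨hm₁, hm₂⟩, hm⟩ := (E_wf (g := g)).has_min
      {a | IsOrdinal a.1 ∧ E x (lpL g.lpP a)} ⟨⟨a, ha⟩, h₁, h₂⟩
    have : f x = m := the_eq fun c => ⟨fun hc => by
      rcases hc.1.mem_trichotomous hm₁ with e | e | e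
      exacts [absurd e (hm c ⟨hc.1, hc.2.1⟩), U.ext e, absurd hm₂ (hc.2.2 m e)],
      fun e => e ▸ ⟨hm₁, hm₂, fun b hb hx => hm b ⟨hm₁.mem hb, hx⟩ hb⟩⟩
    exact this ▸ ⟨hm₁, hm₂⟩
  have hY : ∀ y, E y (sUn (upr (imgU X f) (upr g.om g.om))) ↔
      (∃ x, E x X ∧ f x = y) ∨ y = g.om := fun y => by
    simp [E_sUn, E_upr, E_imgU (f := f) (by fun_prop)]
  have hO : ∀ y, E y (sUn (upr (imgU X f) (upr g.om g.om))) → IsOrdinal y.1 := fun y hy => by
    rcases (hY y).1 hy with ⟨x, -, rfl⟩ | rfl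
    exacts [(hf x).1, lp_isOrdinal_omega]
  refine ⟨sUn (sUn (upr (imgU X f) (upr g.om g.om))), lp_ord_iff.2 ⟨fun b hb c hc => ?_,
    fun b c d h₁ h₂ h₃ => ?_⟩, E_sUn.2 ⟨_, (hY _).2 (Or.inr rfl), nt_om 0⟩, fun x hx =>
      ⟨f x, fun b hb => E_sUn.2 ⟨_, (hY _).2 (Or.inl ⟨x, hx, rfl⟩), hb⟩, (hf x).2⟩⟩
  · obtain ⟨y, hy, hb⟩ := E_sUn.1 hb
    exact E_sUn.2 ⟨y, hy, (hO y hy).mem_trans hc hb⟩
  · obtain ⟨y, hy, h₃⟩ := E_sUn.1 h₃
    exact (hO y hy).mem_trans' h₁ h₂ h₃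

theorem small_of_veql (h : VeqL g.M) (X : g.U) : Small X := by
  obtain ⟨k, hk, h₀, hX⟩ := exists_level_bound h X
  have : Fact (IsOrdinal k.1) := ⟨hk⟩
  let : Inhabited (Elt k) := ⟨⟨_, h₀⟩⟩
  let col : g.PR → Fn g ℕ g.PR := fun A => ⟨fun c => ⟨fun r =>
    A ⟨fun n => if n = 0 then c else r (n - 1), by fun_prop⟩, by fun_prop⟩, by fun_prop⟩
  have hcol : g.Tm col := by fun_prop
  refine ⟨List (Elt k × ℕ × ℕ), inferInstance, inferInstance, inferInstance,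
    fun w A => w.foldl (lpStep (col A)) default 0, by fun_prop, fun x hx => ?_⟩
  obtain ⟨a, ha, hx⟩ := hX x hx
  obtain ⟨w, As, hw⟩ := lpGood_of_mem default (lp_ord_iff.1 hk).1 a ha x hx
  refine ⟨w, ⟨fun r => As (r 0) ⟨fun n => r (n + 1), by fun_prop⟩, by fun_prop⟩, ?_⟩
  rw [← hw default]
  congr 3

end Mdl

end Pool.Agent.MP_09d684_lc

end

section

namespace Pool.Agent.MP_09d684_lc

open ZFSet

universe u v w

namespace Mdl

variable {g : Mdl.{u}}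

open Cd

/-- The play in which the player of parity `i` follows the strategy coded by `b` and the other
player plays `d`. -/
noncomputable def mplay (i : ℕ) (b d : g.Re) : g.Re :=
  g.fix fun n f => if n % 2 = i then b (g.lcode (ini f n)) else d (n / 2)

@[fun_prop] theorem tm_mplay {Γ : Type*} [Cd g Γ] {i : Γ → ℕ} {b d : Γ → g.Re} (h₀ : g.Tm i)
    (h₁ : g.Tm b) (h₂ : g.Tm d) : g.Tm fun x => mplay (i x) (b x) (d x) := by
  unfold mplay; fun_prop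

theorem mplay_eq (i : ℕ) (b d : g.Re) (n : ℕ) : mplay i b d n =
    if n % 2 = i then b (g.lcode (ini (mplay i b d) n)) else d (n / 2) := by
  unfold mplay
  refine fix_eq (by fun_prop) (fun n f h e => ?_) n
  rw [ini_eq_iff.2 e]

/-- Parts of a real: even part, odd part, columns. -/
def mpart (c : ℕ) (a : g.Re) : g.Re :=
  ⟨fun n => if c < 2 then a (2 * n + c) else a (Nat.pair (c - 2) n), by fun_prop⟩

@[fun_prop] theorem tm_mpart {Γ : Type*} [Cd g Γ] {i : Γ → ℕ} {b : Γ → g.Re} (h₀ : g.Tm i)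
    (h₁ : g.Tm b) : g.Tm fun x => mpart (i x) (b x) := by
  unfold mpart; fun_prop

/-- The operations. -/
noncomputable def mop (c : ℕ) (a b : g.Re) : g.Re :=
  if c < 2 then mplay c a b else mpart (c - 2) a

@[fun_prop] theorem tm_mop {Γ : Type*} [Cd g Γ] {i : Γ → ℕ} {b d : Γ → g.Re} (h₀ : g.Tm i)
    (h₁ : g.Tm b) (h₂ : g.Tm d) : g.Tm fun x => mop (i x) (b x) (d x) := by
  unfold mop; fun_prop

/-- An enumeration of the closure of `d` under countably many operations. -/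
noncomputable def En (d : g.Re) : Fn g ℕ g.Re :=
  g.fix fun n f => if n = 0 then d else
    mop (n - 1).unpair.1 (f (n - 1).unpair.2.unpair.1) (f (n - 1).unpair.2.unpair.2)

@[fun_prop] theorem tm_En {Γ : Type*} [Cd g Γ] {d : Γ → g.Re} (h : g.Tm d) :
    g.Tm fun x => En (d x) := by unfold En; fun_prop

theorem unpair_le₁ (n : ℕ) : n.unpair.2.unpair.1 ≤ n :=
  (Nat.unpair_left_le _).trans (Nat.unpair_right_le _)

theorem unpair_le₂ (n : ℕ) : n.unpair.2.unpair.2 ≤ n :=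
  (Nat.unpair_right_le _).trans (Nat.unpair_right_le _)

theorem En_eq (d : g.Re) (n : ℕ) : En d n = if n = 0 then d else
    mop (n - 1).unpair.1 (En d (n - 1).unpair.2.unpair.1) (En d (n - 1).unpair.2.unpair.2) := by
  unfold En
  refine fix_eq (by fun_prop) (fun n f h e => ?_) n
  split_ifs with hn
  · rfl
  · rw [e _ (by have := unpair_le₁ (n - 1); omega), e _ (by have := unpair_le₂ (n - 1); omega)]

theorem En_zero (d : g.Re) : En d 0 = d := by rw [En_eq, if_pos rfl]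

theorem En_succ (d : g.Re) (n : ℕ) : En d (n + 1) =
    mop n.unpair.1 (En d n.unpair.2.unpair.1) (En d n.unpair.2.unpair.2) := by
  rw [En_eq, if_neg (by omega), Nat.add_sub_cancel]

/-- The degree of `d`, as a countable set of reals. -/
noncomputable def Xs (d : g.Re) : g.PR := ⟨fun x => ∃ k, En d k = x, by fun_prop⟩

@[fun_prop] theorem tm_Xs {Γ : Type*} [Cd g Γ] {d : Γ → g.Re} (h : g.Tm d) :
    g.Tm fun x => Xs (d x) := by unfold Xs; fun_prop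

theorem Xs_self (d : g.Re) : Xs d d := ⟨0, En_zero d⟩

theorem Xs_mop {d a b : g.Re} (c : ℕ) (ha : Xs d a) (hb : Xs d b) : Xs d (mop c a b) := by
  obtain ⟨i, rfl⟩ := ha
  obtain ⟨j, rfl⟩ := hb
  exact ⟨Nat.pair c (Nat.pair i j) + 1, by simp [En_succ]⟩

theorem Xs_mplay {d a b : g.Re} {c : ℕ} (hc : c < 2) (ha : Xs d a) (hb : Xs d b) :
    Xs d (mplay c a b) := by
  have := Xs_mop c ha hb
  rwa [mop, if_pos hc] at this

theorem Xs_mpart {d a : g.Re} (c : ℕ) (ha : Xs d a) : Xs d (mpart c a) := by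
  have := Xs_mop (c + 2) ha ha
  rwa [mop, if_neg (by omega), Nat.add_sub_cancel] at this

theorem Xs_trans {d a b : g.Re} (ha : Xs d a) (hb : Xs a b) : Xs d b := by
  obtain ⟨n, rfl⟩ := hb
  induction n using Nat.strong_induction_on with
  | _ n ih =>
    cases n with
    | zero => rwa [En_zero]
    | succ n =>
      rw [En_succ]
      exact Xs_mop _ (ih _ (Nat.lt_succ_of_le (unpair_le₁ n)))
        (ih _ (Nat.lt_succ_of_le (unpair_le₂ n)))

theorem Xs_eq {d a : g.Re} (h₁ : Xs d a) (h₂ : Xs a d) : Xs a = Xs d :=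
  Fn.ext' fun _ => propext ⟨Xs_trans h₁, Xs_trans h₂⟩

theorem exists_join (f : Fn g ℕ g.Re) : ∃ b : g.Re, ∀ d, Xs d b → ∀ n, Xs d (f n) := by
  refine ⟨⟨fun m => f m.unpair.1 m.unpair.2, by fun_prop⟩, fun d hd n => ?_⟩
  have := Xs_mpart (n + 2) hd
  convert this using 1
  refine Fn.ext' fun k => ?_
  simp [mpart]

theorem Xs_mplay_eq {d b : g.Re} {c : ℕ} (hc : c < 2) (hb : Xs d b) :
    Xs (mplay c b d) = Xs d := by
  refine Xs_eq (Xs_mplay hc hb (Xs_self d)) ?_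
  have := Xs_mpart (1 - c) (Xs_self (mplay c b d))
  convert this using 1
  refine Fn.ext' fun k => ?_
  have h₁ : 1 - c < 2 := by omega
  have h₂ : (2 * k + (1 - c)) % 2 ≠ c := by omega
  have h₃ : (2 * k + (1 - c)) / 2 = k := by omega
  simp only [mpart, if_pos h₁]
  rw [mplay_eq, if_neg h₂, h₃]

theorem exists_strat_code {σ : ℕ → Fn g ℕ ℕ → ℕ} (h₁ : g.Tm fun z : ℕ × Fn g ℕ ℕ => σ z.1 z.2)
    (h₂ : Causal σ) : ∃ b : g.Re, ∀ (x : g.Re) (n : ℕ), b (g.lcode (ini x n)) = σ n x := by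
  refine ⟨⟨fun m => σ (NL.dec g m : List ℕ).length
    (⟨fun k => (NL.dec g m : List ℕ).getD k 0, by fun_prop⟩ : Fn g ℕ ℕ), by fun_prop⟩,
    fun x n => ?_⟩
  have : (NL.dec g (g.lcode (ini x n)) : List ℕ) = ini x n := by
    rw [← nenc_list, NL.dec_enc]
  simp only [this, length_ini]
  exact h₂ _ _ _ fun k hk => getD_ini _ _ hk

/-- True on a cone. -/
def AE (P : g.PR → Prop) : Prop := ∃ b, ∀ d, Xs d b → P (Xs d)

@[fun_prop] theorem tm_AE {Γ : Type*} [Cd g Γ] {P : Γ → g.PR → Prop}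
    (h : g.Tm fun z : Γ × g.PR => P z.1 z.2) : g.Tm fun x => AE (P x) := by unfold AE; fun_prop

variable {P Q : g.PR → Prop}

theorem ae_fine (r : g.Re) : AE fun X : g.PR => X r := ⟨r, fun _ h => h⟩

theorem AE.mono (h : AE P) (h' : ∀ X, P X → Q X) : AE Q := by
  obtain ⟨b, hb⟩ := h
  exact ⟨b, fun d hd => h' _ (hb d hd)⟩

theorem AE.and (h : AE P) (h' : AE Q) : AE fun X => P X ∧ Q X := by
  obtain ⟨a, ha⟩ := h
  obtain ⟨b, hb⟩ := h'
  obtain ⟨c, hc⟩ := exists_join (⟨fun n => if n = 0 then a else b, by fun_prop⟩ : Fn g ℕ g.Re)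
  exact ⟨c, fun d hd => ⟨ha d (by simpa using hc d hd 0), hb d (by simpa using hc d hd 1)⟩⟩

theorem AE.ex (h : AE P) : ∃ d, P (Xs d) := by
  obtain ⟨b, hb⟩ := h
  exact ⟨b, hb b (Xs_self b)⟩

theorem ae_or (hd : g.TDet ℕ) (hP : g.Tm P) : AE P ∨ AE fun X => ¬ P X := by
  obtain ⟨σ, h₁, h₂, h₃⟩ := hd (fun x => P (Xs x)) (by fun_prop)
  obtain ⟨b, hb⟩ := exists_strat_code h₁ h₂
  rcases h₃ with h₃ | h₃
  · refine Or.inl ⟨b, fun d hd => ?_⟩
    rw [← Xs_mplay_eq (c := 0) (by omega) hd]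
    exact h₃ _ fun n hn => by rw [mplay_eq, if_pos hn, hb]
  · refine Or.inr ⟨b, fun d hd => ?_⟩
    rw [← Xs_mplay_eq (c := 1) (by omega) hd]
    exact h₃ _ fun n hn => by rw [mplay_eq, if_pos hn, hb]

theorem ae_all (hc : g.TDC) {P : ℕ → g.PR → Prop} (hP : g.Tm fun z : ℕ × g.PR => P z.1 z.2)
    (h : ∀ n, AE (P n)) : AE fun X => ∀ n, P n X := by
  obtain ⟨f, hf⟩ := hc.cc (α := g.Re) (β := ℕ) (Q := fun n b => ∀ d, Xs d b → P n (Xs d))
    (by fun_prop) h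
  obtain ⟨b, hb⟩ := exists_join f
  exact ⟨b, fun d hd n => hf n d (hb d hd n)⟩

theorem ae_const (hd : g.TDet ℕ) (hc : g.TDC) {α : Type*} [Cd g α] [RL g α] {G : g.PR → α}
    (hG : g.Tm G) : ∃ a, AE fun X => G X = a := by
  have h₁ : ∀ n, ∃ m, AE fun X => (RL.enc (G X) : g.Re) n = m := by
    intro n
    by_contra hn
    obtain ⟨d, h⟩ := (ae_all hc (P := fun m X => ¬ (RL.enc (G X) : g.Re) n = m) (by fun_prop)
      fun m => (ae_or hd (by fun_prop)).resolve_left fun h => hn ⟨m, h⟩).ex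
    exact h _ rfl
  let r : g.Re := ⟨fun n => g.least fun m => AE fun X => (RL.enc (G X) : g.Re) n = m, by fun_prop⟩
  refine ⟨RL.dec r, (ae_all hc (P := fun n X => (RL.enc (G X) : g.Re) n = r n) (by fun_prop)
    fun n => least_spec (h₁ n)).mono fun X h => ?_⟩
  rw [← Fn.ext' h, RL.dec_enc]

theorem not_ae_new (hd : g.TDet ℕ) (hc : g.TDC) {α : Type*} [Cd g α] [RL g α] {G : g.PR → α}
    (hG : g.Tm G) : ∃ d, Xs d (RL.enc (G (Xs d))) := by
  obtain ⟨a, ha⟩ := ae_const hd hc hG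
  obtain ⟨d, h₁, h₂⟩ := (ha.and (ae_fine (RL.enc a))).ex
  exact ⟨d, h₁ ▸ h₂⟩

theorem ctbl_of_wo (hd : g.TDet ℕ) (hc : g.TDC) {W α : Type*} [Cd g W] [WO g W] [Inhabited W]
    [Cd g α] [RL g α] {h : W → α} (hh : g.Tm h) : ∃ e : Fn g ℕ α, ∀ w, ∃ n, e n = h w := by
  obtain ⟨d, h₁⟩ := not_ae_new hd hc
    (G := fun X : g.PR => h (g.least fun w => ¬ X (RL.enc (h w)))) (by fun_prop)
  refine ⟨⟨fun n => RL.dec (En d n), by fun_prop⟩, fun w => ?_⟩
  have : Xs d (RL.enc (h w)) := by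
    by_contra hw
    exact least_spec (g := g) (P := fun w => ¬ Xs d (RL.enc (h w))) ⟨w, hw⟩ h₁
  obtain ⟨n, hn⟩ := this
  exact ⟨n, by simp [hn]⟩

theorem ae_range (hd : g.TDet ℕ) (hc : g.TDC) {W α : Type*} [Cd g W] [WO g W] [Inhabited W]
    [Cd g α] [RL g α] {h : g.PR → W → α} (hh : g.Tm fun z : g.PR × W => h z.1 z.2) :
    ∃ e : Fn g ℕ α, AE fun X => ∀ a, (∃ w, h X w = a) ↔ ∃ n, e n = a := by
  classical
  let _ : Inhabited α := ⟨RL.dec (default : g.Re)⟩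
  obtain ⟨R, hR⟩ : ∃ R : α → Prop, R = fun a => AE fun X => ∃ w, h X w = a := ⟨_, rfl⟩
  have tR : g.Tm R := by rw [hR]; fun_prop
  obtain ⟨ix, hix⟩ : ∃ ix : g.PR → α → W, ix = fun X a => g.least fun w => h X w = a := ⟨_, rfl⟩
  have tix : g.Tm fun z : g.PR × α => ix z.1 z.2 := by rw [hix]; fun_prop
  have six : ∀ X a, (∃ w, h X w = a) → h X (ix X a) = a := fun X a H => by
    rw [hix]; exact least_spec (g := g) H
  obtain ⟨lt, hlt⟩ : ∃ lt : α → α → Prop,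
    lt = fun a b => AE fun X => WO.lt g (ix X a) (ix X b) := ⟨_, rfl⟩
  have tlt : g.Tm fun z : α × α => lt z.1 z.2 := by rw [hlt]; fun_prop
  have tri : ∀ a b, R a → R b → ¬ lt a b → ¬ lt b a → a = b := by
    intro a b ha hb h₁ h₂
    rw [hR] at ha hb
    rw [hlt] at h₁ h₂
    obtain ⟨d, ⟨h₃, h₄⟩, h₅, h₆⟩ := ((ha.and hb).and
      (((ae_or hd (by fun_prop)).resolve_left h₁).and
        ((ae_or hd (by fun_prop)).resolve_left h₂))).ex
    rcases WO.tri (g := g) (ix (Xs d) a) (ix (Xs d) b) with e | e | e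
    · exact absurd e h₅
    · rw [← six _ _ h₃, e, six _ _ h₄]
    · exact absurd e h₆
  have hmin : ∀ S : α → Prop, g.Tm S → ∀ a, S a → ∃ b, S b ∧ ∀ c, S c → ¬ lt c b := by
    intro S tS a ha
    by_contra hn
    push Not at hn
    obtain ⟨f, -, hf⟩ := hc.dc tS (Q := fun a b => lt b a) (by fun_prop) hn ha
    obtain ⟨d, hd'⟩ := (ae_all hc (P := fun n X => WO.lt g (ix X (f (n + 1))) (ix X (f n)))
      (by fun_prop) fun n => by have := (hf n).2; rwa [hlt] at this).ex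
    obtain ⟨_, ⟨n, rfl⟩, hm⟩ := (WO.wf (g := g)).has_min
      (Set.range fun n => ix (Xs d) (f n)) ⟨_, 0, rfl⟩
    exact hm _ ⟨n + 1, rfl⟩ (hd' n)
  obtain ⟨d, h₁⟩ := not_ae_new hd hc (G := fun X : g.PR => the fun b : α =>
    (R b ∧ ¬ X (RL.enc b)) ∧ ∀ c, (R c ∧ ¬ X (RL.enc c)) → ¬ lt c b) (by fun_prop)
  have h₂ : ∀ a, R a → Xs d (RL.enc a) := by
    intro a ha
    by_contra hn
    obtain ⟨b, hb⟩ := hmin (fun c => R c ∧ ¬ Xs d (RL.enc c)) (by fun_prop) a ⟨ha, hn⟩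
    rw [the_eq (a := b) fun c => ⟨fun H => tri _ _ H.1.1 hb.1.1 (hb.2 _ H.1) (H.2 _ hb.1),
      fun e => e ▸ hb⟩] at h₁
    exact hb.1.2 h₁
  have h₃ : AE fun X => ∀ w, R (h X w) := by
    refine (ae_or hd (by fun_prop)).resolve_right fun H => ?_
    obtain ⟨a, ha⟩ := ae_const hd hc
      (G := fun X : g.PR => h X (g.least fun w => ¬ R (h X w))) (by fun_prop)
    have h₄ : R a := by rw [hR]; exact ha.mono fun X e => ⟨_, e⟩
    obtain ⟨d', h₅, h₆⟩ := (H.and ha).ex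
    exact least_spec (g := g) (P := fun w => ¬ R (h (Xs d') w)) (not_forall.1 h₅) (h₆ ▸ h₄)
  obtain ⟨d₀, h₀⟩ := h₃.ex
  let e : Fn g ℕ α := ⟨fun n => if R (RL.dec (En d n)) then RL.dec (En d n) else
    h (Xs d₀) default, by fun_prop⟩
  have h₄ : ∀ n, R (e n) := fun n => by
    simp only [e]
    split_ifs with H
    exacts [H, h₀ _]
  have h₅ : ∀ a, R a → ∃ n, e n = a := fun a ha => by
    obtain ⟨n, hn⟩ := h₂ a ha
    exact ⟨n, by simp [e, hn, ha]⟩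
  refine ⟨e, (h₃.and (ae_all hc (P := fun n X => ∃ w, h X w = e n) (by fun_prop)
    fun n => by have := h₄ n; rwa [hR] at this)).mono fun X H a => ⟨?_, ?_⟩⟩
  · rintro ⟨w, rfl⟩
    exact h₅ _ (H.1 w)
  · rintro ⟨n, rfl⟩
    exact H.2 n

end Mdl

end Pool.Agent.MP_09d684_lc

end

section

namespace Pool.Agent.MP_09d684_lc

open ZFSet

universe u v w

namespace Mdl

variable {g : Mdl.{u}}

open Cd

/-- The element of the space coded by the even part of a real. -/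
def yx (x : g.Re) : g.Yy := ⟨fun n => (x (2 * n)).unpair, by fun_prop⟩

@[fun_prop] theorem tm_yx {Γ : Type*} [Cd g Γ] {x : Γ → g.Re} (h : g.Tm x) :
    g.Tm fun a => yx (x a) := by unfold yx; fun_prop

/-- The sets of a well-founded system, defined in the model. -/
theorem ws_exists_A {Γ J : Type*} [Cd g Γ] [Cd g J] [Bd g J]
    {ch : Γ → J → J → Prop} (wf : ∀ x, WellFounded (ch x))
    (hch : g.Tm fun z : Γ × J × J => ch z.1 z.2.1 z.2.2) {bas : Γ → J → St → Prop}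
    (hbas : g.Tm fun z : Γ × J × St => bas z.1 z.2.1 z.2.2) :
    ∃ A : Γ → J → g.Yy → Prop, g.Tm (fun z : Γ × J × g.Yy => A z.1 z.2.1 z.2.2) ∧
      ∀ x j y, A x j y ↔ (∀ n, bas x j (ini y n)) ∧ ∀ j', ch x j' j → ¬ A x j' y := by
  obtain ⟨Ψ, hΨ, eΨ⟩ : ∃ Ψ : Γ → J → Fn g J (Fn g g.Yy Prop) → Fn g g.Yy Prop,
      g.Tm (fun z : Γ × J × Fn g J (Fn g g.Yy Prop) => Ψ z.1 z.2.1 z.2.2) ∧
      ∀ x j f y, Ψ x j f y ↔ (∀ n, bas x j (ini y n)) ∧ ∀ j', ch x j' j → ¬ f j' y :=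
    ⟨fun x j f => ⟨fun y => (∀ n, bas x j (ini y n)) ∧ ∀ j', ch x j' j → ¬ f j' y, by fun_prop⟩,
      by fun_prop, fun _ _ _ _ => Iff.rfl⟩
  obtain ⟨F, h₁, h₂⟩ : ∃ F : Γ → Fn g J (Fn g g.Yy Prop), g.Tm F ∧
      ∀ x j, F x j = Ψ x j (F x) := ⟨fun x => g.rfix (ch x) (Ψ x), tm_rfix wf hch hΨ,
    fun x j => rfix_eq (wf x) (by fun_prop) (by fun_prop)
      (fun a f h e => Fn.ext' fun c => propext (by
        rw [eΨ, eΨ]
        exact and_congr_right fun _ => forall_congr' fun j' => forall_congr' fun hj => by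
          rw [e j' hj])) j⟩
  refine ⟨fun x j c => F x j c, by fun_prop, fun x j c => ?_⟩
  show F x j c ↔ _
  rw [h₂, eΨ]

/-- The tree that computes the hierarchy `W`. -/
theorem ws_tree {T D P : Type (u + 1)} [Cd g T] [Bd g T] [LinearOrder T] [OT g T] [Inhabited T]
    [Cd g D] [Bd g D] [WO g D] [Inhabited D] [Cd g P] [Bd g P] [WO g P] [Inhabited P]
    {C : g.PR → P → St → Prop} (hC : g.Tm fun z : g.PR × P × St => C z.1 z.2.1 z.2.2)
    {R : g.PR → D → P → P → Prop}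
    (hR : g.Tm fun z : g.PR × D × P × P => R z.1 z.2.1 z.2.2.1 z.2.2.2) (p₀ : P) :
    ∃ (J : Type (u + 1)) (_ : Cd g J) (_ : Bd g J) (_ : WO g J) (_ : Inhabited J)
      (ch : g.PR → J → J → Prop) (bas : g.PR → J → St → Prop) (A : g.PR → J → g.Yy → Prop)
      (root : J) (W : g.PR → T → P → g.Yy → Prop), (∀ X, WellFounded (ch X)) ∧
      g.Tm (fun z : g.PR × J × J => ch z.1 z.2.1 z.2.2) ∧
      g.Tm (fun z : g.PR × J × St => bas z.1 z.2.1 z.2.2) ∧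
      (∀ X j y, A X j y ↔ (∀ n, bas X j (ini y n)) ∧ ∀ j', ch X j' j → ¬ A X j' y) ∧
      (∀ X, g.Tm fun z : T × P × g.Yy => W X z.1 z.2.1 z.2.2) ∧
      (∀ X a p y, W X a p y ↔ (∀ n, C X p (ini y n)) ∧
        ∀ b, b < a → ∀ i, ∃ p', R X i p' p ∧ W X b p' y) ∧
      ∀ X y, A X root y ↔ (∀ n, C X p₀ (ini y n)) ∧ ∀ b i, ∃ p', R X i p' p₀ ∧ W X b p' y := by
  obtain ⟨ch, hch, ech⟩ : ∃ ch : g.PR → Prop × T × Prop × D × P → Prop × T × Prop × D × P → Prop,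
      g.Tm (fun z : g.PR × (Prop × T × Prop × D × P) × (Prop × T × Prop × D × P) =>
        ch z.1 z.2.1 z.2.2) ∧ ∀ X j' j, ch X j' j ↔
        (¬ j.2.2.1 ∧ ∃ b i, (j.1 ∨ b < j.2.1) ∧ j' = (False, b, True, i, j.2.2.2.2)) ∨
        (j.2.2.1 ∧ ¬ j.1 ∧ ∃ p', R X j.2.2.2.1 p' j.2.2.2.2 ∧
          j' = (False, j.2.1, False, default, p')) :=
    ⟨fun X j' j => (¬ j.2.2.1 ∧ ∃ b i, (j.1 ∨ b < j.2.1) ∧ j' = (False, b, True, i, j.2.2.2.2)) ∨
        (j.2.2.1 ∧ ¬ j.1 ∧ ∃ p', R X j.2.2.2.1 p' j.2.2.2.2 ∧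
          j' = (False, j.2.1, False, default, p')), by fun_prop, fun _ _ _ => Iff.rfl⟩
  have wf : ∀ X, WellFounded (ch X) := fun X => by
    refine Subrelation.wf (r := WO.lt g) ?_ WO.wf
    rintro j' ⟨t, a, s, i, p⟩ h
    rcases (ech _ _ _).1 h with ⟨-, b, i', h₁, rfl⟩ | ⟨h₁, h₂, p', -, rfl⟩
    · by_cases ht : t
      · exact Or.inl ⟨not_false, ht⟩
      · exact Or.inr ⟨(eq_false ht).symm, Or.inl (h₁.resolve_left ht)⟩
    · exact Or.inr ⟨(eq_false h₂).symm, Or.inr ⟨rfl, Or.inl ⟨not_false, h₁⟩⟩⟩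
  have hbas : g.Tm fun z : g.PR × (Prop × T × Prop × D × P) × St =>
      z.2.1.2.2.1 ∨ C z.1 z.2.1.2.2.2.2 z.2.2 := by fun_prop
  obtain ⟨A, hA, eA⟩ := ws_exists_A wf hch (bas := fun X j s => j.2.2.1 ∨ C X j.2.2.2.2 s) hbas
  have e₁ : ∀ X b i p y, ¬ A X (False, b, True, i, p) y ↔
      ∃ p', R X i p' p ∧ A X (False, b, False, default, p') y := fun X b i p y => by
    rw [eA]
    constructor
    · intro h
      by_contra h'
      refine h ⟨fun _ => Or.inl trivial, fun j' hj hA' => ?_⟩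
      rcases (ech _ _ _).1 hj with ⟨h₁, -⟩ | ⟨-, -, p', h₁, rfl⟩
      exacts [h₁ trivial, h' ⟨p', h₁, hA'⟩]
    · rintro ⟨p', h₁, h₂⟩ h
      exact h.2 _ ((ech _ _ _).2 (Or.inr ⟨trivial, not_false, p', h₁, rfl⟩)) h₂
  have e₂ : ∀ X t a i p y, A X (t, a, False, i, p) y ↔ (∀ n, C X p (ini y n)) ∧
      ∀ b, t ∨ b < a → ∀ i, ∃ p', R X i p' p ∧ A X (False, b, False, default, p') y := by
    intro X t a i p y
    rw [eA]
    refine and_congr (forall_congr' fun n => iff_of_eq (false_or _))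
      ⟨fun h b hb i' => ?_, fun h j' hj => ?_⟩
    · exact (e₁ _ _ _ _ _).1 (h _ ((ech _ _ _).2 (Or.inl ⟨not_false, b, i', hb, rfl⟩)))
    · rcases (ech _ _ _).1 hj with ⟨-, b, i', h₁, rfl⟩ | ⟨h₁, -⟩
      exacts [(e₁ _ _ _ _ _).2 (h b h₁ i'), h₁.elim]
  refine ⟨Prop × T × Prop × D × P, inferInstance, inferInstance, inferInstance, inferInstance, ch,
    fun X j s => j.2.2.1 ∨ C X j.2.2.2.2 s, A, (True, default, False, default, p₀),
    fun X a p y => A X (False, a, False, default, p) y,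
    wf, hch, hbas, eA, fun X => by fun_prop, fun X a p y => ?_, fun X y => ?_⟩
  · simpa only [false_or] using e₂ X False a default p y
  · simpa only [true_or, forall_true_left] using e₂ X True default default p₀ y

/-- Recursion on the numbers with parameters. -/
theorem ws_chain {Γ P : Type*} [Cd g Γ] [Cd g P] {nx : Γ → ℕ → P → P}
    (h : g.Tm fun z : Γ × ℕ × P => nx z.1 z.2.1 z.2.2) (p₀ : P) :
    ∃ c : Γ → ℕ → P, g.Tm (fun z : Γ × ℕ => c z.1 z.2) ∧ (∀ y, c y 0 = p₀) ∧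
      ∀ y n, c y (n + 1) = nx y n (c y n) := by
  refine ⟨fun y n => ((fun z : ℕ × P => (z.1 + 1, nx y z.1 z.2))^[n] (0, p₀)).2, by fun_prop,
    fun _ => rfl, fun y n => ?_⟩
  have : ∀ n, ((fun z : ℕ × P => (z.1 + 1, nx y z.1 z.2))^[n] (0, p₀)).1 = n := fun n => by
    induction n with
    | zero => rfl
    | succ n ih => rw [Function.iterate_succ_apply', ih]
  beta_reduce
  rw [Function.iterate_succ_apply', this]

/-- The set `Q` decides the digit `i.2` and the set `F i.1`. -/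
def WDd {I : Type v} [Cd g I] [WO g I] (F : I → g.Re → Prop) (i : I × ℕ) (Q : g.Re → Prop) :
    Prop :=
  (∃ m, ∀ x, Q x → x i.2 = m) ∧ ((∀ x, Q x → ¬ F i.1 x) ∨
    ((∀ x, F i.1 x → ∃ j, WO.lt g j i.1 ∧ F j x ∧ ∀ x', F j x' → F i.1 x') →
      ∃ j, WO.lt g j i.1 ∧ (∀ x, Q x → F j x) ∧ ∀ x', F j x' → F i.1 x'))

/-- The real decided by a generic chain lies in the sets that the chain enters. -/
theorem ws_truth {I : Type v} [Cd g I] [WO g I] {F : I → g.Re → Prop} (hs : IsSys F)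
    {Q : ℕ → g.Re → Prop} (hQ : ∀ k k', ∃ x, Q k x ∧ Q k' x) (hD : ∀ i, ∃ k, WDd F i (Q k))
    {z : g.Re} (hz : ∀ n, ∃ k, ∀ x, Q k x → x n = z n) (i : I) :
    ((∃ k, ∀ x, Q k x → F i x) → F i z) ∧ ((∃ k, ∀ x, Q k x → ¬ F i x) → ¬ F i z) := by
  induction i using (WO.wf (g := g) (α := I)).induction with
  | _ i ih =>
    rcases hs i with ⟨n, m, h⟩ | ⟨j, hj, h⟩ | h
    · obtain ⟨k', hk'⟩ := hz n
      constructor <;> rintro ⟨k, hk⟩ <;> obtain ⟨x, h₁, h₂⟩ := hQ k k'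
      · rw [h, ← hk' x h₂, ← h]; exact hk x h₁
      · rw [h, ← hk' x h₂, ← h]; exact hk x h₁
    · simp only [h, not_not]
      exact ⟨(ih j hj).2, (ih j hj).1⟩
    · constructor <;> rintro ⟨k, hk⟩
      · obtain ⟨k', -, h' | h'⟩ := hD (i, 0)
        · obtain ⟨x, h₁, h₂⟩ := hQ k k'
          exact absurd (hk x h₁) (h' x h₂)
        · obtain ⟨j, hj, h₁, h₂⟩ := h' h
          exact h₂ z ((ih j hj).1 ⟨k', h₁⟩)
      · intro hz'
        obtain ⟨j, hj, h₁, h₂⟩ := h z hz'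
        exact (ih j hj).2 ⟨k, fun x hx hx' => hk x hx (h₂ x hx')⟩ h₁

/-- Finite conjunctions of sets of the system, their complements and digit conditions. -/
theorem ws_cond {I : Type v} [Cd g I] [WO g I] [Inhabited I] {F : I → g.Re → Prop}
    (hF : g.Tm fun z : I × g.Re => F z.1 z.2) (i₀ : I) :
    ∃ (S : List ((ℕ × ℕ × ℕ) × I) → g.Re → Prop) (p₀ : List ((ℕ × ℕ × ℕ) × I)),
      g.Tm (fun z : List ((ℕ × ℕ × ℕ) × I) × g.Re => S z.1 z.2) ∧ (∀ x, S p₀ x ↔ F i₀ x) ∧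
      ∀ p x i, S p x → ∃ p', S p' x ∧ (∀ x', S p' x' → S p x') ∧
        ∀ Q : g.Re → Prop, (∀ x', Q x' → S p' x') → WDd F i Q := by
  refine ⟨fun p x => ∀ a, a ∈ p → (a.1.1 = 0 → F a.2 x) ∧ (a.1.1 = 1 → ¬ F a.2 x) ∧
    (a.1.1 = 2 → x a.1.2.1 = a.1.2.2), [((0, 0, 0), i₀)], by fun_prop, fun x => by simp,
    fun p x i hp => ?_⟩
  by_cases h₁ : F i.1 x
  · by_cases h₂ : ∀ x, F i.1 x → ∃ j, WO.lt g j i.1 ∧ F j x ∧ ∀ x', F j x' → F i.1 x'
    · obtain ⟨j, hj, h₃, h₄⟩ := h₂ x h₁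
      refine ⟨((2, i.2, x i.2), i.1) :: ((0, 0, 0), j) :: p, ?_, ?_, fun Q hQ => ⟨⟨x i.2,
        fun x' hx' => ?_⟩, Or.inr fun _ => ⟨j, hj, fun x' hx' => ?_, h₄⟩⟩⟩
      · simpa [h₃] using hp
      · exact fun x' h a ha => h a (by simp [ha])
      · exact (hQ x' hx' _ List.mem_cons_self).2.2 rfl
      · exact (hQ x' hx' ((0, 0, 0), j) (by simp)).1 rfl
    · refine ⟨((2, i.2, x i.2), i.1) :: p, ?_, ?_, fun Q hQ => ⟨⟨x i.2,
        fun x' hx' => ?_⟩, Or.inr fun h => absurd h h₂⟩⟩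
      · simpa using hp
      · exact fun x' h a ha => h a (by simp [ha])
      · exact (hQ x' hx' _ List.mem_cons_self).2.2 rfl
  · refine ⟨((2, i.2, x i.2), i.1) :: ((1, 0, 0), i.1) :: p, ?_, ?_, fun Q hQ => ⟨⟨x i.2,
      fun x' hx' => ?_⟩, Or.inl fun x' hx' => ?_⟩⟩
    · simpa [h₁] using hp
    · exact fun x' h a ha => h a (by simp [ha])
    · exact (hQ x' hx' _ List.mem_cons_self).2.2 rfl
    · exact (hQ x' hx' ((1, 0, 0), i.1) (by simp)).2.1 rfl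

/-- Over a countable set of reals the hierarchy closes off and a point of its last level has a
definable generic chain. -/
theorem ws_generic (hd : g.TDet ℕ) (hc : g.TDC) {T D P : Type*} [Cd g T] [LinearOrder T] [OT g T]
    [Inhabited T] [Cd g D] [WO g D] [Inhabited D] [Cd g P] [WO g P] [Inhabited P] (hT : g.Unc T)
    {cd : P → Fn g ℕ Prop} (hcd : g.Tm cd) {C : P → g.Yy → Prop}
    (hC : g.Tm fun z : P × g.Yy => C z.1 z.2) (hC' : ∀ p q y, cd p = cd q → C p y → C q y)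
    {L : P → P → Prop} (hL : g.Tm fun z : P × P => L z.1 z.2)
    (hL' : ∀ p q r, cd p = cd q → L r p → L r q) {Dd : D → P → Prop}
    (hD : g.Tm fun z : D × P => Dd z.1 z.2) (hD' : ∀ i p q, cd p = cd q → Dd i p → Dd i q)
    {W : T → P → g.Yy → Prop} (hW : g.Tm fun z : T × P × g.Yy => W z.1 z.2.1 z.2.2)
    (eW : ∀ a p y, W a p y ↔ C p y ∧ ∀ b, b < a → ∀ i, ∃ p', (L p' p ∧ Dd i p') ∧ W b p' y)
    (p₀ : P) : ∃ c : g.Yy → ℕ → P, g.Tm (fun z : g.Yy × ℕ => c z.1 z.2) ∧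
      ∀ y, (C p₀ y ∧ ∀ b i, ∃ p', (L p' p₀ ∧ Dd i p') ∧ W b p' y) → c y 0 = p₀ ∧
        (∀ n, C (c y n) y ∧ L (c y (n + 1)) (c y n)) ∧ ∀ i, ∃ n, Dd i (c y n) := by
  obtain ⟨e, he⟩ := ctbl_of_wo hd hc hcd
  obtain ⟨V, hV, eV⟩ : ∃ V : P → g.Yy → Prop, g.Tm (fun z : P × g.Yy => V z.1 z.2) ∧
      ∀ p y, V p y ↔ C p y ∧ ∀ b i, ∃ p', (L p' p ∧ Dd i p') ∧ W b p' y :=
    ⟨fun p y => C p y ∧ ∀ b i, ∃ p', (L p' p ∧ Dd i p') ∧ W b p' y, by fun_prop,
      fun _ _ => Iff.rfl⟩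
  have step : ∀ p y i, V p y → ∃ p', (L p' p ∧ Dd i p') ∧ V p' y := fun p y i h => by
    obtain ⟨b, hb⟩ := hT ⟨fun n => g.least fun a => ∃ q, cd q = e n ∧ ¬ W a q y, by fun_prop⟩
    obtain ⟨p', h₁, h₂⟩ := ((eV _ _).1 h).2 b i
    refine ⟨p', h₁, (eV _ _).2 ⟨((eW _ _ _).1 h₂).1, fun b' i' => ?_⟩⟩
    obtain ⟨a, ha⟩ := hT ⟨fun _ => b', by fun_prop⟩
    refine ((eW a _ _).1 (by_contra fun h₃ => ?_)).2 b' (ha 0) i'
    obtain ⟨n, hn⟩ := he p'
    obtain ⟨q, h₄, h₅⟩ := least_spec (g := g) (P := fun a => ∃ q, cd q = e n ∧ ¬ W a q y)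
      ⟨a, p', hn.symm, h₃⟩
    have h₆ : cd p' = cd q := (h₄.trans hn).symm
    obtain ⟨h₇, h₈⟩ := (eW _ _ _).1 h₂
    refine h₅ ((eW _ _ _).2 ⟨hC' _ _ _ h₆ h₇, fun b'' hb'' i'' => ?_⟩)
    obtain ⟨r, h₉, h₁₀⟩ := h₈ b'' (hb''.trans (hb n)) i''
    exact ⟨r, ⟨hL' _ _ _ h₆ h₉.1, h₉.2⟩, h₁₀⟩
  obtain ⟨h, hh, eh⟩ : ∃ h : D → Fn g ℕ Prop, g.Tm h ∧ ∀ i n, h i n ↔ ∃ q, cd q = e n ∧ Dd i q :=
    ⟨fun i => ⟨fun n => ∃ q, cd q = e n ∧ Dd i q, by fun_prop⟩, by fun_prop, fun _ _ => Iff.rfl⟩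
  obtain ⟨e', he'⟩ := ctbl_of_wo hd hc hh
  obtain ⟨c, h₁, h₂, h₃⟩ := ws_chain (g := g) (nx := fun (y : g.Yy) n p => g.least fun p' =>
    (L p' p ∧ Dd (g.least fun i => e' n = h i) p') ∧ V p' y) (by fun_prop) p₀
  refine ⟨c, h₁, fun y hy => ?_⟩
  have h₄ : ∀ n, V (c y n) y → (L (c y (n + 1)) (c y n) ∧
      Dd (g.least fun i => e' n = h i) (c y (n + 1))) ∧ V (c y (n + 1)) y := fun n hn => by
    rw [h₃]
    exact least_spec (g := g) (P := fun p' => (L p' (c y n) ∧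
      Dd (g.least fun i => e' n = h i) p') ∧ V p' y) (step _ _ _ hn)
  have h₅ : ∀ n, V (c y n) y := fun n => by
    induction n with
    | zero => rw [h₂]; exact (eV _ _).2 hy
    | succ n ih => exact (h₄ n ih).2
  refine ⟨h₂ y, fun n => ⟨((eV _ _).1 (h₅ n)).1, (h₄ n (h₅ n)).1.1⟩, fun i => ?_⟩
  obtain ⟨n, hn⟩ := he' i
  have h₆ := least_spec (g := g) (P := fun i => e' n = h i) ⟨i, hn⟩
  obtain ⟨m, hm⟩ := he (c y (n + 1))
  have h₇ := (eh _ m).2 ⟨_, hm.symm, (h₄ n (h₅ n)).1.2⟩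
  rw [← h₆, hn] at h₇
  obtain ⟨q, h₈, h₉⟩ := (eh _ _).1 h₇
  exact ⟨n + 1, hD' _ _ _ (h₈.trans hm) h₉⟩

/-- A system whose root lies between the projection of `F i₀ ∩ X` and that of `F i₀`. -/
theorem exists_wsys (hd : g.TDet ℕ) (hc : g.TDC) {T I : Type (u + 1)} [Cd g T] [Bd g T]
    [LinearOrder T] [OT g T] [Inhabited T] [Cd g I] [Bd g I] [WO g I] [Inhabited I] (hT : g.Unc T)
    {F : I → g.Re → Prop} (hF : g.Tm fun z : I × g.Re => F z.1 z.2) (hs : IsSys F) (i₀ : I) :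
    ∃ (J : Type (u + 1)) (_ : Cd g J) (_ : Bd g J) (_ : WO g J) (_ : Inhabited J)
      (ch : g.PR → J → J → Prop) (bas : g.PR → J → St → Prop) (A : g.PR → J → g.Yy → Prop)
      (root : J), (∀ X, WellFounded (ch X)) ∧
      g.Tm (fun z : g.PR × J × J => ch z.1 z.2.1 z.2.2) ∧
      g.Tm (fun z : g.PR × J × St => bas z.1 z.2.1 z.2.2) ∧
      (∀ X j y, A X j y ↔ (∀ n, bas X j (ini y n)) ∧ ∀ j', ch X j' j → ¬ A X j' y) ∧
      (∀ (X : g.PR) x, X x → F i₀ x → A X root (yx x)) ∧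
      ∀ d, ∃ G : g.Yy → g.Re, g.Tm G ∧
        ∀ y, A (Xs d) root y → F i₀ (G y) ∧ yx (G y) = y := by
  obtain ⟨S, p₀, hS, eS, dS⟩ := ws_cond hF i₀
  obtain ⟨J, i₁, i₂, i₃, i₄, ch, bas, A, root, W, h₁, h₂, h₃, h₄, h₅, h₆, h₇⟩ :=
    ws_tree (g := g) (T := T)
      (C := fun X p s => ∃ x, (X x ∧ S p x) ∧ ini (yx x) s.length = s) (by fun_prop)
      (R := fun X (i : I × ℕ) p' p => (∀ x, X x ∧ S p' x → X x ∧ S p x) ∧
        WDd F i fun x => X x ∧ S p' x) (by unfold WDd; fun_prop) p₀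
  refine ⟨J, i₁, i₂, i₃, i₄, ch, bas, A, root, h₁, h₂, h₃, h₄, fun X x hx hF' => ?_, fun d => ?_⟩
  · have key : ∀ a p, S p x → W X a p (yx x) := fun a => by
      induction a using (OT.wf (g := g) (T := T)).induction with
      | _ a ih =>
        refine fun p hp => (h₆ _ _ _ _).2 ⟨fun n => ⟨x, ⟨hx, hp⟩, by simp⟩, fun b hb i => ?_⟩
        obtain ⟨p', h₈, h₉, h₁₀⟩ := dS p x i hp
        exact ⟨p', ⟨fun x' h => ⟨h.1, h₉ x' h.2⟩, h₁₀ _ fun _ h => h.2⟩, ih b hb p' h₈⟩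
    refine (h₇ _ _).2 ⟨fun n => ⟨x, ⟨hx, (eS x).2 hF'⟩, by simp⟩, fun b i => ?_⟩
    obtain ⟨p', h₈, h₉, h₁₀⟩ := dS p₀ x i ((eS x).2 hF')
    exact ⟨p', ⟨fun x' h => ⟨h.1, h₉ x' h.2⟩, h₁₀ _ fun _ h => h.2⟩, key b p' h₈⟩
  · obtain ⟨cd, hcd, ecd⟩ : ∃ cd : List ((ℕ × ℕ × ℕ) × I) → Fn g ℕ Prop, g.Tm cd ∧
        ∀ p q, cd p = cd q → (fun x => Xs d x ∧ S p x) = fun x => Xs d x ∧ S q x := by
      refine ⟨fun p => ⟨fun k => S p (En d k), by fun_prop⟩, by fun_prop, fun p q h => ?_⟩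
      funext x
      refine propext (and_congr_right ?_)
      rintro ⟨k, rfl⟩
      exact iff_of_eq (congrArg (fun f : Fn g ℕ Prop => f k) h)
    obtain ⟨c, hc₁, hc₂⟩ := ws_generic hd hc hT hcd
      (C := fun p y => ∀ n, ∃ x, (Xs d x ∧ S p x) ∧ ini (yx x) (ini y n).length = ini y n)
      (by fun_prop) (fun p q y h h' n => by
        obtain ⟨x, h₈, h₉⟩ := h' n
        exact ⟨x, (congrFun (ecd p q h) x).mp h₈, h₉⟩)
      (L := fun p' p => ∀ x, Xs d x ∧ S p' x → Xs d x ∧ S p x) (by fun_prop)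
      (fun p q r h h' x hx => (congrFun (ecd p q h) x).mp (h' x hx))
      (Dd := fun (i : I × ℕ) p => WDd F i fun x => Xs d x ∧ S p x) (by unfold WDd; fun_prop)
      (fun i p q h h' => ecd p q h ▸ h') (h₅ (Xs d)) (h₆ (Xs d)) p₀
    refine ⟨fun y => ⟨fun n => g.least fun m => ∃ k, ∀ x, Xs d x ∧ S (c y k) x → x n = m,
      by fun_prop⟩, by fun_prop, fun y hy => ?_⟩
    obtain ⟨e₀, e₁, e₂⟩ := hc₂ y ((h₇ _ _).1 hy)
    have mono : ∀ k k', k ≤ k' → ∀ x, Xs d x ∧ S (c y k') x → Xs d x ∧ S (c y k) x := by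
      intro k k' hk x hx
      induction k', hk using Nat.le_induction with
      | base => exact hx
      | succ m _ ih => exact ih ((e₁ m).2 x hx)
    have hz : ∀ n, ∃ k, ∀ x, Xs d x ∧ S (c y k) x →
        x n = g.least fun m => ∃ k, ∀ x, Xs d x ∧ S (c y k) x → x n = m := fun n => by
      obtain ⟨k, ⟨m, hm⟩, -⟩ := e₂ (i₀, n)
      exact least_spec (g := g) (P := fun m => ∃ k, ∀ x, Xs d x ∧ S (c y k) x → x n = m)
        ⟨m, k, hm⟩
    refine ⟨(ws_truth hs (Q := fun k x => Xs d x ∧ S (c y k) x) (fun k k' => ?_) e₂ hz i₀).1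
      ⟨0, fun x hx => (eS x).1 (e₀ ▸ hx.2)⟩, Fn.ext' fun n => ?_⟩
    · obtain ⟨x, hx, -⟩ := (e₁ (max k k')).1 0
      exact ⟨x, mono _ _ (le_max_left _ _) x hx, mono _ _ (le_max_right _ _) x hx⟩
    · obtain ⟨k, hk⟩ := hz (2 * n)
      obtain ⟨x, hx, hx'⟩ := (e₁ k).1 (n + 1)
      rw [length_ini, ini_eq_iff] at hx'
      rw [← hx' n (Nat.lt_succ_self n)]
      exact congrArg Nat.unpair (hk x hx).symm

end Mdl

end Pool.Agent.MP_09d684_lc

end
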