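import Pool.Agent.Mg.F09d684a.Ga313b4
import Pool.Agent.Mg.F09d684a.Ge05232
import Pool.Agent.Mg.F09d684a.G8b4a59

section

namespace Pool.Agent.MP_09d684_lc

open ZFSet

universe u v w

namespace Mdl

variable {g : Mdl.{u}}

open Cd

/-- A canonical family closed under a well-ordered family of operations. -/
theorem exists_closed {Γ T K α : Type*} [Cd g Γ] [Cd g T] [Bd g T] [LinearOrder T] [OT g T]
    [Inhabited T] [Cd g K] [WO g K] [Inhabited K] [Cd g α] [Inhabited α] (hT : g.Unc T)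
    (hct : ∀ h : T → α, g.Tm h → ∃ e : Fn g ℕ α, ∀ w, ∃ n, e n = h w)
    {Out : Γ → Fn g T α → K → α} (hO : g.Tm fun z : Γ × Fn g T α × K => Out z.1 z.2.1 z.2.2)
    (a₀ : α) : ∃ ρ : Γ → Fn g T α, g.Tm ρ ∧
      ∀ x, (∃ b, ρ x b = a₀) ∧ ∀ t, ∃ b, ρ x b = Out x (ρ x) t := by
  classical
  obtain ⟨tr, htm, htr⟩ : ∃ tr : T → Fn g T α → Fn g T α,
      g.Tm (fun z : T × Fn g T α => tr z.1 z.2) ∧ ∀ b f c, tr b f c = if c < b then f c else a₀ :=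
    ⟨fun b f => ⟨fun c => if c < b then f c else a₀, by fun_prop⟩, by fun_prop, fun _ _ _ => rfl⟩
  obtain ⟨nx, hnm, hnx⟩ : ∃ nx : Γ → Fn g T α → α,
      g.Tm (fun z : Γ × Fn g T α => nx z.1 z.2) ∧ ∀ x r, nx x r =
        if ∃ t, ¬ ∃ c, r c = Out x r t then Out x r (g.least fun t => ¬ ∃ c, r c = Out x r t)
        else a₀ :=
    ⟨fun x r => if ∃ t, ¬ ∃ c, r c = Out x r t then
      Out x r (g.least fun t => ¬ ∃ c, r c = Out x r t) else a₀, by fun_prop, fun _ _ => rfl⟩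
  refine ⟨fun x => g.rfix (· < ·) fun b f => nx x (tr b f),
    tm_rfix (r := fun _ => (· < ·)) (fun _ => OT.wf g) (by fun_prop) (by fun_prop), fun x => ?_⟩
  set ρ : Fn g T α := g.rfix (· < ·) fun b f => nx x (tr b f) with hρ
  have heq : ∀ b, ρ b = nx x (tr b ρ) := fun b =>
    rfix_eq (r := (· < ·)) (Ψ := fun b f => nx x (tr b f)) (OT.wf g) (by fun_prop) (by fun_prop)
      (fun a f h e => by
        congr 1
        refine Fn.ext' fun c => ?_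
        rw [htr, htr]
        split_ifs with hc
        exacts [e c hc, rfl]) b
  by_cases hcl : ∃ b, ∀ t, ∃ c, tr b ρ c = Out x (tr b ρ) t
  · obtain ⟨b, hb⟩ := hcl
    have h₁ : ∀ b', b ≤ b' → ρ b' = a₀ := fun b' => by
      induction b' using (OT.wf g (T := T)).induction with
      | _ b' ih =>
        intro hb'
        have e : tr b' ρ = tr b ρ := Fn.ext' fun c => by
          rw [htr, htr]
          by_cases h : c < b
          · rw [if_pos h, if_pos (h.trans_le hb')]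
          · rw [if_neg h]
            split_ifs with h'
            exacts [ih c h' (not_lt.1 h), rfl]
        rw [heq, e, hnx, if_neg]
        rintro ⟨t, ht⟩
        exact ht (hb t)
    have e : tr b ρ = ρ := Fn.ext' fun c => by
      rw [htr]
      split_ifs with h
      exacts [rfl, (h₁ c (not_lt.1 h)).symm]
    rw [e] at hb
    exact ⟨⟨b, h₁ b le_rfl⟩, hb⟩
  · exfalso
    have h₁ : ∀ b c, c < b → ρ c ≠ ρ b := fun b c hc e => by
      have h₂ : ∃ t, ¬ ∃ c, tr b ρ c = Out x (tr b ρ) t := by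
        by_contra h
        exact hcl ⟨b, fun t => by_contra fun h' => h ⟨t, h'⟩⟩
      have h₃ := least_spec (g := g) h₂
      refine h₃ ⟨c, ?_⟩
      rw [htr, if_pos hc, e, heq b, hnx, if_pos h₂]
    obtain ⟨e, he⟩ := hct ρ ρ.tm
    obtain ⟨b, hb⟩ := hT ⟨fun n => g.least fun c => ρ c = e n, by fun_prop⟩
    obtain ⟨n, hn⟩ := he b
    have h₄ : ρ (g.least fun c => ρ c = e n) = e n :=
      least_spec (g := g) (P := fun c => ρ c = e n) ⟨b, hn.symm⟩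
    exact h₁ b _ (hb n) (h₄.trans hn)

end Mdl

end Pool.Agent.MP_09d684_lc

end

section

namespace Pool.Agent.MP_09d684_lc

open ZFSet

universe u v w

namespace Mdl

variable {g : Mdl.{u}}

open Cd

/-- The forcing relation over a family of reservoirs. -/
theorem gen_exists_Fp {Γ T J : Type*} [Cd g Γ] [Cd g T] [Bd g T] [Cd g J] [Bd g J]
    {ch : Γ → J → J → Prop} (wf : ∀ x, WellFounded (ch x))
    (hch : g.Tm fun z : Γ × J × J => ch z.1 z.2.1 z.2.2) {bas : Γ → J → St → Prop}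
    (hbas : g.Tm fun z : Γ × J × St => bas z.1 z.2.1 z.2.2) :
    ∃ Fp : Γ × Fn g T g.Rs → J → g.Cn → Prop,
      g.Tm (fun z : (Γ × Fn g T g.Rs) × J × g.Cn => Fp z.1 z.2.1 z.2.2) ∧
      ∀ x j c, Fp x j c ↔ (∀ y, Cube c.1 c.2 y → ∀ n, bas x.1 j (ini y n)) ∧
        ∀ j', ch x.1 j' j → ∀ c', CLe c' c → (∃ b, x.2 b = c'.2) → ¬ Fp x j' c' := by
  obtain ⟨Ψ, hΨ, eΨ⟩ : ∃ Ψ : Γ × Fn g T g.Rs → J → Fn g J (Fn g g.Cn Prop) → Fn g g.Cn Prop,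
      g.Tm (fun z : (Γ × Fn g T g.Rs) × J × Fn g J (Fn g g.Cn Prop) => Ψ z.1 z.2.1 z.2.2) ∧
      ∀ x j f c, Ψ x j f c ↔ (∀ y, Cube c.1 c.2 y → ∀ n, bas x.1 j (ini y n)) ∧
        ∀ j', ch x.1 j' j → ∀ c', CLe c' c → (∃ b, x.2 b = c'.2) → ¬ f j' c' :=
    ⟨fun x j f => ⟨fun c => (∀ y, Cube c.1 c.2 y → ∀ n, bas x.1 j (ini y n)) ∧
      ∀ j', ch x.1 j' j → ∀ c', CLe c' c → (∃ b, x.2 b = c'.2) → ¬ f j' c', by fun_prop⟩,
      by fun_prop, fun _ _ _ _ => Iff.rfl⟩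
  obtain ⟨F, h₁, h₂⟩ : ∃ F : Γ × Fn g T g.Rs → Fn g J (Fn g g.Cn Prop), g.Tm F ∧
      ∀ x j, F x j = Ψ x j (F x) := ⟨fun x => g.rfix (ch x.1) (Ψ x),
    tm_rfix (r := fun x : Γ × Fn g T g.Rs => ch x.1) (fun x => wf x.1) (by fun_prop) hΨ,
    fun x j => rfix_eq (wf x.1) (by fun_prop) (by fun_prop) (fun a f h e => Fn.ext' fun c => propext (by
      rw [eΨ, eΨ]
      exact and_congr_right fun _ => forall_congr' fun j' => forall_congr' fun hj => by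
        rw [e j' hj])) j⟩
  refine ⟨fun x j c => F x j c, by fun_prop, fun x j c => ?_⟩
  show F x j c ↔ _
  rw [h₂, eΨ]

/-- The Mathias property inside a closed family. -/
theorem gen_good {C : g.Rs → Prop} {D : g.Cn → Prop} (hm : ∀ R R', C R → C R' → C (meet R R'))
    (hd : ∀ c : g.Cn, C c.2 → NE c → ∃ c' : g.Cn, C c'.2 ∧ CLe c' c ∧ D c')
    {st : St → g.Rs → g.Rs} (h₀ : g.Tm fun z : St × g.Rs => st z.1 z.2)
    (hst : ∀ t R, (C (st t R) ∧ RLe (st t R) R ∧ Good D t (st t R)) ∨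
      (st t R = R ∧ ∀ R', C R' → RLe R' R → ¬ Good D t R')) {s : St} {R : g.Rs} (hR : C R)
    (B : Fn g St Prop) (hB : ∀ t, B t ↔ ¬ Good D t (fus st s R))
    (h₂ : C (fus (pig B) s (fus st s R))) : RLe (fus st s R) R ∧ Good D s (fus st s R) := by
  have hle : ∀ t R, RLe (st t R) R := fun t R => by
    rcases hst t R with h | h
    · exact h.2.1
    · rw [h.1]; exact RLe.refl R
  have hC : ∀ t R, C R → C (st t R) := fun t R hR => by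
    rcases hst t R with h | h
    · exact h.1
    · rw [h.1]; exact hR
  refine ⟨(fus_le h₀ hle s R).trans (hle s R), mp_core hm hd B hB (fun t ht => ?_) h₂⟩
  obtain ⟨R', -, hc, hy⟩ := fus_tip h₀ hle ht
  rcases hst t R' with h | h
  · exact Or.inl fun y hy' => h.2.2 y (hy y hy')
  · refine Or.inr fun R'' hR'' hle' hg => h.2 (meet R' R'') (hm _ _ (hc C hR hC) hR'')
      (meet_le _ _) fun y hy' => hg y ?_
    have h₃ : Cube t R'' (lm t R'') := NE.lm (s := t) (R := meet R' R'') ⟨y, hy'⟩ R''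
    have h₄ : Cube t R' (lm t R'') := by
      have := hy _ (cube_le hle' h₃)
      rwa [h.1] at this
    exact (meet_cube h₄ h₃).2 y hy'

/-- Forcing over a canonical closed family of reservoirs decides a system of sets. -/
theorem exists_generic {Γ T J : Type*} [Cd g Γ] [Cd g T] [Bd g T] [LinearOrder T] [OT g T]
    [Inhabited T] [Cd g J] [Bd g J] [WO g J] [Inhabited J] (hT : g.Unc T)
    (hct : ∀ h : T → g.Rs, g.Tm h → ∃ e : Fn g ℕ g.Rs, ∀ w, ∃ n, e n = h w)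
    {ch : Γ → J → J → Prop} (wf : ∀ x, WellFounded (ch x))
    (hch : g.Tm fun z : Γ × J × J => ch z.1 z.2.1 z.2.2) {bas : Γ → J → St → Prop}
    (hbas : g.Tm fun z : Γ × J × St => bas z.1 z.2.1 z.2.2) {A : Γ → J → g.Yy → Prop}
    (hA : ∀ x j y, A x j y ↔ (∀ n, bas x j (ini y n)) ∧ ∀ j', ch x j' j → ¬ A x j' y)
    (R₀ : g.Rs) : ∃ (ρ : Γ → T → g.Rs) (D : Γ → J → g.Cn → Prop),
      g.Tm (fun z : Γ × T => ρ z.1 z.2) ∧ g.Tm (fun z : Γ × J × g.Cn => D z.1 z.2.1 z.2.2) ∧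
      ∀ x, (∃ b, ρ x b = R₀) ∧ (∀ j c, D x j c → ∃ b, ρ x b = c.2) ∧
        (∀ j t b, ∃ b', RLe (ρ x b') (ρ x b) ∧ Good (D x j) t (ρ x b')) ∧
        ∀ y j, (∀ j, ∃ c, D x j c ∧ Cube c.1 c.2 y) → A x j y → ∃ c : g.Cn, Cube c.1 c.2 y ∧
          ∀ y', Cube c.1 c.2 y' → (∀ j, ∃ c, D x j c ∧ Cube c.1 c.2 y') → A x j y' := by
  classical
  obtain ⟨Fp, hFp, eFp⟩ := gen_exists_Fp (T := T) wf hch hbas
  obtain ⟨D, hD, eD⟩ : ∃ D : Γ × Fn g T g.Rs → J → g.Cn → Prop,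
      g.Tm (fun z : (Γ × Fn g T g.Rs) × J × g.Cn => D z.1 z.2.1 z.2.2) ∧
      ∀ x j c, D x j c ↔ (∃ b, x.2 b = c.2) ∧ (Fp x j c ∨
        (∃ n, ∀ y, Cube c.1 c.2 y → ¬ bas x.1 j (ini y n)) ∨ ∃ j', ch x.1 j' j ∧ Fp x j' c) :=
    ⟨fun x j c => (∃ b, x.2 b = c.2) ∧ (Fp x j c ∨
      (∃ n, ∀ y, Cube c.1 c.2 y → ¬ bas x.1 j (ini y n)) ∨ ∃ j', ch x.1 j' j ∧ Fp x j' c),
      by fun_prop, fun _ _ _ => Iff.rfl⟩
  obtain ⟨st, hst, est⟩ : ∃ st : (Γ × Fn g T g.Rs) × J → St → g.Rs → g.Rs,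
      g.Tm (fun z : ((Γ × Fn g T g.Rs) × J) × St × g.Rs => st z.1 z.2.1 z.2.2) ∧
      ∀ x t R, st x t R = if ∃ b, RLe (x.1.2 b) R ∧ Good (D x.1 x.2) t (x.1.2 b) then
        x.1.2 (g.least fun b => RLe (x.1.2 b) R ∧ Good (D x.1 x.2) t (x.1.2 b)) else R :=
    ⟨fun x t R => if ∃ b, RLe (x.1.2 b) R ∧ Good (D x.1 x.2) t (x.1.2 b) then
      x.1.2 (g.least fun b => RLe (x.1.2 b) R ∧ Good (D x.1 x.2) t (x.1.2 b)) else R,
      by fun_prop, fun _ _ _ => rfl⟩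
  obtain ⟨B, hB, eB⟩ : ∃ B : (Γ × Fn g T g.Rs) × J → g.Rs → Fn g St Prop,
      g.Tm (fun z : ((Γ × Fn g T g.Rs) × J) × g.Rs => B z.1 z.2) ∧
      ∀ x R t, B x R t ↔ ¬ Good (D x.1 x.2) t R :=
    ⟨fun x R => ⟨fun t => ¬ Good (D x.1 x.2) t R, by fun_prop⟩, by fun_prop,
      fun _ _ _ => Iff.rfl⟩
  obtain ⟨ρ, hρ, hcl⟩ := exists_closed (Γ := Γ) (K := ℕ × T × T × J × St) hT hct
    (Out := fun x r k => if k.1 = 0 then meet (r k.2.1) (r k.2.2.1) else if k.1 = 1 then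
      fus (st ((x, r), k.2.2.2.1)) k.2.2.2.2 (r k.2.1) else
      fus (pig (B ((x, r), k.2.2.2.1) (r k.2.1))) k.2.2.2.2 (r k.2.1)) (by fun_prop) R₀
  refine ⟨fun x b => ρ x b, fun x => D (x, ρ x), by fun_prop, by fun_prop, fun x => ?_⟩
  obtain ⟨h₀, hk⟩ := hcl x
  have hm : ∀ R R', (∃ b, ρ x b = R) → (∃ b, ρ x b = R') → ∃ b, ρ x b = meet R R' := by
    rintro _ _ ⟨b, rfl⟩ ⟨b', rfl⟩
    simpa using hk (0, b, b', default, default)
  have her : ∀ j c c', Fp (x, ρ x) j c → CLe c' c → Fp (x, ρ x) j c' := fun j c c' h hc => by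
    rw [eFp] at h ⊢
    exact ⟨fun y hy => h.1 y (hc.2.2 y hy), fun j' hj c'' hc' => h.2 j' hj c'' (hc'.trans hc)⟩
  have hd : ∀ j (c : g.Cn), (∃ b, ρ x b = c.2) → NE c →
      ∃ c' : g.Cn, (∃ b, ρ x b = c'.2) ∧ CLe c' c ∧ D (x, ρ x) j c' := fun j c hc hne => by
    by_cases h : Fp (x, ρ x) j c
    · exact ⟨c, hc, CLe.refl hne, (eD _ _ _).2 ⟨hc, Or.inl h⟩⟩
    rw [eFp, not_and_or] at h
    rcases h with h | h
    · push Not at h
      obtain ⟨y, hy, n, hn⟩ := h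
      refine ⟨(ini y (max n c.1.length), c.2), hc, cle_ini hy (le_max_right _ _),
        (eD _ _ _).2 ⟨hc, Or.inr (Or.inl ⟨n, fun y' hy' => ?_⟩)⟩⟩
      have e : ini y' (max n c.1.length) = ini y (max n c.1.length) := by simpa using hy'.1
      have e' : ini y' n = ini y n :=
        ini_eq_iff.2 fun k hk => ini_eq_iff.1 e k (hk.trans_le (le_max_left _ _))
      rwa [e']
    · push Not at h
      obtain ⟨j', hj, c', h₁, h₂, h₃⟩ := h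
      exact ⟨c', h₂, h₁, (eD _ _ _).2 ⟨h₂, Or.inr (Or.inr ⟨j', hj, h₃⟩)⟩⟩
  have truth : ∀ y, (∀ j, ∃ c, D (x, ρ x) j c ∧ Cube c.1 c.2 y) → ∀ j, A x j y ↔
      ∃ c : g.Cn, (∃ b, ρ x b = c.2) ∧ Cube c.1 c.2 y ∧ Fp (x, ρ x) j c := fun y hy j => by
    induction j using (wf x).induction with
    | _ j ih =>
      rw [hA]
      constructor
      · rintro ⟨h₁, h₂⟩
        obtain ⟨c, hc, hyc⟩ := hy j
        obtain ⟨hc₀, h | ⟨n, h⟩ | ⟨j', hj, h⟩⟩ := (eD _ _ _).1 hc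
        · exact ⟨c, hc₀, hyc, h⟩
        · exact absurd (h₁ n) (h y hyc)
        · exact absurd ((ih j' hj).2 ⟨c, hc₀, hyc, h⟩) (h₂ j' hj)
      · rintro ⟨c, hc₀, hyc, h⟩
        refine ⟨((eFp _ _ _).1 h).1 y hyc, fun j' hj hA' => ?_⟩
        obtain ⟨c', hc₀', hyc', h'⟩ := (ih j' hj).1 hA'
        obtain ⟨-, h₁, h₂⟩ := cle_meet hyc hyc' (le_max_left _ _) (le_max_right _ _)
        exact ((eFp _ _ _).1 h).2 j' hj _ h₁ (hm _ _ hc₀ hc₀') (her j' c' _ h' h₂)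
  refine ⟨h₀, fun j c h => ((eD _ _ _).1 h).1, fun j t b => ?_, fun y j hy hAy => ?_⟩
  · obtain ⟨b₁, hb₁⟩ : ∃ b₁, ρ x b₁ = fus (st ((x, ρ x), j)) t (ρ x b) := by
      simpa using hk (1, b, b, j, t)
    obtain ⟨b₂, hb₂⟩ : ∃ b₂, ρ x b₂ = fus (pig (B ((x, ρ x), j) (ρ x b₁))) t (ρ x b₁) := by
      simpa using hk (2, b₁, b₁, j, t)
    refine ⟨b₁, ?_⟩
    show RLe (ρ x b₁) (ρ x b) ∧ Good (D (x, ρ x) j) t (ρ x b₁)
    rw [hb₁] at hb₂ ⊢
    refine gen_good (C := fun R => ∃ b, ρ x b = R) hm (hd j) (by fun_prop) (fun t R => ?_)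
      ⟨b, rfl⟩ _ (eB _ _) ⟨b₂, hb₂⟩
    rw [est]
    split_ifs with h
    · exact Or.inl ⟨⟨_, rfl⟩, least_spec (g := g) h⟩
    · refine Or.inr ⟨rfl, ?_⟩
      rintro _ ⟨b', rfl⟩ h₁ h₂
      exact h ⟨b', h₁, h₂⟩
  · obtain ⟨c, hc₀, hyc, h⟩ := (truth y hy j).1 hAy
    exact ⟨c, hyc, fun y' hy' hg => (truth y' hg j).2 ⟨c, hc₀, hy', h⟩⟩

end Mdl

end Pool.Agent.MP_09d684_lc

end

section

namespace Pool.Agent.MP_09d684_lc

open ZFSet

universe u v w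

namespace Mdl

variable {g : Mdl.{u}}

open Cd

/-- The odd part of a real. -/
def plusOdd (x : g.Re) : g.Re := ⟨fun n => x (2 * n + 1), by fun_prop⟩

@[fun_prop] theorem tm_plusOdd {Γ : Type*} [Cd g Γ] {x : Γ → g.Re} (h : g.Tm x) :
    g.Tm fun a => plusOdd (x a) := by unfold plusOdd; fun_prop

/-- The join of an element of the space and a real. -/
def plusJoin (y : g.Yy) (r : g.Re) : g.Re :=
  ⟨fun n => if n % 2 = 0 then Nat.pair (y (n / 2)).1 (y (n / 2)).2 else r (n / 2), by fun_prop⟩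

theorem yx_plusJoin (y : g.Yy) (r : g.Re) : yx (plusJoin y r) = y :=
  Fn.ext' fun n => by simp [yx, plusJoin]

theorem plusOdd_plusJoin (y : g.Yy) (r : g.Re) : plusOdd (plusJoin y r) = r :=
  Fn.ext' fun n => by
    have h : (2 * n + 1) / 2 = n := by omega
    simp [plusOdd, plusJoin, h]

theorem lu_of_tib (hd : g.TDet ℕ) (hc : g.TDC) (hb : g.TIB) {T : Type (u + 1)} [Cd g T] [Bd g T]
    [LinearOrder T] [OT g T] [Inhabited T] (hT : g.Unc T) : g.LU := by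
  intro ρ hρ c hne
  obtain ⟨k, hk, F, i₀, hF, hs, hA⟩ := hb (fun x => ρ (yx x) (plusOdd x)) (by fun_prop)
  haveI : Inhabited (Elt k) := ⟨i₀⟩
  obtain ⟨J, _, _, _, _, ch, bas, A, root, wf, hch, hbas, hAA, hroot, hG⟩ :=
    exists_wsys hd hc hT hF hs i₀
  obtain ⟨ρ', D, hρ', hD, hgen⟩ := exists_generic (Γ := g.PR) hT
    (fun h hh => ctbl_of_wo hd hc hh) wf hch hbas hAA c.2
  obtain ⟨e₁, he₁⟩ := ae_range hd hc (h := ρ') hρ'
  have tmD : ∀ X j, g.Tm fun z : St × ℕ => D X j (z.1, e₁ z.2) := fun X j => by fun_prop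
  obtain ⟨e₂, he₂⟩ := ae_range hd hc (W := J) (α := Fn g (St × ℕ) Prop)
    (h := fun X j => ⟨fun z => D X j (z.1, e₁ z.2), tmD X j⟩) (by fun_prop)
  obtain ⟨d₀, h₁, h₂⟩ := (he₁.and he₂).ex
  obtain ⟨H, hH, hgc⟩ := gen_cube hc (C := fun R => ∃ k, e₁ k = R) (by fun_prop)
    (D := fun n c => ∃ k, c.2 = e₁ k ∧ e₂ n (c.1, k)) (by fun_prop) (fun n t R hR => by
      obtain ⟨j, hj⟩ := (h₂ _).2 ⟨n, rfl⟩
      obtain ⟨b, rfl⟩ := (h₁ R).2 hR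
      obtain ⟨-, hg₂, hg₃, -⟩ := hgen (Xs d₀)
      obtain ⟨b', hle, hgood⟩ := hg₃ j t b
      refine ⟨_, (h₁ _).1 ⟨b', rfl⟩, hle, fun y hy => ?_⟩
      obtain ⟨c', hc', hy'⟩ := hgood y hy
      obtain ⟨m, hm⟩ := (h₁ _).1 (hg₂ j c' hc')
      refine ⟨c', ⟨m, hm.symm, ?_⟩, hy'⟩
      rw [← hj]
      show D (Xs d₀) j (c'.1, e₁ m)
      rw [hm]
      exact hc') (R := c.2) ((h₁ _).1 (hgen (Xs d₀)).1)
  have hcH : CLe (c.1, H) c := cle_of_rle (s := c.1) (R := c.2) hne hH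
  by_cases hw : ∀ y, Cube c.1 H y → ∀ r, ¬ ρ y r
  · exact ⟨(c.1, H), hcH, Or.inl hw⟩
  push Not at hw
  obtain ⟨y, hy, r, hr⟩ := hw
  obtain ⟨d, ⟨-, h₄⟩, h₅⟩ := ((he₁.and he₂).and (ae_fine (plusJoin y r))).ex
  have gen : ∀ y', Cube c.1 H y' → ∀ j, ∃ c', D (Xs d) j c' ∧ Cube c'.1 c'.2 y' := by
    intro y' hy' j
    obtain ⟨n, hn⟩ := (h₄ _).1 ⟨j, rfl⟩
    obtain ⟨c', ⟨m, hm, hm'⟩, hc'⟩ := hgc c.1 y' n hy'
    refine ⟨c', ?_, hc'⟩
    rw [hn] at hm'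
    change D (Xs d) j (c'.1, e₁ m) at hm'
    rwa [← hm] at hm'
  have hAy : A (Xs d) root y := by
    have := hroot (Xs d) (plusJoin y r) h₅ ((hA _).2 (by rwa [yx_plusJoin, plusOdd_plusJoin]))
    rwa [yx_plusJoin] at this
  obtain ⟨c₁, hc₁, hall⟩ := (hgen (Xs d)).2.2.2 y root (gen y hy) hAy
  obtain ⟨G, tmG, hGs⟩ := hG d
  obtain ⟨-, l₁, l₂⟩ := cle_meet (c := (c.1, H)) (c' := c₁) (n := max c.1.length c₁.1.length)
    hy hc₁ (le_max_left _ _) (le_max_right _ _)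
  refine ⟨_, l₁.trans hcH, Or.inr ⟨fun y' => plusOdd (G y'), by fun_prop, fun y' hy' => ?_⟩⟩
  obtain ⟨a₁, a₂⟩ := hGs y' (hall y' (l₂.2.2 y' hy') (gen y' (l₁.2.2 y' hy')))
  have := (hA _).1 a₁
  rwa [a₂] at this

end Mdl

end Pool.Agent.MP_09d684_lc

end
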