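import Pool.Agent.Mg.F09d684a.Ga313b4
import Pool.Agent.Mg.F09d684a.G8b4a59

section

namespace Pool.Agent.MP_09d684_lc

open ZFSet

universe u v w

namespace Mdl

variable {g : Mdl.{u}}

open Cd

variable {T : Type*} [Cd g T] [Bd g T] [LinearOrder T] [OT g T] [Inhabited T]

omit [Bd g T] [Inhabited T] in
theorem ord_min (g : Mdl.{u}) [Cd g T] [OT g T] {P : T → Prop} (h : ∃ a, P a) :
    ∃ a, P a ∧ ∀ b, P b → a ≤ b := by
  obtain ⟨a, ha, hm⟩ := (OT.wf g : WellFounded ((· < ·) : T → T → Prop)).has_min {a | P a} h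
  exact ⟨a, ha, fun b hb => not_lt.1 (hm b hb)⟩

omit [Bd g T] [Inhabited T] in
theorem ord_le_ap (g : Mdl.{u}) [Cd g T] [OT g T] {f : T → T} (hf : ∀ a b, a < b → f a < f b)
    (a : T) : a ≤ f a := by
  by_contra h
  obtain ⟨b, hb, hm⟩ := ord_min g (P := fun a => f a < a) ⟨a, not_le.1 h⟩
  exact absurd (hm _ (hf _ _ hb)) (not_le.2 hb)

/-- The range of a function of the model. -/
def ordRg (f : Fn g T T) : Fn g T Prop := ⟨fun b => ∃ a, f a = b, by fun_prop⟩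

/-- The composition of two functions of the model. -/
def ordCp (f h : Fn g T T) : Fn g T T := ⟨fun a => f (h a), by fun_prop⟩

omit [OT g T] [Inhabited T] in
theorem big_ordRg {f : Fn g T T} (hf : ∀ a b, a < b → f a < f b) : Big (ordRg f) :=
  ⟨f, hf, fun _ => Iff.rfl⟩

theorem least_ordRg {f : Fn g T T} (hf : ∀ a b, a < b → f a < f b) {o : T} (ho : ∀ a, o ≤ a) :
    g.least (ordRg f).ap = f o := by
  refine le_antisymm (least_ole (P := (ordRg f).ap) ⟨o, rfl⟩) ?_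
  obtain ⟨a, ha⟩ := least_spec (g := g) (P := (ordRg f).ap) ⟨f o, o, rfl⟩
  rw [← ha]
  rcases (ho a).eq_or_lt with rfl | h
  exacts [le_rfl, (hf _ _ h).le]

theorem TSP.shift (h : g.TSP T) : ∃ (o : T) (s : Fn g T T), (∀ a, o ≤ a) ∧
    (∀ a b, a < b → s a < s b) ∧ o < s o := by
  classical
  obtain ⟨e, w, h₁, -, h₃⟩ := h.long
  have hm : StrictMono e.ap := strictMono_nat_of_lt_succ h₁
  have hl : ∀ n, g.least (fun m => e m = e n) = n := fun n =>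
    hm.injective (least_spec (g := g) (P := fun m => e m = e n) ⟨n, rfl⟩)
  let s : Fn g T T := ⟨fun a => if ∃ n, e n = a then e (g.least (fun m => e m = a) + 1) else a,
    by fun_prop⟩
  have s₁ : ∀ n, s (e n) = e (n + 1) := fun n => by
    show (if ∃ m, e m = e n then e (g.least (fun m => e m = e n) + 1) else e n) = _
    rw [if_pos ⟨n, rfl⟩, hl]
  have s₂ : ∀ a, (¬ ∃ n, e n = a) → s a = a := fun a ha => if_neg ha
  refine ⟨e 0, s, fun a => not_lt.1 fun ha => ?_, fun a b hab => ?_, by rw [s₁]; exact h₁ 0⟩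
  · obtain ⟨m, rfl⟩ := h₃ a 0 ha
    exact absurd (hm.lt_iff_lt.1 ha) (Nat.not_lt_zero m)
  · by_cases hb : ∃ n, e n = b
    · obtain ⟨n, rfl⟩ := hb
      obtain ⟨m, rfl⟩ := h₃ a n hab
      rw [s₁, s₁]
      exact hm (Nat.succ_lt_succ (hm.lt_iff_lt.1 hab))
    · rw [s₂ b hb]
      by_cases ha : ∃ n, e n = a
      · obtain ⟨n, rfl⟩ := ha
        rw [s₁]
        exact not_le.1 fun hle => hb (h₃ b (n + 2) (hle.trans_lt (h₁ (n + 1))))
      · rwa [s₂ a ha]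

theorem TSP.tail (h : g.TSP T) (a : T) :
    ∃ t : Fn g T T, (∀ x y, x < y → t x < t y) ∧ ∀ x, a < t x := by
  classical
  obtain ⟨o, s, ho, hs, hlt⟩ := h.shift
  obtain ⟨K, ⟨f, hf, hK⟩, i, hi⟩ := h.part (fun z => if g.least z.ap < a then g.least z.ap else o)
    (by fun_prop) (max a (s o)) fun z _ => by
      split_ifs with hz
      exacts [hz.trans_le (le_max_left _ _), hlt.trans_le (le_max_right _ _)]
  have hfs : ∀ x y, x < y → ordCp f s x < ordCp f s y := fun x y hxy => hf _ _ (hs _ _ hxy)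
  have e₁ := hi _ (big_ordRg hf) fun x hx => (hK x).2 hx
  have e₂ := hi _ (big_ordRg hfs) fun x ⟨y, hy⟩ => (hK x).2 ⟨s y, hy⟩
  rw [least_ordRg hf ho] at e₁
  rw [least_ordRg hfs ho] at e₂
  have h₀ : f o < ordCp f s o := hf _ _ hlt
  have h₁ : a ≤ ordCp f s o := not_lt.1 fun hc => by
    rw [if_pos hc] at e₂
    rw [if_pos (h₀.trans hc)] at e₁
    exact h₀.ne (e₁.trans e₂.symm)
  exact ⟨ordCp (ordCp f s) s, fun x y hxy => hfs _ _ (hs _ _ hxy), fun x =>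
    h₁.trans_lt (hfs _ _ (hlt.trans_le (by
      rcases (ho x).eq_or_lt with rfl | hx
      exacts [le_rfl, (hs _ _ hx).le])))⟩

theorem TSP.reg (h : g.TSP T) (a : T) (f : Fn g T T) : ∃ b, ∀ x, x < a → f x < b := by
  by_contra hn
  have hn' : ∀ b, ∃ x, x < a ∧ b ≤ f x := fun b => by
    by_contra hc
    exact hn ⟨b, fun x hx => not_le.1 fun hb => hc ⟨x, hx, hb⟩⟩
  obtain ⟨o, -, ho, -, -⟩ := h.shift
  obtain ⟨K, ⟨k, hk, hK⟩, i, hi⟩ := h.part (fun z => g.least fun x => x < a ∧ g.least z.ap ≤ f x)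
    (by fun_prop) a fun z _ => (least_spec (g := g) (hn' (g.least z.ap))).1
  obtain ⟨t, ht, ht'⟩ := h.tail (f i)
  have hkt : ∀ x y, x < y → ordCp k t x < ordCp k t y := fun x y hxy => hk _ _ (ht _ _ hxy)
  have e := hi _ (big_ordRg hkt) fun x ⟨y, hy⟩ => (hK x).2 ⟨t y, hy⟩
  have h₁ := (least_spec (g := g) (hn' (g.least (ordRg (ordCp k t)).ap))).2
  rw [e, least_ordRg hkt ho] at h₁
  exact absurd ((ht' o).trans_le ((ord_le_ap g hk (t o)).trans h₁)) (lt_irrefl _)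

theorem TSP.unc (h : g.TSP T) : g.Unc T := by
  intro f
  obtain ⟨e, w, h₁, h₂, -⟩ := h.long
  have hm : StrictMono e.ap := strictMono_nat_of_lt_succ h₁
  obtain ⟨b, hb⟩ := h.reg w ⟨fun a => f (g.least fun m => e m = a), by fun_prop⟩
  refine ⟨b, fun n => ?_⟩
  have hl : g.least (fun m => e m = e n) = n :=
    hm.injective (least_spec (g := g) (P := fun m => e m = e n) ⟨n, rfl⟩)
  have := hb (e n) (h₂ n)
  rwa [show (f (g.least fun m => e m = e n) < b) = (f n < b) by rw [hl]] at this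

theorem TSP.nomax (h : g.TSP T) (a : T) : ∃ b, a < b := by
  obtain ⟨t, -, ht⟩ := h.tail a
  exact ⟨t a, ht a⟩

theorem TSP.big_iff (h : g.TSP T) (x : Fn g T Prop) : Big x ↔ ∀ a, ∃ b, a < b ∧ x b := by
  constructor
  · rintro ⟨f, hf, hx⟩ a
    obtain ⟨b, hb⟩ := h.nomax a
    exact ⟨f b, hb.trans_le (ord_le_ap g hf b), (hx _).2 ⟨b, rfl⟩⟩
  · intro hx
    let Ψ : T → Fn g T T → T := fun a G => g.least fun b => x b ∧ ∀ c, c < a → G c < b
    let F : Fn g T T := g.rfix (· < ·) Ψ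
    have hF : ∀ a, F a = g.least fun b => x b ∧ ∀ c, c < a → F c < b :=
      rfix_eq (OT.wf g) (by fun_prop) (by fun_prop) fun a f f' e => by
        refine congrArg g.least (funext fun b => propext (and_congr_right fun _ => ?_))
        exact forall_congr' fun c => imp_congr_right fun hc => by rw [e c hc]
    have h₁ : ∀ a, x (F a) ∧ ∀ c, c < a → F c < F a := fun a => by
      obtain ⟨b₀, hb₀⟩ := h.reg a F
      obtain ⟨b, hb, hxb⟩ := hx b₀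
      have := least_spec (g := g) (P := fun b => x b ∧ ∀ c, c < a → F c < b)
        ⟨b, hxb, fun c hc => (hb₀ c hc).trans hb⟩
      rwa [← hF a] at this
    have h₂ : ∀ a b, a < b → F a < F b := fun a b hab => (h₁ b).2 a hab
    refine ⟨F, h₂, fun b => ⟨fun hb => ?_, fun ⟨a, e⟩ => e ▸ (h₁ a).1⟩⟩
    obtain ⟨a, ha, hm⟩ := ord_min g (P := fun a => b ≤ F a) ⟨b, ord_le_ap g h₂ b⟩
    refine ⟨a, le_antisymm ?_ ha⟩
    rw [hF a]
    exact least_ole (P := fun b => x b ∧ ∀ c, c < a → F c < b)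
      ⟨hb, fun c hc => not_le.1 fun hle => absurd (hm c hle) (not_le.2 hc)⟩

/-- Closure points of a definable function are unbounded. -/
theorem TSP.closure (h : g.TSP T) {N : T → T} (hN : g.Tm N) (a₀ : T) :
    ∃ l, a₀ < l ∧ ∀ a, a < l → N a < l := by
  let S : T → T := fun s => g.least fun t => s < t ∧ ∀ a, a < s → N a < t
  have hS : ∀ s, s < S s ∧ ∀ a, a < s → N a < S s := fun s => by
    obtain ⟨b, hb⟩ := h.reg s ⟨N, hN⟩
    obtain ⟨t, ht⟩ := h.nomax (max s b)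
    exact least_spec (g := g) (P := fun t => s < t ∧ ∀ a, a < s → N a < t)
      ⟨t, (le_max_left _ _).trans_lt ht, fun a ha => (hb a ha).trans ((le_max_right _ _).trans_lt ht)⟩
  have hT : g.Tm fun n : ℕ => S^[n] a₀ := by
    simp only [S]
    fun_prop
  obtain ⟨l, hl, hm⟩ := ord_min g (h.unc ⟨_, hT⟩)
  refine ⟨l, hl 0, fun a ha => ?_⟩
  obtain ⟨n, hn⟩ : ∃ n, a ≤ S^[n] a₀ := by
    by_contra hc
    exact absurd (hm a fun n => not_le.1 fun hle => hc ⟨n, hle⟩) (not_le.2 ha)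
  have h₁ := (hS (S (S^[n] a₀))).2 a (hn.trans_lt (hS _).1)
  have h₂ : S^[n + 1 + 1] a₀ < l := hl (n + 1 + 1)
  rw [Function.iterate_succ_apply', Function.iterate_succ_apply'] at h₂
  exact h₁.trans h₂

/-- The accumulation points of a set. -/
def ordAcc (z : Fn g T Prop) : Fn g T Prop :=
  ⟨fun a => (∃ b, b < a) ∧ ∀ b, b < a → ∃ c, z c ∧ b < c ∧ c < a, by fun_prop⟩

/-- The isolated accumulation points of a set. -/
def ordLim (z : Fn g T Prop) : Fn g T Prop :=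
  ⟨fun a => ordAcc z a ∧ ∃ b, b < a ∧ ∀ c, b < c → c < a → ¬ ordAcc z c, by fun_prop⟩

omit [Inhabited T] in
theorem tm_ordLim : g.Tm (ordLim (g := g) (T := T)) := by
  have : g.Tm (ordAcc (g := g) (T := T)) := by
    unfold ordAcc
    fun_prop
  unfold ordLim
  fun_prop

omit [Inhabited T] in
theorem ordAcc_mono {z K : Fn g T Prop} (h : ∀ a, z a → K a) {a : T} (ha : ordAcc z a) :
    ordAcc K a :=
  ⟨ha.1, fun b hb => (ha.2 b hb).imp fun c hc => ⟨h c hc.1, hc.2⟩⟩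

theorem TSP.acc_unb (h : g.TSP T) {z : Fn g T Prop} (hz : ∀ a, ∃ b, a < b ∧ z b) (a : T) :
    ∃ b, a < b ∧ ordAcc z b := by
  obtain ⟨l, h₁, h₂⟩ := h.closure (N := fun a => g.least fun b => a < b ∧ z b) (by fun_prop) a
  exact ⟨l, h₁, ⟨a, h₁⟩, fun b hb => ⟨_, (least_spec (g := g) (hz b)).2,
    (least_spec (g := g) (hz b)).1, h₂ b hb⟩⟩

theorem TSP.lim_unb (h : g.TSP T) {z : Fn g T Prop} (hz : ∀ a, ∃ b, a < b ∧ z b) (a : T) :
    ∃ b, a < b ∧ ordLim z b := by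
  obtain ⟨l, hl, hm⟩ := ord_min g (h.acc_unb hz a)
  exact ⟨l, hl.1, hl.2, a, hl.1, fun c h₁ h₂ h₃ => absurd (hm c ⟨h₁, h₃⟩) (not_le.2 h₂)⟩

/-- The passage from a set to the limits of its successive blocks of length `ω`. -/
theorem TSP.exists_lim (h : g.TSP T) : ∃ L : Fn g T Prop → Fn g T Prop, g.Tm L ∧
    (∀ z, Big z → Big (L z)) ∧
    (∀ K x : Fn g T Prop, Big K → Big x → (∀ a, x a → L K a) →
      ∃ z, Big z ∧ (∀ a, z a → K a) ∧ L z = x) ∧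
    ∀ b : T → T, g.Tm b → ∃ x, Big x ∧ ∀ K : Fn g T Prop,
      (∀ a, ∃ k, K k ∧ a < k ∧ k < b a) → ∃ z, Big z ∧ (∀ a, z a → K a) ∧ L z = x := by
  refine ⟨ordLim, tm_ordLim, fun z hz => (h.big_iff _).2 (h.lim_unb ((h.big_iff _).1 hz)),
    fun K x _ hx hxK => ?_, fun b hb => ?_⟩
  · let z : Fn g T Prop := ⟨fun k => K k ∧ ∃ l, x l ∧ k < l ∧ ∀ c, k < c → c < l → ¬ ordAcc K c,
      by fun_prop⟩
    have hzK : ∀ a, z a → K a := fun a ha => ha.1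
    have h₁ : ∀ l, x l → ordAcc z l := fun l hl => by
      obtain ⟨hK, b₀, hb₀, hn⟩ := hxK l hl
      refine ⟨hK.1, fun b hb => ?_⟩
      obtain ⟨k, hk, hk₁, hk₂⟩ := hK.2 _ (max_lt hb hb₀)
      exact ⟨k, ⟨hk, l, hl, hk₂, fun c hc => hn c (((le_max_right _ _).trans_lt hk₁).trans hc)⟩,
        (le_max_left _ _).trans_lt hk₁, hk₂⟩
    refine ⟨z, (h.big_iff _).2 fun a => ?_, hzK, Fn.ext' fun l => propext ⟨?_, fun hl => ?_⟩⟩
    · obtain ⟨l, hl, hxl⟩ := (h.big_iff _).1 hx a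
      obtain ⟨c, hc, hc₁, -⟩ := (h₁ l hxl).2 a hl
      exact ⟨c, hc₁, hc⟩
    · rintro ⟨hl, b₀, hb₀, hn⟩
      obtain ⟨k, ⟨-, l', hl', hk, hn'⟩, hk₁, hk₂⟩ := hl.2 b₀ hb₀
      rcases lt_trichotomy l l' with e | rfl | e
      exacts [absurd (ordAcc_mono hzK hl) (hn' l hk₂ e), hl',
        absurd (h₁ l' hl') (hn l' (hk₁.trans hk) e)]
    · obtain ⟨-, b₀, hb₀, hn⟩ := hxK l hl
      exact ⟨h₁ l hl, b₀, hb₀, fun c hc hc' ha => hn c hc hc' (ordAcc_mono hzK ha)⟩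
  · let S : Fn g T Prop := ⟨fun l => ∀ a, a < l → b a < l, by fun_prop⟩
    have hS : ∀ a, ∃ l, a < l ∧ S l := h.closure hb
    refine ⟨ordLim S, (h.big_iff _).2 (h.lim_unb hS), fun K hK => ?_⟩
    let z : Fn g T Prop := ⟨fun k => K k ∧ ∃ s, S s ∧ s < k ∧ ∀ c, s < c → c < k → ¬ K c,
      by fun_prop⟩
    have h₁ : ∀ s, S s → ∃ k, z k ∧ s < k ∧ k < b s := fun s hs => by
      obtain ⟨k₀, hk₀, hk₁, hk₂⟩ := hK s
      obtain ⟨k, hk, hm⟩ := ord_min g (P := fun k => K k ∧ s < k) ⟨k₀, hk₀, hk₁⟩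
      exact ⟨k, ⟨hk.1, s, hs, hk.2, fun c h₁ h₂ h₃ => absurd (hm c ⟨h₃, h₁⟩) (not_le.2 h₂)⟩, hk.2,
        (hm k₀ ⟨hk₀, hk₁⟩).trans_lt hk₂⟩
    have h₂ : ordAcc z = ordAcc S := Fn.ext' fun l => propext ⟨fun hl => ⟨hl.1, fun b₀ hb₀ => by
      obtain ⟨k₁, hk₁, h₃, h₄⟩ := hl.2 b₀ hb₀
      obtain ⟨k₂, ⟨-, s, hs, h₅, hn⟩, h₆, h₇⟩ := hl.2 k₁ h₄
      exact ⟨s, hs, h₃.trans_le (not_lt.1 fun hc => hn k₁ hc h₆ hk₁.1), h₅.trans h₇⟩⟩,
      fun hl => ⟨hl.1, fun b₀ hb₀ => by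
      obtain ⟨s, hs, h₃, h₄⟩ := hl.2 b₀ hb₀
      obtain ⟨s', hs', h₅, h₆⟩ := hl.2 s h₄
      obtain ⟨k, hk, h₇, h₈⟩ := h₁ s hs
      exact ⟨k, hk, h₃.trans h₇, (h₈.trans (hs' s h₅)).trans h₆⟩⟩⟩
    refine ⟨z, (h.big_iff _).2 fun a => ?_, fun a ha => ha.1, Fn.ext' fun l => ?_⟩
    · obtain ⟨s, hs, hs'⟩ := hS a
      obtain ⟨k, hk, h₃, -⟩ := h₁ s hs'
      exact ⟨k, hs.trans h₃, hk⟩
    · show (ordAcc z l ∧ ∃ b, b < l ∧ ∀ c, b < c → c < l → ¬ ordAcc z c) = _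
      rw [h₂]
      rfl

end Mdl

end Pool.Agent.MP_09d684_lc

end

section

namespace Pool.Agent.MP_09d684_lc

open ZFSet

universe u v w

namespace Mdl

variable {g : Mdl.{u}}

open Cd

/-- `X` is the set of codes of the elements of `α`. -/
def GRep (g : Mdl.{u}) (α : Type v) [Cd g α] (X : Set ZFSet.{u}) : Prop :=
  ∀ x, x ∈ X ↔ ∃ a : α, (ι a : g.U).1 = x

section

variable {Γ : Type*} {α : Type*} {β : Type*} [Cd g Γ] [Cd g α] [Cd g β]

theorem grep_nat : g.GRep ℕ (omega : ZFSet.{u}) := fun _ => mem_omega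

theorem gm_mem_code [Bd g β] {f : Fn g β α} {p : ZFSet.{u}} :
    p ∈ (ι f : g.U).1 ↔ ∃ b, pair (ι b : g.U).1 (ι (f b) : g.U).1 = p := by
  constructor
  · intro hp
    obtain ⟨b, e⟩ := (Fn.E_code (p := ⟨p, g.zf.trans _ (ι f : g.U).2 _ hp⟩)).1 hp
    exact ⟨b, congrArg U.val e⟩
  · rintro ⟨b, rfl⟩
    exact (Fn.E_code (f := f) (p := pr (ι b) (ι (f b)))).2 ⟨b, rfl⟩

theorem gm_pair_code [Bd g β] {f : Fn g β α} {b : β} {v : ZFSet.{u}} :
    pair (ι b : g.U).1 v ∈ (ι f : g.U).1 ↔ v = (ι (f b) : g.U).1 := by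
  rw [gm_mem_code]
  constructor
  · rintro ⟨b', e⟩
    obtain ⟨e₁, e₂⟩ := pair_inj.1 e
    obtain rfl := inj (U.ext e₁)
    exact e₂.symm
  · rintro rfl
    exact ⟨b, rfl⟩

theorem GRep.fn [Bd g β] {D X : Set ZFSet.{u}} (hD : g.GRep β D) (hX : g.GRep α X) :
    g.GRep (Fn g β α) {x | x ∈ g.M ∧ IsFn x D X} := by
  intro x
  constructor
  · rintro ⟨hx, h₁, h₂⟩
    obtain ⟨f, hf⟩ := Fn.exists_code (α := β) (β := α) (x := ⟨x, hx⟩) (fun p hp => by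
      obtain ⟨a, ha, b, hb, e⟩ := h₁ p.1 hp
      obtain ⟨a, rfl⟩ := (hD a).1 ha
      obtain ⟨b, rfl⟩ := (hX b).1 hb
      exact ⟨a, b, U.ext e⟩) fun a => by
      obtain ⟨b, hb, hu⟩ := h₂ _ ((hD _).2 ⟨a, rfl⟩)
      obtain ⟨a', -, b', hb', e⟩ := h₁ _ hb
      obtain ⟨-, rfl⟩ := pair_inj.1 e
      obtain ⟨c, rfl⟩ := (hX _).1 hb'
      exact ⟨c, fun c' => ⟨fun h => inj (U.ext (hu _ h)), fun h => h ▸ hb⟩⟩
    exact ⟨f, congrArg U.val hf⟩
  · rintro ⟨f, rfl⟩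
    refine ⟨(ι f : g.U).2, fun p hp => ?_, fun a ha => ?_⟩
    · obtain ⟨b, rfl⟩ := gm_mem_code.1 hp
      exact ⟨_, (hD _).2 ⟨b, rfl⟩, _, (hX _).2 ⟨f b, rfl⟩, rfl⟩
    · obtain ⟨b, rfl⟩ := (hD a).1 ha
      exact ⟨_, gm_pair_code.2 rfl, fun v hv => gm_pair_code.1 hv⟩

theorem GRep.seq {X : Set ZFSet.{u}} (hX : g.GRep α X) : g.GRep (Fn g ℕ α) (Seq g.M X) :=
  GRep.fn grep_nat hX

theorem grep_re : g.GRep g.Re (Reals g.M) := GRep.seq grep_nat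

theorem gm_mem_img [Bd g α] {Q : α → Prop} (hQ : g.Tm Q) {x : ZFSet.{u}} :
    x ∈ (img Q (ι : α → g.U)).1 ↔ ∃ a, Q a ∧ (ι a : g.U).1 = x := by
  constructor
  · intro hx
    obtain ⟨a, ha, e⟩ := (E_img (y := ⟨x, g.zf.trans _ (img Q (ι : α → g.U)).2 _ hx⟩) hQ
      Tm.ι').1 hx
    exact ⟨a, ha, congrArg U.val e⟩
  · rintro ⟨a, ha, rfl⟩
    exact (E_img (y := ι a) hQ Tm.ι').2 ⟨a, ha, rfl⟩

theorem gm_code_img [Bd g α] {Q : α → Prop} (hQ : g.Tm Q) {a : α} :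
    (ι a : g.U).1 ∈ (img Q (ι : α → g.U)).1 ↔ Q a := by
  rw [gm_mem_img hQ]
  exact ⟨fun ⟨b, hb, e⟩ => inj (U.ext e) ▸ hb, fun h => ⟨a, h, rfl⟩⟩

/-- The code of the first `n` moves. -/
noncomputable def gpos (f : Fn g ℕ α) (n : ℕ) : g.U :=
  img (fun k : ℕ => k < n) fun k => pr (ι k) (ι (f k))

@[fun_prop] theorem tm_gpos {f : Γ → Fn g ℕ α} {n : Γ → ℕ} (hf : g.Tm f) (hn : g.Tm n) :
    g.Tm fun x => gpos (f x) (n x) := by
  unfold gpos
  fun_prop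

theorem mem_gpos {f : Fn g ℕ α} {n : ℕ} {p : ZFSet.{u}} :
    p ∈ (gpos f n).1 ↔ ∃ k < n, pair (nat k) (ι (f k) : g.U).1 = p := by
  have e : ∀ y : g.U, E y (gpos f n) ↔ ∃ k, k < n ∧ pr (ι k) (ι (f k)) = y := fun y =>
    E_img (by fun_prop) (by fun_prop)
  constructor
  · intro hp
    obtain ⟨k, hk, e⟩ := (e ⟨p, g.zf.trans _ (gpos f n).2 _ hp⟩).1 hp
    exact ⟨k, hk, congrArg U.val e⟩
  · rintro ⟨k, hk, rfl⟩
    exact (e (pr (ι k) (ι (f k)))).2 ⟨k, hk, rfl⟩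

theorem gpos_val (f : Fn g ℕ α) (n : ℕ) : (gpos f n).1 = restr (ι f : g.U).1 n := by
  refine ZFSet.ext fun p => ?_
  rw [mem_gpos, restr, mem_sep]
  constructor
  · rintro ⟨k, hk, rfl⟩
    exact ⟨gm_mem_code.2 ⟨k, rfl⟩, k, hk, _, rfl⟩
  · rintro ⟨h, k, hk, v, rfl⟩
    exact ⟨k, hk, by rw [(gm_pair_code (f := f) (b := k)).1 h]⟩

theorem gpos_congr {f h : Fn g ℕ α} {n : ℕ} (e : ∀ k < n, f k = h k) : gpos f n = gpos h n := by
  refine U.ext (ZFSet.ext fun p => ?_)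
  simp only [mem_gpos]
  exact exists_congr fun k => and_congr_right fun hk => by rw [e k hk]

theorem isFn_gpos {X : Set ZFSet.{u}} (hX : g.GRep α X) (f : Fn g ℕ α) (n : ℕ) :
    IsFn (gpos f n).1 (nat n : ZFSet.{u}) X := by
  refine ⟨fun p hp => ?_, fun a ha => ?_⟩
  · obtain ⟨k, hk, rfl⟩ := mem_gpos.1 hp
    exact ⟨_, nat_mem_nat.2 hk, _, (hX _).2 ⟨f k, rfl⟩, rfl⟩
  · obtain ⟨k, hk, rfl⟩ := mem_nat.1 ha
    refine ⟨_, mem_gpos.2 ⟨k, hk, rfl⟩, fun v hv => ?_⟩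
    obtain ⟨j, -, e⟩ := mem_gpos.1 hv
    obtain ⟨e₁, e₂⟩ := pair_inj.1 e
    obtain rfl := nat_injective e₁
    exact e₂.symm

theorem tdet_of_det [Bd g α] [Inhabited α] {X : Set ZFSet.{u}} (hX : g.GRep α X)
    (h : ∀ A ∈ g.M, Det g.M X A) : g.TDet α := by
  intro P hP
  obtain ⟨σ, hσ, ⟨h₁, h₂⟩, H⟩ := h _ (img P (ι : Fn g ℕ α → g.U)).2
  have key : ∀ (f : Fn g ℕ α) (n : ℕ),
      pair (gpos f n).1 (ι (ev g.U α ⟨σ, hσ⟩ (gpos f n)) : g.U).1 ∈ σ := by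
    intro f n
    obtain ⟨b, hb, hu⟩ := h₂ _ ⟨n, isFn_gpos hX f n⟩
    obtain ⟨a', -, b', hb', e⟩ := h₁ _ hb
    obtain ⟨-, rfl⟩ := pair_inj.1 e
    obtain ⟨c, rfl⟩ := (hX _).1 hb'
    rw [ev_eq (s := ⟨σ, hσ⟩) (a := gpos f n) (b := c) fun c' =>
      ⟨fun h => inj (U.ext (hu _ h)), fun h => by rw [h]; exact hb⟩]
    exact hb
  have fol : ∀ i (x : Fn g ℕ α), (∀ n, n % 2 = i → x n = ev g.U α ⟨σ, hσ⟩ (gpos x n)) →
      Follows σ i (ι x : g.U).1 := by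
    intro i x hx n hn v hv
    rw [(gm_pair_code (f := x) (b := n)).1 hv, ← gpos_val, hx n hn]
    exact key x n
  refine ⟨fun n f => ev g.U α ⟨σ, hσ⟩ (gpos f n), by fun_prop, fun n f f' e => by
    simp only [gpos_congr e], H.imp (fun H x hx => ?_) fun H x hx hp => ?_⟩
  · exact (gm_code_img hP).1 (H _ ((hX.seq _).2 ⟨x, rfl⟩) (fol 0 x hx))
  · exact H _ ((hX.seq _).2 ⟨x, rfl⟩) (fol 1 x hx) ((gm_code_img hP).2 hp)

/-- The play in which the moves of parity `i` follow `σ` and the others are taken from `f`. -/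
noncomputable def gplay [Inhabited α] (σ : ℕ → Fn g ℕ α → α) (i : ℕ) (f : Fn g ℕ α) : Fn g ℕ α :=
  g.fix fun k y => if k % 2 = i then σ k y else f k

theorem tm_gplay [Inhabited α] {σ : ℕ → Fn g ℕ α → α}
    (hσ : g.Tm fun z : ℕ × Fn g ℕ α => σ z.1 z.2) (i : ℕ) : g.Tm (gplay σ i) := by
  unfold gplay
  fun_prop

theorem gplay_eq [Inhabited α] {σ : ℕ → Fn g ℕ α → α}
    (hσ : g.Tm fun z : ℕ × Fn g ℕ α => σ z.1 z.2) (c : Causal σ) (i : ℕ) (f : Fn g ℕ α) (n : ℕ) :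
    gplay σ i f n = if n % 2 = i then σ n (gplay σ i f) else f n :=
  fix_eq (Ψ := fun k y => if k % 2 = i then σ k y else f k) (by fun_prop)
    (fun n y y' e => by simp only [c n y y' e]) n

theorem gplay_congr [Inhabited α] {σ : ℕ → Fn g ℕ α → α}
    (hσ : g.Tm fun z : ℕ × Fn g ℕ α => σ z.1 z.2) (c : Causal σ) (i : ℕ) {f h : Fn g ℕ α} {n : ℕ}
    (e : ∀ k < n, f k = h k) : ∀ k < n, gplay σ i f k = gplay σ i h k := by
  intro k
  induction k using Nat.strong_induction_on with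
  | _ k ih =>
    intro hk
    rw [gplay_eq hσ c, gplay_eq hσ c, e k hk, c k _ _ fun j hj => ih j hj (hj.trans hk)]

end

theorem tdet_re_of_adr (h : ADR g.M) : g.TDet g.Re := tdet_of_det grep_re h

theorem tdet_nat_of_ad (h : ∀ A ∈ g.M, Det g.M omega A) : g.TDet ℕ := tdet_of_det grep_nat h

theorem tdc_of_adplus (h : ADplus g.M) : g.TDC := by
  intro Q hQ tot
  obtain ⟨f, hf, H⟩ := h.dc _ (img (fun z : g.Re × g.Re => Q z.1 z.2) ι).2 fun x hx => by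
    obtain ⟨a, rfl⟩ := (grep_re x).1 hx
    obtain ⟨b, hb⟩ := tot a
    exact ⟨_, (grep_re _).2 ⟨b, rfl⟩, (gm_code_img (a := (a, b)) hQ).2 hb⟩
  obtain ⟨f, rfl⟩ := (grep_re.seq f).1 hf
  exact ⟨f, fun n => (gm_code_img (a := (f n, f (n + 1))) hQ).1
    (H n _ _ ((gm_pair_code (f := f) (b := n)).2 rfl)
      ((gm_pair_code (f := f) (b := n + 1)).2 rfl))⟩

theorem tib_of_adplus (h : ADplus g.M) : g.TIB := by
  intro A hA
  obtain ⟨γ, hγ, ho, F, hF, ⟨h₁, h₂⟩, ⟨β₀, h₀⟩, H⟩ := h.borel _ (img A ι).2 fun x hx => by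
    obtain ⟨a, -, e⟩ := (gm_mem_img hA).1 hx
    exact (grep_re x).2 ⟨a, e⟩
  have : Fact (IsOrdinal (⟨γ, hγ⟩ : g.U).1) := ⟨ho⟩
  let F' : Elt (⟨γ, hγ⟩ : g.U) → g.Re → Prop := fun i x =>
    ∃ B : g.U, E (pr i.1 B) ⟨F, hF⟩ ∧ E (ι x) B
  have idx : ∀ β B, pair β B ∈ F → ∃ i : Elt (⟨γ, hγ⟩ : g.U), i.1.1 = β ∧
      ∀ x, F' i x ↔ (ι x : g.U).1 ∈ B := by
    intro β B hB
    obtain ⟨a, ha, b, hb, e⟩ := h₁ _ hB
    obtain ⟨rfl, rfl⟩ := pair_inj.1 e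
    refine ⟨⟨⟨β, g.zf.trans _ hγ _ ha⟩, ha⟩, rfl, fun x => ⟨?_, fun hx => ⟨⟨B, hb⟩, hB, hx⟩⟩⟩
    rintro ⟨C, hC, hx⟩
    rw [(h₂ β ha).unique hB hC]
    exact hx
  obtain ⟨i₀, -, e₀⟩ := idx _ _ h₀
  refine ⟨⟨γ, hγ⟩, this, F', i₀, by simp only [F']; fun_prop, fun i => ?_,
    fun x => (e₀ x).trans (gm_code_img hA)⟩
  obtain ⟨B, hB, -⟩ := h₂ _ i.2
  obtain ⟨i', e, eB⟩ := idx _ _ hB
  obtain rfl : i' = i := Elt.ext (U.ext e)
  have hr : ∀ x : g.Re, (ι x : g.U).1 ∈ Reals g.M := fun x => (grep_re _).2 ⟨x, rfl⟩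
  rcases H _ _ hB with ⟨n, m, e⟩ | ⟨δ, hδ, C, hC, e⟩ | ⟨a, -, ha, e⟩
  · refine Or.inl ⟨n, m, fun x => ?_⟩
    rw [eB, e, and_iff_right (hr x)]
    exact (gm_pair_code (f := x) (b := n)).trans
      ⟨fun h => (nat_injective h).symm, fun h => congrArg nat h.symm⟩
  · obtain ⟨j, rfl, eC⟩ := idx _ _ hC
    exact Or.inr (Or.inl ⟨j, hδ, fun x => by rw [eB, e, and_iff_right (hr x), eC]⟩)
  · refine Or.inr (Or.inr fun x hx => ?_)
    obtain ⟨δ, hδ, C, hC, hx⟩ := (e _).1 ((eB x).1 hx)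
    obtain ⟨j, rfl, eC⟩ := idx _ _ hC
    exact ⟨j, ha hδ, (eC x).2 hx, fun x' hx' => (eB x').2 ((e _).2 ⟨_, hδ, C, hC, (eC x').1 hx'⟩)⟩

theorem TDet.rl (h : g.TDet g.Re) (α : Type*) [Cd g α] [RL g α] : g.TDet α := by
  intro P hP
  have : Inhabited α := ⟨RL.dec (default : g.Re)⟩
  let d : Fn g ℕ g.Re → Fn g ℕ α := fun x => ⟨fun n => RL.dec (x n), by fun_prop⟩
  let e : Fn g ℕ α → Fn g ℕ g.Re := fun x => ⟨fun n => RL.enc (x n), by fun_prop⟩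
  have hd : g.Tm d := by simp only [d]; fun_prop
  have he : g.Tm e := by simp only [e]; fun_prop
  obtain ⟨σ, hσ, c, H⟩ := h (fun x => P (d x)) (by fun_prop)
  have key : ∀ i, ∃ τ : ℕ → Fn g ℕ α → α, g.Tm (fun z : ℕ × Fn g ℕ α => τ z.1 z.2) ∧ Causal τ ∧
      ∀ x : Fn g ℕ α, (∀ n, n % 2 = i → x n = τ n x) →
        ∃ y : Fn g ℕ g.Re, (∀ n, n % 2 = i → y n = σ n y) ∧ d y = x := by
    intro i
    have hp := tm_gplay hσ i
    refine ⟨fun n f => RL.dec (σ n (gplay σ i (e f))), by fun_prop, fun n f f' h => ?_,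
      fun x hx => ⟨gplay σ i (e x), fun n hn => by rw [gplay_eq hσ c, if_pos hn],
        Fn.ext' fun n => ?_⟩⟩
    · show RL.dec _ = RL.dec _
      rw [c n _ _ (gplay_congr hσ c i (h := e f') fun k hk => congrArg RL.enc (h k hk))]
    · show RL.dec (gplay σ i (e x) n) = x n
      rw [gplay_eq hσ c]
      split_ifs with hn
      · exact (hx n hn).symm
      · exact RL.dec_enc _
  rcases H with H | H
  · obtain ⟨τ, h₁, h₂, h₃⟩ := key 0
    refine ⟨τ, h₁, h₂, Or.inl fun x hx => ?_⟩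
    obtain ⟨y, hy, rfl⟩ := h₃ x hx
    exact H y hy
  · obtain ⟨τ, h₁, h₂, h₃⟩ := key 1
    refine ⟨τ, h₁, h₂, Or.inr fun x hx => ?_⟩
    obtain ⟨y, hy, rfl⟩ := h₃ x hx
    exact H y hy

theorem TDet.unif (h : g.TDet g.Re) {α β : Type*} [Cd g α] [Cd g β] [RL g α] [RL g β]
    {ρ : α → β → Prop} (hρ : g.Tm fun z : α × β => ρ z.1 z.2) (tot : ∀ a, ∃ b, ρ a b) :
    ∃ F : α → β, g.Tm F ∧ ∀ a, ρ a (F a) := by
  obtain ⟨σ, hσ, c, H | H⟩ := h (fun x => ¬ ρ (RL.dec (x 0)) (RL.dec (x 1))) (by fun_prop)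
  · obtain ⟨b, hb⟩ := tot (RL.dec (σ 0 default))
    let f : Fn g ℕ g.Re := ⟨fun _ => RL.enc b, by fun_prop⟩
    refine absurd ?_ (H (gplay σ 0 f) fun n hn => by rw [gplay_eq hσ c, if_pos hn])
    rw [gplay_eq hσ c, gplay_eq hσ c, if_pos rfl, if_neg (by omega),
      c 0 _ default fun k hk => absurd hk (by omega)]
    simpa [f] using hb
  · let f : α → Fn g ℕ g.Re := fun a => ⟨fun _ => RL.enc a, by fun_prop⟩
    have hf : g.Tm f := by simp only [f]; fun_prop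
    refine ⟨fun a => RL.dec (σ 1 (f a)), by fun_prop, fun a => ?_⟩
    have := not_not.1 (H (gplay σ 1 (f a)) fun n hn => by rw [gplay_eq hσ c, if_pos hn])
    rw [gplay_eq hσ c, gplay_eq hσ c, if_neg (by omega), if_pos rfl,
      c 1 _ (f a) fun k hk => by rw [gplay_eq hσ c, if_neg (by omega)]] at this
    simpa [f] using this

theorem TDet.tdc (h : g.TDet g.Re) : g.TDC := by
  intro Q hQ tot
  obtain ⟨F, hF, H⟩ := h.unif hQ tot
  refine ⟨⟨fun n => F^[n] default, by fun_prop⟩, fun n => ?_⟩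
  show Q (F^[n] default) (F^[n + 1] default)
  rw [Function.iterate_succ_apply']
  exact H _

end Mdl

end Pool.Agent.MP_09d684_lc

end

section

namespace Pool.Agent.MP_09d684_lc

open ZFSet

universe u v w

namespace Mdl

variable {g : Mdl.{u}}

open Cd

/-- Every definable map from the reals to `T` is bounded. -/
def NS (g : Mdl.{u}) (T : Type v) [Cd g T] [LinearOrder T] : Prop :=
  ∀ f : g.Re → T, g.Tm f → ∃ b, ∀ r, f r < b

/-- Every definable total preorder on the reals is a well-ordered union of bounded sets. -/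
def LinB (g : Mdl.{u}) (T : Type v) [Cd g T] : Prop :=
  ∀ R : Fn g (g.Re × g.Re) Prop, (∀ x y, R (x, y) ∨ R (y, x)) →
    (∀ x y z, R (x, y) → R (y, z) → R (x, z)) →
    ∃ rk : g.Re → T, g.Tm rk ∧ ∀ ξ, ∃ y, ∀ x, rk x = ξ → R (x, y)

section

variable {T : Type*} [Cd g T] [Bd g T] [LinearOrder T] [OT g T] [Inhabited T]
variable {Γ : Type*} [Cd g Γ]

omit [Bd g T] [Inhabited T] in
@[fun_prop] theorem tm_omax {a b : Γ → T} (ha : g.Tm a) (hb : g.Tm b) :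
    g.Tm fun x => max (a x) (b x) := by
  classical
  have : g.Tm fun x => if a x ≤ b x then b x else a x := by fun_prop
  exact this.congr fun x => (max_def _ _).symm

omit [Inhabited T] in
@[fun_prop] theorem tm_ordAcc' {z : Γ → Fn g T Prop} (h : g.Tm z) :
    g.Tm fun x => ordAcc (z x) := by unfold ordAcc; fun_prop

omit [Inhabited T] in
@[fun_prop] theorem tm_ordLim' {z : Γ → Fn g T Prop} (h : g.Tm z) :
    g.Tm fun x => ordLim (z x) := tm_ordLim.comp h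

/-- `e` is a closure point of `b`. -/
def Cl (b : Fn g T T) (e : T) : Prop := ∀ a, a < e → b a < e

/-- Typical sets above `b`. -/
def Typ (b : Fn g T T) (x : Fn g T Prop) : Prop :=
  Big x ∧ (∀ e, x e → Cl b e) ∧ ∃ z : Fn g T Prop, ∀ e, x e → ordLim z e

/-- True for almost all typical sets. -/
def AW (P : Fn g T Prop → Prop) : Prop := ∃ b : Fn g T T, ∀ x, Typ b x → P x

/-- The next point of `x`. -/
noncomputable def nx (x : Fn g T Prop) : Fn g T T :=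
  ⟨fun a => g.least fun e => a < e ∧ x e, by fun_prop⟩

/-- The pointwise maximum. -/
def fmax (b b' : Fn g T T) : Fn g T T := ⟨fun a => max (b a) (b' a), by fun_prop⟩

/-- The part of `x` above `a`. -/
def tl (x : Fn g T Prop) (a : T) : Fn g T Prop := ⟨fun s => x s ∧ a < s, by fun_prop⟩

/-- `S` is stationary. -/
def Stat (S : Fn g T Prop) : Prop := ∀ x : Fn g T Prop, Big x → ∃ e, ordAcc x e ∧ S e

/-- The slot points of `x`: first accumulation points in `S` of big subsets of `x`. -/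
def Hs (S x : Fn g T Prop) (e : T) : Prop :=
  ∃ y : Fn g T Prop, Big y ∧ (∀ a, y a → x a) ∧ ordAcc y e ∧ S e ∧
    ∀ e', e' < e → ordAcc y e' → ¬ S e'

omit [Inhabited T] in
@[fun_prop] theorem tm_Cl {b : Γ → Fn g T T} {e : Γ → T} (h₁ : g.Tm b) (h₂ : g.Tm e) :
    g.Tm fun x => Cl (b x) (e x) := by unfold Cl; fun_prop

omit [Inhabited T] in
@[fun_prop] theorem tm_Typ {b : Γ → Fn g T T} {z : Γ → Fn g T Prop} (h₁ : g.Tm b) (h₂ : g.Tm z) :
    g.Tm fun x => Typ (b x) (z x) := by unfold Typ; fun_prop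

omit [Inhabited T] in
@[fun_prop] theorem tm_AW {P : Γ → Fn g T Prop → Prop}
    (h : g.Tm fun z : Γ × Fn g T Prop => P z.1 z.2) : g.Tm fun x => AW (P x) := by
  unfold AW; fun_prop

@[fun_prop] theorem tm_nx {z : Γ → Fn g T Prop} (h : g.Tm z) : g.Tm fun x => nx (z x) := by
  unfold nx; fun_prop

omit [Inhabited T] in
@[fun_prop] theorem tm_fmax {b b' : Γ → Fn g T T} (h₁ : g.Tm b) (h₂ : g.Tm b') :
    g.Tm fun x => fmax (b x) (b' x) := by unfold fmax; fun_prop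

omit [Inhabited T] in
@[fun_prop] theorem tm_tl {z : Γ → Fn g T Prop} {a : Γ → T} (h₁ : g.Tm z) (h₂ : g.Tm a) :
    g.Tm fun x => tl (z x) (a x) := by unfold tl; fun_prop

omit [Inhabited T] in
@[fun_prop] theorem tm_Hs {S z : Γ → Fn g T Prop} {e : Γ → T} (h₀ : g.Tm S) (h₁ : g.Tm z)
    (h₂ : g.Tm e) : g.Tm fun x => Hs (S x) (z x) (e x) := by unfold Hs; fun_prop

open Classical in
/-- The function that is `k` on the blocks `[e, f e)` at slot points `e` of `x`, and the next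
point of `x` elsewhere. -/
noncomputable def Blk (S : Fn g T Prop) (k f : Fn g T T) (x : Fn g T Prop) : Fn g T T :=
  ⟨fun a => if ∃ e, Hs S x e ∧ e ≤ a ∧ a < f e then k a else nx x a, by fun_prop⟩

@[fun_prop] theorem tm_Blk {S z : Γ → Fn g T Prop} {k f : Γ → Fn g T T} (h₀ : g.Tm S)
    (h₁ : g.Tm k) (h₂ : g.Tm f) (h₃ : g.Tm z) :
    g.Tm fun x => Blk (S x) (k x) (f x) (z x) := by unfold Blk; fun_prop

/-- Assignments of sets of reals to functions. -/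
abbrev Asg (g : Mdl.{u}) (T : Type v) [Cd g T] [Bd g T] := Fn g (Fn g T T × g.Re) Prop

/-- `L` is monotone for the pointwise order. -/
def LMono (L : g.Asg T) : Prop := ∀ (b b' : Fn g T T) r, (∀ a, b a ≤ b' a) → L (b, r) → L (b', r)

/-- The reals for which the blocks of `k` up to `f` are harmless. -/
def Lam (L : g.Asg T) (S : Fn g T Prop) (k f : Fn g T T) (r : g.Re) : Prop :=
  AW fun x => L (Blk S k f x, r)

/-- The ideal generated by the values of `L`. -/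
def InI (L : g.Asg T) (Y : g.Re → Prop) : Prop := ∃ b, ∀ r, Y r → L (b, r)

@[fun_prop] theorem tm_Lam {L : Γ → g.Asg T} {S : Γ → Fn g T Prop} {k f : Γ → Fn g T T}
    {r : Γ → g.Re} (h : g.Tm L) (h₀ : g.Tm S) (h₁ : g.Tm k) (h₂ : g.Tm f) (h₃ : g.Tm r) :
    g.Tm fun x => Lam (L x) (S x) (k x) (f x) (r x) := by unfold Lam; fun_prop

omit [LinearOrder T] [OT g T] [Inhabited T] in
@[fun_prop] theorem tm_InI {L : Γ → g.Asg T} {Y : Γ → g.Re → Prop} (h : g.Tm L)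
    (h₀ : g.Tm fun z : Γ × g.Re => Y z.1 z.2) : g.Tm fun x => InI (L x) (Y x) := by
  unfold InI; fun_prop

/-- The germ invariant of `k` at the slot `S`. -/
def Tk (L : g.Asg T) (S : Fn g T Prop) (k : Fn g T T) (r : g.Re) : Prop :=
  ∃ f, InI L (fun r' => Lam L S k f r') ∧ Lam L S k f r

@[fun_prop] theorem tm_Tk {L : Γ → g.Asg T} {S : Γ → Fn g T Prop} {k : Γ → Fn g T T}
    {r : Γ → g.Re} (h : g.Tm L) (h₀ : g.Tm S) (h₁ : g.Tm k) (h₃ : g.Tm r) :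
    g.Tm fun x => Tk (L x) (S x) (k x) (r x) := by unfold Tk; fun_prop

end

/-! ### The club measure on countable sets of reals -/

section

variable {Γ : Type*} [Cd g Γ] {γ : Type*} [Cd g γ]

/-- Reindexing of a sequence. -/
def rix (t : Fn g ℕ ℕ) (x : Fn g ℕ γ) : Fn g ℕ γ := ⟨fun n => x (t n), by fun_prop⟩

@[fun_prop] theorem tm_rix {t : Γ → Fn g ℕ ℕ} {x : Γ → Fn g ℕ γ} (h₁ : g.Tm t) (h₂ : g.Tm x) :
    g.Tm fun z => rix (t z) (x z) := by unfold rix; fun_prop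

/-- The even part. -/
def ev0 (z : g.Re) : g.Re := ⟨fun n => z (2 * n), by fun_prop⟩

/-- The odd part. -/
def ev1 (z : g.Re) : g.Re := ⟨fun n => z (2 * n + 1), by fun_prop⟩

/-- The join. -/
def jn (x y : g.Re) : g.Re := ⟨fun n => if n % 2 = 0 then x (n / 2) else y (n / 2), by fun_prop⟩

@[fun_prop] theorem tm_ev0 {x : Γ → g.Re} (h : g.Tm x) : g.Tm fun z => ev0 (x z) := by
  unfold ev0; fun_prop

@[fun_prop] theorem tm_ev1 {x : Γ → g.Re} (h : g.Tm x) : g.Tm fun z => ev1 (x z) := by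
  unfold ev1; fun_prop

@[fun_prop] theorem tm_jn {x y : Γ → g.Re} (h₁ : g.Tm x) (h₂ : g.Tm y) :
    g.Tm fun z => jn (x z) (y z) := by unfold jn; fun_prop

@[simp] theorem ev0_jn (x y : g.Re) : ev0 (jn x y) = x := Fn.ext' fun n => by simp [ev0, jn]

@[simp] theorem ev1_jn (x y : g.Re) : ev1 (jn x y) = y := Fn.ext' fun n => by
  have : (2 * n + 1) / 2 = n := by omega
  simp [ev1, jn, this]

@[simp] theorem jn_ev (z : g.Re) : jn (ev0 z) (ev1 z) = z := Fn.ext' fun n => by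
  simp only [jn, ev0, ev1]
  split_ifs with h
  · congr 1; omega
  · congr 1; omega

/-- The range of a sequence of reals. -/
def rg (e : Fn g ℕ g.Re) : g.PR := ⟨fun x => ∃ n, e n = x, by fun_prop⟩

@[fun_prop] theorem tm_rg {e : Γ → Fn g ℕ g.Re} (h : g.Tm e) : g.Tm fun z => rg (e z) := by
  unfold rg; fun_prop

/-- `X` is closed under the operations `F`. -/
def ClF (F : Fn g (ℕ × List g.Re) g.Re) (X : g.PR) : Prop :=
  ∀ n (l : List g.Re), (∀ a, a ∈ l → X a) → X (F (n, l))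

@[fun_prop] theorem tm_ClF {F : Γ → Fn g (ℕ × List g.Re) g.Re} {X : Γ → g.PR} (h₁ : g.Tm F)
    (h₂ : g.Tm X) : g.Tm fun z => ClF (F z) (X z) := by unfold ClF; fun_prop

/-- True for a club of countable sets of reals. -/
def AEn (P : g.PR → Prop) : Prop :=
  ∃ F : Fn g (ℕ × List g.Re) g.Re, ∀ e : Fn g ℕ g.Re, ClF F (rg e) → P (rg e)

@[fun_prop] theorem tm_AEn {P : Γ → g.PR → Prop} (h : g.Tm fun z : Γ × g.PR => P z.1 z.2) :
    g.Tm fun x => AEn (P x) := by unfold AEn; fun_prop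

end

/-! ### Countable posets that decide digits -/

/-- An order on `I` and a relation `i` decides that digit `n` is `m`. -/
abbrev Sy (g : Mdl.{u}) (I : Type v) (γ : Type w) [Cd g I] [Cd g γ] :=
  Fn g (I × I) Prop × Fn g (I × ℕ × γ) Prop

section

variable {Γ : Type*} [Cd g Γ] {I : Type*} [Cd g I] [Bd g I] {γ : Type*} [Cd g γ] [Bd g γ]

/-- Density among the valid conditions (those with `i ≤ i`). -/
def SDn (p : g.Sy I γ) (D : I → Prop) : Prop := ∀ i, p.1 (i, i) → ∃ j, p.1 (j, i) ∧ D j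

/-- `G` is a set of pairwise compatible conditions, closed upwards, with limit `x`. -/
def Thr (p : g.Sy I γ) (G : Fn g I Prop) (x : Fn g ℕ γ) : Prop :=
  (∀ i j, G i → p.1 (i, j) → G j) ∧ (∀ i j, G i → G j → ∃ k, p.1 (k, i) ∧ p.1 (k, j)) ∧
    ∀ i n m, G i → p.2 (i, n, m) → x n = m

/-- The dense sets `D` witness that `i` forces `Φ`. -/
def Wit (p : g.Sy I γ) (D : Fn g (ℕ × I) Prop) (i : I) (Φ : Fn g ℕ γ → Prop) : Prop :=
  (∀ n, SDn p fun j => D (n, j)) ∧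
    ∀ G x, Thr p G x → G i → (∀ n, ∃ j, G j ∧ D (n, j)) → Φ x

/-- `i` forces `Φ`. -/
def Frc (p : g.Sy I γ) (i : I) (Φ : Fn g ℕ γ → Prop) : Prop := ∃ D, Wit p D i Φ

@[fun_prop] theorem tm_SDn {p : Γ → g.Sy I γ} {D : Γ → I → Prop} (h₁ : g.Tm p)
    (h₂ : g.Tm fun z : Γ × I => D z.1 z.2) : g.Tm fun x => SDn (p x) (D x) := by
  unfold SDn; fun_prop

@[fun_prop] theorem tm_Thr {p : Γ → g.Sy I γ} {G : Γ → Fn g I Prop} {y : Γ → Fn g ℕ γ}
    (h₁ : g.Tm p) (h₂ : g.Tm G) (h₃ : g.Tm y) : g.Tm fun x => Thr (p x) (G x) (y x) := by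
  unfold Thr; fun_prop

@[fun_prop] theorem tm_Wit {p : Γ → g.Sy I γ} {D : Γ → Fn g (ℕ × I) Prop} {i : Γ → I}
    {Φ : Γ → Fn g ℕ γ → Prop} (h₁ : g.Tm p) (h₂ : g.Tm D) (h₃ : g.Tm i)
    (h₄ : g.Tm fun z : Γ × Fn g ℕ γ => Φ z.1 z.2) :
    g.Tm fun x => Wit (p x) (D x) (i x) (Φ x) := by unfold Wit; fun_prop

@[fun_prop] theorem tm_Frc {p : Γ → g.Sy I γ} {i : Γ → I} {Φ : Γ → Fn g ℕ γ → Prop}
    (h₁ : g.Tm p) (h₃ : g.Tm i) (h₄ : g.Tm fun z : Γ × Fn g ℕ γ => Φ z.1 z.2) :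
    g.Tm fun x => Frc (p x) (i x) (Φ x) := by unfold Frc; fun_prop

/-- The axioms of a countable system. -/
structure IsSy (p : g.Sy I γ) : Prop where
  trans : ∀ i j k, p.1 (i, j) → p.1 (j, k) → p.1 (i, k)
  rfl_l : ∀ i j, p.1 (i, j) → p.1 (i, i)
  rfl_r : ∀ i j, p.1 (i, j) → p.1 (j, j)
  mono : ∀ i j n m, p.1 (i, j) → p.2 (j, n, m) → p.2 (i, n, m)
  func : ∀ i n m m', p.1 (i, i) → p.2 (i, n, m) → p.2 (i, n, m') → m = m'
  dig : ∀ i n, p.1 (i, i) → ∃ j m, p.1 (j, i) ∧ p.2 (j, n, m)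
  enum : ∃ ε : Fn g ℕ I, ∀ i, p.1 (i, i) → ∃ n, p.1 (i, ε n) ∧ p.1 (ε n, i)

/-- The system of a family of sets of reals. -/
def csy (F : Fn g I g.PR) : g.Sy I ℕ :=
  (⟨fun z => (∃ x, F z.1 x) ∧ ∀ x, F z.1 x → F z.2 x, by fun_prop⟩,
    ⟨fun z => ∀ x, F z.1 x → x z.2.1 = z.2.2, by fun_prop⟩)

@[fun_prop] theorem tm_csy {F : Γ → Fn g I g.PR} (h : g.Tm F) : g.Tm fun x => csy (F x) := by
  unfold csy; fun_prop

/-- The family of rectangles. -/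
def rect (F : Fn g I g.PR) : Fn g (I × I) g.PR :=
  ⟨fun z => ⟨fun x => F z.1 (ev0 x) ∧ F z.2 (ev1 x), by fun_prop⟩, by fun_prop⟩

variable [Inhabited I]

/-- The system of finite approximations to an enumeration of a family. -/
def col (F : Fn g I g.PR) : g.Sy (List I) g.PR :=
  (⟨fun z => z.2.length ≤ z.1.length ∧
      ∀ k, k < z.2.length → F (z.1.getD k default) = F (z.2.getD k default), by fun_prop⟩,
    ⟨fun z => z.2.1 < z.1.length ∧ F (z.1.getD z.2.1 default) = z.2.2, by fun_prop⟩)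

@[fun_prop] theorem tm_col {F : Γ → Fn g I g.PR} (h : g.Tm F) : g.Tm fun x => col (F x) := by
  unfold col; fun_prop

/-- Uniformizing functions for the forcing relation of coded systems. -/
abbrev Uf (g : Mdl.{u}) := Fn g (g.Sy ℕ ℕ × ℕ × Prop) (Fn g (ℕ × ℕ) Prop)

/-- The dense sets chosen for the enumeration `c`. -/
noncomputable def capD (U : g.Uf) (s : Prop) (a : g.PR) (c : Fn g ℕ g.PR) : Fn g (ℕ × ℕ) Prop :=
  U (csy c, g.least fun k : ℕ => c k = a, s)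

@[fun_prop] theorem tm_capD {U : Γ → g.Uf} {s : Γ → Prop} {a : Γ → g.PR} {c : Γ → Fn g ℕ g.PR}
    (h₁ : g.Tm U) (h₂ : g.Tm s) (h₃ : g.Tm a) (h₄ : g.Tm c) :
    g.Tm fun x => capD (U x) (s x) (a x) (c x) := by unfold capD; fun_prop

/-- The averaged dense sets. -/
def capE (U : g.Uf) (F : Fn g I g.PR) (s : Prop) (i : I) (q : List I) (n : ℕ) (j : I) : Prop :=
  ∃ q', (col F).1 (q', q) ∧ Frc (col F) q' fun c => ∃ k, c k = F j ∧ capD U s (F i) c (n, k)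

@[fun_prop] theorem tm_capE {U : Γ → g.Uf} {F : Γ → Fn g I g.PR} {s : Γ → Prop} {i j : Γ → I}
    {q : Γ → List I} {n : Γ → ℕ} (h₁ : g.Tm U) (h₂ : g.Tm F) (h₃ : g.Tm s) (h₄ : g.Tm i)
    (h₅ : g.Tm q) (h₆ : g.Tm n) (h₇ : g.Tm j) :
    g.Tm fun x => capE (U x) (F x) (s x) (i x) (q x) (n x) (j x) := by unfold capE; fun_prop

/-- `a` is bounded by a point of `X`. -/
def Bdd (R : Fn g (g.Re × g.Re) Prop) (X a : g.PR) : Prop := ∃ y, X y ∧ ∀ x, a x → R (x, y)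

@[fun_prop] theorem tm_Bdd {R : Γ → Fn g (g.Re × g.Re) Prop} {X a : Γ → g.PR} (h₁ : g.Tm R)
    (h₂ : g.Tm X) (h₃ : g.Tm a) : g.Tm fun x => Bdd (R x) (X x) (a x) := by unfold Bdd; fun_prop

/-- A countable family of subsets of `X` with the closure properties that are used. -/
structure Fam (R : Fn g (g.Re × g.Re) Prop) (U : g.Uf) (X : g.PR) (F : Fn g I g.PR) : Prop where
  sub : ∀ j x, F j x → X x
  enum : ∃ ε : Fn g ℕ I, ∀ j, ∃ n, F (ε n) = F j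
  compl : ∀ i, ∃ j, ∀ x, F j x ↔ X x ∧ ¬ F i x
  inter : ∀ i i', ∃ j, ∀ x, F j x ↔ F i x ∧ F i' x
  dig : ∀ n m, ∃ j, ∀ x, F j x ↔ X x ∧ x n = m
  img0 : ∀ i, ∃ j, ∀ x, F j x ↔ X x ∧ ∃ z, F i z ∧ ev0 z = x
  img1 : ∀ i, ∃ j, ∀ x, F j x ↔ X x ∧ ∃ z, F i z ∧ ev1 z = x
  pre0 : ∀ i, ∃ j, ∀ x, F j x ↔ X x ∧ F i (ev0 x)
  pre1 : ∀ i, ∃ j, ∀ x, F j x ↔ X x ∧ F i (ev1 x)
  rel : ∃ j, ∀ x, F j x ↔ X x ∧ R (ev0 x, ev1 x)
  bdd : ∃ j, ∀ x, F j x ↔ X x ∧ ∃ i, F i x ∧ Bdd R X (F i)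
  cap : ∀ s i q n, ∃ j, ∀ x, F j x ↔ X x ∧ ∃ j', capE U F s i q n j' ∧ F j' x

/-- `U` chooses witnesses for the forcing of the relation `R` or of its negation. -/
def IsUf (R : Fn g (g.Re × g.Re) Prop) (U : g.Uf) : Prop :=
  ∀ p k s, (Frc p k fun z => R (ev0 z, ev1 z) ↔ s) →
    Wit p (U (p, k, s)) k fun z => R (ev0 z, ev1 z) ↔ s

end

end Mdl

end Pool.Agent.MP_09d684_lc

end

section

namespace Pool.Agent.MP_09d684_lc

open ZFSet

universe u v w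

namespace Mdl

variable {g : Mdl.{u}}

open Cd

variable {T : Type*} [Cd g T] [Bd g T] [LinearOrder T] [OT g T] [Inhabited T]

theorem nx_spec (h : g.TSP T) {x : Fn g T Prop} (hx : Big x) (a : T) :
    a < nx x a ∧ x (nx x a) :=
  least_spec (g := g) (P := fun e => a < e ∧ x e) ((h.big_iff x).1 hx a)

theorem nx_le {x : Fn g T Prop} {a e : T} (h₁ : a < e) (h₂ : x e) : nx x a ≤ e :=
  least_ole (g := g) (P := fun e => a < e ∧ x e) ⟨h₁, h₂⟩

theorem Cl.left {b b' : Fn g T T} {e : T} (h : Cl (fmax b b') e) : Cl b e :=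
  fun a ha => (le_max_left _ _).trans_lt (h a ha)

theorem Cl.right {b b' : Fn g T T} {e : T} (h : Cl (fmax b b') e) : Cl b' e :=
  fun a ha => (le_max_right _ _).trans_lt (h a ha)

theorem cl_unb (h : g.TSP T) (b : Fn g T T) (a : T) : ∃ e, a < e ∧ Cl b e :=
  h.closure (N := fun a => b a) (by fun_prop) a

/-- Accumulation points of closure points are closure points. -/
theorem cl_acc {b : Fn g T T} {x : Fn g T Prop} (hx : ∀ e, x e → Cl b e) {e : T}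
    (he : ordAcc x e) : Cl b e := fun a ha => by
  obtain ⟨c, hc, h₁, h₂⟩ := he.2 a ha
  exact (hx c hc a h₁).trans h₂

theorem big_tl (h : g.TSP T) {x : Fn g T Prop} (hx : Big x) (a : T) : Big (tl x a) :=
  (h.big_iff _).2 fun b => by
    obtain ⟨c, hc, hx⟩ := (h.big_iff x).1 hx (max a b)
    exact ⟨c, (le_max_right _ _).trans_lt hc, hx, (le_max_left _ _).trans_lt hc⟩

theorem Typ.sub {b : Fn g T T} {x y : Fn g T Prop} (hx : Typ b x) (hy : Big y)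
    (hs : ∀ a, y a → x a) : Typ b y :=
  ⟨hy, fun e he => hx.2.1 e (hs e he), hx.2.2.imp fun _ hz e he => hz e (hs e he)⟩

theorem Typ.anti {b b' : Fn g T T} {x : Fn g T Prop} (hx : Typ b' x) (hb : ∀ a, b a ≤ b' a) :
    Typ b x := ⟨hx.1, fun e he a ha => (hb a).trans_lt (hx.2.1 e he a ha), hx.2.2⟩

theorem Typ.left {b b' : Fn g T T} {x : Fn g T Prop} (hx : Typ (fmax b b') x) : Typ b x :=
  hx.anti fun _ => le_max_left _ _

theorem Typ.right {b b' : Fn g T T} {x : Fn g T Prop} (hx : Typ (fmax b b') x) : Typ b' x :=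
  hx.anti fun _ => le_max_right _ _

theorem Typ.disc {b : Fn g T T} {x : Fn g T Prop} (hx : Typ b x) {e : T} (he : x e) :
    ¬ ordAcc x e := fun ha => by
  obtain ⟨z, hz⟩ := hx.2.2
  obtain ⟨-, b₀, hb₀, hn⟩ := hz e he
  obtain ⟨c, hc, h₁, h₂⟩ := ha.2 b₀ hb₀
  exact hn c h₁ h₂ (hz c hc).1

theorem Typ.lt_nx (h : g.TSP T) {b : Fn g T T} {x : Fn g T Prop} (hx : Typ b x) (a : T) :
    b a < nx x a := hx.2.1 _ (nx_spec h hx.1 a).2 a (nx_spec h hx.1 a).1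

theorem exists_typ (h : g.TSP T) (b : Fn g T T) : ∃ x, Typ b x := by
  let C : Fn g T Prop := ⟨fun e => Cl b e, by fun_prop⟩
  exact ⟨ordLim C, (h.big_iff _).2 (h.lim_unb (z := C) (cl_unb h b)),
    fun e he => cl_acc (x := C) (fun _ h => h) he.1, C, fun _ h => h⟩

theorem fty_acc {z z' : Fn g T Prop} {a l : T} (ha : a < l)
    (e : ∀ s, a < s → s < l → z s → z' s) (hl : ordAcc z l) : ordAcc z' l :=
  ⟨hl.1, fun b hb => by
    obtain ⟨c, hc, h₁, h₂⟩ := hl.2 _ (max_lt hb ha)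
    exact ⟨c, e c ((le_max_right _ _).trans_lt h₁) h₂ hc, (le_max_left _ _).trans_lt h₁, h₂⟩⟩

theorem fty_lim {z z' : Fn g T Prop} {a l : T} (ha : a < l)
    (e : ∀ s, a < s → s < l → (z s ↔ z' s)) (hl : ordLim z l) : ordLim z' l := by
  obtain ⟨h₁, b, hb, hn⟩ := hl
  refine ⟨fty_acc ha (fun s h₂ h₃ => (e s h₂ h₃).1) h₁, max b a, max_lt hb ha,
    fun c h₂ h₃ h₄ => hn c ((le_max_left _ _).trans_lt h₂) h₃ ?_⟩
  exact fty_acc ((le_max_right _ _).trans_lt h₂) (fun s h₅ h₆ => (e s h₅ (h₆.trans h₃)).2) h₄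

/-- A big discrete subset of the union of two typical sets is typical. -/
theorem Typ.union (h : g.TSP T) {b : Fn g T T} {x x' y : Fn g T Prop} (hx : Typ b x)
    (hx' : Typ b x') (hy : Big y) (hs : ∀ a, y a → x a ∨ x' a) (hd : ∀ e, y e → ¬ ordAcc y e) :
    Typ b y := by
  obtain ⟨z, hz⟩ := hx.2.2
  obtain ⟨z', hz'⟩ := hx'.2.2
  let Z : Fn g T Prop := ⟨fun s => (x (nx y s) ∧ z s) ∨ (¬ x (nx y s) ∧ z' s), by fun_prop⟩
  refine ⟨hy, fun e he => (hs e he).elim (hx.2.1 e) (hx'.2.1 e), Z, fun e he => ?_⟩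
  have h₀ : ∃ b, b < e := (hs e he).elim (fun h => (hz e h).1.1) fun h => (hz' e h).1.1
  obtain ⟨a, ha, hn⟩ : ∃ a, a < e ∧ ∀ c, y c → a < c → e ≤ c := by
    by_contra hc
    refine hd e he ⟨h₀, fun a ha => ?_⟩
    by_contra hc'
    exact hc ⟨a, ha, fun c h₁ h₂ => not_lt.1 fun h₃ => hc' ⟨c, h₁, h₂, h₃⟩⟩
  have h₁ : ∀ s, a < s → s < e → nx y s = e := fun s h₁ h₂ =>
    le_antisymm (nx_le h₂ he) (hn _ (nx_spec h hy s).2 (h₁.trans (nx_spec h hy s).1))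
  by_cases hxe : x e
  · refine fty_lim ha (fun s h₂ h₃ => ?_) (hz e hxe)
    show z s ↔ (x (nx y s) ∧ z s) ∨ (¬ x (nx y s) ∧ z' s)
    rw [h₁ s h₂ h₃]
    tauto
  · refine fty_lim ha (fun s h₂ h₃ => ?_) (hz' e ((hs e he).resolve_left hxe))
    show z' s ↔ (x (nx y s) ∧ z s) ∨ (¬ x (nx y s) ∧ z' s)
    rw [h₁ s h₂ h₃]
    tauto

/-- Moving a set into `x` without changing its accumulation points. -/
theorem exists_acc_eq (h : g.TSP T) {x y : Fn g T Prop} (hx : Big x) (hy : Big y)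
    (ha : ∀ e, ordAcc y e → ordAcc x e) :
    ∃ z : Fn g T Prop, Big z ∧ (∀ a, z a → x a) ∧ ordAcc z = ordAcc y := by
  let z : Fn g T Prop := ⟨fun t => ∃ s, y s ∧ nx x s = t, by fun_prop⟩
  refine ⟨z, (h.big_iff _).2 fun a => ?_, ?_,
    Fn.ext' fun l => propext ⟨fun hl => ⟨hl.1, fun b hb => ?_⟩, fun hl => ⟨hl.1, fun b hb => ?_⟩⟩⟩
  · obtain ⟨s, h₁, h₂⟩ := (h.big_iff y).1 hy a
    exact ⟨nx x s, h₁.trans (nx_spec h hx s).1, s, h₂, rfl⟩
  · rintro _ ⟨s, -, rfl⟩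
    exact (nx_spec h hx s).2
  · obtain ⟨_, ⟨s₁, -, rfl⟩, h₁, h₂⟩ := hl.2 b hb
    obtain ⟨_, ⟨s₂, h₃, rfl⟩, h₄, h₅⟩ := hl.2 _ h₂
    refine ⟨s₂, h₃, h₁.trans_le (not_lt.1 fun hc => ?_), (nx_spec h hx s₂).1.trans h₅⟩
    exact absurd (nx_le hc (nx_spec h hx s₁).2) (not_le.2 h₄)
  · obtain ⟨s, h₁, h₂, h₃⟩ := hl.2 b hb
    obtain ⟨t, h₄, h₅, h₆⟩ := (ha l hl).2 s h₃
    exact ⟨nx x s, ⟨s, h₁, rfl⟩, h₂.trans (nx_spec h hx s).1, (nx_le h₅ h₄).trans_lt h₆⟩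

theorem AW.mono {P Q : Fn g T Prop → Prop} (h : AW P) (h' : ∀ x, P x → Q x) : AW Q :=
  h.imp fun _ hb x hx => h' x (hb x hx)

theorem AW.and {P Q : Fn g T Prop → Prop} (h : AW P) (h' : AW Q) : AW fun x => P x ∧ Q x := by
  obtain ⟨b, hb⟩ := h
  obtain ⟨b', hb'⟩ := h'
  exact ⟨fmax b b', fun x hx => ⟨hb x hx.left, hb' x hx.right⟩⟩

theorem aw_typ (b : Fn g T T) : AW fun x => Typ b x := ⟨b, fun _ h => h⟩

theorem AW.ex (h : g.TSP T) {P : Fn g T Prop → Prop} (hP : AW P) : ∃ x, P x := by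
  obtain ⟨b, hb⟩ := hP
  exact (exists_typ h b).imp hb

/-- The partition property for typical sets. -/
theorem aw_part (h : g.TSP T) {c : Fn g T Prop → T} (hc : g.Tm c) (m : T)
    (hm : ∀ x, Big x → c x < m) : ∃ i, AW fun x => c x = i := by
  obtain ⟨K, hK, i, hi⟩ := h.part (fun z => c (ordLim z)) (by fun_prop) m fun z hz =>
    hm _ ((h.big_iff _).2 (h.lim_unb ((h.big_iff _).1 hz)))
  refine ⟨i, nx K, fun x ⟨hx, hcl, z₁, hxz⟩ => ?_⟩
  let z : Fn g T Prop := ⟨fun k => z₁ k ∧ ∃ l, x l ∧ k < l ∧ ∀ c, k < c → c < l → ¬ ordAcc z₁ c,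
    by fun_prop⟩
  have hzK : ∀ a, z a → z₁ a := fun a ha => ha.1
  have h₁ : ∀ l, x l → ordAcc z l := fun l hl => by
    obtain ⟨hK, b₀, hb₀, hn⟩ := hxz l hl
    refine ⟨hK.1, fun b hb => ?_⟩
    obtain ⟨k, hk, hk₁, hk₂⟩ := hK.2 _ (max_lt hb hb₀)
    exact ⟨k, ⟨hk, l, hl, hk₂, fun c hc => hn c (((le_max_right _ _).trans_lt hk₁).trans hc)⟩,
      (le_max_left _ _).trans_lt hk₁, hk₂⟩
  have h₂ : Big z := (h.big_iff _).2 fun a => by
    obtain ⟨l, hl, hxl⟩ := (h.big_iff _).1 hx a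
    obtain ⟨c, hc, hc₁, -⟩ := (h₁ l hxl).2 a hl
    exact ⟨c, hc₁, hc⟩
  have h₃ : ordLim z = x := Fn.ext' fun l => propext ⟨by
    rintro ⟨hl, b₀, hb₀, hn⟩
    obtain ⟨k, ⟨-, l', hl', hk, hn'⟩, hk₁, hk₂⟩ := hl.2 b₀ hb₀
    rcases lt_trichotomy l l' with e | rfl | e
    exacts [absurd (ordAcc_mono hzK hl) (hn' l hk₂ e), hl',
      absurd (h₁ l' hl') (hn l' (hk₁.trans hk) e)], fun hl => by
    obtain ⟨-, b₀, hb₀, hn⟩ := hxz l hl
    exact ⟨h₁ l hl, b₀, hb₀, fun c hc hc' ha => hn c hc hc' (ordAcc_mono hzK ha)⟩⟩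
  obtain ⟨y, hy, hyK, e⟩ := exists_acc_eq h hK h₂ fun l hl => ⟨hl.1, fun b hb => by
    obtain ⟨k, ⟨-, l', hl', hk, hn⟩, hk₁, hk₂⟩ := hl.2 b hb
    exact ⟨nx K b, (nx_spec h hK b).2, (nx_spec h hK b).1, (hcl l' hl' b (hk₁.trans hk)).trans_le
      (not_lt.1 fun hc => hn l hk₂ hc (ordAcc_mono hzK hl))⟩⟩
  have h₄ : ordLim y = ordLim z := Fn.ext' fun l => by
    show (ordAcc y l ∧ ∃ b, b < l ∧ ∀ c, b < c → c < l → ¬ ordAcc y c) = _
    rw [e]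
    rfl
  rw [← h₃, ← h₄]
  exact hi y hy hyK

theorem aw_or (h : g.TSP T) {P : Fn g T Prop → Prop} (hP : g.Tm P) :
    AW P ∨ AW fun x => ¬ P x := by
  classical
  obtain ⟨a, ha⟩ := h.nomax default
  obtain ⟨m, hm⟩ := h.nomax a
  obtain ⟨i, hi⟩ := aw_part h (c := fun x => if P x then default else a) (by fun_prop) m
    fun x _ => by
      split_ifs
      exacts [ha.trans hm, hm]
  by_cases e : i = a
  · refine Or.inr (hi.mono fun x hx hp => ?_)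
    rw [if_pos hp, e] at hx
    exact ha.ne hx
  · refine Or.inl (hi.mono fun x hx => by_contra fun hp => ?_)
    rw [if_neg hp] at hx
    exact e hx.symm

theorem aw_all (h : g.TSP T) {P : T → Fn g T Prop → Prop}
    (hP : g.Tm fun z : T × Fn g T Prop => P z.1 z.2) (m : T) (H : ∀ ξ, ξ < m → AW (P ξ)) :
    AW fun x => ∀ ξ, ξ < m → P ξ x := by
  classical
  obtain ⟨m', hm'⟩ := h.nomax m
  obtain ⟨i, hi⟩ := aw_part h (c := fun x => if ∃ ξ, ξ < m ∧ ¬ P ξ x then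
      g.least fun ξ => ξ < m ∧ ¬ P ξ x else m) (by fun_prop) m' fun x _ => by
    split_ifs with hx
    exacts [(least_spec (g := g) hx).1.trans hm', hm']
  by_cases e : i < m
  · obtain ⟨x, h₁, h₂⟩ := (hi.and (H i e)).ex h
    split_ifs at h₁ with hx
    · exact absurd h₂ (h₁ ▸ (least_spec (g := g) hx).2)
    · exact absurd h₁ e.ne'
  · refine hi.mono fun x hx ξ hξ => by_contra fun hp => ?_
    have h₁ : ∃ ξ, ξ < m ∧ ¬ P ξ x := ⟨ξ, hξ, hp⟩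
    rw [if_pos h₁] at hx
    exact e (hx ▸ (least_spec (g := g) h₁).1)

end Mdl

end Pool.Agent.MP_09d684_lc

end

section

namespace Pool.Agent.MP_09d684_lc

open ZFSet

universe u v w

namespace Mdl

variable {g : Mdl.{u}}

open Cd

variable {I : Type*} [Cd g I] [Bd g I] {γ : Type*} [Cd g γ] [Bd g γ]

/-- A list continued by a constant. -/
def fbm_ul (g : Mdl.{u}) (l : List ℕ) (a : ℕ) : g.Re := ⟨fun k => l.getD k a, by fun_prop⟩

@[fun_prop] theorem fbm_tm_ul {Γ : Type*} [Cd g Γ] {l : Γ → List ℕ} {a : Γ → ℕ} (h₁ : g.Tm l)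
    (h₂ : g.Tm a) : g.Tm fun x => g.fbm_ul (l x) (a x) := by unfold fbm_ul; fun_prop

/-- A definable tree of conditions all of whose branches have limits with the property `Ψ`. -/
theorem fbm_abs {p : g.Sy I γ} (hp : IsSy p) {ε : Fn g ℕ I}
    (hε : ∀ i, p.1 (i, i) → ∃ n, p.1 (i, ε n) ∧ p.1 (ε n, i)) {c : g.Re → ℕ → I}
    (hc : g.Tm fun z : g.Re × ℕ => c z.1 z.2)
    (c₁ : ∀ (u u' : g.Re) n, (∀ k < n, u k = u' k) → c u n = c u' n)
    (c₃ : ∀ (u : g.Re) n, p.1 (ε (u n), c u n) → p.1 (c u (n + 1), ε (u n)))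
    {Ψ : Fn g ℕ γ → Prop} (c₄ : ∀ u, ∃ x, Ψ x ∧ ∀ d, p.2 (c u (d + 1), d, x d)) (u₀ : g.Re) :
    Frc p (c u₀ 0) Ψ := by
  let D : List ℕ → I → Prop := fun l j =>
    (∀ k, p.1 (k, j) → ¬ p.1 (k, c (g.fbm_ul l 0) l.length)) ∨
      ∃ a, p.1 (j, c (g.fbm_ul l a) (l.length + 1))
  have hD : g.Tm fun z : List ℕ × I => D z.1 z.2 := by simp only [D]; fun_prop
  refine ⟨⟨fun z => D (NL.dec g z.1) z.2, by fun_prop⟩, fun n j hj => ?_, fun G x hG h₀ hm => ?_⟩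
  · show ∃ j', p.1 (j', j) ∧ D (NL.dec g n) j'
    generalize (NL.dec g n : List ℕ) = l
    by_cases h : ∀ k, p.1 (k, j) → ¬ p.1 (k, c (g.fbm_ul l 0) l.length)
    · exact ⟨j, hj, Or.inl h⟩
    · push Not at h
      obtain ⟨k, h₁, h₂⟩ := h
      obtain ⟨a, -, h₃⟩ := hε k (hp.rfl_l _ _ h₁)
      have e : g.fbm_ul l a l.length = a := List.getD_eq_default _ _ le_rfl
      have e' : c (g.fbm_ul l 0) l.length = c (g.fbm_ul l a) l.length :=
        c₁ _ _ _ fun m hm => by simp [fbm_ul, List.getD_eq_getElem?_getD, hm]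
      have h₄ := c₃ (g.fbm_ul l a) l.length (by rw [e, ← e']; exact hp.trans _ _ _ h₃ h₂)
      rw [e] at h₄
      exact ⟨_, hp.trans _ _ _ (hp.trans _ _ _ h₄ h₃) h₁, Or.inr ⟨a, hp.rfl_l _ _ h₄⟩⟩
  · let u : g.Re := g.fix fun n f => g.least fun a => G (c (g.fbm_ul (ini f n) a) (n + 1))
    have hu : ∀ n, u n = g.least fun a => G (c (g.fbm_ul (ini u n) a) (n + 1)) := fun n =>
      fix_eq (Ψ := fun n f => g.least fun a => G (c (g.fbm_ul (ini f n) a) (n + 1)))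
        (by fun_prop) (fun n f h e => by rw [ini_eq_iff.2 e]) n
    have key : ∀ n, G (c u n) := by
      intro n
      induction n with
      | zero => rwa [c₁ u u₀ 0 fun k hk => absurd hk (by omega)]
      | succ n ih =>
        obtain ⟨j, h₁, h₂⟩ := hm (NL.enc g (ini u n))
        replace h₂ : D (NL.dec g (NL.enc g (ini u n))) j := h₂
        rw [NL.dec_enc] at h₂
        simp only [D, length_ini] at h₂
        rcases h₂ with h₂ | ⟨a, h₂⟩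
        · obtain ⟨k, h₃, h₄⟩ := hG.2.1 _ _ h₁ ih
          refine absurd ?_ (h₂ k h₃)
          rwa [c₁ _ u n fun m hm => getD_ini _ _ hm]
        · have h₃ := least_spec (g := g)
            (P := fun a => G (c (g.fbm_ul (ini u n) a) (n + 1))) ⟨a, hG.1 _ _ h₁ h₂⟩
          rw [← hu n] at h₃
          rwa [c₁ u (g.fbm_ul (ini u n) (u n)) (n + 1) fun m hm => ?_]
          rcases Nat.lt_succ_iff_lt_or_eq.1 hm with hm | rfl
          · exact (getD_ini _ _ hm).symm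
          · exact (List.getD_eq_default _ _ (by simp)).symm
    obtain ⟨y, h₁, h₂⟩ := c₄ u
    rwa [Fn.ext' fun d => hG.2.2 _ d _ (key (d + 1)) (h₂ d)]

/-- The descending chain of conditions read from a real. -/
theorem fbm_chain [WO g I] [Inhabited I] {p : g.Sy I γ} (hp : IsSy p) (ε : Fn g ℕ I) {i : I}
    (hi : p.1 (i, i)) : ∃ q : g.Re → Fn g ℕ I, g.Tm q ∧ (∀ y, q y 0 = i) ∧
      (∀ (y y' : g.Re) n, (∀ k < n, y k = y' k) → q y n = q y' n) ∧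
      ∀ (y : g.Re) n, p.1 (q y (n + 1), q y n) ∧
        (p.1 (ε (y n), q y n) → p.1 (q y (n + 1), ε (y n))) ∧ ∃ m, p.2 (q y (n + 1), n, m) := by
  classical
  let dg : ℕ → I → I := fun n j => g.least fun j' => p.1 (j', j) ∧ ∃ m, p.2 (j', n, m)
  have hdg : g.Tm fun z : ℕ × I => dg z.1 z.2 := by simp only [dg]; fun_prop
  have sdg : ∀ n j, p.1 (j, j) → p.1 (dg n j, j) ∧ ∃ m, p.2 (dg n j, n, m) := fun n j hj =>
    least_spec (g := g) (P := fun j' => p.1 (j', j) ∧ ∃ m, p.2 (j', n, m)) (by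
      obtain ⟨j', m, h⟩ := hp.dig j n hj
      exact ⟨j', h.1, m, h.2⟩)
  let Ψ : g.Re → ℕ → Fn g ℕ I → I := fun y N f => if N = 0 then i else
    dg (N - 1) (if p.1 (ε (y (N - 1)), f (N - 1)) then ε (y (N - 1)) else f (N - 1))
  have hΨ : g.Tm fun z : g.Re × ℕ × Fn g ℕ I => Ψ z.1 z.2.1 z.2.2 := by
    simp only [Ψ]; fun_prop
  have e : ∀ y N, g.fix (Ψ y) N = Ψ y N (g.fix (Ψ y)) := fun y N =>
    fix_eq (by fun_prop) (fun n f h e => by
      simp only [Ψ]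
      split_ifs with h₀ <;> first | rfl | simp_all [e (n - 1) (by omega)]) N
  have e₀ : ∀ y, g.fix (Ψ y) 0 = i := fun y => by rw [e]; simp [Ψ]
  have e₁ : ∀ y n, g.fix (Ψ y) (n + 1) = dg n
      (if p.1 (ε (y n), g.fix (Ψ y) n) then ε (y n) else g.fix (Ψ y) n) := fun y n => by
    rw [e]; simp [Ψ]
  have st : ∀ y n, p.1 (g.fix (Ψ y) n, g.fix (Ψ y) n) →
      p.1 (g.fix (Ψ y) (n + 1), g.fix (Ψ y) n) ∧
        (p.1 (ε (y n), g.fix (Ψ y) n) → p.1 (g.fix (Ψ y) (n + 1), ε (y n))) ∧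
          ∃ m, p.2 (g.fix (Ψ y) (n + 1), n, m) := by
    intro y n hn
    rw [e₁]
    split_ifs with h
    · have := sdg n _ (hp.rfl_l _ _ h)
      exact ⟨hp.trans _ _ _ this.1 h, fun _ => this.1, this.2⟩
    · have := sdg n _ hn
      exact ⟨this.1, fun h' => absurd h' h, this.2⟩
  refine ⟨fun y => g.fix (Ψ y), by fun_prop, e₀, fun y y' n => ?_, fun y n => st y n ?_⟩
  · induction n with
    | zero => intro _; rw [e₀, e₀]
    | succ n ih =>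
      intro h
      rw [e₁, e₁, ih fun k hk => h k (by omega), h n (by omega)]
  · induction n with
    | zero => rwa [e₀]
    | succ n ih => exact hp.rfl_l _ _ (st y n ih).1

/-- The Banach-Mazur dichotomy. -/
theorem frc_or [WO g I] [Inhabited I] [Inhabited γ] (hd : g.TDet ℕ) {p : g.Sy I γ} (hp : IsSy p)
    {Φ : Fn g ℕ γ → Prop} (hΦ : g.Tm Φ) {i : I} (hi : p.1 (i, i)) :
    Frc p i Φ ∨ ∃ i', p.1 (i', i) ∧ Frc p i' fun x => ¬ Φ x := by
  obtain ⟨ε, hε⟩ := hp.enum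
  obtain ⟨q, hq, q₀, q₁, q₂⟩ := fbm_chain hp ε hi
  have dec : ∀ y m n, m < n → p.1 (q y n, q y m) := by
    intro y m n h
    induction n, h using Nat.le_induction with
    | base => exact (q₂ y m).1
    | succ n _ ih => exact hp.trans _ _ _ (q₂ y n).1 ih
  let lm : g.Re → Fn g ℕ γ := fun y => ⟨fun n => the fun m => p.2 (q y (n + 1), n, m), by fun_prop⟩
  have hlm : g.Tm lm := by simp only [lm]; fun_prop
  have slm : ∀ y n, p.2 (q y (n + 1), n, lm y n) := fun y n => by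
    obtain ⟨h₁, -, m, h₂⟩ := q₂ y n
    have : lm y n = m := the_eq fun b =>
      ⟨fun hb => hp.func _ _ _ _ (hp.rfl_l _ _ h₁) hb h₂, fun hb => hb ▸ h₂⟩
    rwa [this]
  obtain ⟨σ, hσ, cs, H⟩ := hd (fun y => ¬ Φ (lm y)) (by fun_prop)
  have main : ∀ t, t ≤ 1 → ∀ Ψ : Fn g ℕ γ → Prop,
      (∀ y : g.Re, (∀ n, n % 2 = t → y n = σ n y) → Ψ (lm y)) →
      ∃ y, Frc p (q y (2 * 0 + 1 - t)) Ψ := by
    intro t ht Ψ HΨ
    let f : g.Re → g.Re := fun u => ⟨fun k => if k % 2 = t then 0 else u (k / 2), by fun_prop⟩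
    have hf : g.Tm f := by simp only [f]; fun_prop
    have hg := tm_gplay hσ t
    refine ⟨_, fbm_abs hp hε (c := fun u n => q (gplay σ t (f u)) (2 * n + 1 - t)) (by fun_prop)
      (fun u u' n e => q₁ _ _ _ (gplay_congr hσ cs t fun k hk => ?_)) (fun u n h => ?_)
      (fun u => ⟨lm (gplay σ t (f u)), HΨ _ fun n hn => by rw [gplay_eq hσ cs, if_pos hn],
        fun d => hp.mono _ _ _ _ (dec _ _ _ (by omega)) (slm _ d)⟩) default⟩
    · show (if _ then _ else _) = if _ then _ else _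
      split_ifs with h
      · rfl
      · exact e _ (by omega)
    · have e : gplay σ t (f u) (2 * n + 1 - t) = u n := by
        rw [gplay_eq hσ cs, if_neg (by omega)]
        show (if _ then _ else _) = _
        rw [if_neg (by omega), show (2 * n + 1 - t) / 2 = n by omega]
      have := (q₂ (gplay σ t (f u)) (2 * n + 1 - t)).2.1 (by rwa [e])
      rw [e] at this
      exact hp.trans _ _ _ (dec _ _ _ (by omega)) this
  rcases H with H | H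
  · obtain ⟨y, h⟩ := main 0 (by omega) (fun x => ¬ Φ x) H
    exact Or.inr ⟨_, q₀ y ▸ (q₂ y 0).1, h⟩
  · obtain ⟨y, h⟩ := main 1 le_rfl Φ fun y hy => not_not.1 (H y hy)
    exact Or.inl (q₀ y ▸ h)

end Mdl

end Pool.Agent.MP_09d684_lc

end

section

namespace Pool.Agent.MP_09d684_lc

open ZFSet

universe u v w

namespace Mdl

variable {g : Mdl.{u}}

open Cd

theorem ffa_closed {Γ T K α : Type*} [Cd g Γ] [Cd g T] [Bd g T] [LinearOrder T] [OT g T]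
    [Inhabited T] [Cd g K] [WO g K] [Inhabited K] [Cd g α] [Inhabited α] (hT : g.Unc T)
    {Out : Γ → Fn g T α → K → α} (hO : g.Tm fun z : Γ × Fn g T α × K => Out z.1 z.2.1 z.2.2)
    (a₀ : α) : ∃ ρ : Γ → Fn g T α, g.Tm ρ ∧
      ∀ x, (∀ b, ρ x b = a₀ ∨ ∃ r t, ρ x b = Out x r t) ∧
        ((∃ e : Fn g ℕ α, ∀ w, ∃ n, e n = ρ x w) → ∀ t, ∃ b, ρ x b = Out x (ρ x) t) := by
  classical
  obtain ⟨tr, htm, htr⟩ : ∃ tr : T → Fn g T α → Fn g T α,
      g.Tm (fun z : T × Fn g T α => tr z.1 z.2) ∧ ∀ b f c, tr b f c = if c < b then f c else a₀ :=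
    ⟨fun b f => ⟨fun c => if c < b then f c else a₀, by fun_prop⟩, by fun_prop, fun _ _ _ => rfl⟩
  obtain ⟨nx, hnm, hnx⟩ : ∃ nx : Γ → Fn g T α → α,
      g.Tm (fun z : Γ × Fn g T α => nx z.1 z.2) ∧ ∀ x r, nx x r =
        if ∃ t, ¬ ∃ c, r c = Out x r t then Out x r (g.least fun t => ¬ ∃ c, r c = Out x r t)
        else a₀ :=
    ⟨fun x r => if ∃ t, ¬ ∃ c, r c = Out x r t then
      Out x r (g.least fun t => ¬ ∃ c, r c = Out x r t) else a₀, by fun_prop, fun _ _ => rfl⟩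
  refine ⟨fun x => g.rfix (· < ·) fun b f => nx x (tr b f),
    tm_rfix (r := fun _ => (· < ·)) (fun _ => OT.wf g) (by fun_prop) (by fun_prop), fun x => ?_⟩
  set ρ : Fn g T α := g.rfix (· < ·) fun b f => nx x (tr b f) with hρ
  have heq : ∀ b, ρ b = nx x (tr b ρ) := fun b =>
    rfix_eq (r := (· < ·)) (Ψ := fun b f => nx x (tr b f)) (OT.wf g) (by fun_prop) (by fun_prop)
      (fun a f h e => by
        congr 1
        refine Fn.ext' fun c => ?_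
        rw [htr, htr]
        split_ifs with hc
        exacts [e c hc, rfl]) b
  refine ⟨fun b => ?_, fun ⟨e, he⟩ => ?_⟩
  · show ρ b = a₀ ∨ ∃ r t, ρ b = Out x r t
    rw [heq, hnx]
    split_ifs
    exacts [Or.inr ⟨_, _, rfl⟩, Or.inl rfl]
  by_cases hcl : ∃ b, ∀ t, ∃ c, tr b ρ c = Out x (tr b ρ) t
  · obtain ⟨b, hb⟩ := hcl
    have h₁ : ∀ b', b ≤ b' → ρ b' = a₀ := fun b' => by
      induction b' using (OT.wf g (T := T)).induction with
      | _ b' ih =>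
        intro hb'
        have e : tr b' ρ = tr b ρ := Fn.ext' fun c => by
          rw [htr, htr]
          by_cases h : c < b
          · rw [if_pos h, if_pos (h.trans_le hb')]
          · rw [if_neg h]
            split_ifs with h'
            exacts [ih c h' (not_lt.1 h), rfl]
        rw [heq, e, hnx, if_neg]
        rintro ⟨t, ht⟩
        exact ht (hb t)
    have e : tr b ρ = ρ := Fn.ext' fun c => by
      rw [htr]
      split_ifs with h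
      exacts [rfl, (h₁ c (not_lt.1 h)).symm]
    rw [e] at hb
    exact hb
  · exfalso
    have h₁ : ∀ b c, c < b → ρ c ≠ ρ b := fun b c hc e => by
      have h₂ : ∃ t, ¬ ∃ c, tr b ρ c = Out x (tr b ρ) t := by
        by_contra h
        exact hcl ⟨b, fun t => by_contra fun h' => h ⟨t, h'⟩⟩
      have h₃ := least_spec (g := g) h₂
      refine h₃ ⟨c, ?_⟩
      rw [htr, if_pos hc, e, heq b, hnx, if_pos h₂]
    obtain ⟨b, hb⟩ := hT ⟨fun n => g.least fun c => ρ c = e n, by fun_prop⟩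
    obtain ⟨n, hn⟩ := he b
    have h₄ : ρ (g.least fun c => ρ c = e n) = e n :=
      least_spec (g := g) (P := fun c => ρ c = e n) ⟨b, hn.symm⟩
    exact h₁ b _ (hb n) (h₄.trans hn)

variable {T : Type*} [Cd g T] [Bd g T] [LinearOrder T] [OT g T] [Inhabited T]

theorem exists_uf (hd : g.TDet g.Re) (R : Fn g (g.Re × g.Re) Prop) : ∃ U, IsUf R U := by
  obtain ⟨F, hF, H⟩ := hd.unif (α := g.Sy ℕ ℕ × ℕ × Prop) (β := Fn g (ℕ × ℕ) Prop)
    (ρ := fun a D => (Frc a.1 a.2.1 fun z => R (ev0 z, ev1 z) ↔ a.2.2) →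
      Wit a.1 D a.2.1 fun z => R (ev0 z, ev1 z) ↔ a.2.2) (by fun_prop) fun a => by
      by_cases h : Frc a.1 a.2.1 fun z => R (ev0 z, ev1 z) ↔ a.2.2
      · exact h.imp fun _ hD _ => hD
      · exact ⟨default, fun h' => absurd h' h⟩
  exact ⟨⟨F, hF⟩, fun p k s => H (p, k, s)⟩

omit [Inhabited T] [LinearOrder T] [OT g T] in
/-- The tasks. -/
abbrev ffa_K (T : Type*) := ℕ × T × T × List T × ℕ × ℕ × Prop

/-- The operations. -/
def ffa_op (R : Fn g (g.Re × g.Re) Prop) (U : g.Uf) (X : g.PR) (r : Fn g T g.PR) (t : ffa_K T) :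
    g.PR :=
  ⟨fun x => X x ∧ ((t.1 = 0 ∧ ¬ r t.2.1 x) ∨ (t.1 = 1 ∧ r t.2.1 x ∧ r t.2.2.1 x) ∨
    (t.1 = 2 ∧ x t.2.2.2.2.1 = t.2.2.2.2.2.1) ∨ (t.1 = 3 ∧ ∃ z, r t.2.1 z ∧ ev0 z = x) ∨
    (t.1 = 4 ∧ ∃ z, r t.2.1 z ∧ ev1 z = x) ∨ (t.1 = 5 ∧ r t.2.1 (ev0 x)) ∨
    (t.1 = 6 ∧ r t.2.1 (ev1 x)) ∨ (t.1 = 7 ∧ R (ev0 x, ev1 x)) ∨
    (t.1 = 8 ∧ ∃ i, r i x ∧ Bdd R X (r i)) ∨
    (t.1 = 9 ∧ ∃ j, capE U r t.2.2.2.2.2.2 t.2.1 t.2.2.2.1 t.2.2.2.2.1 j ∧ r j x)),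
    by fun_prop⟩

omit [LinearOrder T] [OT g T] in
theorem ffa_tm (R : Fn g (g.Re × g.Re) Prop) (U : g.Uf) :
    g.Tm fun z : g.PR × Fn g T g.PR × ffa_K T => ffa_op R U z.1 z.2.1 z.2.2 := by
  unfold ffa_op
  fun_prop

theorem ffa_enum (hd : g.TDet ℕ) (hc : g.TDC) (e : Fn g ℕ g.Re) (F : Fn g T g.PR)
    (h : ∀ j x, F j x → rg e x) : ∃ ε : Fn g ℕ T, ∀ j, ∃ n, F (ε n) = F j := by
  obtain ⟨cd, htm, hcd⟩ : ∃ cd : T → Fn g ℕ Prop, g.Tm cd ∧ ∀ j n, cd j n = F j (e n) :=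
    ⟨fun j => ⟨fun n => F j (e n), by fun_prop⟩, by fun_prop, fun _ _ => rfl⟩
  obtain ⟨en, hen⟩ := ctbl_of_wo hd hc htm
  refine ⟨⟨fun n => g.least fun j => cd j = en n, by fun_prop⟩, fun j => ?_⟩
  obtain ⟨n, hn⟩ := hen j
  have key : ∀ i j, cd i = cd j → ∀ x, F i x → F j x := fun i j hij x hx => by
    obtain ⟨k, rfl⟩ := h i x hx
    rw [← hcd] at hx ⊢
    rwa [← hij]
  have h₁ := (least_spec (g := g) (P := fun j => cd j = en n) ⟨j, hn.symm⟩).trans hn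
  exact ⟨n, Fn.ext' fun x => propext ⟨key _ _ h₁ x, key _ _ h₁.symm x⟩⟩

/-- Canonical closed families. -/
theorem exists_fam (hd : g.TDet ℕ) (hc : g.TDC) (hT : g.Unc T) (R : Fn g (g.Re × g.Re) Prop)
    (U : g.Uf) : ∃ ρ : g.PR → Fn g T g.PR, g.Tm ρ ∧
      ∀ e : Fn g ℕ g.Re, Fam R U (rg e) (ρ (rg e)) := by
  obtain ⟨ρ, hρ, H⟩ := ffa_closed hT (ffa_tm (T := T) R U) ⟨fun _ => False, by fun_prop⟩
  refine ⟨ρ, hρ, fun e => ?_⟩
  obtain ⟨H₁, H₂⟩ := H (rg e)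
  have sub : ∀ j x, ρ (rg e) j x → rg e x := fun j x hx => by
    rcases H₁ j with h | ⟨r, t, h⟩ <;> rw [h] at hx
    exacts [hx.elim, hx.1]
  obtain ⟨ε, hε⟩ := ffa_enum hd hc e _ sub
  have H₃ : ∀ t, ∃ j, ∀ x, ρ (rg e) j x ↔ ffa_op R U (rg e) (ρ (rg e)) t x := fun t =>
    (H₂ ⟨⟨fun n => ρ (rg e) (ε n), by fun_prop⟩, hε⟩ t).imp fun j hj x => by rw [hj]
  refine ⟨sub, ⟨ε, hε⟩, fun i => ?_, fun i i' => ?_, fun n m => ?_, fun i => ?_, fun i => ?_,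
    fun i => ?_, fun i => ?_, ?_, ?_, fun s i q n => ?_⟩
  · simpa [ffa_op] using H₃ (0, i, i, [], 0, 0, True)
  · refine (H₃ (1, i, i', [], 0, 0, True)).imp fun j hj x => (hj x).trans ?_
    simpa [ffa_op] using fun h _ => sub i x h
  · simpa [ffa_op] using H₃ (2, default, default, [], n, m, True)
  · simpa [ffa_op] using H₃ (3, i, i, [], 0, 0, True)
  · simpa [ffa_op] using H₃ (4, i, i, [], 0, 0, True)
  · simpa [ffa_op] using H₃ (5, i, i, [], 0, 0, True)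
  · simpa [ffa_op] using H₃ (6, i, i, [], 0, 0, True)
  · simpa [ffa_op] using H₃ (7, default, default, [], 0, 0, True)
  · simpa [ffa_op] using H₃ (8, default, default, [], 0, 0, True)
  · simpa [ffa_op] using H₃ (9, i, i, q, n, 0, s)

end Mdl

end Pool.Agent.MP_09d684_lc

end
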