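import Pool.Agent.Mg.F09d684a.Ga313b4
import Pool.Agent.Mg.F09d684a.G7216c7
import Pool.Agent.Mg.F09d684a.Ge05232
import Pool.Agent.Mg.F09d684a.G360183
import Pool.Agent.Mg.F09d684a.G8b4a59
import Pool.Agent.Mg.F09d684a.G394948
import Pool.Agent.MP_09d684_lc.Defs

section

namespace Pool.Agent.MP_09d684_lc

open ZFSet

universe u v w

namespace Mdl

variable {g : Mdl.{u}}

open Cd

/-- The subset of `k` given by a predicate. -/
noncomputable def sof {k : g.U} (x : Fn g (Elt k) Prop) : g.U := img x Elt.val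

@[fun_prop] theorem tm_sof {Γ : Type*} [Cd g Γ] {k : g.U} {x : Γ → Fn g (Elt k) Prop}
    (h : g.Tm x) : g.Tm fun a => sof (x a) := by unfold sof; fun_prop

theorem mem_sof {k : g.U} {x : Fn g (Elt k) Prop} {z : ZFSet.{u}} :
    z ∈ (sof x).1 ↔ ∃ a, x a ∧ a.1.1 = z := by
  have e : ∀ y : g.U, E y (sof x) ↔ ∃ a, x a ∧ a.1 = y := fun y => E_img x.tm (by fun_prop)
  constructor
  · intro h
    obtain ⟨a, h₁, h₂⟩ := (e ⟨z, g.zf.trans _ (sof x).2 _ h⟩).1 h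
    exact ⟨a, h₁, congrArg U.val h₂⟩
  · rintro ⟨a, h, rfl⟩
    exact (e a.1).2 ⟨a, h, rfl⟩

theorem exists_sof {k : g.U} {z : ZFSet.{u}} (h : z ∈ g.M) (h' : z ⊆ k.1) :
    ∃ x : Fn g (Elt k) Prop, (sof x).1 = z := by
  refine ⟨⟨fun a => E a.1 ⟨z, h⟩, by fun_prop⟩,
    ZFSet.ext fun y => mem_sof.trans ⟨?_, fun hy => ?_⟩⟩
  · rintro ⟨a, h, rfl⟩
    exact h
  · exact ⟨⟨⟨y, g.zf.trans _ h _ hy⟩, h' hy⟩, hy, rfl⟩

theorem sof_sub {k : g.U} (x : Fn g (Elt k) Prop) : (sof x).1 ⊆ k.1 := fun _ hz => by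
  obtain ⟨a, -, rfl⟩ := mem_sof.1 hz
  exact a.2

theorem elt_mem_sof {k : g.U} {x : Fn g (Elt k) Prop} {a : Elt k} : a.1.1 ∈ (sof x).1 ↔ x a :=
  mem_sof.trans ⟨fun ⟨_, h, e⟩ => Elt.ext (U.ext e) ▸ h, fun h => ⟨a, h, rfl⟩⟩

theorem sof_inj {k : g.U} {x y : Fn g (Elt k) Prop} (h : (sof x).1 = (sof y).1) : x = y :=
  Fn.ext' fun a => propext (by rw [← elt_mem_sof, h, elt_mem_sof])

theorem mem_code_elt {k : g.U} {f : Fn g (Elt k) (Elt k)} {p : ZFSet.{u}} :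
    p ∈ f.code.1 ↔ ∃ a : Elt k, pair a.1.1 (f a).1.1 = p := by
  constructor
  · intro h
    obtain ⟨a, e⟩ := (Fn.E_code (p := ⟨p, g.zf.trans _ f.code.2 _ h⟩)).1 h
    exact ⟨a, congrArg U.val e⟩
  · rintro ⟨a, rfl⟩
    exact (Fn.E_code (p := pr a.1 (f a).1)).2 ⟨a, rfl⟩

theorem hasOtp_iff {k : g.U} [Fact (IsOrdinal k.1)] (x : Fn g (Elt k) Prop) :
    HasOtp g.M (sof x).1 k.1 ↔ Big x := by
  constructor
  · rintro ⟨f, hf, ⟨h₁, h₂⟩, h₃, h₄⟩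
    have h₅ : ∀ p ∈ f, ∃ a b : Elt k, x b ∧ p = pair a.1.1 b.1.1 := fun p hp => by
      obtain ⟨a, ha, b, hb, rfl⟩ := h₁ p hp
      obtain ⟨c, hc, rfl⟩ := mem_sof.1 hb
      exact ⟨⟨⟨a, g.zf.trans _ k.2 _ ha⟩, ha⟩, c, hc, rfl⟩
    obtain ⟨F, hF⟩ := Fn.exists_code (α := Elt k) (β := Elt k) (x := ⟨f, hf⟩) (fun p hp => by
      obtain ⟨a, b, -, e⟩ := h₅ p.1 hp
      exact ⟨a, b, U.ext e⟩) fun a => by
        obtain ⟨b, hb, hu⟩ := h₂ a.1.1 a.2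
        obtain ⟨a', b', -, e⟩ := h₅ _ hb
        obtain ⟨-, rfl⟩ := pair_inj.1 e
        exact ⟨b', fun c => ⟨fun hc => Elt.ext (U.ext (hu _ hc)), fun e => e ▸ hb⟩⟩
    have h₆ : ∀ p, p ∈ f ↔ ∃ a : Elt k, pair a.1.1 (F a).1.1 = p := fun p => by
      rw [← mem_code_elt, hF]
    refine ⟨F, fun a b h => h₄ _ _ _ _ ((h₆ _).2 ⟨a, rfl⟩) ((h₆ _).2 ⟨b, rfl⟩) h, fun b => ⟨?_, ?_⟩⟩
    · intro hb
      obtain ⟨a, ha⟩ := h₃ _ (elt_mem_sof.2 hb)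
      obtain ⟨a', e⟩ := (h₆ _).1 ha
      exact ⟨a', Elt.ext (U.ext (pair_inj.1 e).2)⟩
    · rintro ⟨a, rfl⟩
      obtain ⟨a', b', h, e⟩ := h₅ _ ((h₆ _).2 ⟨a, rfl⟩)
      rwa [show F a = b' from Elt.ext (U.ext (pair_inj.1 e).2)]
  · rintro ⟨F, h₁, h₂⟩
    refine ⟨F.code.1, F.code.2, ⟨fun p hp => ?_, fun a ha => ?_⟩, fun b hb => ?_,
      fun a a' b b' h h' e => ?_⟩
    · obtain ⟨a, rfl⟩ := mem_code_elt.1 hp
      exact ⟨_, a.2, _, elt_mem_sof.2 ((h₂ _).2 ⟨a, rfl⟩), rfl⟩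
    · refine ⟨_, mem_code_elt.2 ⟨⟨⟨a, g.zf.trans _ k.2 _ ha⟩, ha⟩, rfl⟩, fun b hb => ?_⟩
      obtain ⟨a', e⟩ := mem_code_elt.1 hb
      obtain ⟨rfl, rfl⟩ := pair_inj.1 e
      rfl
    · obtain ⟨c, hc, rfl⟩ := mem_sof.1 hb
      obtain ⟨a, rfl⟩ := (h₂ c).1 hc
      exact ⟨_, mem_code_elt.2 ⟨a, rfl⟩⟩
    · obtain ⟨c, e₁⟩ := mem_code_elt.1 h
      obtain ⟨c', e₂⟩ := mem_code_elt.1 h'
      obtain ⟨rfl, rfl⟩ := pair_inj.1 e₁
      obtain ⟨rfl, rfl⟩ := pair_inj.1 e₂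
      exact h₁ c c' e

theorem tsp_of_sp {k : g.U} [Fact (IsOrdinal k.1)] (h : StrongPartition g.M k.1) :
    g.TSP (Elt k) := by
  have hn : ∀ n, E (g.nt n) k := fun n => h.ord.mem_trans (nat_mem_omega n) h.unc
  let e : ℕ → Elt k := fun n => ⟨g.nt n, hn n⟩
  have he : g.Tm e := tm_of_rel (Q := fun n a => a.1 = g.nt n) (by fun_prop) fun n a =>
    ⟨fun h => Elt.ext h, fun h => h ▸ rfl⟩
  refine ⟨⟨⟨e, he⟩, ⟨g.om, h.unc⟩, fun n => nt_lt.2 (Nat.lt_succ_self n), fun n => nt_om n,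
    fun a n ha => ?_⟩, fun c hc m hm => ?_⟩
  · obtain ⟨j, -, hj⟩ := E_nt.1 ha
    exact ⟨j, Elt.ext hj⟩
  · let c' : g.U := img (fun x : Fn g (Elt k) Prop => Big x) fun x => pr (sof x) (c x).1
    have h₁ : ∀ p, p ∈ c'.1 ↔ ∃ x, Big x ∧ pair (sof x).1 (c x).1.1 = p := fun p => by
      have e : ∀ y : g.U, E y c' ↔ ∃ x, Big x ∧ pr (sof x) (c x).1 = y := fun y =>
        E_img (by fun_prop) (by fun_prop)
      constructor
      · intro h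
        obtain ⟨a, h₁, h₂⟩ := (e ⟨p, g.zf.trans _ c'.2 _ h⟩).1 h
        exact ⟨a, h₁, congrArg U.val h₂⟩
      · rintro ⟨a, h, rfl⟩
        exact (e (pr _ _)).2 ⟨a, h, rfl⟩
    have h₂ : ∀ (x : Fn g (Elt k) Prop) i, pair (sof x).1 i ∈ c'.1 → i = (c x).1.1 :=
      fun x i hx => by
        obtain ⟨y, -, e⟩ := (h₁ _).1 hx
        obtain ⟨e₁, e₂⟩ := pair_inj.1 e
        rw [← e₂, sof_inj e₁]
    have h₃ : e 1 < max m (e 2) := lt_max_of_lt_right (nt_lt.2 (by omega) : E (g.nt 1) (g.nt 2))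
    obtain ⟨K, hK, hK₁, hK₂, i, hi⟩ := h.part (max m (e 2)).1.1 (max m (e 2)).2 h₃ c'.1 c'.2
      ⟨fun p hp => by
        obtain ⟨x, hx, rfl⟩ := (h₁ p).1 hp
        exact ⟨_, ⟨(sof x).2, sof_sub x, (hasOtp_iff x).2 hx⟩, _,
          (lt_max_of_lt_left (hm x hx) : c x < max m (e 2)), rfl⟩,
      fun z hz => by
        obtain ⟨x, rfl⟩ := exists_sof hz.1 hz.2.1
        exact ⟨_, (h₁ _).2 ⟨x, (hasOtp_iff x).1 hz.2.2, rfl⟩, h₂ x⟩⟩
    obtain ⟨K, rfl⟩ := exists_sof hK hK₁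
    refine ⟨K, (hasOtp_iff K).1 hK₂, c K, fun x hx hs => Elt.ext (U.ext ?_)⟩
    rw [← h₂ K i (hi _ hK (fun _ h => h) hK₂), ← h₂ x i (hi _ (sof x).2 (fun z hz => ?_)
      ((hasOtp_iff x).2 hx))]
    obtain ⟨a, ha, rfl⟩ := mem_sof.1 hz
    exact elt_mem_sof.2 (hs a ha)

end Mdl

end Pool.Agent.MP_09d684_lc

end

section

namespace Pool.Agent.MP_09d684_lc

open ZFSet

universe u v w

namespace Mdl

variable {g : Mdl.{u}}

open Cd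

/-- A tree of positions whose children are dense: some cube consists of limits of branches. -/
theorem bm_tree (hc : g.TDC) {π : Type v} [Cd g π] [RL g π] {last : π → g.Cn}
    (hl : g.Tm last) {T : π → Prop} (hT : g.Tm T) {ch : π → π → Prop}
    (hch : g.Tm fun z : π × π => ch z.1 z.2)
    (dense : ∀ p, T p → ∀ c, CLe c (last p) → ∃ p', T p' ∧ ch p p' ∧ CLe (last p') c)
    {p₀ : π} (h₀ : T p₀) : ∃ H, RLe H (last p₀).2 ∧ ∀ y, Cube (last p₀).1 H y →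
      ∃ f : Fn g ℕ π, f 0 = p₀ ∧ ∀ n, (T (f n) ∧ Cube (last (f n)).1 (last (f n)).2 y) ∧
        ch (f n) (f (n + 1)) := by
  let D : π → g.Cn → Prop := fun p c => T p → (∃ p', T p' ∧ ch p p' ∧ CLe c (last p')) ∨
    ∀ y, Cube c.1 c.2 y → ¬ Cube (last p).1 (last p).2 y
  have hD : g.Tm fun z : π × g.Cn => D z.1 z.2 := by
    simp only [D]
    fun_prop
  have ho : ∀ p, Opn (D p) := by
    intro p c c' h h' hp
    rcases h hp with ⟨p', h₁, h₂, h₃⟩ | h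
    exacts [Or.inl ⟨p', h₁, h₂, h'.trans h₃⟩, Or.inr fun y hy => h y (h'.2.2 y hy)]
  have hd : ∀ p, Dns (D p) := by
    intro p c hne
    by_cases h : T p ∧ ∃ y, Cube c.1 c.2 y ∧ Cube (last p).1 (last p).2 y
    · obtain ⟨hp, y, h₁, h₂⟩ := h
      obtain ⟨-, h₃, h₄⟩ := cle_meet h₁ h₂ (le_max_left _ _) (le_max_right _ _)
      obtain ⟨p', h₅, h₆, h₇⟩ := dense p hp _ h₄
      exact ⟨last p', h₇.trans h₃, fun _ => Or.inl ⟨p', h₅, h₆, CLe.refl h₇.1⟩⟩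
    · exact ⟨c, CLe.refl hne, fun hp => Or.inr fun y h₁ h₂ => h ⟨hp, y, h₁, h₂⟩⟩
  obtain ⟨F, hF₀, hF⟩ := hc.dc (α := g.Rs × Fn g ℕ π) (S := fun _ => True) (by fun_prop)
    (Q := fun a b => RLe b.1 a.1 ∧ ∀ j s y, Cube s b.1 y → T (a.2 j) →
      Cube (last (a.2 j)).1 (last (a.2 j)).2 y →
        ∃ j', T (b.2 j') ∧ ch (a.2 j) (b.2 j') ∧ Cube (last (b.2 j')).1 (last (b.2 j')).2 y)
    (by fun_prop) (fun a _ => by
      obtain ⟨H, h₁, h₂⟩ := cmp hc (D := fun j => D (a.2 j)) (by fun_prop) (fun _ => hd _)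
        (fun _ => ho _) a.1
      obtain ⟨G, hG⟩ := hc.cc (β := ℕ × St) (α := π)
        (Q := fun b p' => (∃ p', T p' ∧ ch (a.2 b.1) p' ∧ CLe (b.2, H) (last p')) →
          T p' ∧ ch (a.2 b.1) p' ∧ CLe (b.2, H) (last p')) (by fun_prop) fun b => by
            by_cases h : ∃ p', T p' ∧ ch (a.2 b.1) p' ∧ CLe (b.2, H) (last p')
            · obtain ⟨p', h'⟩ := h
              exact ⟨p', fun _ => h'⟩
            · exact ⟨p₀, fun h' => absurd h' h⟩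
      refine ⟨(H, ⟨fun k => G (NL.dec g k), by fun_prop⟩), trivial, h₁,
        fun j s y hy hp hy' => ?_⟩
      obtain ⟨n₀, hn⟩ := h₂ s y j hy
      have h₃ : Cube (ini y (max n₀ s.length)) H y := cube_ini hy (le_max_right _ _)
      rcases hn _ (le_max_left n₀ s.length) hp with h | h
      · obtain ⟨h₄, h₅, h₆⟩ := hG (j, ini y (max n₀ s.length)) h
        refine ⟨NL.enc g (j, ini y (max n₀ s.length)), ?_⟩
        simp only [NL.dec_enc]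
        exact ⟨h₄, h₅, h₆.2.2 y h₃⟩
      · exact absurd hy' (h y h₃))
    (a₀ := ((last p₀).2, ⟨fun _ => p₀, by fun_prop⟩)) trivial
  let S : Fn g ℕ g.Rs := ⟨fun n => (F n).1, by fun_prop⟩
  have hS : ∀ k, RLe (S (k + 1)) (S k) := fun k => (hF k).2.1
  have hS' : ∀ k m, k ≤ m → RLe (S m) (S k) := fun k m h => by
    induction m, h using Nat.le_induction with
    | base => exact RLe.refl _
    | succ m _ ih => exact (hS m).trans ih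
  have hH : RLe (diag S) (last p₀).2 := by
    have := diag_le hS
    rwa [show S 0 = (last p₀).2 from congrArg Prod.fst hF₀] at this
  refine ⟨diag S, hH, fun y hy => ?_⟩
  have h₁ : ∀ n, ∃ s, Cube s (S n) y := fun n => by
    have h₂ : (last p₀).1.length < max n ((last p₀).1.length + 1) := by omega
    refine ⟨_, cube_le (hS' _ _ ?_) (diag_tip hS (tip_ini hy h₂) (cube_ini hy h₂.le))⟩
    have := le_lcode_ini (g := g) y (max n ((last p₀).1.length + 1))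
    omega
  obtain ⟨f, hf₀, hf⟩ := hc.dc (α := π)
    (S := fun p => (∃ n j, p = (F n).2 j) ∧ T p ∧ Cube (last p).1 (last p).2 y) (by fun_prop)
    hch (fun p hp => by
      obtain ⟨⟨n, j, rfl⟩, h₂, h₃⟩ := hp
      obtain ⟨s, hs⟩ := h₁ (n + 1)
      obtain ⟨j', h₄, h₅, h₆⟩ := (hF n).2.2 j s y hs h₂ h₃
      exact ⟨_, ⟨⟨n + 1, j', rfl⟩, h₄, h₆⟩, h₅⟩)
    (a₀ := p₀) ⟨⟨0, 0, by rw [hF₀]⟩, h₀, cube_le hH hy⟩
  exact ⟨f, hf₀, fun n => ⟨(hf n).1.2, (hf n).2⟩⟩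

/-- The condition that the `n`-th move of the game below `c` has to refine. -/
def bmPrev (c : g.Cn) (x : Fn g ℕ g.Cn) (n : ℕ) : g.Cn := if n = 0 then c else x (n - 1)

/-- The `n`-th move is legal. -/
def BmOk (c : g.Cn) (x : Fn g ℕ g.Cn) (n : ℕ) : Prop :=
  CLe (x n) (bmPrev c x n) ∧ n < (x n).1.length

section

variable {Γ : Type*} [Cd g Γ] {c : Γ → g.Cn} {x : Γ → Fn g ℕ g.Cn} {n : Γ → ℕ}

@[fun_prop] theorem tm_bmPrev (h₁ : g.Tm c) (h₂ : g.Tm x) (h₃ : g.Tm n) :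
    g.Tm fun a => bmPrev (c a) (x a) (n a) := by unfold bmPrev; fun_prop

@[fun_prop] theorem tm_BmOk (h₁ : g.Tm c) (h₂ : g.Tm x) (h₃ : g.Tm n) :
    g.Tm fun a => BmOk (c a) (x a) (n a) := by unfold BmOk; fun_prop

end

section

variable {c : g.Cn} {x x' : Fn g ℕ g.Cn} {n : ℕ}

theorem bmPrev_succ : bmPrev c x (n + 1) = x n := rfl

theorem bmPrev_congr (h : ∀ k < n, x' k = x k) : bmPrev c x' n = bmPrev c x n := by
  cases n with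
  | zero => rfl
  | succ n => exact h n (Nat.lt_succ_self n)

theorem BmOk.congr (h : BmOk c x n) (e : ∀ k ≤ n, x' k = x k) : BmOk c x' n := by
  unfold BmOk
  rw [e n le_rfl, bmPrev_congr fun k hk => e k hk.le]
  exact h

theorem bmPrev_cle (hc : NE c) (h : ∀ k < n, BmOk c x k) : CLe (bmPrev c x n) c := by
  induction n with
  | zero => exact CLe.refl hc
  | succ n ih => exact (h n (Nat.lt_succ_self n)).1.trans (ih fun k hk => h k (by omega))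

theorem bmPrev_cube (h : ∀ k < n, BmOk c x k) {y : g.Yy}
    (hy : Cube (bmPrev c x n).1 (bmPrev c x n).2 y) : ∀ k < n, Cube (x k).1 (x k).2 y := by
  induction n with
  | zero => exact fun k hk => absurd hk (Nat.not_lt_zero k)
  | succ n ih =>
    intro k hk
    rcases Nat.lt_succ_iff_lt_or_eq.1 hk with hk | rfl
    · exact ih (fun k hk => h k (by omega)) ((h n (Nat.lt_succ_self n)).1.2.2 y hy) k hk
    · exact hy

end

/-- Any finitely many moves extend to a play that follows the strategy from then on. -/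
theorem bm_play {α : Type v} [Cd g α] [Inhabited α] {σ : ℕ → Fn g ℕ α → α}
    (hσ : g.Tm fun z : ℕ × Fn g ℕ α => σ z.1 z.2) (hc : Causal σ) (x : Fn g ℕ α) (n : ℕ) :
    ∃ x' : Fn g ℕ α, (∀ k < n, x' k = x k) ∧ ∀ k, n ≤ k → x' k = σ k x' := by
  have h := fix_eq (Ψ := fun k f => if k < n then x k else σ k f) (by fun_prop)
    fun k f f' e => by rw [hc k f f' e]
  exact ⟨_, fun k hk => (h k).trans (if_pos hk), fun k hk => (h k).trans (if_neg (not_lt.2 hk))⟩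

/-- A strategy that plays legally and forces the limit into `Z` gives a cube inside `Z`. -/
theorem bm_cube (hc : g.TDC) {c : g.Cn} (hne : NE c) {σ : ℕ → Fn g ℕ g.Cn → g.Cn}
    (hσ : g.Tm fun z : ℕ × Fn g ℕ g.Cn => σ z.1 z.2) (hcau : Causal σ) {i : ℕ} (hi : i < 2)
    {Z : g.Yy → Prop}
    (hA : ∀ x : Fn g ℕ g.Cn, (∀ n, n % 2 = i → x n = σ n x) → ∀ n, n % 2 = i →
      (∀ k < n, BmOk c x k) → BmOk c x n)
    (hB : ∀ x : Fn g ℕ g.Cn, (∀ n, n % 2 = i → x n = σ n x) → (∀ n, BmOk c x n) →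
      ∀ y, (∀ n, Cube (x n).1 (x n).2 y) → Z y) :
    ∃ c', CLe c' c ∧ ∀ y, Cube c'.1 c'.2 y → Z y := by
  obtain ⟨x₀, -, hx₀⟩ := bm_play hσ hcau default 0
  have hx₁ : ∀ n, n % 2 = i → x₀ n = σ n x₀ := fun n _ => hx₀ n (Nat.zero_le n)
  have hx₂ : ∀ k, k < 1 - i → BmOk c x₀ k := fun k hk =>
    hA x₀ hx₁ k (by omega) fun j hj => by omega
  obtain ⟨H, hH, h⟩ := bm_tree hc (π := ℕ × Fn g ℕ g.Cn) (last := fun p => bmPrev c p.2 p.1)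
    (by fun_prop)
    (T := fun p => p.1 % 2 ≠ i ∧ (∀ n, n % 2 = i → p.2 n = σ n p.2) ∧ ∀ k, k < p.1 → BmOk c p.2 k)
    (by fun_prop) (ch := fun p p' => p'.1 = p.1 + 2 ∧ ∀ k, k < p.1 → p'.2 k = p.2 k) (by fun_prop)
    (by
      rintro ⟨n, x⟩ ⟨h₁, h₂, h₃⟩ c' hc'
      dsimp only at h₁ h₂ h₃ hc'
      obtain ⟨y, hy⟩ := hc'.1
      have ha : CLe (ini y (max c'.1.length (n + 1)), c'.2) c' := cle_ini hy (le_max_left _ _)
      obtain ⟨x', e₁, e₂⟩ := bm_play hσ hcau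
        ⟨fun k => if k < n then x k else (ini y (max c'.1.length (n + 1)), c'.2), by fun_prop⟩
        (n + 1)
      have e₃ : ∀ k < n, x' k = x k := fun k hk => (e₁ k (by omega)).trans (if_pos hk)
      have e₄ : x' n = (ini y (max c'.1.length (n + 1)), c'.2) :=
        (e₁ n (by omega)).trans (if_neg (lt_irrefl n))
      have e₅ : ∀ k, k % 2 = i → x' k = σ k x' := fun k hk => by
        rcases lt_trichotomy k n with h | rfl | h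
        · rw [e₃ k h, h₂ k hk]
          exact hcau k _ _ fun j hj => (e₃ j (hj.trans h)).symm
        · exact absurd hk h₁
        · exact e₂ k h
      have e₆ : ∀ k < n + 1, BmOk c x' k := fun k hk => by
        rcases Nat.lt_succ_iff_lt_or_eq.1 hk with hk | rfl
        · exact (h₃ k hk).congr fun j hj => e₃ j (by omega)
        · refine ⟨?_, ?_⟩
          · rw [e₄, bmPrev_congr e₃]
            exact ha.trans hc'
          · rw [e₄, length_ini]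
            omega
      have e₇ : BmOk c x' (n + 1) := hA x' e₅ _ (by omega) e₆
      refine ⟨(n + 2, x'), ⟨by dsimp only; omega, e₅, fun k hk => ?_⟩, ⟨rfl, e₃⟩, ?_⟩
      · rcases Nat.lt_succ_iff_lt_or_eq.1 hk with hk | rfl
        exacts [e₆ k hk, e₇]
      · have := e₇.1
        rw [bmPrev_succ, e₄] at this
        exact this.trans ha)
    (p₀ := (1 - i, x₀)) ⟨by dsimp only; omega, hx₁, hx₂⟩
  have h₀ := bmPrev_cle hne hx₂
  refine ⟨((bmPrev c x₀ (1 - i)).1, H), (cle_of_rle h₀.1 hH).trans h₀, fun y hy => ?_⟩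
  obtain ⟨f, -, hf⟩ := h y hy
  have h₁ : ∀ m, m ≤ (f m).1 := fun m => by
    induction m with
    | zero => omega
    | succ m ih => have := (hf m).2.1; omega
  have h₂ : ∀ m m', m ≤ m' → (f m).1 ≤ (f m').1 ∧ ∀ k < (f m).1, (f m').2 k = (f m).2 k := by
    intro m m' hm
    induction m', hm using Nat.le_induction with
    | base => exact ⟨le_rfl, fun _ _ => rfl⟩
    | succ m' _ ih =>
      have := (hf m').2.1
      exact ⟨by omega, fun k hk => ((hf m').2.2 k (by omega)).trans (ih.2 k hk)⟩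
  let x : Fn g ℕ g.Cn := ⟨fun k => (f (k + 1)).2 k, by fun_prop⟩
  have h₃ : ∀ n k, k ≤ n → x k = (f (n + 1)).2 k := fun n k hk =>
    ((h₂ (k + 1) (n + 1) (by omega)).2 k (h₁ _)).symm
  refine hB x (fun n hn => ?_) (fun n => ?_) y fun n => ?_
  · exact ((hf (n + 1)).1.1.2.1 n hn).trans (hcau n _ _ fun k hk => (h₃ n k hk.le).symm)
  · exact ((hf (n + 1)).1.1.2.2 n (h₁ _)).congr (h₃ n)
  · exact bmPrev_cube (hf (n + 1)).1.1.2.2 (hf (n + 1)).1.2 n (h₁ _)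

/-- The local Ramsey property. -/
theorem bm_ram (h : g.TDet g.Re) {X : g.Yy → Prop} (hX : g.Tm X) {c : g.Cn} (hne : NE c) :
    ∃ c', CLe c' c ∧ ((∀ y, Cube c'.1 c'.2 y → X y) ∨ ∀ y, Cube c'.1 c'.2 y → ¬ X y) := by
  obtain ⟨σ, hσ, hcau, hw⟩ := h.rl g.Cn
    (fun x => (∃ m, m % 2 = 1 ∧ ¬ BmOk c x m ∧ ∀ k, k < m → BmOk c x k) ∨
      ((∀ n, BmOk c x n) ∧ ∀ y, (∀ n, Cube (x n).1 (x n).2 y) → X y)) (by fun_prop)
  rcases hw with hw | hw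
  · obtain ⟨c', h₁, h₂⟩ := bm_cube h.tdc hne hσ hcau (i := 0) (by omega) (Z := X)
      (fun x hx n hn hk => by
        rcases hw x hx with ⟨m, h₁, h₂, h₃⟩ | h₁
        · rcases lt_trichotomy m n with h | rfl | h
          exacts [absurd (hk m h) h₂, by omega, h₃ n h]
        · exact h₁.1 n)
      fun x hx hl => by
        rcases hw x hx with ⟨m, -, h₂, -⟩ | h₁
        exacts [absurd (hl m) h₂, h₁.2]
    exact ⟨c', h₁, Or.inl h₂⟩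
  · obtain ⟨c', h₁, h₂⟩ := bm_cube h.tdc hne hσ hcau (i := 1) (by omega)
      (Z := fun y => ¬ X y)
      (fun x hx n hn hk => by_contra fun h₁ => hw x hx (Or.inl ⟨n, hn, h₁, hk⟩))
      fun x hx hl y hy hXy => hw x hx (Or.inr ⟨hl, fun y' hy' => by
        have : y' = y := Fn.ext' fun n =>
          ini_eq_iff.1 ((hy' n).1.trans (hy n).1.symm) n (hl n).2
        rwa [this]⟩)
    exact ⟨c', h₁, Or.inr h₂⟩

theorem lu_of_tdet (h : g.TDet g.Re) : g.LU := by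
  intro ρ hρ c hne
  obtain ⟨c', h₁, h₂ | h₂⟩ := bm_ram h (X := fun y => ∃ r, ρ y r) (by fun_prop) hne
  · obtain ⟨F, hF, hF'⟩ := h.unif (ρ := fun (y : g.Yy) (r : g.Re) => Cube c'.1 c'.2 y → ρ y r)
      (by fun_prop) fun y => by
        by_cases hy : Cube c'.1 c'.2 y
        · obtain ⟨r, hr⟩ := h₂ y hy
          exact ⟨r, fun _ => hr⟩
        · exact ⟨default, fun h' => absurd h' hy⟩
    exact ⟨c', h₁, Or.inr ⟨F, hF, hF'⟩⟩
  · exact ⟨c', h₁, Or.inl fun y hy r hr => h₂ y hy ⟨r, hr⟩⟩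

end Mdl

end Pool.Agent.MP_09d684_lc

end

section

namespace Pool.Agent.MP_09d684_lc

open ZFSet

universe u v w

namespace Mdl

variable {g : Mdl.{u}} {G : Set ZFSet.{u}}

open Cd

theorem below_refl {s : St} {R : g.Rs} {y : g.Yy} (h : Cube s R y) : Below s y y :=
  ⟨h.1, h.2.1, Sub.refl y⟩

/-- The extension adds no subsets of well-ordered sets. -/
theorem barren (hc : g.TDC) (hu : g.LU) (hG : Generic g.M G) (I : Type*) [Cd g I] [Bd g I]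
    [WO g I] [Inhabited I] {X : ZFSet.{u}} (hX : X ∈ Ext g.M G)
    (hI : ∀ z ∈ X, ∃ i : I, (ι i : g.U).1 = z) : X ∈ g.M := by
  obtain ⟨τ₀, hτ, rfl⟩ := hX
  obtain ⟨Fm, hT, mono, truth⟩ := exists_forcing (g := g)
  obtain ⟨τ, rfl⟩ : ∃ τ : g.U, τ.1 = τ₀ := ⟨⟨τ₀, hτ⟩, rfl⟩
  let D : I → g.Rs → Prop := fun i S =>
    Fm S τ (ι i) ∨ ∀ S', Pos S' → SLe S' S → ¬ Fm S' τ (ι i)
  obtain ⟨S, hS, hD⟩ := gg_dense hG (D := fun S => ∀ i, D i S) (by fun_prop) fun S₀ h₀ => by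
    obtain ⟨R, hR⟩ := exists_res_of_pos h₀
    obtain ⟨y, hy, h⟩ := ep hc hu (D := fun i y => D i (rng y)) (by fun_prop) (s := []) (R := R)
      ⟨_, lm_nil R⟩ (fun i y y' _ h h' => h.imp
        (fun h => mono _ _ _ _ h (pos_rng h'.2.1) (sle_of_sub h'.2.2))
        fun h S' h₁ h₂ => h S' h₁ (h₂.trans (sle_of_sub h'.2.2))) fun i y hy k _ => by
        by_cases h : ∃ S', Pos S' ∧ SLe S' (rng y) ∧ Fm S' τ (ι i)
        · obtain ⟨S', h₁, h₂, h₃⟩ := h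
          obtain ⟨y', h₄, h₅⟩ := below_of_pos hy.2.1 h₁ h₂ k
          exact ⟨y', h₄, Or.inl (mono _ _ _ _ h₃ (pos_rng h₄.2.1) h₅)⟩
        · exact ⟨y, ⟨by simp, hy.2.1, Sub.refl y⟩, Or.inr fun S' h₁ h₂ h₃ => h ⟨S', h₁, h₂, h₃⟩⟩
    exact ⟨rng y, pos_rng hy.2.1, sle_of_forall fun p ⟨n, e⟩ => e ▸ hR y hy n, h⟩
  have e : val G τ.1 = (img (fun i : I => Fm S τ (ι i)) fun i => (ι i : g.U)).1 := by
    have key : ∀ i : I, (ι i : g.U).1 ∈ val G τ.1 ↔ Fm S τ (ι i) := fun i => by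
      rw [truth G hG]
      refine ⟨fun ⟨S', h₁, h₂⟩ => (hD i).resolve_right fun h => ?_, fun h => ⟨S, hS, h⟩⟩
      obtain ⟨S'', h₃, h₄, h₅⟩ := gg_dir hG hS h₁
      exact h S'' h₃.1 h₄ (mono _ _ _ _ h₂ h₃.1 h₅)
    ext z
    constructor
    · intro hz
      obtain ⟨i, rfl⟩ := hI z hz
      exact (E_img (by fun_prop) (by fun_prop)).2 ⟨i, (key i).1 hz, rfl⟩
    · intro hz
      obtain ⟨i, h₁, h₂⟩ := (E_img (y := ⟨z, g.zf.trans _ (U.mem _) _ hz⟩) (by fun_prop)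
        (by fun_prop)).1 hz
      obtain rfl : (ι i : g.U).1 = z := congrArg U.val h₂
      exact (key i).2 h₁
  exact e ▸ U.mem _

/-- Densely many conditions decide a colouring on a homogeneous set of the ground model. -/
theorem homog_dense (hd : g.TDet ℕ) (hc : g.TDC) (hu : g.LU) {T W : Type*} [Cd g T] [Bd g T]
    [LinearOrder T] [OT g T] [Inhabited T] [Cd g W] [WO g W] [Inhabited W] (hT : g.TSP T)
    {Ψ : W → g.PR → Fn g T Prop} (hΨ : g.Tm fun z : W × g.PR => Ψ z.1 z.2)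
    (onto : ∀ K, ∃ w A, Ψ w A = K) {Dec : g.Rs → Fn g T Prop → T → Prop}
    (hD : g.Tm fun z : g.Rs × Fn g T Prop × T => Dec z.1 z.2.1 z.2.2)
    (mono : ∀ S S' x i, Dec S x i → Pos S' → SLe S' S → Dec S' x i) (m : T) {S₀ : g.Rs}
    (h₀ : Pos S₀) : ∃ S, Pos S ∧ SLe S S₀ ∧
      ((∃ K : Fn g T Prop, Big K ∧ ∃ i, ∀ x, Big x → (∀ a, x a → K a) → Dec S x i) ∨
        ∃ x, Big x ∧ ∀ S', Pos S' → SLe S' S → ∀ i, i < m → ¬ Dec S' x i) := by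
  classical
  by_contra hn
  obtain ⟨R, hR⟩ := exists_res_of_pos h₀
  obtain ⟨L, hL, L₁, L₂, L₃⟩ := hT.exists_lim
  obtain ⟨m', hm'⟩ := hT.nomax m
  have hle : ∀ y, Cube [] R y → SLe (rng y) S₀ := fun y hy =>
    sle_of_forall fun p ⟨n, e⟩ => e ▸ hR y hy n
  let P : g.Yy → Fn g T Prop → Prop := fun y K => Big K ∧
    ∀ z, Big z → (∀ a, z a → K a) → ∀ i, i < m → ¬ Dec (rng y) (L z) i
  have tot : ∀ y, Cube [] R y → ∃ K, P y K := fun y hy => by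
    obtain ⟨K, hK, i, hi⟩ := hT.part (fun z => if ∃ i, i < m ∧ Dec (rng y) (L z) i then
      g.least fun i => i < m ∧ Dec (rng y) (L z) i else m) (by fun_prop) m' fun z _ => by
        split_ifs with h
        exacts [(least_spec h).1.trans hm', hm']
    refine ⟨K, hK, fun z h₁ h₂ j h₃ h₄ => hn ⟨rng y, pos_rng hy.2.1, hle y hy,
      Or.inl ⟨L K, L₁ K hK, i, fun x h₅ h₆ => ?_⟩⟩⟩
    have hi' : i < m := by
      have h : ∃ i, i < m ∧ Dec (rng y) (L z) i := ⟨j, h₃, h₄⟩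
      rw [← hi z h₁ h₂, if_pos h]
      exact (least_spec h).1
    obtain ⟨z', h₇, h₈, rfl⟩ := L₂ K x hK h₅ h₆
    have := hi z' h₇ h₈
    split_ifs at this with h
    · exact this ▸ (least_spec h).2
    · exact absurd hi' (this ▸ lt_irrefl _)
  obtain ⟨⟨s, H⟩, hc', F, hF, hP⟩ := wadge_unif hd hc hu (P := fun y A => ∃ w, P y (Ψ w A))
    (by fun_prop) (c := ([], R)) ⟨_, lm_nil R⟩ fun y hy => by
      obtain ⟨K, hK⟩ := tot y hy
      obtain ⟨w, A, rfl⟩ := onto K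
      exact ⟨A, w, hK⟩
  let K : g.Yy → Fn g T Prop := fun y => Ψ (g.least fun w => P y (Ψ w (F y))) (F y)
  have hK : ∀ y, Cube s H y → P y (K y) := fun y hy => least_spec (hP y hy)
  obtain ⟨y, hy, hb⟩ := bound_family hc hu hT.unc
    (F := fun a y => g.least fun k => a < k ∧ K y k) (by fun_prop) hc'.1
  obtain ⟨x, hx, hx'⟩ := L₃ (fun a => g.least fun b => ∀ y', Below s y' y →
    (g.least fun k => a < k ∧ K y' k) < b) (by fun_prop)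
  refine hn ⟨rng y, pos_rng hy.2.1, hle y (hc'.2.2 y hy), Or.inr ⟨x, hx, fun S' h₁ h₂ i h₃ h₄ => ?_⟩⟩
  obtain ⟨y', h₅, h₆⟩ := below_of_pos hy.2.1 h₁ h₂ s.length
  rw [hy.1] at h₅
  have h₇ := hK y' (sub_cube hy h₅)
  obtain ⟨z, h₈, h₉, rfl⟩ := hx' (K y') fun a => by
    have := least_spec (g := g) ((hT.big_iff _).1 h₇.1 a)
    exact ⟨_, this.2, this.1, least_spec (g := g) (hb a) y' h₅⟩
  exact h₇.2 z h₈ h₉ i h₃ (mono _ _ _ _ h₄ (pos_rng h₅.2.1) h₆)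

theorem preserve {k : g.U} (hd : g.TDet ℕ) (hc : g.TDC) (hu : g.LU) (hs : Small (pow k))
    (hk : StrongPartition g.M k.1) (hG : Generic g.M G) : StrongPartition (Ext g.M G) k.1 := by
  have : Fact (IsOrdinal k.1) := ⟨hk.ord⟩
  have : Inhabited (Elt k) := ⟨⟨g.om, hk.unc⟩⟩
  have elt : ∀ a ∈ k.1, ∃ i : Elt k, i.1.1 = a := fun a ha =>
    ⟨⟨⟨a, g.zf.trans _ k.2 _ ha⟩, ha⟩, rfl⟩
  have fn : ∀ f ∈ Ext g.M G, ∀ D X : Set ZFSet.{u}, (∀ a ∈ D, a ∈ k.1) → (∀ a ∈ X, a ∈ k.1) →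
      IsFn f D X → f ∈ g.M := fun f hf D X h₁ h₂ h₃ =>
    barren hc hu hG (Elt k × Elt k) hf fun z hz => by
      obtain ⟨a, ha, b, hb, rfl⟩ := h₃.1 z hz
      obtain ⟨i, rfl⟩ := elt a (h₁ a ha)
      obtain ⟨j, rfl⟩ := elt b (h₂ b hb)
      exact ⟨(i, j), rfl⟩
  have up : ∀ x, HasOtp g.M x k.1 → HasOtp (Ext g.M G) x k.1 := fun x ⟨f, hf, h⟩ =>
    ⟨f, sub_ext hG hf, h⟩
  have down : ∀ x, x ⊆ k.1 → HasOtp (Ext g.M G) x k.1 → HasOtp g.M x k.1 :=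
    fun x hx ⟨f, hf, h⟩ => ⟨f, fn f hf _ _ (fun _ h => h) (fun _ h => hx h) h.1, h⟩
  have ss : ∀ x : Fn g (Elt k) Prop, (sof x).1 ⊆ k.1 := fun x z hz => by
    obtain ⟨a, -, rfl⟩ := mem_sof.1 hz
    exact a.2
  refine ⟨sub_ext hG k.2, hk.ord, hk.unc, fun a ha ⟨f, hf, h⟩ => hk.card a ha
    ⟨f, fn f hf _ _ (fun _ h => hk.ord.mem_trans h ha) (fun _ h => h) h.1, h⟩, ?_⟩
  rintro m₀ hm - _ ⟨τ₀, hτ, rfl⟩ hfn
  obtain ⟨m, rfl⟩ := elt m₀ hm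
  obtain ⟨τ, rfl⟩ : ∃ τ : g.U, τ.1 = τ₀ := ⟨⟨τ₀, hτ⟩, rfl⟩
  obtain ⟨Fm, hT, mono, truth⟩ := exists_forcing (g := g)
  obtain ⟨W, _, _, _, Ψ, hΨ, onto⟩ := hs
  obtain ⟨S, hS, hD⟩ := gg_dense hG (by fun_prop) fun S₀ h₀ => homog_dense hd hc hu (tsp_of_sp hk)
    (Ψ := fun (w : W) A => ⟨fun a => E a.1 (Ψ w A), by fun_prop⟩) (by fun_prop) (fun K => by
      obtain ⟨w, A, e⟩ := onto (sof K) (E_pow.2 fun y hy => ss K hy)
      refine ⟨w, A, Fn.ext' fun a => propext ?_⟩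
      simp only [e, E_iff, mem_sof]
      exact ⟨fun ⟨b, h₁, h₂⟩ => Elt.ext (U.ext h₂) ▸ h₁, fun h => ⟨a, h, rfl⟩⟩)
    (Dec := fun S x i => Fm S τ (pr (sof x) i.1)) (by fun_prop)
    (fun _ _ _ _ => mono _ _ _ _) m h₀
  rcases hD with ⟨K, hK, i, hi⟩ | ⟨x, hx, h⟩
  · refine ⟨(sof K).1, sub_ext hG (sof K).2, ss K, up _ ((hasOtp_iff K).2 hK), i.1.1,
      fun x h₁ h₂ h₃ => ?_⟩
    have h₄ : x ⊆ k.1 := fun _ h => ss K (h₂ h)
    obtain ⟨x, rfl⟩ := exists_sof (barren hc hu hG (Elt k) h₁ fun z hz => elt z (h₄ hz)) h₄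
    refine (truth G hG τ (pr (sof x) i.1)).2 ⟨S, hS, hi x ((hasOtp_iff x).1 (down _ h₄ h₃))
      fun a ha => ?_⟩
    obtain ⟨b, h₅, h₆⟩ := mem_sof.1 (h₂ (mem_sof.2 ⟨a, ha, rfl⟩))
    exact Elt.ext (U.ext h₆) ▸ h₅
  · obtain ⟨b, hb, -⟩ := hfn.2 (sof x).1 ⟨sub_ext hG (sof x).2, ss x, up _ ((hasOtp_iff x).2 hx)⟩
    obtain ⟨_, -, b', hb', e⟩ := hfn.1 _ hb
    obtain rfl : b = b' := (pair_inj.1 e).2
    obtain ⟨i, rfl⟩ := elt b (hk.ord.mem_trans hb' hm)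
    obtain ⟨S', h₁, h₂⟩ := (truth G hG τ (pr (sof x) i.1)).1 hb
    obtain ⟨S'', h₃, h₄, h₅⟩ := gg_dir hG hS h₁
    exact absurd (mono _ _ _ _ h₂ h₃.1 h₅) (h S'' h₃.1 h₄ i hb')

end Mdl

theorem preserves (M : Set ZFSet.{u}) (hM : IsZF M) (hD : ADR M ∨ ADplus M) (κ : ZFSet.{u})
    (hκ : StrongPartition M κ) (hs : BelowTheta M κ ∨ VeqL M) (G : Set ZFSet.{u})
    (hG : Generic M G) : StrongPartition (Ext M G) κ := by
  let g : Mdl.{u} := ⟨M, hM⟩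
  let k : g.U := ⟨κ, hκ.mem⟩
  have h₁ : Mdl.Small (Mdl.pow k) :=
    hs.elim (fun h => Mdl.small_of_theta (k := k) h) fun h => Mdl.small_of_veql (g := g) h _
  rcases hD with h | h
  · have hr := Mdl.tdet_re_of_adr (g := g) h
    exact Mdl.preserve (k := k) (hr.rl ℕ) hr.tdc (Mdl.lu_of_tdet hr) h₁ hκ hG
  · have : Fact (IsOrdinal k.1) := ⟨hκ.ord⟩
    have : Inhabited (Mdl.Elt k) := ⟨⟨g.om, hκ.unc⟩⟩
    have hd := Mdl.tdet_nat_of_ad (g := g) h.ad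
    have hc := Mdl.tdc_of_adplus (g := g) h
    exact Mdl.preserve (k := k) hd hc (Mdl.lu_of_tib hd hc (Mdl.tib_of_adplus h)
      (Mdl.tsp_of_sp (k := k) hκ).unc) h₁ hκ hG

end Pool.Agent.MP_09d684_lc

end

section

namespace Pool.Agent.MP_09d684_lc

open ZFSet

universe u

/-- In `M`, every subset of `k` is a value of one function `f` at a pair `(a, A)` of an element of
a fixed ordinal and a set of reals. -/
def Covered (M : Set ZFSet.{u}) (k : ZFSet.{u}) : Prop :=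
  ∃ γ ∈ M, IsOrdinal γ ∧ ∃ f ∈ M, IsFn f (prod γ (PowR M)) M ∧
    ∀ x ∈ M, x ⊆ k → ∃ p, pair p x ∈ f

end Pool.Agent.MP_09d684_lc

end

section

namespace Pool.Agent.MP_09d684_lc

open ZFSet

universe u

namespace Mdl

variable {g : Mdl.{u}}

open Cd

theorem small_of_covered {k : g.U} (h : Covered g.M k.1) : Small (pow k) := by
  obtain ⟨γ₀, hγ, ho, f₀, hf, hfn, onto⟩ := h
  obtain ⟨γ, rfl⟩ : ∃ γ : g.U, γ.1 = γ₀ := ⟨⟨γ₀, hγ⟩, rfl⟩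
  obtain ⟨f, rfl⟩ : ∃ f : g.U, f.1 = f₀ := ⟨⟨f₀, hf⟩, rfl⟩
  have : Fact (IsOrdinal γ.1) := ⟨ho⟩
  have key : ∀ x : g.U, x.1 ⊆ k.1 → ∃ (a : Elt γ) (A : g.PR),
      ev g.U g.U f (pr a.1 (img A ι)) = x := fun x hx => by
    obtain ⟨p, hp⟩ := onto x.1 x.2 hx
    obtain ⟨p', hp', _, -, e⟩ := hfn.1 _ hp
    obtain rfl : p = p' := (pair_inj.1 e).1
    obtain ⟨a, ha, B, hB, rfl⟩ := mem_prod.1 hp'
    obtain ⟨-, h₁, h₂⟩ := mem_sep.1 hB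
    let A : g.PR := ⟨fun r => E (ι r) ⟨B, h₁⟩, by fun_prop⟩
    have eB : (img A (ι : g.Re → g.U)).1 = B := ZFSet.ext fun z => by
      rw [gm_mem_img A.tm]
      refine ⟨fun ⟨r, h₃, h₄⟩ => h₄ ▸ h₃, fun hz => ?_⟩
      obtain ⟨r, rfl⟩ := (grep_re z).1 (h₂ z hz)
      exact ⟨r, hz, rfl⟩
    refine ⟨⟨⟨a, g.zf.trans _ γ.2 _ ha⟩, ha⟩, A, ev_eq fun b => ?_⟩
    simp only [ι_U, E_iff, pr_val, eB]
    exact ⟨fun hb => U.ext ((hfn.2 _ hp').unique hb hp), fun e => e ▸ hp⟩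
  obtain ⟨a₀, -⟩ := key (g.nt 0) fun z hz => absurd hz (notMem_empty z)
  have : Inhabited (Elt γ) := ⟨a₀⟩
  exact ⟨Elt γ, inferInstance, inferInstance, inferInstance,
    fun a A => ev g.U g.U f (pr a.1 (img A ι)), by fun_prop, fun x hx => key x fun z hz =>
      E_pow.1 hx ⟨z, g.zf.trans _ x.2 _ hz⟩ hz⟩

end Mdl

theorem preserves' (M : Set ZFSet.{u}) (hM : IsZF M) (hD : ADR M ∨ ADplus M) (κ : ZFSet.{u})
    (hκ : StrongPartition M κ) (hs : BelowTheta M κ ∨ VeqL M ∨ Covered M κ) (G : Set ZFSet.{u})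
    (hG : Generic M G) : StrongPartition (Ext M G) κ := by
  rcases hs with hs | hs | hs
  · exact preserves M hM hD κ hκ (Or.inl hs) G hG
  · exact preserves M hM hD κ hκ (Or.inr hs) G hG
  let g : Mdl.{u} := ⟨M, hM⟩
  let k : g.U := ⟨κ, hκ.mem⟩
  have h₁ : Mdl.Small (Mdl.pow k) := Mdl.small_of_covered hs
  rcases hD with h | h
  · have hr := Mdl.tdet_re_of_adr (g := g) h
    exact Mdl.preserve (k := k) (hr.rl ℕ) hr.tdc (Mdl.lu_of_tdet hr) h₁ hκ hG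
  · have : Fact (IsOrdinal k.1) := ⟨hκ.ord⟩
    have : Inhabited (Mdl.Elt k) := ⟨⟨g.om, hκ.unc⟩⟩
    have hd := Mdl.tdet_nat_of_ad (g := g) h.ad
    have hc := Mdl.tdc_of_adplus (g := g) h
    exact Mdl.preserve (k := k) hd hc (Mdl.lu_of_tib hd hc (Mdl.tib_of_adplus h)
      (Mdl.tsp_of_sp (k := k) hκ).unc) h₁ hκ hG

end Pool.Agent.MP_09d684_lc

end

section

namespace Pool.Agent.MP_09d684_lc

open ZFSet

universe u v w

namespace Mdl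

variable {g : Mdl.{u}} {G : Set ZFSet.{u}}

open Cd

theorem homog_dense' {T : Type*} [Cd g T] [Bd g T] [LinearOrder T] [OT g T] [Inhabited T]
    (hT : g.TSP T) (rc : ∀ L : g.Asg T, LMono L → (∀ r, ∃ b, L (b, r)) → ∃ b, ∀ r, L (b, r))
    {Dec : g.Rs → Fn g T Prop → T → Prop}
    (hD : g.Tm fun z : g.Rs × Fn g T Prop × T => Dec z.1 z.2.1 z.2.2) (m : T) {S₀ : g.Rs}
    (h₀ : Pos S₀) : ∃ S, Pos S ∧ SLe S S₀ ∧
      ((∃ K : Fn g T Prop, Big K ∧ ∃ i, ∀ x, Big x → (∀ a, x a → K a) → Dec S x i) ∨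
        ∃ x, Big x ∧ ∀ S', Pos S' → SLe S' S → ∀ i, i < m → ¬ Dec S' x i) := by
  classical
  by_contra hn
  obtain ⟨m', hm'⟩ := hT.nomax m
  have key : ∀ S, Pos S → SLe S S₀ →
      ∃ b : Fn g T T, ∀ x, Typ b x → ∀ i, i < m → ¬ Dec S x i := fun S h₁ h₂ => by
    obtain ⟨i, b, hb⟩ := aw_part hT (c := fun x => if ∃ i, i < m ∧ Dec S x i then
      g.least fun i => i < m ∧ Dec S x i else m) (by fun_prop) m' fun z _ => by
        split_ifs with h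
        exacts [(least_spec h).1.trans hm', hm']
    refine ⟨b, fun x hx j h₃ h₄ => ?_⟩
    have hi : i < m := by
      have h : ∃ i, i < m ∧ Dec S x i := ⟨j, h₃, h₄⟩
      have e := hb x hx
      simp only [if_pos h] at e
      exact e ▸ (least_spec h).1
    refine hn ⟨S, h₁, h₂, Or.inl ⟨x, hx.1, i, fun y h₅ h₆ => ?_⟩⟩
    have e := hb y (hx.sub h₅ h₆)
    by_cases h : ∃ i, i < m ∧ Dec S y i
    · simp only [if_pos h] at e
      exact e ▸ (least_spec h).2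
    · simp only [if_neg h] at e
      exact absurd hi (e ▸ lt_irrefl _)
  obtain ⟨b, hb⟩ := rc ⟨fun z => ∀ x, Typ z.1 x → Pos (RL.dec z.2 : g.Rs) →
      SLe (RL.dec z.2 : g.Rs) S₀ → ∀ i, i < m → ¬ Dec (RL.dec z.2) x i, by fun_prop⟩
    (fun b b' r h₁ h₂ x hx => h₂ x (hx.anti h₁)) fun r => by
      by_cases h : Pos (RL.dec r : g.Rs) ∧ SLe (RL.dec r : g.Rs) S₀
      · obtain ⟨b, hb⟩ := key _ h.1 h.2
        exact ⟨b, fun x hx _ _ => hb x hx⟩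
      · exact ⟨⟨fun a => a, by fun_prop⟩, fun x _ h₁ h₂ => absurd ⟨h₁, h₂⟩ h⟩
  obtain ⟨x, hx⟩ := exists_typ hT b
  refine hn ⟨S₀, h₀, SLe.refl S₀, Or.inr ⟨x, hx.1, fun S' h₁ h₂ => ?_⟩⟩
  have h₃ : Pos (RL.dec (RL.enc S') : g.Rs) → SLe (RL.dec (RL.enc S') : g.Rs) S₀ →
      ∀ i, i < m → ¬ Dec (RL.dec (RL.enc S')) x i := hb (RL.enc S') x hx
  rw [RL.dec_enc] at h₃
  exact h₃ h₁ h₂

theorem ns_of_not_theta {k : g.U} [Fact (IsOrdinal k.1)] [Inhabited (Elt k)]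
    (hT : g.TSP (Elt k)) (h : ¬ BelowTheta g.M k.1) : g.NS (Elt k) := by
  intro f hf
  by_contra hn
  have hb : ∀ b, ∃ r, b ≤ f r := fun b => by
    by_contra hc
    exact hn ⟨b, fun r => not_le.1 fun h₁ => hc ⟨r, h₁⟩⟩
  obtain ⟨e, he, hx⟩ := (hT.big_iff ⟨fun b => ∃ r, f r = b, by fun_prop⟩).2 fun a => by
    obtain ⟨a', ha⟩ := hT.nomax a
    obtain ⟨r, hr⟩ := hb a'
    exact ⟨f r, ha.trans_le hr, r, rfl⟩
  have hm : StrictMono e.ap := fun a b => he a b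
  let F : Fn g g.Re (Elt k) := ⟨fun r => g.least fun a => e a = f r, by fun_prop⟩
  have hk : g.GRep (Elt k) (k.1 : ZFSet.{u}) := fun x =>
    ⟨fun hx => ⟨⟨⟨x, g.zf.trans _ k.2 _ hx⟩, hx⟩, rfl⟩, fun ⟨a, e⟩ => e ▸ a.2⟩
  obtain ⟨h₁, h₂⟩ := (GRep.fn grep_re hk _).2 ⟨F, rfl⟩
  refine h ⟨_, h₁, h₂, fun b hb => ?_⟩
  obtain ⟨a, rfl⟩ := (hk b).1 hb
  obtain ⟨r, hr⟩ := (hx (e a)).2 ⟨a, rfl⟩
  have h₃ : F r = a := hm.injective
    ((least_spec (g := g) (P := fun a => e a = f r) ⟨a, hr.symm⟩).trans hr)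
  exact ⟨_, (gm_pair_code (f := F) (b := r)).2 (by rw [h₃])⟩

theorem preserve_rc {k : g.U} [Fact (IsOrdinal k.1)] (hc : g.TDC) (hu : g.LU)
    (rc : ∀ L : g.Asg (Elt k), LMono L → (∀ r, ∃ b, L (b, r)) → ∃ b, ∀ r, L (b, r))
    (hk : StrongPartition g.M k.1) (hG : Generic g.M G) : StrongPartition (Ext g.M G) k.1 := by
  have : Inhabited (Elt k) := ⟨⟨g.om, hk.unc⟩⟩
  have elt : ∀ a ∈ k.1, ∃ i : Elt k, i.1.1 = a := fun a ha =>
    ⟨⟨⟨a, g.zf.trans _ k.2 _ ha⟩, ha⟩, rfl⟩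
  have fn : ∀ f ∈ Ext g.M G, ∀ D X : Set ZFSet.{u}, (∀ a ∈ D, a ∈ k.1) → (∀ a ∈ X, a ∈ k.1) →
      IsFn f D X → f ∈ g.M := fun f hf D X h₁ h₂ h₃ =>
    barren hc hu hG (Elt k × Elt k) hf fun z hz => by
      obtain ⟨a, ha, b, hb, rfl⟩ := h₃.1 z hz
      obtain ⟨i, rfl⟩ := elt a (h₁ a ha)
      obtain ⟨j, rfl⟩ := elt b (h₂ b hb)
      exact ⟨(i, j), rfl⟩
  have up : ∀ x, HasOtp g.M x k.1 → HasOtp (Ext g.M G) x k.1 := fun x ⟨f, hf, h⟩ =>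
    ⟨f, sub_ext hG hf, h⟩
  have down : ∀ x, x ⊆ k.1 → HasOtp (Ext g.M G) x k.1 → HasOtp g.M x k.1 :=
    fun x hx ⟨f, hf, h⟩ => ⟨f, fn f hf _ _ (fun _ h => h) (fun _ h => hx h) h.1, h⟩
  have ss : ∀ x : Fn g (Elt k) Prop, (sof x).1 ⊆ k.1 := fun x z hz => by
    obtain ⟨a, -, rfl⟩ := mem_sof.1 hz
    exact a.2
  refine ⟨sub_ext hG k.2, hk.ord, hk.unc, fun a ha ⟨f, hf, h⟩ => hk.card a ha
    ⟨f, fn f hf _ _ (fun _ h => hk.ord.mem_trans h ha) (fun _ h => h) h.1, h⟩, ?_⟩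
  rintro m₀ hm - _ ⟨τ₀, hτ, rfl⟩ hfn
  obtain ⟨m, rfl⟩ := elt m₀ hm
  obtain ⟨τ, rfl⟩ : ∃ τ : g.U, τ.1 = τ₀ := ⟨⟨τ₀, hτ⟩, rfl⟩
  obtain ⟨Fm, hT, mono, truth⟩ := exists_forcing (g := g)
  obtain ⟨S, hS, hD⟩ := gg_dense hG (by fun_prop) fun S₀ h₀ => homog_dense' (tsp_of_sp hk) rc
    (Dec := fun S x i => Fm S τ (pr (sof x) i.1)) (by fun_prop) m h₀
  rcases hD with ⟨K, hK, i, hi⟩ | ⟨x, hx, h⟩
  · refine ⟨(sof K).1, sub_ext hG (sof K).2, ss K, up _ ((hasOtp_iff K).2 hK), i.1.1,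
      fun x h₁ h₂ h₃ => ?_⟩
    have h₄ : x ⊆ k.1 := fun _ h => ss K (h₂ h)
    obtain ⟨x, rfl⟩ := exists_sof (barren hc hu hG (Elt k) h₁ fun z hz => elt z (h₄ hz)) h₄
    refine (truth G hG τ (pr (sof x) i.1)).2 ⟨S, hS, hi x ((hasOtp_iff x).1 (down _ h₄ h₃))
      fun a ha => ?_⟩
    obtain ⟨b, h₅, h₆⟩ := mem_sof.1 (h₂ (mem_sof.2 ⟨a, ha, rfl⟩))
    exact Elt.ext (U.ext h₆) ▸ h₅
  · obtain ⟨b, hb, -⟩ := hfn.2 (sof x).1 ⟨sub_ext hG (sof x).2, ss x, up _ ((hasOtp_iff x).2 hx)⟩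
    obtain ⟨_, -, b', hb', e⟩ := hfn.1 _ hb
    obtain rfl : b = b' := (pair_inj.1 e).2
    obtain ⟨i, rfl⟩ := elt b (hk.ord.mem_trans hb' hm)
    obtain ⟨S', h₁, h₂⟩ := (truth G hG τ (pr (sof x) i.1)).1 hb
    obtain ⟨S'', h₃, h₄, h₅⟩ := gg_dir hG hS h₁
    exact absurd (mono _ _ _ _ h₂ h₃.1 h₅) (h S'' h₃.1 h₄ i hb')

end Mdl

end Pool.Agent.MP_09d684_lc

end
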