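import Pool.Agent.Mg.F09d684a.G7216c7

section

namespace Pool.Agent.MP_09d684_lc

open ZFSet

universe u v w

namespace Mdl

variable {g : Mdl.{u}}

open Cd

variable {I : Type*} [Cd g I] [Bd g I] {γ : Type*} [Cd g γ] [Bd g γ]
variable {p : g.Sy I γ} {Φ Ψ : Fn g ℕ γ → Prop} {i i' : I}

theorem Frc.mono (h : Frc p i Φ) (h' : ∀ x, Φ x → Ψ x) : Frc p i Ψ := by
  obtain ⟨D, h₁, h₂⟩ := h
  exact ⟨D, h₁, fun G x a b c => h' x (h₂ G x a b c)⟩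

theorem Frc.le (h : Frc p i Φ) (h' : p.1 (i', i)) : Frc p i' Φ := by
  obtain ⟨D, h₁, h₂⟩ := h
  exact ⟨D, h₁, fun G x a b c => h₂ G x a (a.1 _ _ b h') c⟩

theorem frc_of_all (p : g.Sy I γ) (i : I) (h : ∀ x, Φ x) : Frc p i Φ :=
  ⟨⟨fun _ => True, by fun_prop⟩, fun _ j hj => ⟨j, hj, trivial⟩, fun _ x _ _ _ => h x⟩

theorem Frc.and (h : Frc p i Φ) (h' : Frc p i Ψ) : Frc p i fun x => Φ x ∧ Ψ x := by
  obtain ⟨D, h₁, h₂⟩ := h
  obtain ⟨D', h₃, h₄⟩ := h'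
  refine ⟨⟨fun z => (z.1 % 2 = 0 ∧ D (z.1 / 2, z.2)) ∨ (z.1 % 2 = 1 ∧ D' (z.1 / 2, z.2)),
    by fun_prop⟩, fun n j hj => ?_, fun G x a b c => ⟨h₂ G x a b fun n => ?_, h₄ G x a b fun n => ?_⟩⟩
  · rcases Nat.mod_two_eq_zero_or_one n with e | e
    · exact (h₁ (n / 2) j hj).imp fun k hk => ⟨hk.1, Or.inl ⟨e, hk.2⟩⟩
    · exact (h₃ (n / 2) j hj).imp fun k hk => ⟨hk.1, Or.inr ⟨e, hk.2⟩⟩
  · obtain ⟨j, h₅, ⟨-, h₆⟩ | ⟨h₆, -⟩⟩ := c (2 * n)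
    · exact ⟨j, h₅, by rwa [show (2 * n, j).1 / 2 = n by simp] at h₆⟩
    · exact absurd h₆ (by simp)
  · obtain ⟨j, h₅, ⟨h₆, -⟩ | ⟨-, h₆⟩⟩ := c (2 * n + 1)
    · exact absurd h₆ (by simp)
    · exact ⟨j, h₅, by rwa [show (2 * n + 1, j).1 / 2 = n by simp only; omega] at h₆⟩

/-- Dense sets coded along an enumeration. -/
def fsy_pull (p : g.Sy I γ) (ε : Fn g ℕ I) (D : Fn g (ℕ × ℕ) Prop) : Fn g (ℕ × I) Prop :=
  ⟨fun z => ∃ k, D (z.1, k) ∧ p.1 (z.2, ε k), by fun_prop⟩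

theorem fsy_tm_pull (p : g.Sy I γ) (ε : Fn g ℕ I) : g.Tm (fsy_pull p ε) := by
  unfold fsy_pull
  fun_prop

theorem fsy_code (hp : IsSy p) {ε : Fn g ℕ I}
    (hε : ∀ i, p.1 (i, i) → ∃ n, p.1 (i, ε n) ∧ p.1 (ε n, i)) (h : Frc p i Φ) :
    ∃ D, Wit p (fsy_pull p ε D) i Φ := by
  obtain ⟨D, h₁, h₂⟩ := h
  refine ⟨⟨fun z => ∃ j, D (z.1, j) ∧ p.1 (ε z.2, j), by fun_prop⟩, fun n j hj => ?_,
    fun G x a b c => h₂ G x a b fun n => ?_⟩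
  · obtain ⟨j', h₃, h₄⟩ := h₁ n j hj
    obtain ⟨k, h₅, h₆⟩ := hε j' (hp.rfl_l _ _ h₃)
    exact ⟨j', h₃, k, ⟨j', h₄, h₆⟩, h₅⟩
  · obtain ⟨j, h₃, k, ⟨j', h₄, h₅⟩, h₆⟩ := c n
    exact ⟨j', a.1 _ _ (a.1 _ _ h₃ h₆) h₅, h₄⟩

theorem frc_all (hc : g.TDC) (hp : IsSy p) {Φ : ℕ → Fn g ℕ γ → Prop}
    (hΦ : g.Tm fun z : ℕ × Fn g ℕ γ => Φ z.1 z.2) (h : ∀ n, Frc p i (Φ n)) :
    Frc p i fun x => ∀ n, Φ n x := by
  obtain ⟨ε, hε⟩ := hp.enum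
  have ht := fsy_tm_pull p ε
  obtain ⟨f, hf⟩ := hc.cc (α := Fn g (ℕ × ℕ) Prop) (β := ℕ)
    (Q := fun n D => Wit p (fsy_pull p ε D) i (Φ n)) (by fun_prop) fun n => fsy_code hp hε (h n)
  refine ⟨⟨fun z => fsy_pull p ε (f z.1.unpair.1) (z.1.unpair.2, z.2), by fun_prop⟩,
    fun n => (hf n.unpair.1).1 n.unpair.2, fun G x a b c n => (hf n).2 G x a b fun m => ?_⟩
  simpa only [Nat.unpair_pair] using c (Nat.pair n m)

theorem Frc.ex [WO g I] [Inhabited I] [Inhabited γ] (hp : IsSy p) (hi : p.1 (i, i))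
    (h : Frc p i Φ) : ∃ x, Φ x := by
  obtain ⟨D, h₁, h₂⟩ := h
  let P : ℕ → I → I → Prop := fun n a j =>
    ∃ j₁ m, p.1 (j₁, a) ∧ D (n, j₁) ∧ p.1 (j, j₁) ∧ p.2 (j, n, m)
  let s : Fn g ℕ I := g.fix fun n f => if n = 0 then i else g.least (P (n - 1) (f (n - 1)))
  have hs : ∀ n, s n = if n = 0 then i else g.least (P (n - 1) (s (n - 1))) :=
    fix_eq (by simp only [P]; fun_prop) fun n f f' e => by
      split_ifs with hn
      · rfl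
      · rw [e (n - 1) (by omega)]
  have s₀ : s 0 = i := by rw [hs, if_pos rfl]
  have s₁ : ∀ n, p.1 (s n, s n) → P n (s n) (s (n + 1)) := fun n hn => by
    rw [hs (n + 1), if_neg n.succ_ne_zero, Nat.add_sub_cancel]
    obtain ⟨j₁, a₁, a₂⟩ := h₁ n _ hn
    obtain ⟨j, m, a₃, a₄⟩ := hp.dig j₁ n (hp.rfl_l _ _ a₁)
    exact least_spec ⟨j, j₁, m, a₁, a₂, a₃, a₄⟩
  have s₂ : ∀ n, p.1 (s n, s n) := fun n => by
    induction n with
    | zero => rwa [s₀]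
    | succ n ih =>
      obtain ⟨j₁, m, -, -, a, -⟩ := s₁ n ih
      exact hp.rfl_l _ _ a
  have s₃ : ∀ n m, n ≤ m → p.1 (s m, s n) := fun n m hm => by
    induction m, hm using Nat.le_induction with
    | base => exact s₂ n
    | succ m _ ih =>
      obtain ⟨j₁, _, a₁, -, a₂, -⟩ := s₁ m (s₂ m)
      exact hp.trans _ _ _ (hp.trans _ _ _ a₂ a₁) ih
  let x : Fn g ℕ γ := ⟨fun n => the fun m => p.2 (s (n + 1), n, m), by fun_prop⟩
  refine ⟨x, h₂ ⟨fun j => ∃ n, p.1 (s n, j), by fun_prop⟩ x ⟨?_, ?_, ?_⟩ ⟨0, by rwa [s₀]⟩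
    fun n => ?_⟩
  · rintro j j' ⟨n, a⟩ b
    exact ⟨n, hp.trans _ _ _ a b⟩
  · rintro j j' ⟨n, a⟩ ⟨n', b⟩
    exact ⟨s (max n n'), hp.trans _ _ _ (s₃ _ _ (le_max_left _ _)) a,
      hp.trans _ _ _ (s₃ _ _ (le_max_right _ _)) b⟩
  · rintro j n m ⟨k, a⟩ b
    obtain ⟨-, m', -, -, -, c⟩ := s₁ n (s₂ n)
    have e : x n = m' := the_eq fun m'' => ⟨fun d => hp.func _ _ _ _ (s₂ _) d c, fun d => d ▸ c⟩
    rw [e]
    exact hp.func _ _ _ _ (s₂ (max k (n + 1))) (hp.mono _ _ _ _ (s₃ _ _ (le_max_right _ _)) c)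
      (hp.mono _ _ _ _ (hp.trans _ _ _ (s₃ _ _ (le_max_left _ _)) a) b)
  · obtain ⟨j₁, -, -, a₁, a₂, -⟩ := s₁ n (s₂ n)
    exact ⟨j₁, ⟨n + 1, a₂⟩, a₁⟩

theorem isSy_csy {F : Fn g I g.PR}
    (dig : ∀ i n, (∃ x, F i x) → ∃ j m, (∃ x, F j x) ∧ ∀ x, F j x → F i x ∧ x n = m)
    (enum : ∃ ε : Fn g ℕ I, ∀ j, ∃ n, F (ε n) = F j) : IsSy (csy F) where
  trans := fun _ _ _ a b => ⟨a.1, fun x hx => b.2 x (a.2 x hx)⟩
  rfl_l := fun _ _ a => ⟨a.1, fun _ hx => hx⟩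
  rfl_r := fun _ _ a => ⟨a.1.imp a.2, fun _ hx => hx⟩
  mono := fun _ _ _ _ a b x hx => b x (a.2 x hx)
  func := fun _ _ _ _ a b c => by
    obtain ⟨x, hx⟩ := a.1
    exact (b x hx).symm.trans (c x hx)
  dig := fun i n a => by
    obtain ⟨j, m, b, c⟩ := dig i n a.1
    exact ⟨j, m, ⟨b, fun x hx => (c x hx).1⟩, fun x hx => (c x hx).2⟩
  enum := by
    obtain ⟨ε, hε⟩ := enum
    refine ⟨ε, fun i a => ?_⟩
    obtain ⟨n, e⟩ := hε i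
    refine ⟨n, ⟨a.1, fun x hx => ?_⟩, ?_, fun x hx => ?_⟩
    · show F (ε n) x
      rwa [e]
    · show ∃ x, F (ε n) x
      rw [e]
      exact a.1
    · show F i x
      rw [← e]
      exact hx

theorem isSy_col [Inhabited I] {F : Fn g I g.PR} (enum : ∃ ε : Fn g ℕ I, ∀ j, ∃ n, F (ε n) = F j) :
    IsSy (col F) where
  trans := fun _ _ _ a b => ⟨b.1.trans a.1, fun k hk => (a.2 k (hk.trans_le b.1)).trans (b.2 k hk)⟩
  rfl_l := fun _ _ _ => ⟨le_rfl, fun _ _ => rfl⟩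
  rfl_r := fun _ _ _ => ⟨le_rfl, fun _ _ => rfl⟩
  mono := fun _ _ n _ a b => ⟨b.1.trans_le a.1, (a.2 n b.1).trans b.2⟩
  func := fun _ _ _ _ _ b c => b.2.symm.trans c.2
  dig := fun q n _ => by
    refine ⟨ini (fun k => q.getD k default) (max q.length (n + 1)),
      F ((ini (fun k => q.getD k default) (max q.length (n + 1))).getD n default),
      ⟨?_, fun k hk => ?_⟩, ?_, rfl⟩
    · show q.length ≤ (ini _ _).length
      rw [length_ini]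
      exact le_max_left _ _
    · show F ((ini _ _).getD k default) = _
      rw [getD_ini _ _ (lt_max_of_lt_left hk)]
    · show n < (ini _ _).length
      rw [length_ini]
      exact lt_max_of_lt_right n.lt_succ_self
  enum := by
    obtain ⟨ε, hε⟩ := enum
    refine ⟨⟨fun n => ini (fun k => ε ((NL.dec g n : List ℕ).getD k 0))
      (NL.dec g n : List ℕ).length, by fun_prop⟩, fun q _ => ?_⟩
    choose t ht using hε
    have e : ∀ k, k < q.length → F ((ini (fun k => ε ((ini (fun k => t (q.getD k default))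
        q.length).getD k 0)) q.length).getD k default) = F (q.getD k default) := fun k hk => by
      rw [getD_ini _ _ hk, getD_ini _ _ hk, ht]
    refine ⟨NL.enc g (ini (fun k => t (q.getD k default)) q.length), ?_⟩
    simp only [NL.dec_enc, length_ini]
    exact ⟨⟨(length_ini _ _).le, fun k hk => (e k (hk.trans_eq (length_ini _ _))).symm⟩,
      (length_ini _ _).ge, e⟩

/-- Projections. -/
theorem frc_proj {I' : Type*} [Cd g I'] [Bd g I'] {F : Fn g I g.PR} {F' : Fn g I' g.PR}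
    (t : Fn g ℕ ℕ)
    (img : ∀ i, (∃ x, F i x) → ∃ i', ∀ y, F' i' y ↔ ∃ x, F i x ∧ rix t x = y)
    (pre : ∀ i i', (∃ x, F i x ∧ F' i' (rix t x)) →
      ∃ j, (∃ x, F j x) ∧ ∀ x, F j x → F i x ∧ F' i' (rix t x))
    {i : I} {i' : I'} (h : ∀ x, F i x → F' i' (rix t x)) {Φ : g.Re → Prop}
    (H : Frc (csy F') i' Φ) : Frc (csy F) i fun x => Φ (rix t x) := by
  obtain ⟨D, h₁, h₂⟩ := H
  refine ⟨⟨fun z => ∃ j', D (z.1, j') ∧ ∀ x, F z.2 x → F' j' (rix t x), by fun_prop⟩,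
    fun n j hj => ?_, fun G x a b c => h₂ ⟨fun j' => ∃ j, G j ∧ ∀ x, F j x → F' j' (rix t x),
      by fun_prop⟩ _ ⟨?_, ?_, ?_⟩ ⟨i, b, h⟩ fun n => ?_⟩
  · obtain ⟨k, hk⟩ := img j hj.1
    obtain ⟨x, hx⟩ := hj.1
    obtain ⟨j', ⟨⟨y, hy⟩, a₁⟩, a₂⟩ := h₁ n k ⟨⟨_, (hk _).2 ⟨x, hx, rfl⟩⟩, fun _ h => h⟩
    obtain ⟨x', hx', rfl⟩ := (hk y).1 (a₁ y hy)
    obtain ⟨j₁, b₁, b₂⟩ := pre j j' ⟨x', hx', hy⟩
    exact ⟨j₁, ⟨b₁, fun x hx => (b₂ x hx).1⟩, j', a₂, fun x hx => (b₂ x hx).2⟩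
  · rintro j₁ j₂ ⟨j, b₁, b₂⟩ b₃
    exact ⟨j, b₁, fun x hx => b₃.2 _ (b₂ x hx)⟩
  · rintro j₁ j₂ ⟨j, b₁, b₂⟩ ⟨j', b₃, b₄⟩
    obtain ⟨k, c₁, c₂⟩ := a.2.1 j j' b₁ b₃
    obtain ⟨k', hk⟩ := img k c₁.1
    obtain ⟨y, hy⟩ := c₁.1
    have c₃ : ∃ y, F' k' y := ⟨_, (hk _).2 ⟨y, hy, rfl⟩⟩
    refine ⟨k', ⟨c₃, fun z hz => ?_⟩, c₃, fun z hz => ?_⟩
    · obtain ⟨z', hz', rfl⟩ := (hk z).1 hz
      exact b₂ _ (c₁.2 _ hz')
    · obtain ⟨z', hz', rfl⟩ := (hk z).1 hz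
      exact b₄ _ (c₂.2 _ hz')
  · rintro j' n m ⟨j, b₁, b₂⟩ b₃
    exact a.2.2 j (t n) m b₁ fun y hy => b₃ _ (b₂ y hy)
  · obtain ⟨j, b₁, j', b₂, b₃⟩ := c n
    exact ⟨j', ⟨j, b₁, b₃⟩, b₂⟩

end Mdl

end Pool.Agent.MP_09d684_lc

end

section

namespace Pool.Agent.MP_09d684_lc

open ZFSet

universe u v w

namespace Mdl

variable {g : Mdl.{u}}

open Cd

variable {I : Type*} [Cd g I] [Bd g I] [WO g I] [Inhabited I]
variable {R : Fn g (g.Re × g.Re) Prop} {U : g.Uf} {X : g.PR} {F : Fn g I g.PR}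

omit [WO g I] in
theorem Fam.isSy (h : Fam R U X F) : IsSy (csy F) := by
  refine isSy_csy (fun i n ⟨x, hx⟩ => ?_) h.enum
  obtain ⟨j, hj⟩ := h.dig n (x n)
  obtain ⟨k, hk⟩ := h.inter i j
  exact ⟨k, x n, ⟨x, (hk x).2 ⟨hx, (hj x).2 ⟨h.sub _ _ hx, rfl⟩⟩⟩, fun y hy =>
    ⟨((hk y).1 hy).1, ((hj y).1 ((hk y).1 hy).2).2⟩⟩

/-- `c` enumerates the family `F`. -/
def fcaEn (F : Fn g I g.PR) (c : Fn g ℕ g.PR) : Prop :=
  (∀ k, ∃ j, c k = F j) ∧ ∀ j, ∃ k, c k = F j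

omit [WO g I] in
theorem fca_col_refl (F : Fn g I g.PR) (q : List I) : (col F).1 (q, q) := ⟨le_rfl, fun _ _ => rfl⟩

omit [WO g I] in
theorem fca_frc_en (enum : ∃ ε : Fn g ℕ I, ∀ j, ∃ n, F (ε n) = F j) (q : List I) :
    Frc (col F) q (fcaEn F) := by
  obtain ⟨ε, hε⟩ := enum
  refine ⟨⟨fun z => z.1 < z.2.length ∧ ∃ k, k < z.2.length ∧ F (z.2.getD k default) = F (ε z.1),
    by fun_prop⟩, fun n q _ => ?_, fun G c hG _ hD => ⟨fun k => ?_, fun j => ?_⟩⟩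
  · refine ⟨ini (fun k => if k < q.length then q.getD k default else ε n) (q.length + n + 1),
      ⟨by simp only [length_ini]; omega, fun k hk => ?_⟩, by simp only [length_ini]; omega,
      q.length, by simp only [length_ini]; omega, ?_⟩
    · show F (List.getD _ k default) = _
      rw [getD_ini _ _ (by simp only at hk; omega), if_pos hk]
    · show F (List.getD _ q.length default) = _
      rw [getD_ini _ _ (by omega), if_neg (lt_irrefl _)]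
  · obtain ⟨q', h₁, h₂, -⟩ := hD k
    exact ⟨q'.getD k default, hG.2.2 q' k _ h₁ ⟨h₂, rfl⟩⟩
  · obtain ⟨n, hn⟩ := hε j
    obtain ⟨q', h₁, -, k, h₂, h₃⟩ := hD n
    exact ⟨k, hG.2.2 q' k _ h₁ ⟨h₂, h₃.trans hn⟩⟩

omit [WO g I] in
theorem fca_wit (hU : IsUf R U) (h : Fam R U X F) {s : Prop} {i : I}
    (H : Frc (csy F) i fun z => R (ev0 z, ev1 z) ↔ s) {c : Fn g ℕ g.PR} (hc : fcaEn F c) :
    c (g.least fun k : ℕ => c k = F i) = F i ∧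
      Wit (csy c) (capD U s (F i) c) (g.least fun k : ℕ => c k = F i)
        fun z => R (ev0 z, ev1 z) ↔ s := by
  have e := least_spec (g := g) (hc.2 i)
  refine ⟨e, hU _ _ _ ?_⟩
  have hid : ∀ x : g.Re, rix (⟨fun n => n, by fun_prop⟩ : Fn g ℕ ℕ) x = x := fun _ => rfl
  refine Frc.mono (frc_proj (F := c) (F' := F) ⟨fun n => n, by fun_prop⟩ ?_ ?_ ?_ H)
    fun x hx => hx
  · intro k _
    obtain ⟨j, hj⟩ := hc.1 k
    exact ⟨j, fun y => by simp only [hid, hj]; simp⟩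
  · rintro k j ⟨x, h₁, h₂⟩
    obtain ⟨j', hj'⟩ := hc.1 k
    obtain ⟨m, hm⟩ := h.inter j' j
    obtain ⟨k', hk'⟩ := hc.2 m
    rw [hj'] at h₁ ⊢
    exact ⟨k', ⟨x, by rw [hk']; exact (hm x).2 ⟨h₁, h₂⟩⟩, fun y hy => (hm y).1 (hk' ▸ hy)⟩
  · intro x hx
    rwa [e] at hx

theorem fca_dense (hd : g.TDet ℕ) (hc : g.TDC) (hU : IsUf R U) (h : Fam R U X F) {s : Prop}
    {i : I} (H : Frc (csy F) i fun z => R (ev0 z, ev1 z) ↔ s) (q : List I) (n : ℕ) {j₀ : I}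
    (h₀ : ∃ x, F j₀ x) : ∃ j, (csy F).1 (j, j₀) ∧ capE U F s i q n j := by
  by_contra hn
  have hp := isSy_col h.enum
  obtain ⟨ε, hε⟩ := h.enum
  have h₁ : ∀ m, Frc (col F) q fun c => (csy F).1 (ε m, j₀) →
      ¬ ∃ k, c k = F (ε m) ∧ capD U s (F i) c (n, k) := fun m => by
    by_cases hm : (csy F).1 (ε m, j₀)
    · rcases frc_or hd hp (Φ := fun c => ¬ ∃ k, c k = F (ε m) ∧ capD U s (F i) c (n, k))
        (by fun_prop) (fca_col_refl F q) with h₂ | ⟨q', h₂, h₃⟩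
      · exact h₂.mono fun c hc _ => hc
      · exact absurd ⟨ε m, hm, q', h₂, h₃.mono fun c hc => not_not.1 hc⟩ hn
    · exact frc_of_all _ _ fun c hc => absurd hc hm
  obtain ⟨c, h₂, h₃⟩ := ((frc_all hc hp (by fun_prop) h₁).and (fca_frc_en h.enum q)).ex hp
    (fca_col_refl F q)
  obtain ⟨k₀, hk₀⟩ := h₃.2 j₀
  obtain ⟨k, ⟨h₄, h₅⟩, h₆⟩ := (fca_wit hU h H h₃).2.1 n k₀
    ⟨by simpa only [hk₀] using h₀, fun _ hx => hx⟩
  obtain ⟨j, hj⟩ := h₃.1 k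
  obtain ⟨m, hm⟩ := hε j
  have e : c k = F (ε m) := hj.trans hm.symm
  simp only [e, hk₀] at h₄ h₅
  exact h₂ m ⟨h₄, h₅⟩ ⟨k, e, h₆⟩

/-- Capturing: what a member of the family forces is true of its points. -/
theorem Fam.capture (hd : g.TDet ℕ) (hc : g.TDC) (hU : IsUf R U) (h : Fam R U X F) {s : Prop}
    {i : I} (H : Frc (csy F) i fun z => R (ev0 z, ev1 z) ↔ s) {x : g.Re} (hx : F i x) :
    R (ev0 x, ev1 x) ↔ s := by
  have hp := isSy_col h.enum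
  have h₁ : ∀ q n, ∃ j, capE U F s i q n j ∧ F j x := fun q n => by
    obtain ⟨j, hj⟩ := h.cap s i q n
    obtain ⟨j₀, hj₀⟩ := h.compl j
    by_contra hn
    obtain ⟨j', ⟨⟨y, hy⟩, h₂⟩, h₃⟩ := fca_dense hd hc hU h H q n (j₀ := j₀)
      ⟨x, (hj₀ x).2 ⟨h.sub _ _ hx, fun h₄ => hn ((hj x).1 h₄).2⟩⟩
    exact ((hj₀ y).1 (h₂ y hy)).2 ((hj y).2 ⟨h.sub _ _ hy, j', h₃, hy⟩)
  have h₂ : ∀ n, Frc (col F) [] fun c => ∃ k, c k x ∧ capD U s (F i) c (n, k) := fun n => by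
    refine (frc_or hd hp (by fun_prop) (fca_col_refl F [])).resolve_right ?_
    rintro ⟨q, -, h₃⟩
    obtain ⟨j, ⟨q', h₄, h₅⟩, h₆⟩ := h₁ q n
    obtain ⟨c, h₇, k, h₈, h₉⟩ := ((h₃.le h₄).and h₅).ex hp (fca_col_refl F q')
    exact h₇ ⟨k, h₈ ▸ h₆, h₉⟩
  obtain ⟨c, h₃, h₄⟩ := ((frc_all hc hp (by fun_prop) h₂).and (fca_frc_en h.enum [])).ex hp
    (fca_col_refl F [])
  obtain ⟨e, -, h₅⟩ := fca_wit hU h H h₄
  refine h₅ ⟨fun k => c k x, by fun_prop⟩ x ⟨fun k k' h₆ h₇ => h₇.2 x h₆, fun k k' h₆ h₇ => ?_,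
    fun k n m h₆ h₇ => h₇ x h₆⟩ (by show c _ x; rwa [e]) h₃
  obtain ⟨j, hj⟩ := h₄.1 k
  obtain ⟨j', hj'⟩ := h₄.1 k'
  obtain ⟨m, hm⟩ := h.inter j j'
  obtain ⟨k'', hk''⟩ := h₄.2 m
  have h₈ : ∀ y, c k'' y ↔ c k y ∧ c k' y := fun y => by rw [hk'', hj, hj', hm]
  have h₉ : ∃ y, c k'' y := ⟨x, (h₈ x).2 ⟨h₆, h₇⟩⟩
  exact ⟨k'', ⟨h₉, fun y hy => ((h₈ y).1 hy).1⟩, h₉, fun y hy => ((h₈ y).1 hy).2⟩

end Mdl

end Pool.Agent.MP_09d684_lc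

end

section

namespace Pool.Agent.MP_09d684_lc

open ZFSet

universe u v w

namespace Mdl

variable {g : Mdl.{u}}

open Cd

variable {I : Type*} [Cd g I] [Bd g I] [WO g I] [Inhabited I]
variable {R : Fn g (g.Re × g.Re) Prop} {U : g.Uf} {X : g.PR} {F : Fn g I g.PR}

theorem flo_ext {x y : g.Re} (h₀ : ev0 x = ev0 y) (h₁ : ev1 x = ev1 y) : x = y := by
  rw [← jn_ev x, h₀, h₁, jn_ev]

/-- The index map of the cross projection. -/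
def floC (g : Mdl.{u}) : Fn g ℕ ℕ := ⟨fun n => if n % 2 = 0 then 2 * n else 2 * n + 1, by fun_prop⟩

/-- The index map of the swap. -/
def floS (g : Mdl.{u}) : Fn g ℕ ℕ := ⟨fun n => if n % 2 = 0 then n + 1 else n - 1, by fun_prop⟩

theorem floC_0 (w : g.Re) : ev0 (rix g.floC w) = ev0 (ev0 w) := Fn.ext' fun n => by
  simp [ev0, rix, floC]

theorem floC_1 (w : g.Re) : ev1 (rix g.floC w) = ev1 (ev1 w) := Fn.ext' fun n => by
  simp [ev1, rix, floC]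

theorem floS_0 (w : g.Re) : ev0 (rix g.floS w) = ev1 w := Fn.ext' fun n => by
  simp [ev0, ev1, rix, floS]

theorem floS_1 (w : g.Re) : ev1 (rix g.floS w) = ev0 w := Fn.ext' fun n => by
  simp [ev0, ev1, rix, floS]

omit [WO g I] [Inhabited I] in
theorem flo_rect (F : Fn g I g.PR) (i j : I) (w : g.Re) :
    rect F (i, j) w ↔ F i (ev0 w) ∧ F j (ev1 w) := Iff.rfl

omit [WO g I] in
theorem flo_isSy (h : Fam R U X F) : IsSy (csy (rect F)) := by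
  refine isSy_csy ?_ ?_
  · rintro ⟨i, j⟩ n ⟨w, h₀, h₁⟩
    rcases Nat.even_or_odd' n with ⟨k, rfl | rfl⟩
    · obtain ⟨a, ha⟩ := h.dig k (ev0 w k)
      obtain ⟨b, hb⟩ := h.inter i a
      exact ⟨(b, j), ev0 w k, ⟨w, (hb _).2 ⟨h₀, (ha _).2 ⟨h.sub _ _ h₀, rfl⟩⟩, h₁⟩,
        fun y hy => ⟨⟨((hb _).1 hy.1).1, hy.2⟩, ((ha _).1 ((hb _).1 hy.1).2).2⟩⟩
    · obtain ⟨a, ha⟩ := h.dig k (ev1 w k)
      obtain ⟨b, hb⟩ := h.inter j a
      exact ⟨(i, b), ev1 w k, ⟨w, h₀, (hb _).2 ⟨h₁, (ha _).2 ⟨h.sub _ _ h₁, rfl⟩⟩⟩,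
        fun y hy => ⟨⟨hy.1, ((hb _).1 hy.2).1⟩, ((ha _).1 ((hb _).1 hy.2).2).2⟩⟩
  · obtain ⟨ε, hε⟩ := h.enum
    refine ⟨⟨fun n => (ε n.unpair.1, ε n.unpair.2), by fun_prop⟩, fun ⟨i, j⟩ => ?_⟩
    obtain ⟨m, hm⟩ := hε i
    obtain ⟨n, hn⟩ := hε j
    refine ⟨Nat.pair m n, Fn.ext' fun w => propext ?_⟩
    simp only [Nat.unpair_pair, flo_rect, hm, hn]

omit [WO g I] in
theorem flo_proj0 (h : Fam R U X F) {b : I} {Φ : g.Re → Prop} (H : Frc (csy F) b Φ) :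
    Frc (csy (rect F)) (b, b) fun w => Φ (ev0 w) := by
  have e : ∀ w : g.Re, rix (⟨fun n => 2 * n, by fun_prop⟩ : Fn g ℕ ℕ) w = ev0 w := fun _ => rfl
  refine Frc.mono (frc_proj (F := rect F) (F' := F) ⟨fun n => 2 * n, by fun_prop⟩ ?_ ?_ ?_ H)
    fun x hx => hx
  · rintro ⟨i, j⟩ ⟨w, -, h₁⟩
    refine ⟨i, fun y => ⟨fun hy => ⟨jn y (ev1 w), ?_, by rw [e, ev0_jn]⟩, ?_⟩⟩
    · rw [flo_rect, ev0_jn, ev1_jn]
      exact ⟨hy, h₁⟩
    · rintro ⟨x, hx, rfl⟩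
      exact hx.1
  · rintro ⟨i, j⟩ i' ⟨x, h₁, h₂⟩
    obtain ⟨k, hk⟩ := h.inter i i'
    exact ⟨(k, j), ⟨x, (hk _).2 ⟨h₁.1, h₂⟩, h₁.2⟩, fun y hy =>
      ⟨⟨((hk _).1 hy.1).1, hy.2⟩, ((hk _).1 hy.1).2⟩⟩
  · exact fun x hx => hx.1

omit [WO g I] in
theorem flo_projC (h : Fam R U X F) (c0 : ∀ x, X x → X (ev0 x)) (c1 : ∀ x, X x → X (ev1 x))
    {A B b : I} (hb : ∀ z, F b z → F A (ev0 z) ∧ F B (ev1 z)) {Φ : g.Re → Prop}
    (H : Frc (csy (rect F)) (A, B) Φ) :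
    Frc (csy (rect F)) (b, b) fun w => Φ (rix g.floC w) := by
  refine frc_proj (F := rect F) (F' := rect F) g.floC ?_ ?_ ?_ H
  · rintro ⟨i, j⟩ -
    obtain ⟨a, ha⟩ := h.img0 i
    obtain ⟨c, hc⟩ := h.img1 j
    refine ⟨(a, c), fun y => ?_⟩
    rw [flo_rect, ha, hc]
    constructor
    · rintro ⟨⟨-, z, h₁, h₂⟩, -, z', h₃, h₄⟩
      refine ⟨jn z z', by rw [flo_rect, ev0_jn, ev1_jn]; exact ⟨h₁, h₃⟩, flo_ext ?_ ?_⟩
      · rw [floC_0, ev0_jn, h₂]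
      · rw [floC_1, ev1_jn, h₄]
    · rintro ⟨x, hx, rfl⟩
      rw [floC_0, floC_1]
      exact ⟨⟨c0 _ (h.sub _ _ hx.1), _, hx.1, rfl⟩, c1 _ (h.sub _ _ hx.2), _, hx.2, rfl⟩
  · rintro ⟨i, j⟩ ⟨A', B'⟩ ⟨x, h₁, h₂⟩
    obtain ⟨a, ha⟩ := h.pre0 A'
    obtain ⟨c, hc⟩ := h.pre1 B'
    obtain ⟨k, hk⟩ := h.inter i a
    obtain ⟨k', hk'⟩ := h.inter j c
    rw [flo_rect, floC_0, floC_1] at h₂
    refine ⟨(k, k'), ⟨x, (hk _).2 ⟨h₁.1, (ha _).2 ⟨h.sub _ _ h₁.1, h₂.1⟩⟩,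
      (hk' _).2 ⟨h₁.2, (hc _).2 ⟨h.sub _ _ h₁.2, h₂.2⟩⟩⟩, fun y hy => ?_⟩
    rw [flo_rect, flo_rect, floC_0, floC_1]
    exact ⟨⟨((hk _).1 hy.1).1, ((hk' _).1 hy.2).1⟩, ((ha _).1 ((hk _).1 hy.1).2).2,
      ((hc _).1 ((hk' _).1 hy.2).2).2⟩
  · intro x hx
    rw [flo_rect, floC_0, floC_1]
    exact ⟨(hb _ hx.1).1, (hb _ hx.2).2⟩

omit [WO g I] in
theorem flo_projS (h : Fam R U X F) {b : I} {Φ : g.Re → Prop}
    (H : Frc (csy (rect F)) (b, b) Φ) :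
    Frc (csy (rect F)) (b, b) fun w => Φ (rix g.floS w) := by
  refine frc_proj (F := rect F) (F' := rect F) g.floS ?_ ?_ ?_ H
  · rintro ⟨i, j⟩ -
    refine ⟨(j, i), fun y => ⟨fun hy => ⟨jn (ev1 y) (ev0 y), ?_, flo_ext ?_ ?_⟩, ?_⟩⟩
    · rw [flo_rect, ev0_jn, ev1_jn]
      exact ⟨hy.2, hy.1⟩
    · rw [floS_0, ev1_jn]
    · rw [floS_1, ev0_jn]
    · rintro ⟨x, hx, rfl⟩
      rw [flo_rect, floS_0, floS_1]
      exact ⟨hx.2, hx.1⟩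
  · rintro ⟨i, j⟩ ⟨A', B'⟩ ⟨x, h₁, h₂⟩
    obtain ⟨k, hk⟩ := h.inter i B'
    obtain ⟨k', hk'⟩ := h.inter j A'
    rw [flo_rect, floS_0, floS_1] at h₂
    refine ⟨(k, k'), ⟨x, (hk _).2 ⟨h₁.1, h₂.2⟩, (hk' _).2 ⟨h₁.2, h₂.1⟩⟩, fun y hy => ?_⟩
    rw [flo_rect, flo_rect, floS_0, floS_1]
    exact ⟨⟨((hk _).1 hy.1).1, ((hk' _).1 hy.2).1⟩, ((hk' _).1 hy.2).2, ((hk _).1 hy.1).2⟩
  · intro x hx
    rw [flo_rect, floS_0, floS_1]
    exact ⟨hx.2, hx.1⟩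

/-- Every point of `X` lies in a bounded member of the family. -/
theorem Fam.cover (hd : g.TDet ℕ) (hc : g.TDC) (hU : IsUf R U) (h : Fam R U X F)
    (tot : ∀ x y, R (x, y) ∨ R (y, x)) (tr : ∀ x y z, R (x, y) → R (y, z) → R (x, z))
    (cj : ∀ x y, X x → X y → X (jn x y)) (c0 : ∀ x, X x → X (ev0 x)) (c1 : ∀ x, X x → X (ev1 x))
    {x : g.Re} (hx : X x) : ∃ j, F j x ∧ Bdd R X (F j) := by
  by_contra hn
  have hp := h.isSy
  have hq := flo_isSy h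
  obtain ⟨j₁, hj₁⟩ := h.bdd
  obtain ⟨j₀, hj₀⟩ := h.compl j₁
  have h₀ : F j₀ x := (hj₀ x).2 ⟨hx, fun h₁ => hn ((hj₁ x).1 h₁).2⟩
  have unb : ∀ A a, F A a → F j₀ a → ∀ y, X y → ∃ a', F A a' ∧ ¬ R (a', y) := by
    intro A a h₁ h₂ y hy
    by_contra h₃
    exact ((hj₀ a).1 h₂).2 ((hj₁ a).2 ⟨h.sub _ _ h₁, A, h₁, y, hy, fun a' h₄ =>
      by_contra fun h₅ => h₃ ⟨a', h₄, h₅⟩⟩)
  have v₀ : (csy (rect F)).1 ((j₀, j₀), (j₀, j₀)) :=
    ⟨⟨jn x x, by rw [flo_rect, ev0_jn, ev1_jn]; exact ⟨h₀, h₀⟩⟩, fun _ h => h⟩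
  obtain ⟨A, B, s, ⟨⟨w, hA, hB⟩, hle⟩, H⟩ : ∃ A B s, (csy (rect F)).1 ((A, B), (j₀, j₀)) ∧
      Frc (csy (rect F)) (A, B) fun z => R (ev0 z, ev1 z) ↔ s := by
    rcases frc_or hd hq (Φ := fun z => R (ev0 z, ev1 z)) (by fun_prop) v₀ with H | ⟨⟨A, B⟩, H, H'⟩
    · exact ⟨j₀, j₀, True, v₀, H.mono fun z hz => iff_of_true hz trivial⟩
    · exact ⟨A, B, False, H, H'.mono fun z hz => iff_of_false hz id⟩
  obtain ⟨hA₀, hB₀⟩ := hle w ⟨hA, hB⟩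
  obtain ⟨b, hb⟩ : ∃ b, ∀ z, F b z ↔ X z ∧ F A (ev0 z) ∧ F B (ev1 z) ∧
      ¬ (R (ev0 z, ev1 z) ↔ s) := by
    obtain ⟨a, ha⟩ := h.pre0 A
    obtain ⟨a', ha'⟩ := h.pre1 B
    obtain ⟨c, hc⟩ := h.rel
    obtain ⟨c', hc'⟩ := h.compl c
    obtain ⟨k, hk⟩ := h.inter a a'
    by_cases hs : s
    · obtain ⟨b, hb⟩ := h.inter k c'
      exact ⟨b, fun z => by rw [hb, hk, ha, ha', hc', hc]; simp only [hs]; tauto⟩
    · obtain ⟨b, hb⟩ := h.inter k c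
      exact ⟨b, fun z => by rw [hb, hk, ha, ha', hc]; simp only [hs]; tauto⟩
  obtain ⟨z₀, hz₀⟩ : ∃ z, F b z := by
    by_cases hs : s
    · obtain ⟨a, h₁, h₂⟩ := unb A _ hA hA₀ _ (h.sub _ _ hB)
      refine ⟨jn a (ev1 w), (hb _).2 ⟨cj _ _ (h.sub _ _ h₁) (h.sub _ _ hB), ?_⟩⟩
      rw [ev0_jn, ev1_jn]
      exact ⟨h₁, hB, fun h₃ => h₂ (h₃.2 hs)⟩
    · obtain ⟨a, h₁, h₂⟩ := unb B _ hB hB₀ _ (h.sub _ _ hA)
      refine ⟨jn (ev0 w) a, (hb _).2 ⟨cj _ _ (h.sub _ _ hA) (h.sub _ _ h₁), ?_⟩⟩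
      rw [ev0_jn, ev1_jn]
      exact ⟨hA, h₁, fun h₃ => hs (h₃.1 ((tot _ _).resolve_right h₂))⟩
  have Hb : Frc (csy F) b fun z => ¬ (R (ev0 z, ev1 z) ↔ s) := by
    refine (frc_or hd hp (by fun_prop) ⟨⟨z₀, hz₀⟩, fun _ h => h⟩).resolve_right ?_
    rintro ⟨b', ⟨⟨z, hz⟩, h₁⟩, h₂⟩
    exact ((hb z).1 (h₁ z hz)).2.2.2
      (h.capture hd hc hU (h₂.mono fun _ h₃ => not_not.1 h₃) hz)
  have H₁ := (flo_proj0 h Hb).and
    (flo_projC h c0 c1 (b := b) (fun z hz => ⟨((hb z).1 hz).2.1, ((hb z).1 hz).2.2.1⟩) H)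
  obtain ⟨y, ⟨h₁, h₂⟩, h₃, h₄⟩ := (H₁.and (flo_projS h H₁)).ex hq
    ⟨⟨jn z₀ z₀, by rw [flo_rect, ev0_jn, ev1_jn]; exact ⟨hz₀, hz₀⟩⟩, fun _ h => h⟩
  simp only [floC_0, floC_1, floS_0, floS_1] at h₁ h₂ h₃ h₄
  by_cases hs : s
  · simp only [hs, iff_true] at h₁ h₂ h₃ h₄
    exact h₁ (tr _ _ _ h₂ (tr _ _ _ ((tot _ _).resolve_left h₃) h₄))
  · simp only [hs, iff_false, not_not] at h₁ h₂ h₃ h₄
    exact h₂ (tr _ _ _ h₁ (tr _ _ _ ((tot _ _).resolve_left h₄) h₃))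

end Mdl

end Pool.Agent.MP_09d684_lc

end

section

namespace Pool.Agent.MP_09d684_lc

open ZFSet

universe u v w

namespace Mdl

variable {g : Mdl.{u}}

open Cd

variable {P Q : g.PR → Prop}

theorem AEn.mono (h : AEn P) (h' : ∀ e : Fn g ℕ g.Re, P (rg e) → Q (rg e)) : AEn Q := by
  obtain ⟨F, hF⟩ := h
  exact ⟨F, fun e he => h' e (hF e he)⟩

theorem AEn.and (h : AEn P) (h' : AEn Q) : AEn fun X => P X ∧ Q X := by
  obtain ⟨F, hF⟩ := h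
  obtain ⟨F', hF'⟩ := h'
  refine ⟨⟨fun z => if z.1 % 2 = 0 then F (z.1 / 2, z.2) else F' (z.1 / 2, z.2), by fun_prop⟩,
    fun e he => ⟨hF e fun n l hl => ?_, hF' e fun n l hl => ?_⟩⟩
  · have := he (2 * n) l hl
    simpa using this
  · have := he (2 * n + 1) l hl
    have e₁ : (2 * n + 1) / 2 = n := by omega
    have e₂ : (2 * n + 1) % 2 ≠ 0 := by omega
    simpa [e₁, e₂] using this

theorem AEn.ex (h : AEn P) : ∃ e : Fn g ℕ g.Re, P (rg e) := by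
  obtain ⟨F, hF⟩ := h
  let D : ℕ → ℕ × List ℕ := fun k => NL.dec g k.unpair.1
  have hD : g.Tm D := by simp only [D]; fun_prop
  let Ψ : ℕ → Fn g ℕ g.Re → g.Re := fun k y =>
    F ((D k).1, ini (fun j => if (D k).2.getD j 0 < k then y ((D k).2.getD j 0) else default)
      (D k).2.length)
  have hΨ : g.Tm fun z : ℕ × Fn g ℕ g.Re => Ψ z.1 z.2 := by simp only [Ψ]; fun_prop
  have loc : ∀ n (f h : Fn g ℕ g.Re), (∀ k < n, f k = h k) → Ψ n f = Ψ n h := by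
    intro n f h e
    simp only [Ψ]
    congr 3
    funext j
    split_ifs with hj
    · exact e _ hj
    · rfl
  refine ⟨g.fix Ψ, hF _ fun n l hl => ?_⟩
  have ch : ∀ j, ∃ t, j < l.length → g.fix Ψ t = l.getD j default := by
    intro j
    by_cases hj : j < l.length
    · have : l.getD j default ∈ l := by
        rw [List.getD_eq_getElem _ _ hj]
        exact List.getElem_mem hj
      obtain ⟨t, ht⟩ := hl _ this
      exact ⟨t, fun _ => ht⟩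
    · exact ⟨0, fun h => absurd h hj⟩
  choose t ht using ch
  let k := Nat.pair (NL.enc g ((n, ini t l.length) : ℕ × List ℕ)) ((Finset.range l.length).sup t + 1)
  have hk : ∀ j < l.length, t j < k := fun j hj =>
    lt_of_lt_of_le (Nat.lt_succ_of_le (Finset.le_sup (f := t) (Finset.mem_range.2 hj)))
      (Nat.right_le_pair _ _)
  have hDk : D k = (n, ini t l.length) := by simp only [D, k, Nat.unpair_pair, NL.dec_enc]
  refine ⟨k, ?_⟩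
  rw [fix_eq hΨ loc]
  simp only [Ψ, hDk, length_ini]
  congr 2
  conv_rhs => rw [← ini_getD l default]
  refine ini_eq_iff.2 fun j hj => ?_
  rw [getD_ini _ _ hj, if_pos (hk j hj), ht j hj]

theorem aen_mem (r : g.Re) : AEn fun X : g.PR => X r :=
  ⟨⟨fun _ => r, by fun_prop⟩, fun _ he => he 0 [] (by simp)⟩

theorem aen_closed : AEn fun X : g.PR => (∀ x y, X x → X y → X (jn x y)) ∧
    (∀ x, X x → X (ev0 x)) ∧ ∀ x, X x → X (ev1 x) := by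
  refine ⟨⟨fun z => if z.1 = 0 then jn (z.2.getD 0 default) (z.2.getD 1 default)
    else if z.1 = 1 then ev0 (z.2.getD 0 default) else ev1 (z.2.getD 0 default), by fun_prop⟩,
    fun e he => ⟨fun x y hx hy => ?_, fun x hx => ?_, fun x hx => ?_⟩⟩
  · have := he 0 [x, y] (by simp [hx, hy])
    simpa using this
  · have := he 1 [x] (by simp [hx])
    simpa using this
  · have := he 2 [x] (by simp [hx])
    simpa using this

theorem fnu_play {σ : ℕ → Fn g ℕ g.Re → g.Re}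
    (hσ : g.Tm fun z : ℕ × Fn g ℕ g.Re => σ z.1 z.2) (c : Causal σ) :
    ∃ F : Fn g (ℕ × List g.Re) g.Re, ∀ (e : Fn g ℕ g.Re), ClF F (rg e) → ∀ (i : ℕ)
      (f : Fn g ℕ g.Re), (∀ k, rg e (f k)) → (∀ m, ∃ k, k % 2 ≠ i ∧ f k = e m) →
      rg (gplay σ i f) = rg e := by
  refine ⟨⟨fun z => σ z.2.length ⟨fun k => z.2.getD k default, by fun_prop⟩, by fun_prop⟩,
    fun e he i f h₁ h₂ => ?_⟩
  have key : ∀ k, rg e (gplay σ i f k) := by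
    intro k
    induction k using Nat.strong_induction_on with
    | _ k ih =>
      rw [gplay_eq hσ c]
      split_ifs with hk
      · have := he 0 (ini (gplay σ i f) k) fun a ha => by
          obtain ⟨j, hj, rfl⟩ := mem_ini.1 ha
          exact ih j hj
        have e₁ : σ k (gplay σ i f) = σ (ini (gplay σ i f) k).length
            ⟨fun j => (ini (gplay σ i f) k).getD j default, by fun_prop⟩ := by
          rw [length_ini]
          exact c k _ _ fun j hj => (getD_ini _ _ hj).symm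
        rw [e₁]
        exact this
      · exact h₁ k
  refine Fn.ext' fun x => propext ⟨?_, ?_⟩
  · rintro ⟨k, rfl⟩
    exact key k
  · rintro ⟨m, rfl⟩
    obtain ⟨k, hk, e₁⟩ := h₂ m
    exact ⟨k, by rw [gplay_eq hσ c, if_neg hk, e₁]⟩

/-- The game lemma. -/
theorem aen_game (hd : g.TDet g.Re) {P : g.Re → g.PR → Prop}
    (hP : g.Tm fun z : g.Re × g.PR => P z.1 z.2) :
    (∃ y, AEn fun X => ¬ P y X) ∨ AEn fun X => ∀ y, X y → P y X := by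
  obtain ⟨σ, hσ, c, H⟩ := hd (fun x => ¬ P (x 0) (rg x)) (by fun_prop)
  obtain ⟨F, hF⟩ := fnu_play hσ c
  rcases H with H | H
  · refine Or.inl ⟨σ 0 default, F, fun e he => ?_⟩
    let f : Fn g ℕ g.Re := ⟨fun k => e (k / 2), by fun_prop⟩
    have h₁ := H (gplay σ 0 f) fun n hn => by rw [gplay_eq hσ c, if_pos hn]
    rw [hF e he 0 f (fun k => ⟨_, rfl⟩) fun m => ⟨2 * m + 1, by omega,
      congrArg e (by omega : (2 * m + 1) / 2 = m)⟩, gplay_eq hσ c, if_pos rfl,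
      c 0 _ default fun k hk => absurd hk (by omega)] at h₁
    exact h₁
  · refine Or.inr ⟨F, fun e he y hy => ?_⟩
    let f : Fn g ℕ g.Re := ⟨fun k => if k = 0 then y else e (k / 2 - 1), by fun_prop⟩
    have h₁ := not_not.1 (H (gplay σ 1 f) fun n hn => by rw [gplay_eq hσ c, if_pos hn])
    rw [hF e he 1 f (fun k => by
        show rg e (if k = 0 then y else e (k / 2 - 1))
        split_ifs
        · exact hy
        · exact ⟨_, rfl⟩) fun m => ⟨2 * m + 2, by omega, by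
        show (if 2 * m + 2 = 0 then y else e ((2 * m + 2) / 2 - 1)) = e m
        rw [if_neg (by omega)]
        exact congrArg e (by omega)⟩, gplay_eq hσ c, if_neg (by omega)] at h₁
    exact h₁

theorem aen_or (hd : g.TDet g.Re) (hP : g.Tm P) : AEn P ∨ AEn fun X => ¬ P X := by
  rcases aen_game hd (P := fun _ X => P X) (by fun_prop) with ⟨_, h⟩ | h
  · exact Or.inr h
  · exact Or.inl (h.mono fun e he => he (e 0) ⟨0, rfl⟩)

theorem aen_normal (hd : g.TDet g.Re) {P : g.Re → g.PR → Prop}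
    (hP : g.Tm fun z : g.Re × g.PR => P z.1 z.2) (H : AEn fun X => ∃ y, X y ∧ P y X) :
    ∃ y, AEn (P y) := by
  rcases aen_game hd (P := fun y X => ¬ P y X) (by fun_prop) with ⟨y, h⟩ | h
  · exact ⟨y, h.mono fun e he => not_not.1 he⟩
  · obtain ⟨e, ⟨y, h₁, h₂⟩, h₃⟩ := (H.and h).ex
    exact absurd h₂ (h₃ y h₁)

theorem aen_all (hd : g.TDet g.Re) {P : ℕ → g.PR → Prop}
    (hP : g.Tm fun z : ℕ × g.PR => P z.1 z.2) (H : ∀ n, AEn (P n)) :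
    AEn fun X => ∀ n, P n X := by
  rcases aen_game hd (P := fun y X => P (y 0) X) (by fun_prop) with ⟨y, h⟩ | h
  · obtain ⟨e, h₁, h₂⟩ := ((H (y 0)).and h).ex
    exact absurd h₁ h₂
  · have hc : AEn fun X : g.PR => ∀ n : ℕ, X ⟨fun _ => n, by fun_prop⟩ :=
      ⟨⟨fun z => ⟨fun _ => z.1, by fun_prop⟩, by fun_prop⟩, fun e he n => he n [] (by simp)⟩
    exact (h.and hc).mono fun e he n => he.1 _ (he.2 n)

end Mdl

end Pool.Agent.MP_09d684_lc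

end

section

namespace Pool.Agent.MP_09d684_lc

open ZFSet

universe u v w

namespace Mdl

variable {g : Mdl.{u}}

open Cd

variable {T : Type*} [Cd g T] [Bd g T] [LinearOrder T] [OT g T] [Inhabited T]

/-- Ranking a well-founded relation on the reals. -/
theorem exists_rank (hn : g.NS T) {lt : g.Re → g.Re → Prop}
    (ht : g.Tm fun z : g.Re × g.Re => lt z.1 z.2)
    (wf : ∀ P : g.PR, (∃ x, P x) → ∃ x, P x ∧ ∀ y, P y → ¬ lt y x) :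
    ∃ rk : g.Re → T, g.Tm rk ∧ ∀ x y, lt x y → rk x < rk y := by
  let Ψ : T → Fn g T g.PR → g.PR := fun ξ G =>
    ⟨fun x => ∀ y, lt y x → ∃ z, z < ξ ∧ G z y, by fun_prop⟩
  let Y : Fn g T g.PR := g.rfix (· < ·) Ψ
  have hY : ∀ ξ, Y ξ = Ψ ξ Y :=
    rfix_eq (OT.wf g) (by fun_prop) (by simp only [Ψ]; fun_prop) fun a f f' e =>
      Fn.ext' fun x => propext (forall_congr' fun y => imp_congr_right fun _ =>
        exists_congr fun z => and_congr_right fun hz => by rw [e z hz])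
  have hY' : ∀ ξ x, Y ξ x ↔ ∀ y, lt y x → ∃ z, z < ξ ∧ Y z y := fun ξ x => by
    rw [hY ξ]
  have tot : ∀ x, ∃ ξ, Y ξ x := by
    by_contra hc
    obtain ⟨x, hx, hm⟩ := wf ⟨fun x => ¬ ∃ ξ, Y ξ x, by fun_prop⟩ (not_forall.1 hc)
    obtain ⟨b, hb⟩ := hn (fun y => g.least fun z => Y z y) (by fun_prop)
    exact hx ⟨b, (hY' b x).2 fun y hy => ⟨_, hb y,
      least_spec (g := g) (P := fun z => Y z y) (not_not.1 fun h => hm y h hy)⟩⟩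
  refine ⟨fun x => g.least fun ξ => Y ξ x, by fun_prop, fun x y hxy => ?_⟩
  obtain ⟨z, hz, hx⟩ := (hY' _ y).1 (least_spec (g := g) (P := fun ξ => Y ξ y) (tot y)) x hxy
  exact (least_ole (P := fun ξ => Y ξ x) hx).trans_lt hz

/-- The `n`-th column of the tail of a real. -/
def fst_col (n : ℕ) (z : g.Re) : g.Re := ⟨fun k => z (Nat.pair n k + 1), by fun_prop⟩

@[fun_prop] theorem fst_tm_col {Γ : Type*} [Cd g Γ] {n : Γ → ℕ} {z : Γ → g.Re} (h₁ : g.Tm n)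
    (h₂ : g.Tm z) : g.Tm fun x => fst_col (n x) (z x) := by unfold fst_col; fun_prop

/-- Codes of well-founded trees. -/
def fst_Acc (y : g.Re) : Prop :=
  ∀ P : g.PR, (∀ z : g.Re, (z 0 ≠ 0 → ∀ n, P (fst_col n z)) → P z) → P y

@[fun_prop] theorem fst_tm_Acc {Γ : Type*} [Cd g Γ] {z : Γ → g.Re} (h : g.Tm z) :
    g.Tm fun x => fst_Acc (z x) := by unfold fst_Acc; fun_prop

theorem fst_acc_intro {z : g.Re} (h : z 0 ≠ 0 → ∀ n, fst_Acc (fst_col n z)) : fst_Acc z :=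
  fun P hP => hP z fun hz n => h hz n P hP

/-- A point of uncountable cofinality. -/
theorem exists_unc_cof (hc : g.TDC) (hn : g.NS T) : ∃ δ : T, (∃ a, a < δ) ∧
    ∀ f : Fn g ℕ T, (∀ n, f n < δ) → ∃ b, b < δ ∧ ∀ n, f n < b := by
  obtain ⟨rk, hrk, hlt⟩ := exists_rank hn
    (lt := fun x y => fst_Acc y ∧ y 0 ≠ 0 ∧ ∃ n, x = fst_col n y) (by fun_prop) (by
      rintro P ⟨x₀, h₀⟩
      by_contra hc
      have hc' : ∀ x, P x → ∃ y, P y ∧ fst_Acc x ∧ x 0 ≠ 0 ∧ ∃ n, y = fst_col n x := fun x hx => by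
        by_contra hd
        exact hc ⟨x, hx, fun y hy h => hd ⟨y, hy, h⟩⟩
      obtain ⟨-, -, hA, -⟩ := hc' x₀ h₀
      refine hA ⟨fun x => ¬ P x, by fun_prop⟩ (fun z hz hP => ?_) h₀
      obtain ⟨y, hy, -, h₁, n, rfl⟩ := hc' z hP
      exact hz h₁ n hy)
  obtain ⟨δ, hδ, hm⟩ := ord_min g (P := fun b => ∀ x, fst_Acc x → rk x < b)
    ((hn rk hrk).imp fun b hb x _ => hb x)
  refine ⟨δ, ⟨_, hδ ⟨fun _ => 0, by fun_prop⟩ (fst_acc_intro fun h => absurd rfl h)⟩,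
    fun f hf => ?_⟩
  obtain ⟨xs, hxs⟩ := hc.cc (β := ℕ) (α := g.Re) (Q := fun n x => fst_Acc x ∧ f n ≤ rk x)
    (by fun_prop) fun n => by
      by_contra hd
      exact absurd (hm (f n) fun x hx => not_le.1 fun hle => hd ⟨x, hx, hle⟩) (not_le.2 (hf n))
  let y : g.Re := ⟨fun m => if m = 0 then 1 else xs (m - 1).unpair.1 (m - 1).unpair.2, by fun_prop⟩
  have hy : ∀ n, fst_col n y = xs n := fun n => Fn.ext' fun k => by simp [fst_col, y]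
  have hA : fst_Acc y := fst_acc_intro fun _ n => hy n ▸ (hxs n).1
  exact ⟨rk y, hδ y hA, fun n => (hxs n).2.trans_lt
    (hlt _ _ ⟨hA, by simp [y], n, (hy n).symm⟩)⟩

/-- Two disjoint stationary sets. -/
theorem exists_stat (h : g.TSP T) (hc : g.TDC) (hn : g.NS T) : ∃ S S' : Fn g T Prop,
    Stat S ∧ Stat S' ∧ ∀ e, S e → ¬ S' e := by
  let S : Fn g T Prop :=
    ⟨fun e => ∃ s : Fn g ℕ T, (∀ n, s n < e) ∧ ∀ a, a < e → ∃ n, a < s n, by fun_prop⟩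
  refine ⟨S, ⟨fun e => ¬ S e, by fun_prop⟩, fun x hx => ?_, fun x hx => ?_, fun e he he' => he' he⟩
  · have hu := (h.big_iff x).1 hx
    let N : T → T := fun a => g.least fun b => a < b ∧ x b
    have hN : ∀ a, a < N a ∧ x (N a) := fun a =>
      least_spec (g := g) (P := fun b => a < b ∧ x b) (hu a)
    let s : Fn g ℕ T := ⟨fun n => N^[n] default, by simp only [N]; fun_prop⟩
    have hs : ∀ n, s (n + 1) = N (s n) := fun n => Function.iterate_succ_apply' N n default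
    obtain ⟨e, he, hm⟩ := ord_min g (h.unc s)
    have key : ∀ b, b < e → ∃ n, b < s (n + 1) := fun b hb => by
      by_contra hd
      refine absurd (hm b fun n => not_le.1 fun hle => hd ⟨n, hle.trans_lt ?_⟩) (not_le.2 hb)
      rw [hs]
      exact (hN _).1
    refine ⟨e, ⟨⟨_, he 0⟩, fun b hb => ?_⟩, s, he, fun b hb => ?_⟩
    · obtain ⟨n, hn⟩ := key b hb
      exact ⟨s (n + 1), hs n ▸ (hN _).2, hn, he _⟩
    · obtain ⟨n, hn⟩ := key b hb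
      exact ⟨n + 1, hn⟩
  · obtain ⟨en, hen, hx⟩ := hx
    obtain ⟨δ, ⟨a₀, h₀⟩, hδ⟩ := exists_unc_cof hc hn
    obtain ⟨e, he, hm⟩ := ord_min g (h.reg δ en)
    have key : ∀ b, b < e → ∃ ξ, ξ < δ ∧ b ≤ en ξ := fun b hb => by
      by_contra hd
      exact absurd (hm b fun ξ hξ => not_le.1 fun hle => hd ⟨ξ, hξ, hle⟩) (not_le.2 hb)
    refine ⟨e, ⟨⟨_, he a₀ h₀⟩, fun b hb => ?_⟩, ?_⟩
    · obtain ⟨ξ, hξ, hle⟩ := key b hb
      obtain ⟨ξ', h₁, h₂⟩ := hδ ⟨fun _ => ξ, by fun_prop⟩ fun _ => hξ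
      exact ⟨en ξ', (hx _).2 ⟨ξ', rfl⟩, hle.trans_lt (hen _ _ (h₂ 0)), he _ h₁⟩
    · rintro ⟨s, hs, hco⟩
      have ht : ∀ n, (g.least fun ξ => ξ < δ ∧ s n ≤ en ξ) < δ ∧
          s n ≤ en (g.least fun ξ => ξ < δ ∧ s n ≤ en ξ) := fun n =>
        least_spec (g := g) (P := fun ξ => ξ < δ ∧ s n ≤ en ξ) (key _ (hs n))
      obtain ⟨b, h₁, h₂⟩ := hδ ⟨fun n => g.least fun ξ => ξ < δ ∧ s n ≤ en ξ, by fun_prop⟩
        fun n => (ht n).1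
      obtain ⟨n, hn⟩ := hco _ (he b h₁)
      exact absurd (hn.trans_le (ht n).2) (not_lt.2 (hen _ _ (h₂ n)).le)

end Mdl

end Pool.Agent.MP_09d684_lc

end

section

namespace Pool.Agent.MP_09d684_lc

open ZFSet

universe u v w

namespace Mdl

variable {g : Mdl.{u}}

open Cd

variable {T : Type*} [Cd g T] [Bd g T] [LinearOrder T] [OT g T] [Inhabited T]

theorem linB (hd : g.TDet g.Re) (hT : g.Unc T) (hn : g.NS T) : g.LinB T := by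
  intro R tot tr
  have hN : g.TDet ℕ := hd.rl ℕ
  have hc := hd.tdc
  obtain ⟨U, hU⟩ := exists_uf hd R
  obtain ⟨ρ, hρ, hF⟩ := exists_fam hN hc hT R U
  obtain ⟨xi, hxi, hs⟩ : ∃ xi : g.PR → g.Re → T, g.Tm (fun z : g.PR × g.Re => xi z.1 z.2) ∧
      ∀ x, AEn fun X : g.PR => ρ X (xi X x) x ∧ Bdd R X (ρ X (xi X x)) := by
    refine ⟨fun X x => g.least fun j => ρ X j x ∧ Bdd R X (ρ X j), by fun_prop, fun x => ?_⟩
    refine (aen_closed.and (aen_mem x)).mono fun e he => ?_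
    exact least_spec (P := fun j => ρ (rg e) j x ∧ Bdd R (rg e) (ρ (rg e) j))
      (Fam.cover hN hc hU (hF e) tot tr he.1.1 he.1.2.1 he.1.2.2 he.2)
  obtain ⟨rk, hrk, hlt⟩ := exists_rank hn (lt := fun x y => AEn fun X => xi X x < xi X y)
    (by fun_prop) (fun P ⟨x₀, h₀⟩ => by
      by_contra hne
      obtain ⟨f, -, hf⟩ := hc.dc (S := fun x => P x) (by fun_prop)
        (Q := fun x y => AEn fun X => xi X y < xi X x) (by fun_prop) (fun x hx => by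
          by_contra h
          exact hne ⟨x, hx, fun y hy h' => h ⟨y, hy, h'⟩⟩) h₀
      obtain ⟨e, he⟩ := (aen_all hd (P := fun n X => xi X (f (n + 1)) < xi X (f n)) (by fun_prop)
        fun n => (hf n).2).ex
      obtain ⟨_, ⟨n, rfl⟩, hm⟩ := (OT.wf g (T := T)).has_min
        (Set.range fun n => xi (rg e) (f n)) ⟨_, 0, rfl⟩
      exact hm _ ⟨n + 1, rfl⟩ (he n))
  refine ⟨rk, hrk, fun ξ => ?_⟩
  by_cases h : ∃ x₀, rk x₀ = ξ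
  · obtain ⟨x₀, rfl⟩ := h
    obtain ⟨y, hy⟩ := aen_normal hd (P := fun y X => ∀ x, ρ X (xi X x₀) x → R (x, y))
      (by fun_prop) ((hs x₀).mono fun e he => he.2)
    refine ⟨y, fun x hx => ?_⟩
    have h1 := (aen_or hd (P := fun X => xi X x < xi X x₀) (by fun_prop)).resolve_left
      fun h => (hlt _ _ h).ne hx
    have h2 := (aen_or hd (P := fun X => xi X x₀ < xi X x) (by fun_prop)).resolve_left
      fun h => (hlt _ _ h).ne' hx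
    obtain ⟨e, ⟨⟨a1, a2⟩, a3⟩, a4⟩ := (((h1.and h2).and hy).and (hs x)).ex
    exact a3 x (le_antisymm (not_lt.1 a2) (not_lt.1 a1) ▸ a4.1)
  · exact ⟨default, fun x hx => absurd ⟨x, hx⟩ h⟩

end Mdl

end Pool.Agent.MP_09d684_lc

end
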