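import Pool.Agent.Mg.F09d684a.G7216c7
import Pool.Agent.Mg.F09d684a.Gb506c8
import Pool.Agent.Mg.F09d684a.Gc920f7

section

namespace Pool.Agent.MP_09d684_lc

open ZFSet

universe u v w

namespace Mdl

variable {g : Mdl.{u}}

open Cd

variable {T : Type*} [Cd g T] [Bd g T] [LinearOrder T] [OT g T] [Inhabited T]

variable {L : g.Asg T} {S : Fn g T Prop}

theorem Hs.acc {x : Fn g T Prop} {e : T} (h : Hs S x e) : ordAcc x e ∧ S e := by
  obtain ⟨y, -, hs, ha, hS, -⟩ := h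
  exact ⟨ordAcc_mono hs ha, hS⟩

theorem Hs.mono_acc (h : g.TSP T) {x x' : Fn g T Prop} (hx : Big x)
    (ha : ∀ e, ordAcc x' e → ordAcc x e) {e : T} (he : Hs S x' e) : Hs S x e := by
  obtain ⟨y, hy, hs, h₁, h₂, h₃⟩ := he
  obtain ⟨z, z₁, z₂, z₃⟩ := exists_acc_eq h hx hy fun e he => ha e (ordAcc_mono hs he)
  exact ⟨z, z₁, z₂, z₃ ▸ h₁, h₂, z₃ ▸ h₃⟩

theorem fla_first {φ : T → Prop}
    (H : AW fun x : Fn g T Prop => φ (g.least fun e => ordAcc x e ∧ S e)) :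
    AW fun x => ∀ e, Hs S x e → φ e := by
  obtain ⟨b, hb⟩ := H
  refine ⟨b, fun x hx e ⟨y, hy, hs, h₁, h₂, h₃⟩ => ?_⟩
  have h₄ := least_spec (g := g) (P := fun e => ordAcc y e ∧ S e) ⟨e, h₁, h₂⟩
  have h₅ : (g.least fun e => ordAcc y e ∧ S e) = e :=
    le_antisymm (least_ole (P := fun e => ordAcc y e ∧ S e) ⟨h₁, h₂⟩)
      (not_lt.1 fun hlt => h₃ _ hlt h₄.1 h₄.2)
  exact h₅ ▸ hb y (hx.sub hy hs)

theorem fla_pos {k f : Fn g T T} {x : Fn g T Prop} {a e : T} (h₁ : Hs S x e) (h₂ : e ≤ a)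
    (h₃ : a < f e) : Blk S k f x a = k a := if_pos ⟨e, h₁, h₂, h₃⟩

theorem fla_neg {k f : Fn g T T} {x : Fn g T Prop} {a : T}
    (h : ¬ ∃ e, Hs S x e ∧ e ≤ a ∧ a < f e) : Blk S k f x a = nx x a := if_neg h

theorem fla_le {k f : Fn g T T} {x : Fn g T Prop} {a c : T} (h₁ : k a ≤ c) (h₂ : nx x a ≤ c) :
    Blk S k f x a ≤ c := by
  by_cases hc : ∃ e, Hs S x e ∧ e ≤ a ∧ a < f e
  · obtain ⟨e, e₁, e₂, e₃⟩ := hc
    rwa [fla_pos e₁ e₂ e₃]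
  · rwa [fla_neg hc]

/-- The slot measure is an ultrafilter. -/
theorem hs_or (h : g.TSP T) (S : Fn g T Prop) {φ : T → Prop} (hφ : g.Tm φ) :
    (AW fun x => ∀ e, Hs S x e → φ e) ∨ AW fun x => ∀ e, Hs S x e → ¬ φ e :=
  (aw_or h (P := fun x => φ (g.least fun e => ordAcc x e ∧ S e)) (by fun_prop)).imp fla_first
    (fla_first (φ := fun e => ¬ φ e))

theorem hs_cl (S : Fn g T Prop) (F : Fn g T T) : AW fun x => ∀ e, Hs S x e → Cl F e ∧ S e :=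
  (aw_typ F).mono fun _ hx _ he => ⟨cl_acc hx.2.1 he.acc.1, he.acc.2⟩

theorem lam_mono (h : g.TSP T) (hL : LMono L) {k k' f f' : Fn g T T}
    (H : AW fun x => ∀ e, Hs S x e → f e ≤ f' e ∧ ∀ a, e ≤ a → a < f e → k' a ≤ k a) {r : g.Re}
    (hr : Lam L S k' f' r) : Lam L S k f r := by
  refine ((H.and hr).and (aw_typ k')).mono fun x ⟨⟨h₁, h₂⟩, h₃⟩ => hL _ _ r (fun a => ?_) h₂
  by_cases hc : ∃ e, Hs S x e ∧ e ≤ a ∧ a < f e
  · obtain ⟨e, e₁, e₂, e₃⟩ := hc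
    rw [fla_pos e₁ e₂ e₃, fla_pos e₁ e₂ (e₃.trans_le (h₁ e e₁).1)]
    exact (h₁ e e₁).2 a e₂ e₃
  · rw [fla_neg hc]
    exact fla_le (h₃.lt_nx h a).le le_rfl

theorem lam_of_L (h : g.TSP T) (hL : LMono L) {k : Fn g T T} (f : Fn g T T) {r : g.Re}
    (hr : L (k, r)) : Lam L S k f r := by
  refine (aw_typ k).mono fun x hx => hL _ _ r (fun a => ?_) hr
  by_cases hc : ∃ e, Hs S x e ∧ e ≤ a ∧ a < f e
  · obtain ⟨e, e₁, e₂, e₃⟩ := hc
    rw [fla_pos e₁ e₂ e₃]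
  · rw [fla_neg hc]
    exact (hx.lt_nx h a).le

theorem lam_chain (h : g.TSP T) (hL : LMono L) (k f f' : Fn g T T) :
    (∀ r, Lam L S k f r → Lam L S k f' r) ∨ ∀ r, Lam L S k f' r → Lam L S k f r := by
  rcases hs_or h S (φ := fun e => f e ≤ f' e) (by fun_prop) with H | H
  · exact Or.inr fun r => lam_mono h hL (H.mono fun x hx e he => ⟨hx e he, fun _ _ _ => le_rfl⟩)
  · exact Or.inl fun r => lam_mono h hL
      (H.mono fun x hx e he => ⟨(not_le.1 (hx e he)).le, fun _ _ _ => le_rfl⟩)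

/-- Step (2a). -/
theorem aw_blk_nx (h : g.TSP T) (hL : LMono L) {k : Fn g T T} {r : g.Re}
    (hr : ∀ f, Lam L S k f r) : AW fun x => L (Blk S k (nx x) x, r) := by
  refine (aw_or h (by fun_prop)).resolve_right fun ⟨b, hb⟩ => ?_
  obtain ⟨x₀, h₀⟩ := exists_typ h (fmax b k)
  obtain ⟨x, ⟨hx, hxb⟩, hxf⟩ :=
    (((hr (nx x₀)).and (aw_typ (fmax b k))).and (aw_typ (nx x₀))).ex h
  have hf := nx_spec h h₀.1
  let x' : Fn g T Prop := ⟨fun s => x s ∨ ∃ e, Hs S x e ∧ nx x₀ e = s, by fun_prop⟩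
  have hbig : Big x' := (h.big_iff _).2 fun a =>
    ((h.big_iff _).1 hxb.1 a).imp fun c hc => ⟨hc.1, Or.inl hc.2⟩
  have hsub : ∀ s, x' s → x s ∨ x₀ s := by
    rintro s (hs | ⟨e, -, rfl⟩)
    exacts [Or.inl hs, Or.inr (hf e).2]
  have hacc : ∀ l, ordAcc x' l → ordAcc x l := fun l hl => ⟨hl.1, fun a ha => by
    obtain ⟨s₁, p₁, p₂, p₃⟩ := hl.2 a ha
    obtain ⟨s₂, q₁, q₂, q₃⟩ := hl.2 s₁ p₃
    rcases hsub _ p₁ with p | p
    · exact ⟨s₁, p, p₂, p₃⟩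
    rcases q₁ with q | ⟨e, he, rfl⟩
    · exact ⟨s₂, q, p₂.trans q₂, q₃⟩
    have h₁ : s₁ ≤ e := not_lt.1 fun hlt => absurd (nx_le hlt p) (not_le.2 q₂)
    obtain ⟨c, c₁, c₂, c₃⟩ := he.acc.1.2 a (p₂.trans_le h₁)
    exact ⟨c, c₁, c₂, (c₃.trans (hf e).1).trans q₃⟩⟩
  have ht : Typ (fmax b k) x' := Typ.union h hxb h₀ hbig hsub (by
    rintro s (hs | ⟨e, -, rfl⟩) ha
    · exact hxb.disc hs (hacc _ ha)
    · exact lt_irrefl _ (cl_acc hxf.2.1 (hacc _ ha) e (hf e).1))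
  refine hb x' ht.left (hL _ _ r (fun a => ?_) hx)
  by_cases hc : ∃ e, Hs S x' e ∧ e ≤ a ∧ a < nx x' e
  · obtain ⟨e, e₁, e₂, e₃⟩ := hc
    have e₄ := Hs.mono_acc h hxb.1 hacc e₁
    rw [fla_pos e₁ e₂ e₃,
      fla_pos e₄ e₂ (e₃.trans_le (nx_le (x := x') (hf e).1 (Or.inr ⟨e, e₄, rfl⟩)))]
  rw [fla_neg hc]
  by_cases hd : ∃ e, Hs S x e ∧ e ≤ a ∧ a < nx x₀ e
  · obtain ⟨e, e₁, e₂, e₃⟩ := hd
    rw [fla_pos e₁ e₂ e₃]
    exact (ht.right.lt_nx h a).le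
  rw [fla_neg hd]
  obtain ⟨n₁, n₂ | ⟨e, e₁, e₂⟩⟩ := nx_spec h hbig a
  · exact nx_le n₁ n₂
  · rw [← e₂] at n₁ ⊢
    obtain ⟨c, c₁, c₂, c₃⟩ := e₁.acc.1.2 a (not_le.1 fun hle => hd ⟨e, e₁, hle, n₁⟩)
    exact (nx_le c₂ c₁).trans (c₃.trans (hf e).1).le

/-- Step (2b). -/
theorem exists_germ (h : g.TSP T) (hL : LMono L) (hS : Stat S) {k : Fn g T T} {r : g.Re}
    (hr : AW fun x => L (Blk S k (nx x) x, r)) : ∃ f : Fn g T T, ∀ b F : Fn g T T,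
      (∀ a a', a ≤ a' → b a ≤ b a') → (∀ a, k a ≤ b a) → (∀ e, Cl F e → f e ≤ b e) →
      L (b, r) := by
  obtain ⟨b₀, hb₀⟩ := hr
  obtain ⟨x₀, h₀⟩ := exists_typ h b₀
  let f : Fn g T T := ⟨fun e => g.least fun c => ordAcc (tl x₀ e) c ∧ S c, by fun_prop⟩
  have f₁ : ∀ e, ordAcc (tl x₀ e) (f e) ∧ S (f e) := fun e =>
    least_spec (g := g) (P := fun c => ordAcc (tl x₀ e) c ∧ S c) (hS _ (big_tl h h₀.1 e))
  have f₂ : ∀ e c, ordAcc (tl x₀ e) c → S c → f e ≤ c := fun e c h₁ h₂ =>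
    least_ole (P := fun c => ordAcc (tl x₀ e) c ∧ S c) ⟨h₁, h₂⟩
  have f₃ : ∀ e, e < f e := fun e => by
    obtain ⟨a, ha⟩ := (f₁ e).1.1
    obtain ⟨c, c₁, -, c₃⟩ := (f₁ e).1.2 a ha
    exact c₁.2.trans c₃
  refine ⟨f, fun b F hb hk hF => ?_⟩
  let x : Fn g T Prop := ⟨fun s => x₀ s ∧ ∃ e, Cl (fmax F f) e ∧ e < s ∧ s < f e, by fun_prop⟩
  have x₁ : ∀ e, Cl (fmax F f) e → ordAcc (tl x e) (f e) := fun e he =>
    ⟨(f₁ e).1.1, fun a ha => ((f₁ e).1.2 a ha).imp fun s hs =>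
      ⟨⟨⟨hs.1.1, e, he, hs.1.2, hs.2.2⟩, hs.1.2⟩, hs.2⟩⟩
  have hx : Big x := (h.big_iff _).2 fun a => by
    obtain ⟨e, e₁, e₂⟩ := cl_unb h (fmax F f) a
    obtain ⟨s, s₁, s₂, -⟩ := (x₁ e e₂).2 e (f₃ e)
    exact ⟨s, e₁.trans s₂, s₁.1⟩
  refine hL _ _ r (fun a => ?_) (hb₀ x (h₀.sub hx fun s hs => hs.1))
  obtain ⟨e, e₁, e₂⟩ := ord_min g (P := fun e => ∀ c, Cl (fmax F f) c → c ≤ a → c ≤ e)
    ⟨a, fun _ _ hc => hc⟩
  have e₃ : e ≤ a := e₂ a fun _ _ hc => hc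
  have e₄ : Cl (fmax F f) e := fun c hc => by
    by_contra hn
    refine absurd (e₂ c fun d d₁ d₂ => not_lt.1 fun hlt => hn ?_) (not_le.2 hc)
    exact (d₁ c hlt).trans_le (e₁ d d₁ d₂)
  rcases lt_or_ge a (f e) with ha | ha
  · obtain ⟨s, s₁, s₂, s₃⟩ := (x₁ e e₄).2 a ha
    exact fla_le (hk a) (((nx_le s₂ s₁.1).trans s₃.le).trans ((hF e e₄.left).trans (hb _ _ e₃)))
  · have p₁ : Hs S x (f e) := ⟨tl x e, big_tl h hx e, fun _ hs => hs.1, x₁ e e₄, (f₁ e).2,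
      fun c c₁ c₂ c₃ => absurd (f₂ e c (ordAcc_mono (z := tl x e) (K := tl x₀ e) (fun s hs => ⟨hs.1.1, hs.2⟩) c₂) c₃)
        (not_le.2 c₁)⟩
    obtain ⟨n₁, -, d, d₁, d₂, d₃⟩ := nx_spec h hx (f e)
    have p₂ : a < d := not_le.1 fun hle => by
      rcases (e₁ d d₁ hle).eq_or_lt with rfl | hlt
      · exact lt_asymm n₁ d₃
      · exact lt_asymm n₁ (d₃.trans ((e₄.right d hlt).trans (f₃ e)))
    rw [fla_pos p₁ ha (p₂.trans d₂)]
    exact hk a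

end Mdl

end Pool.Agent.MP_09d684_lc

end

section

namespace Pool.Agent.MP_09d684_lc

open ZFSet

universe u v w

namespace Mdl

variable {g : Mdl.{u}}

open Cd

variable {T : Type*} [Cd g T] [Bd g T] [LinearOrder T] [OT g T] [Inhabited T]

omit [LinearOrder T] [OT g T] [Inhabited T] in
@[fun_prop] theorem ftw_tm_ordCp {Γ : Type*} [Cd g Γ] {a b : Γ → Fn g T T} (h₁ : g.Tm a)
    (h₂ : g.Tm b) : g.Tm fun x => ordCp (a x) (b x) := by unfold ordCp; fun_prop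

theorem ftw_key (h : g.TSP T) {b : Fn g T T} {x₀ : Fn g T Prop} (hx : Typ b x₀) (u v : Fn g T T)
    (h₁ : ∀ e, x₀ (u e)) (h₂ : ∀ e, x₀ (v e)) (h₃ : ∀ e, e < u e) (h₄ : ∀ e, u e < v e) :
    ∃ x, Typ b x ∧ ∀ e, Cl v e → nx x e = u e ∧ ordCp (nx x) (nx x) e = v e := by
  let x : Fn g T Prop := ⟨fun s => ∃ e, Cl v e ∧ (s = u e ∨ s = v e), by fun_prop⟩
  have hb : Big x := (h.big_iff x).2 fun a => by
    obtain ⟨e, he, hc⟩ := cl_unb h v a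
    exact ⟨u e, he.trans (h₃ e), e, hc, Or.inl rfl⟩
  refine ⟨x, hx.sub hb ?_, fun e he => ?_⟩
  · rintro _ ⟨e, -, rfl | rfl⟩
    exacts [h₁ e, h₂ e]
  have key : ∀ s, x s → e < s → s = u e ∨ v e ≤ s := by
    rintro s ⟨e', he', hs⟩ hlt
    rcases lt_trichotomy e' e with hl | rfl | hl
    · refine absurd hlt (not_lt.2 ?_)
      rcases hs with rfl | rfl
      exacts [((h₄ e').trans (he e' hl)).le, (he e' hl).le]
    · exact hs.imp id ge_of_eq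
    · refine Or.inr ((he' e hl).trans ?_).le
      rcases hs with rfl | rfl
      exacts [h₃ e', (h₃ e').trans (h₄ e')]
  have e₁ : nx x e = u e := by
    obtain ⟨a₁, a₂⟩ := nx_spec h hb e
    exact (key _ a₂ a₁).resolve_right
      (not_le.2 ((nx_le (x := x) (h₃ e) ⟨e, he, Or.inl rfl⟩).trans_lt (h₄ e)))
  refine ⟨e₁, ?_⟩
  show nx x (nx x e) = v e
  rw [e₁]
  obtain ⟨a₁, a₂⟩ := nx_spec h hb (u e)
  exact le_antisymm (nx_le (x := x) (h₄ e) ⟨e, he, Or.inr rfl⟩)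
    ((key _ a₂ ((h₃ e).trans a₁)).resolve_left a₁.ne')

theorem ftw_enum (h : g.TSP T) {x : Fn g T Prop} (hx : Big x) : ∃ U : T → Fn g T T, g.Tm U ∧
    ∀ e a, x (U e a) ∧ e < U e a ∧ ∀ c, c < a → U e c < U e a := by
  let Ψ : T → T → Fn g T T → T := fun e a G =>
    g.least fun b => x b ∧ e < b ∧ ∀ c, c < a → G c < b
  refine ⟨fun e => g.rfix (· < ·) (Ψ e), tm_rfix (r := fun _ => (· < ·)) (fun _ => OT.wf g)
    (by fun_prop) (by simp only [Ψ]; fun_prop), fun e a => ?_⟩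
  have hF : g.rfix (· < ·) (Ψ e) a = Ψ e a (g.rfix (· < ·) (Ψ e)) :=
    rfix_eq (OT.wf g) (by fun_prop) (by simp only [Ψ]; fun_prop) (fun a f f' e => by
      refine congrArg g.least (funext fun b => propext (and_congr_right fun _ =>
        and_congr_right fun _ => ?_))
      exact forall_congr' fun c => imp_congr_right fun hc => by rw [e c hc]) a
  obtain ⟨b₀, hb₀⟩ := h.reg a (g.rfix (· < ·) (Ψ e))
  obtain ⟨b, hb, hxb⟩ := (h.big_iff x).1 hx (max e b₀)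
  have := least_spec (g := g)
    (P := fun b => x b ∧ e < b ∧ ∀ c, c < a → g.rfix (· < ·) (Ψ e) c < b)
    ⟨b, hxb, (le_max_left _ _).trans_lt hb, fun c hc =>
      (hb₀ c hc).trans ((le_max_right _ _).trans_lt hb)⟩
  show x (g.rfix (· < ·) (Ψ e) a) ∧ e < g.rfix (· < ·) (Ψ e) a ∧
    ∀ c, c < a → g.rfix (· < ·) (Ψ e) c < g.rfix (· < ·) (Ψ e) a
  rw [hF]
  exact this

/-- The two point lemma. -/
theorem two_point (h : g.TSP T) (hn : g.NS T) {N : Fn g T T → g.Re → Prop}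
    (hN : g.Tm fun z : Fn g T T × g.Re => N z.1 z.2)
    (mono : ∀ (f f' F : Fn g T T) r, (∀ e, Cl F e → f e ≤ f' e) → N f r → N f' r) :
    ∃ f₀, ∀ f r, N f r → N f₀ r := by
  rcases aw_or h (P := fun x => ∀ r, N (ordCp (nx x) (nx x)) r → N (nx x) r) (by fun_prop) with
    ⟨b, hb⟩ | ⟨b, hb⟩ <;> obtain ⟨x₀, hx⟩ := exists_typ h b
  · refine ⟨nx x₀, fun f r hr => ?_⟩
    let v : Fn g T T := ⟨fun e => nx x₀ (max (nx x₀ e) (f e)), by fun_prop⟩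
    obtain ⟨x, h₁, h₂⟩ := ftw_key h hx (nx x₀) v (fun e => (nx_spec h hx.1 e).2)
      (fun e => (nx_spec h hx.1 _).2) (fun e => (nx_spec h hx.1 e).1)
      fun e => (le_max_left _ _).trans_lt (nx_spec h hx.1 _).1
    refine mono _ _ v r (fun e he => (h₂ e he).1.le) (hb x h₁ r (mono _ _ v r (fun e he => ?_) hr))
    rw [(h₂ e he).2]
    exact ((le_max_right _ _).trans_lt (nx_spec h hx.1 _).1).le
  · obtain ⟨U, hU, H⟩ := ftw_enum h hx.1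
    let u : T → Fn g T T := fun ξ => ⟨fun e => U e ξ, by fun_prop⟩
    have hu : g.Tm u := by simp only [u]; fun_prop
    obtain ⟨β, hβ⟩ := hn (fun r => g.least fun η => N (u η) r) (by fun_prop)
    obtain ⟨η, hη⟩ := h.nomax β
    obtain ⟨x, h₁, h₂⟩ := ftw_key h hx (u β) (u η) (fun e => (H e β).1) (fun e => (H e η).1)
      (fun e => (H e β).2.1) fun e => (H e η).2.2 β hη
    refine absurd (fun r hr => ?_) (hb x h₁)
    have h₃ := least_spec (g := g) (P := fun η => N (u η) r)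
      ⟨η, mono _ _ (u η) r (fun e he => (h₂ e he).2.le) hr⟩
    exact mono _ _ (u η) r (fun e he => ((H e β).2.2 _ (hβ r)).le.trans (h₂ e he).1.ge) h₃

end Mdl

end Pool.Agent.MP_09d684_lc

end

section

namespace Pool.Agent.MP_09d684_lc

open ZFSet

universe u v w

namespace Mdl

variable {g : Mdl.{u}}

open Cd

variable {T : Type*} [Cd g T] [Bd g T] [LinearOrder T] [OT g T] [Inhabited T]

variable {L : g.Asg T} {S : Fn g T Prop}

theorem fre_bound (h : g.TSP T) (k f : Fn g T T) : ∃ b : Fn g T T,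
    (∀ a a', a ≤ a' → b a ≤ b a') ∧ (∀ a, k a ≤ b a) ∧ ∀ a, f a ≤ b a := by
  let b : Fn g T T := ⟨fun a => g.least fun t => ∀ a', a' ≤ a → fmax k f a' < t, by fun_prop⟩
  have hb : ∀ a a', a' ≤ a → fmax k f a' < b a := fun a => by
    obtain ⟨b₀, hb₀⟩ := h.reg a (fmax k f)
    obtain ⟨t, ht⟩ := h.nomax (max b₀ (fmax k f a))
    refine least_spec (g := g) (P := fun t => ∀ a', a' ≤ a → fmax k f a' < t) ⟨t, fun a' ha => ?_⟩
    rcases ha.eq_or_lt with rfl | ha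
    exacts [(le_max_right _ _).trans_lt ht, (hb₀ a' ha).trans ((le_max_left _ _).trans_lt ht)]
  exact ⟨b, fun a a' ha => least_ole (P := fun t => ∀ a', a' ≤ a → fmax k f a' < t)
    fun c hc => hb a' c (hc.trans ha), fun a => (le_max_left _ _).trans (hb a a le_rfl).le,
    fun a => (le_max_right _ _).trans (hb a a le_rfl).le⟩

theorem fre_lam (h : g.TSP T) (hL : LMono L) {k k' f : Fn g T T}
    (H : AW fun x => ∀ e, Hs S x e → ∀ a, e ≤ a → a < f e → k a = k' a) (r : g.Re) :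
    Lam L S k f r ↔ Lam L S k' f r :=
  ⟨lam_mono h hL (H.mono fun _ hx e he => ⟨le_rfl, fun a h₁ h₂ => (hx e he a h₁ h₂).le⟩),
    lam_mono h hL (H.mono fun _ hx e he => ⟨le_rfl, fun a h₁ h₂ => (hx e he a h₁ h₂).ge⟩)⟩

theorem fre_tk (h : g.TSP T) (hL : LMono L) {k k' f : Fn g T T}
    (hf : InI L fun r => Lam L S k' f r)
    (H : AW fun x => ∀ e, Hs S x e → ∀ a, e ≤ a → a < f e → k a = k' a) {r : g.Re}
    (hr : Tk L S k r) : Tk L S k' r := by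
  obtain ⟨f', ⟨b, hb⟩, hr⟩ := hr
  rcases hs_or h S (φ := fun e => f' e ≤ f e) (by fun_prop) with H' | H'
  · have e := fre_lam h hL (S := S) (k := k) (k' := k') (f := f') ((H.and H').mono
      fun _ hx e he a h₁ h₂ => hx.1 e he a h₁ (h₂.trans_le (hx.2 e he)))
    exact ⟨f', ⟨b, fun r' hr' => hb r' ((e r').2 hr')⟩, (e r).1 hr⟩
  · exact ⟨f, hf, (fre_lam h hL H r).1 (lam_mono h hL (H'.mono fun _ hx e he =>
      ⟨(not_le.1 (hx e he)).le, fun _ _ _ => le_rfl⟩) hr)⟩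

theorem fre_nx (h : g.TSP T) {x y : Fn g T Prop} (hx : Big x) (hy : Big y) {e w a : T}
    (hw : x w) (hb : ∀ s, e < s → s ≤ w → (y s ↔ x s)) (h₁ : e ≤ a) (h₂ : a < w) :
    nx x a = nx y a := by
  have s₁ := nx_spec h hx a
  have s₂ := nx_spec h hy a
  have s₃ : nx x a ≤ w := nx_le h₂ hw
  have s₄ : nx y a ≤ nx x a := nx_le s₁.1 ((hb _ (h₁.trans_lt s₁.1) s₃).2 s₁.2)
  exact le_antisymm (nx_le s₂.1 ((hb _ (h₁.trans_lt s₂.1) (s₄.trans s₃)).1 s₂.2)) s₄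

omit [Bd g T] [OT g T] [Inhabited T] in
theorem fre_same {F : Fn g T T} {e e' s : T} (he : Cl F e) (he' : Cl F e') (h₁ : e < s)
    (h₂ : s ≤ F e) (h₃ : e' < s) (h₄ : s ≤ F e') : e = e' := by
  rcases lt_trichotomy e e' with h | h | h
  exacts [absurd (h₂.trans_lt ((he' e h).trans h₃)) (lt_irrefl _), h,
    absurd (h₄.trans_lt ((he e' h).trans h₁)) (lt_irrefl _)]

omit [Inhabited T] in
theorem fre_acc {x y : Fn g T Prop} {e s : T} (h₁ : e < s)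
    (hb : ∀ c, e < c → c < s → y c → x c) (hs : ordAcc y s) : ordAcc x s :=
  ⟨hs.1, fun b hb' => by
    obtain ⟨c, hc, h₂, h₃⟩ := hs.2 _ (max_lt hb' h₁)
    exact ⟨c, hb c ((le_max_right _ _).trans_lt h₂) h₃ hc, (le_max_left _ _).trans_lt h₂, h₃⟩⟩

/-- Some block length puts the harmless reals into the ideal. -/
theorem exists_lam_inI (h : g.TSP T) (hn : g.NS T) (hL : LMono L) (hS : Stat S) (k : Fn g T T) :
    ∃ f, InI L fun r => Lam L S k f r := by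
  obtain ⟨f₁, hf₁⟩ := two_point h hn (N := fun f r => ¬ Lam L S k f r) (by fun_prop)
    fun f f' F r hF h₁ h₂ => h₁ (lam_mono h hL ((hs_cl S F).mono fun _ hx e he =>
      ⟨hF e (hx e he).1, fun _ _ _ => le_rfl⟩) h₂)
  obtain ⟨f₂, hf₂⟩ := two_point h hn (N := fun f r => ∀ b F : Fn g T T,
      (∀ a a', a ≤ a' → b a ≤ b a') → (∀ a, k a ≤ b a) → (∀ e, Cl F e → f e ≤ b e) → L (b, r))
    (by fun_prop) fun f f' F₀ r hF h₁ b F h₂ h₃ h₄ =>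
      h₁ b (fmax F₀ F) h₂ h₃ fun e he => (hF e he.left).trans (h₄ e he.right)
  obtain ⟨b, b₁, b₂, b₃⟩ := fre_bound h k f₂
  refine ⟨f₁, b, fun r hr => ?_⟩
  obtain ⟨f, hf⟩ := exists_germ h hL hS
    (aw_blk_nx h hL fun f => by_contra fun hc => hf₁ f r hc hr)
  exact hf₂ f r hf b b b₁ b₂ fun e _ => b₃ e

theorem inI_union (h : g.TSP T) (hL : LMono L) {Y : T → g.Re → Prop}
    (hY : g.Tm fun z : T × g.Re => Y z.1 z.2) (m : T) (H : ∀ ξ, ξ < m → InI L (Y ξ)) :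
    InI L fun r => ∃ ξ, ξ < m ∧ Y ξ r := by
  obtain ⟨x, hx⟩ := (aw_all h (P := fun ξ x => ∀ r, Y ξ r → L (nx x, r)) (by fun_prop) m
    fun ξ hξ => (H ξ hξ).imp fun b hb x hx r hr =>
      hL b (nx x) r (fun a => (hx.lt_nx h a).le) (hb r hr)).ex h
  exact ⟨nx x, fun r ⟨ξ, hξ, hr⟩ => hx ξ hξ r hr⟩

theorem tk_inI (h : g.TSP T) (hn : g.NS T) (hl : g.LinB T) (hL : LMono L) (k : Fn g T T) :
    InI L fun r => Tk L S k r := by
  let R : Fn g (g.Re × g.Re) Prop := ⟨fun z => ¬ Tk L S k z.1 ∨ (Tk L S k z.2 ∧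
    ∀ f, InI L (fun r => Lam L S k f r) → Lam L S k f z.2 → Lam L S k f z.1), by fun_prop⟩
  obtain ⟨rk, h₁, h₂⟩ := hl R (fun x y => by
    by_cases hx : Tk L S k x
    · by_cases hy : Tk L S k y
      · by_cases hc : ∀ f, InI L (fun r => Lam L S k f r) → Lam L S k f y → Lam L S k f x
        · exact Or.inl (Or.inr ⟨hy, hc⟩)
        · refine Or.inr (Or.inr ⟨hx, fun f' _ hf' => by_contra fun hn' => hc fun f _ hf => ?_⟩)
          rcases lam_chain h hL (S := S) k f f' with e | e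
          exacts [absurd (e y hf) hn', e x hf']
      · exact Or.inr (Or.inl hy)
    · exact Or.inl (Or.inl hx)) (by
    rintro x y z (h₁ | ⟨h₁, h₂⟩) h₃
    · exact Or.inl h₁
    · rcases h₃ with h₃ | ⟨h₃, h₄⟩
      exacts [absurd h₁ h₃, Or.inr ⟨h₃, fun f hf hz => h₂ f hf (h₄ f hf hz)⟩])
  obtain ⟨m, hm⟩ := hn rk h₁
  obtain ⟨b, hb⟩ := inI_union h hL (Y := fun ξ r => rk r = ξ ∧ Tk L S k r) (by fun_prop) m
    fun ξ _ => by
      obtain ⟨y, hy⟩ := h₂ ξ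
      by_cases ht : Tk L S k y
      · obtain ⟨f, ⟨b, hb⟩, hf⟩ := ht
        refine ⟨b, fun r hr => ?_⟩
        rcases hy r hr.1 with e | e
        exacts [absurd hr.2 e, hb r (e.2 f ⟨b, hb⟩ hf)]
      · refine ⟨k, fun r hr => ?_⟩
        rcases hy r hr.1 with e | e
        exacts [absurd hr.2 e, absurd e.1 ht]
  exact ⟨b, fun r hr => hb r ⟨rk r, hm r, rfl, hr⟩⟩

theorem tk_congr (h : g.TSP T) (hL : LMono L) {k k' f F : Fn g T T}
    (hf : InI L fun r => Lam L S k f r)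
    (H : ∀ e, Cl F e → S e → ∀ a, e ≤ a → a < f e → k a = k' a) (r : g.Re) :
    Tk L S k r ↔ Tk L S k' r := by
  have H' : AW fun x => ∀ e, Hs S x e → ∀ a, e ≤ a → a < f e → k a = k' a :=
    (hs_cl S F).mono fun _ hx e he => H e (hx e he).1 (hx e he).2
  exact ⟨fre_tk h hL (hf.imp fun b hb r hr => hb r ((fre_lam h hL H' r).2 hr)) H',
    fre_tk h hL hf (H'.mono fun _ hx e he a h₁ h₂ => (hx e he a h₁ h₂).symm)⟩

/-- Gluing two typical sets along two disjoint sets of starting points. -/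
theorem exists_glue (h : g.TSP T) {S S' : Fn g T Prop} (hd : ∀ e, S e → ¬ S' e)
    (hS : Stat S) {b₀ : Fn g T T} {x x' : Fn g T Prop} (hx : Typ b₀ x) (hx' : Typ b₀ x')
    (f f' : Fn g T T) : ∃ (y : Fn g T Prop) (F : Fn g T T), Typ b₀ y ∧
      (∀ e, Cl F e → S e → ∀ a, e ≤ a → a < f e → nx x a = nx y a) ∧
      ∀ e, Cl F e → S' e → ∀ a, e ≤ a → a < f' e → nx x' a = nx y a := by
  let u : Fn g T T := ⟨fun a => nx x (max a (f a)), by fun_prop⟩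
  let u' : Fn g T T := ⟨fun a => nx x' (max a (f' a)), by fun_prop⟩
  let F : Fn g T T := fmax u u'
  let y : Fn g T Prop := ⟨fun s => (x s ∧ ∃ e, Cl F e ∧ S e ∧ e < s ∧ s ≤ u e) ∨
    (x' s ∧ ∃ e, Cl F e ∧ S' e ∧ e < s ∧ s ≤ u' e), by fun_prop⟩
  have hu : ∀ e, max e (f e) < u e ∧ x (u e) := fun e => nx_spec h hx.1 _
  have hu' : ∀ e, max e (f' e) < u' e ∧ x' (u' e) := fun e => nx_spec h hx'.1 _
  have k₁ : ∀ e, Cl F e → S e → ∀ s, e < s → s ≤ u e → (y s ↔ x s) := by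
    refine fun e he hSe s h₁ h₂ => ⟨?_, fun hs => Or.inl ⟨hs, e, he, hSe, h₁, h₂⟩⟩
    rintro (hs | ⟨-, e', he', hS', h₃, h₄⟩)
    · exact hs.1
    · obtain rfl := fre_same he he' h₁ (h₂.trans (le_max_left _ _)) h₃
        (h₄.trans (le_max_right _ _))
      exact absurd hS' (hd e hSe)
  have k₂ : ∀ e, Cl F e → S' e → ∀ s, e < s → s ≤ u' e → (y s ↔ x' s) := by
    refine fun e he hSe s h₁ h₂ => ⟨?_, fun hs => Or.inr ⟨hs, e, he, hSe, h₁, h₂⟩⟩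
    rintro (⟨-, e', he', hS', h₃, h₄⟩ | hs)
    · obtain rfl := fre_same he he' h₁ (h₂.trans (le_max_right _ _)) h₃
        (h₄.trans (le_max_left _ _))
      exact absurd hSe (hd e hS')
    · exact hs.1
  have hy : Big y := (h.big_iff y).2 fun a => by
    let C : Fn g T Prop := ⟨fun e => Cl F e, by fun_prop⟩
    obtain ⟨e, he, hSe⟩ := hS (tl C a) (big_tl h ((h.big_iff C).2 (cl_unb h F)) a)
    have hc : Cl F e := cl_acc (x := tl C a) (fun e he => he.1) he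
    obtain ⟨b, hb⟩ := he.1
    obtain ⟨c, h₁, -, h₂⟩ := he.2 b hb
    have h₃ : e < u e := (le_max_left _ _).trans_lt (hu e).1
    exact ⟨u e, (h₁.2.trans h₂).trans h₃, (k₁ e hc hSe _ h₃ le_rfl).2 (hu e).2⟩
  refine ⟨y, F, Typ.union h hx hx' hy (fun a ha => ha.imp And.left And.left) ?_,
    fun e he hSe a h₁ h₂ => fre_nx h hx.1 hy (hu e).2 (k₁ e he hSe) h₁
      (h₂.trans ((le_max_right _ _).trans_lt (hu e).1)),
    fun e he hSe a h₁ h₂ => fre_nx h hx'.1 hy (hu' e).2 (k₂ e he hSe) h₁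
      (h₂.trans ((le_max_right _ _).trans_lt (hu' e).1))⟩
  rintro s (⟨hs, e, he, hSe, h₁, h₂⟩ | ⟨hs, e, he, hSe, h₁, h₂⟩) ha
  · exact hx.disc hs (fre_acc h₁ (fun c h₃ h₄ => (k₁ e he hSe c h₃ (h₄.le.trans h₂)).1) ha)
  · exact hx'.disc hs (fre_acc h₁ (fun c h₃ h₄ => (k₂ e he hSe c h₃ (h₄.le.trans h₂)).1) ha)

/-- The pointwise order is directed for families indexed by the reals. -/
theorem real_complete (h : g.TSP T) (hn : g.NS T) (hl : g.LinB T) {S S' : Fn g T Prop}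
    (hS : Stat S) (hS' : Stat S') (hd : ∀ e, S e → ¬ S' e) (hL : LMono L)
    (tot : ∀ r, ∃ b, L (b, r)) : ∃ b, ∀ r, L (b, r) := by
  by_contra hc
  have glue : ∀ (b₀ : Fn g T T) (x x' : Fn g T Prop), Typ b₀ x → Typ b₀ x' →
      ∃ y, Typ b₀ y ∧ (∀ r, Tk L S (nx x) r ↔ Tk L S (nx y) r) ∧
        ∀ r, Tk L S' (nx x') r ↔ Tk L S' (nx y) r := fun b₀ x x' hx hx' => by
    obtain ⟨f, hf⟩ := exists_lam_inI h hn hL hS (nx x)
    obtain ⟨f', hf'⟩ := exists_lam_inI h hn hL hS' (nx x')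
    obtain ⟨y, F, h₁, h₂, h₃⟩ := exists_glue h hd hS hx hx' f f'
    exact ⟨y, h₁, tk_congr h hL hf h₂, tk_congr h hL hf' h₃⟩
  have up : ∀ {S₀ : Fn g T Prop}, Stat S₀ → ∀ (b : Fn g T T) (x : Fn g T Prop), Typ b x →
      ∀ r, L (b, r) → Tk L S₀ (nx x) r := fun hS₀ b x hx r hr => by
    obtain ⟨f, hf⟩ := exists_lam_inI h hn hL hS₀ (nx x)
    exact ⟨f, hf, lam_of_L h hL f (hL b _ r (fun a => (hx.lt_nx h a).le) hr)⟩
  rcases aw_or h (P := fun x => ∀ r, Tk L S' (nx x) r → Tk L S (nx x) r) (by fun_prop) with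
    ⟨b₀, H⟩ | ⟨b₀, H⟩
  · obtain ⟨x, hx⟩ := exists_typ h b₀
    obtain ⟨b', hb'⟩ := tk_inI h hn hl hL (S := S) (nx x)
    refine hc ⟨b', fun r => hb' r ?_⟩
    obtain ⟨b, hb⟩ := tot r
    obtain ⟨x', hx'⟩ := exists_typ h (fmax b₀ b)
    obtain ⟨y, h₁, h₂, h₃⟩ := glue b₀ x x' hx hx'.left
    exact (h₂ r).2 (H y h₁ r ((h₃ r).1 (up hS' b x' hx'.right r hb)))
  · obtain ⟨x', hx'⟩ := exists_typ h b₀
    obtain ⟨b', hb'⟩ := tk_inI h hn hl hL (S := S') (nx x')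
    obtain ⟨x, hx⟩ := exists_typ h (fmax b₀ b')
    obtain ⟨y, h₁, h₂, h₃⟩ := glue b₀ x x' hx.left hx'
    exact H y h₁ fun r hr => (h₂ r).1 (up hS b' x hx.right r (hb' r ((h₃ r).2 hr)))

end Mdl

end Pool.Agent.MP_09d684_lc

end

section

namespace Pool.Agent.MP_09d684_lc

open ZFSet

universe u

theorem preserves_adr (M : Set ZFSet.{u}) (hM : IsZF M) (hD : ADR M) (κ : ZFSet.{u})
    (hκ : StrongPartition M κ) (G : Set ZFSet.{u}) (hG : Generic M G) :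
    StrongPartition (Ext M G) κ := by
  by_cases hb : BelowTheta M κ
  · exact preserves M hM (Or.inl hD) κ hκ (Or.inl hb) G hG
  let g : Mdl.{u} := ⟨M, hM⟩
  let k : g.U := ⟨κ, hκ.mem⟩
  have : Fact (IsOrdinal k.1) := ⟨hκ.ord⟩
  have : Inhabited (Mdl.Elt k) := ⟨⟨g.om, hκ.unc⟩⟩
  have hr := Mdl.tdet_re_of_adr (g := g) hD
  have hT := Mdl.tsp_of_sp (k := k) hκ
  have hn := Mdl.ns_of_not_theta hT hb
  obtain ⟨S, S', hS, hS', hd⟩ := Mdl.exists_stat hT hr.tdc hn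
  exact Mdl.preserve_rc (k := k) hr.tdc (Mdl.lu_of_tdet hr)
    (fun L hL tot => Mdl.real_complete hT hn (Mdl.linB hr hT.unc hn) hS hS' hd hL tot) hκ hG

end Pool.Agent.MP_09d684_lc

end
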